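import Pool.Agent.H448R2.GC.Defs

/-! TEAM GC, Task B1: splitting off a block of primes. -/

open Complex MeasureTheory Filter Topology

namespace Pool.Agent.H448R2.GC

namespace B1

/-- sums over the divisors of a product of coprime integers -/
theorem sum_coprime {m n : ℕ} (cop : Nat.Coprime m n) (F G H : ℕ × ℕ → ℂ)
    (h : ∀ x ∈ m.divisorsAntidiagonal, ∀ y ∈ n.divisorsAntidiagonal,
      H (x.1 * y.1, x.2 * y.2) = F x * G y) :
    ∑ p ∈ (m * n).divisorsAntidiagonal, H p =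
      (∑ x ∈ m.divisorsAntidiagonal, F x) * ∑ y ∈ n.divisorsAntidiagonal, G y := by
  rw [Finset.sum_mul_sum, ← Finset.sum_product']
  symm
  apply Finset.sum_nbij fun ((i, j), k, l) ↦ (i * k, j * l)
  · rintro ⟨⟨a1, a2⟩, ⟨b1, b2⟩⟩ h
    simp only [Nat.mem_divisorsAntidiagonal, Ne, Finset.mem_product] at h
    rcases h with ⟨⟨rfl, ha⟩, ⟨rfl, hb⟩⟩
    simp only [Nat.mem_divisorsAntidiagonal, mul_eq_zero, Ne]
    constructor
    · ring
    rw [mul_eq_zero] at *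
    exact not_or_intro ha hb
  · simp only [Set.InjOn, Finset.mem_coe, Nat.mem_divisorsAntidiagonal, Finset.mem_product,
      Prod.mk_inj]
    rintro ⟨⟨a1, a2⟩, ⟨b1, b2⟩⟩ ⟨⟨rfl, ha⟩, ⟨rfl, hb⟩⟩ ⟨⟨c1, c2⟩, ⟨d1, d2⟩⟩ hcd h
    ext
    · trans Nat.gcd (a1 * a2) (a1 * b1)
      · rw [Nat.gcd_mul_left, cop.coprime_mul_left.coprime_mul_right_right.gcd_eq_one, mul_one]
      · rw [← hcd.1.1, ← hcd.2.1] at cop
        rw [← hcd.1.1, h.1, Nat.gcd_mul_left,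
          cop.coprime_mul_left.coprime_mul_right_right.gcd_eq_one, mul_one]
    · trans Nat.gcd (a1 * a2) (a2 * b2)
      · rw [mul_comm, Nat.gcd_mul_left, cop.coprime_mul_right.coprime_mul_left_right.gcd_eq_one,
          mul_one]
      · rw [← hcd.1.1, ← hcd.2.1] at cop
        rw [← hcd.1.1, h.2, mul_comm, Nat.gcd_mul_left,
          cop.coprime_mul_right.coprime_mul_left_right.gcd_eq_one, mul_one]
    · trans Nat.gcd (b1 * b2) (a1 * b1)
      · rw [mul_comm, Nat.gcd_mul_right,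
          cop.coprime_mul_right.coprime_mul_left_right.symm.gcd_eq_one, one_mul]
      · rw [← hcd.1.1, ← hcd.2.1] at cop
        rw [← hcd.2.1, h.1, mul_comm c1 d1, Nat.gcd_mul_left,
          cop.coprime_mul_right.coprime_mul_left_right.symm.gcd_eq_one, mul_one]
    · trans Nat.gcd (b1 * b2) (a2 * b2)
      · rw [Nat.gcd_mul_right, cop.coprime_mul_left.coprime_mul_right_right.symm.gcd_eq_one,
          one_mul]
      · rw [← hcd.1.1, ← hcd.2.1] at cop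
        rw [← hcd.2.1, h.2, Nat.gcd_mul_right,
          cop.coprime_mul_left.coprime_mul_right_right.symm.gcd_eq_one, one_mul]
  · simp only [Set.SurjOn, Set.subset_def, Finset.mem_coe, Nat.mem_divisorsAntidiagonal,
      Finset.mem_product, Set.mem_image]
    rintro ⟨b1, b2⟩ h
    use ((b1.gcd m, b2.gcd m), (b1.gcd n, b2.gcd n))
    rw [← cop.gcd_mul _, ← cop.gcd_mul _, ← h.1, Nat.gcd_mul_gcd_of_coprime_of_mul_eq_mul cop h.1,
      Nat.gcd_mul_gcd_of_coprime_of_mul_eq_mul cop.symm _]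
    · rw [Ne, mul_eq_zero, not_or] at h
      simp [h.2.1, h.2.2]
    rw [mul_comm n m, h.1]
  · rintro ⟨x, y⟩ hxy
    rw [Finset.mem_product] at hxy
    exact (h x hxy.1 y hxy.2).symm

/-- integers coprime to the elements of `P` -/
def Ro (P : Finset ℕ) : Set ℕ := {a | a ≠ 0 ∧ ∀ p ∈ P, ¬ p ∣ a}

theorem cop {P : Finset ℕ} {a b : ℕ} (ha : a ∈ Ro P)
    (hb : b ∈ Nat.factoredNumbers P) : Nat.Coprime a b := by
  apply Nat.coprime_of_dvd
  intro k hk hka hkb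
  exact ha.2 k (Nat.mem_factoredNumbers'.1 hb k hk hkb) hka

theorem ro_dvd {P : Finset ℕ} {a d : ℕ} (ha : a ∈ Ro P) (hd : d ∣ a) : d ∈ Ro P :=
  ⟨ne_zero_of_dvd_ne_zero ha.1 hd, fun p hp hpd => ha.2 p hp (hpd.trans hd)⟩

theorem uniq {P : Finset ℕ} {a b a' b' : ℕ} (ha : a ∈ Ro P)
    (hb : b ∈ Nat.factoredNumbers P) (ha' : a' ∈ Ro P) (hb' : b' ∈ Nat.factoredNumbers P)
    (h : a * b = a' * b') : a = a' ∧ b = b' := by
  have h1 : a ∣ a' := (cop ha hb').dvd_of_dvd_mul_right (h ▸ Dvd.intro _ rfl)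
  have h2 : a' ∣ a := (cop ha' hb).dvd_of_dvd_mul_right (h ▸ Dvd.intro _ rfl)
  have h3 : a = a' := Nat.dvd_antisymm h1 h2
  refine ⟨h3, ?_⟩
  subst h3
  exact Nat.eq_of_mul_eq_mul_left (Nat.pos_of_ne_zero ha.1) h

theorem mem_mul2 {P S' S'' : Finset ℕ} (h0 : 0 ∉ S')
    (h' : ∀ n ∈ S', ∀ p ∈ P, ¬ p ∣ n) (h'' : ∀ n ∈ S'', n ∈ Nat.factoredNumbers P)
    {a b : ℕ} (ha : a ∈ Ro P) (hb : b ∈ Nat.factoredNumbers P) :
    a * b ∈ mul2 S' S'' ↔ a ∈ S' ∧ b ∈ S'' := by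
  unfold mul2
  rw [Finset.mem_image]
  constructor
  · rintro ⟨⟨c, d⟩, hcd, h⟩
    rw [Finset.mem_product] at hcd
    simp only at hcd h
    have hc : c ∈ Ro P := ⟨fun hc => h0 (hc ▸ hcd.1), h' c hcd.1⟩
    obtain ⟨h1, h2⟩ := uniq hc (h'' d hcd.2) ha hb h
    rw [← h1, ← h2]
    exact hcd
  · rintro ⟨h1, h2⟩
    exact ⟨(a, b), Finset.mem_product.2 ⟨h1, h2⟩, rfl⟩

theorem aa_mul {P S' S'' : Finset ℕ} (h0 : 0 ∉ S')
    (h' : ∀ n ∈ S', ∀ p ∈ P, ¬ p ∣ n) (h'' : ∀ n ∈ S'', n ∈ Nat.factoredNumbers P)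
    {a b : ℕ} (ha : a ∈ Ro P) (hb : b ∈ Nat.factoredNumbers P) :
    aa (mul2 S' S'') (a * b) = aa S' a * aa S'' b := by
  unfold aa
  apply sum_coprime (cop ha hb)
  rintro ⟨x1, x2⟩ hx ⟨y1, y2⟩ hy
  rw [Nat.mem_divisorsAntidiagonal] at hx hy
  simp only at hx hy
  have hx1 : x1 ∈ Ro P := ro_dvd ha (hx.1 ▸ Dvd.intro _ rfl)
  have hx2 : x2 ∈ Ro P := ro_dvd ha (hx.1 ▸ Dvd.intro_left _ rfl)
  have hy1 : y1 ∈ Nat.factoredNumbers P :=
    Nat.mem_factoredNumbers_of_dvd hb (hy.1 ▸ Dvd.intro _ rfl)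
  have hy2 : y2 ∈ Nat.factoredNumbers P :=
    Nat.mem_factoredNumbers_of_dvd hb (hy.1 ▸ Dvd.intro_left _ rfl)
  simp only [mem_mul2 h0 h' h'' hx1 hy1, mem_mul2 h0 h' h'' hx2 hy2]
  rw [ArithmeticFunction.isMultiplicative_moebius.map_mul_of_coprime (cop hx1 hy1),
    ArithmeticFunction.isMultiplicative_moebius.map_mul_of_coprime (cop hx2 hy2)]
  by_cases e1 : x1 ∈ S' <;> by_cases e2 : x2 ∈ S' <;> by_cases e3 : y1 ∈ S'' <;>
    by_cases e4 : y2 ∈ S'' <;> simp [e1, e2, e3, e4] <;> ring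

theorem cc_mul {P S' S'' : Finset ℕ} (h0 : 0 ∉ S')
    (h' : ∀ n ∈ S', ∀ p ∈ P, ¬ p ∣ n) (h'' : ∀ n ∈ S'', n ∈ Nat.factoredNumbers P)
    (α : ℂ) (β : ℝ) {a b : ℕ} (ha : a ∈ Ro P) (hb : b ∈ Nat.factoredNumbers P) :
    cc (mul2 S' S'') α β (a * b) = cc S' α β a * cc S'' α β b := by
  unfold cc
  apply sum_coprime (cop ha hb)
  rintro ⟨x1, x2⟩ hx ⟨y1, y2⟩ hy
  rw [Nat.mem_divisorsAntidiagonal] at hx hy
  simp only at hx hy
  have hx2 : x2 ∈ Ro P := ro_dvd ha (hx.1 ▸ Dvd.intro_left _ rfl)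
  have hy2 : y2 ∈ Nat.factoredNumbers P :=
    Nat.mem_factoredNumbers_of_dvd hb (hy.1 ▸ Dvd.intro_left _ rfl)
  simp only
  rw [aa_mul h0 h' h'' hx2 hy2, Nat.cast_mul, Nat.cast_mul, Complex.natCast_mul_natCast_cpow,
    Complex.natCast_mul_natCast_cpow]
  ring

theorem mul2_one (S : Finset ℕ) : mul2 S {1} = S := by
  unfold mul2
  ext n
  rw [Finset.mem_image]
  constructor
  · rintro ⟨⟨c, d⟩, hcd, h⟩
    rw [Finset.mem_product, Finset.mem_singleton] at hcd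
    simp only at hcd h
    rw [← h, hcd.2, mul_one]
    exact hcd.1
  · intro hn
    exact ⟨(n, 1), Finset.mem_product.2 ⟨hn, Finset.mem_singleton_self 1⟩, mul_one n⟩

/-- the factorisation -/
noncomputable def split (P : Finset ℕ) (hP : ∀ p ∈ P, p.Prime) :
    (Ro P × Nat.factoredNumbers P) ≃ {n : ℕ | n ≠ 0} := by
  refine Equiv.ofBijective (fun q => ⟨(q.1 : ℕ) * (q.2 : ℕ), ?_⟩) ⟨?_, ?_⟩
  · exact mul_ne_zero q.1.2.1 (Nat.ne_zero_of_mem_factoredNumbers q.2.2)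
  · rintro ⟨⟨a, ha⟩, ⟨b, hb⟩⟩ ⟨⟨a', ha'⟩, ⟨b', hb'⟩⟩ h
    simp only [Subtype.mk.injEq] at h
    obtain ⟨h1, h2⟩ := uniq ha hb ha' hb' h
    subst h1 h2
    rfl
  · rintro ⟨n, hn⟩
    have hn' : n ≠ 0 := hn
    set a := (n.primeFactorsList.filter (· ∉ P)).prod with ha
    set b := (n.primeFactorsList.filter (· ∈ P)).prod with hb
    have hab : a * b = n := by
      have h1 := List.prod_map_filter_mul_prod_map_filter_not (fun q => q ∈ P) (fun q : ℕ => q)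
        n.primeFactorsList
      simp only [List.map_id'] at h1
      rw [Nat.prod_primeFactorsList hn'] at h1
      rw [mul_comm]
      exact h1
    have haR : a ∈ Ro P := by
      refine ⟨fun h => hn' (by rw [← hab, h, zero_mul]), fun p hp hpa => ?_⟩
      have hpp := (hP p hp).prime
      obtain ⟨q, hq, hpq⟩ := (Prime.dvd_prod_iff hpp).1 hpa
      have hq1 := List.of_mem_filter hq
      have hq2 := Nat.prime_of_mem_primeFactorsList (List.mem_of_mem_filter hq)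
      have : p = q := (Nat.prime_dvd_prime_iff_eq (hP p hp) hq2).1 hpq
      subst this
      simp at hq1
      exact hq1 hp
    exact ⟨(⟨a, haR⟩, ⟨b, Nat.prod_mem_factoredNumbers P n⟩), Subtype.ext hab⟩

theorem NN_eq (P : Finset ℕ) (hP : ∀ p ∈ P, p.Prime) (S' S'' : Finset ℕ) (h0 : 0 ∉ S')
    (h' : ∀ n ∈ S', ∀ p ∈ P, ¬ p ∣ n) (h'' : ∀ n ∈ S'', n ∈ Nat.factoredNumbers P) (α : ℂ) (β : ℝ) :
    NN (mul2 S' S'') α β =
      (∑' a : Ro P, ENNReal.ofReal (‖cc S' α β (a : ℕ)‖ ^ 2)) * NP P S'' α β := by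
  unfold NN NP
  have h1 : ∑' n : ℕ, ENNReal.ofReal (‖cc (mul2 S' S'') α β n‖ ^ 2) =
      ∑' n : {n : ℕ | n ≠ 0}, ENNReal.ofReal (‖cc (mul2 S' S'') α β (n : ℕ)‖ ^ 2) := by
    symm
    apply tsum_subtype_eq_of_support_subset (f := fun n : ℕ =>
      ENNReal.ofReal (‖cc (mul2 S' S'') α β n‖ ^ 2))
    intro n hn hn0
    apply hn
    have : n = 0 := by simpa using hn0
    subst this
    simp [cc]
  rw [h1, ← (split P hP).tsum_eq, ENNReal.tsum_prod', ← ENNReal.tsum_mul_right]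
  congr 1
  ext a
  rw [← ENNReal.tsum_mul_left]
  congr 1
  ext b
  have : ((split P hP (a, b) : {n : ℕ | n ≠ 0}) : ℕ) = (a : ℕ) * (b : ℕ) := rfl
  rw [this, cc_mul h0 h' h'' α β a.2 b.2, norm_mul, mul_pow, ENNReal.ofReal_mul (by positivity)]

end B1

theorem norm_split (P : Finset ℕ) (hP : ∀ p ∈ P, p.Prime) (S' S'' : Finset ℕ) (h0 : 0 ∉ S')
    (h' : ∀ n ∈ S', ∀ p ∈ P, ¬ p ∣ n) (h'' : ∀ n ∈ S'', n ∈ Nat.factoredNumbers P) (α : ℂ) (β : ℝ) :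
    NN (mul2 S' S'') α β * NP P {1} α β = NN S' α β * NP P S'' α β := by
  have h1 := B1.NN_eq P hP S' S'' h0 h' h'' α β
  have h2 := B1.NN_eq P hP S' {1} h0 h' (by
    intro n hn
    rw [Finset.mem_singleton] at hn
    subst hn
    exact Nat.mem_factoredNumbers'.2 (fun p hp hp1 => absurd (Nat.dvd_one.1 hp1) hp.one_lt.ne')) α β
  rw [B1.mul2_one] at h2
  rw [h1, h2]
  ring

end Pool.Agent.H448R2.GC
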