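import Pool.Agent.H448R2.GC.Defs

/-! Task B3 (helper83): one block, integers with many prime factors; Euler products in `ENNReal`. -/

open Complex MeasureTheory Filter Topology

namespace Pool.Agent.H448R2.GC

namespace B3

open scoped ENNReal

/-- Euler product over `P`-numbers in `ENNReal`. -/
theorem en_euler (F : ℕ → ℝ≥0∞) (h1 : F 1 = 1)
    (hmul : ∀ {m n : ℕ}, Nat.Coprime m n → F (m * n) = F m * F n) (P : Finset ℕ)
    (hP : ∀ p ∈ P, p.Prime) :
    ∑' n : Nat.factoredNumbers P, F (n : ℕ) = ∏ p ∈ P, ∑' r : ℕ, F (p ^ r) := by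
  induction P using Finset.induction with
  | empty =>
    rw [Nat.factoredNumbers_empty]
    simp [h1]
  | insert p s hp ih =>
    have hpp : p.Prime := hP p (Finset.mem_insert_self p s)
    have ih' := ih fun q hq => hP q (Finset.mem_insert_of_mem hq)
    rw [Finset.prod_insert hp, ← (Nat.equivProdNatFactoredNumbers hpp hp).tsum_eq, ← ih',
      ENNReal.tsum_prod', ← ENNReal.tsum_mul_right]
    refine tsum_congr fun r => ?_
    rw [← ENNReal.tsum_mul_left]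
    refine tsum_congr fun n => ?_
    rw [Nat.equivProdNatFactoredNumbers_apply', Nat.factoredNumbers.map_prime_pow_mul hmul hpp hp]

theorem factored_ne {P : Finset ℕ} {n : ℕ} (hn : n ∈ Nat.factoredNumbers P) : n ≠ 0 :=
  (Nat.mem_factoredNumbers.1 hn).1

theorem factored_prime {P : Finset ℕ} {n p : ℕ} (hn : n ∈ Nat.factoredNumbers P)
    (hp : p.Prime) (hd : p ∣ n) : p ∈ P :=
  (Nat.mem_factoredNumbers.1 hn).2 p ((Nat.mem_primeFactorsList (factored_ne hn)).2 ⟨hp, hd⟩)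

theorem sum_card (n : ℕ) (hn : n ≠ 0) (S : Finset ℕ) (hS : ∀ m ∈ S, Squarefree m) :
    ∑ p ∈ n.divisorsAntidiagonal, ∑ q ∈ p.2.divisorsAntidiagonal,
      (if q.1 ∈ S ∧ q.2 ∈ S then (1 : ℝ) else 0) ≤ 4 ^ n.primeFactors.card := by
  classical
  have h1 : ∑ p ∈ n.divisorsAntidiagonal, ∑ q ∈ p.2.divisorsAntidiagonal,
      (if q.1 ∈ S ∧ q.2 ∈ S then (1 : ℝ) else 0) =
      ((n.divisorsAntidiagonal.sigma fun p => p.2.divisorsAntidiagonal).filter
        fun x => x.2.1 ∈ S ∧ x.2.2 ∈ S).card := by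
    rw [Finset.sum_sigma', Finset.sum_boole]
  rw [h1]
  have h2 : ((n.divisorsAntidiagonal.sigma fun p => p.2.divisorsAntidiagonal).filter
        fun x => x.2.1 ∈ S ∧ x.2.2 ∈ S).card ≤
        (n.primeFactors.powerset ×ˢ n.primeFactors.powerset).card := by
    refine Finset.card_le_card_of_injOn (fun x => (x.2.1.primeFactors, x.2.2.primeFactors)) ?_ ?_
    · intro x hx
      simp only [Finset.coe_filter, Finset.mem_sigma, Nat.mem_divisorsAntidiagonal,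
        Set.mem_ofPred_eq] at hx
      obtain ⟨⟨⟨h1, _⟩, h2, _⟩, _⟩ := hx
      simp only [Finset.coe_product, Finset.coe_powerset, Set.mem_prod, Set.mem_preimage,
        Set.mem_powerset_iff, Finset.coe_subset]
      constructor
      · exact Nat.primeFactors_mono ⟨x.2.2 * x.1.1, by rw [← h1, ← h2]; ring⟩ hn
      · exact Nat.primeFactors_mono ⟨x.2.1 * x.1.1, by rw [← h1, ← h2]; ring⟩ hn
    · intro x hx y hy hxy
      simp only [Finset.coe_filter, Finset.mem_sigma, Nat.mem_divisorsAntidiagonal,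
        Set.mem_ofPred_eq] at hx hy
      obtain ⟨⟨⟨a1, _⟩, a2, _⟩, a3, a4⟩ := hx
      obtain ⟨⟨⟨b1, _⟩, b2, b5⟩, b3, b4⟩ := hy
      simp only [Prod.mk.injEq] at hxy
      have e1 : x.2.1 = y.2.1 := by
        rw [← Nat.prod_primeFactors_of_squarefree (hS _ a3),
          ← Nat.prod_primeFactors_of_squarefree (hS _ b3), hxy.1]
      have e2 : x.2.2 = y.2.2 := by
        rw [← Nat.prod_primeFactors_of_squarefree (hS _ a4),
          ← Nat.prod_primeFactors_of_squarefree (hS _ b4), hxy.2]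
      obtain ⟨⟨x1, x2⟩, ⟨x3, x4⟩⟩ := x
      obtain ⟨⟨y1, y2⟩, ⟨y3, y4⟩⟩ := y
      simp only at *
      subst e1 e2
      have e3 : x2 = y2 := by rw [← a2, ← b2]
      subst e3
      have e4 : x1 = y1 := by
        have := a1.trans b1.symm
        exact Nat.eq_of_mul_eq_mul_right (Nat.pos_of_ne_zero b5) this
      subst e4
      rfl
  have h3 : (n.primeFactors.powerset ×ˢ n.primeFactors.powerset).card = 4 ^ n.primeFactors.card := by
    rw [Finset.card_product, Finset.card_powerset, ← mul_pow]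
    norm_num
  rw [h3] at h2
  exact_mod_cast h2

theorem blk_sqf {P : Finset ℕ} (hP : ∀ p ∈ P, p.Prime) {l n : ℕ} (hn : n ∈ blk P l) :
    Squarefree n := by
  unfold blk at hn
  obtain ⟨u, hu, rfl⟩ := Finset.mem_image.1 hn
  have hu' : u ⊆ P := Finset.mem_powerset.1 (Finset.mem_filter.1 hu).1
  refine Finset.squarefree_prod_of_pairwise_isCoprime (fun p hp q hq hpq => ?_)
    fun p hp => (hP p (hu' hp)).squarefree
  exact Nat.coprime_iff_isRelPrime.1 ((Nat.coprime_primes (hP p (hu' hp)) (hP q (hu' hq))).2 hpq)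

theorem aa_bound (S : Finset ℕ) (k : ℕ) : ‖aa S k‖ ≤
    ∑ q ∈ k.divisorsAntidiagonal, (if q.1 ∈ S ∧ q.2 ∈ S then (1 : ℝ) else 0) := by
  unfold aa
  refine (norm_sum_le _ _).trans (Finset.sum_le_sum fun q _ => ?_)
  split_ifs with h
  · rw [norm_mul]
    have h1 : ∀ m : ℕ, ‖(((ArithmeticFunction.moebius m : ℤ) : ℂ))‖ ≤ 1 := by
      intro m
      rw [Complex.norm_intCast]
      exact_mod_cast ArithmeticFunction.abs_moebius_le_one
    calc _ ≤ (1 : ℝ) * 1 := mul_le_mul (h1 _) (h1 _) (norm_nonneg _) zero_le_one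
      _ = 1 := one_mul 1
  · simp

/-- `q ^ |β|` for squarefree `q` -/
theorem sqf_pow (P : Finset ℕ) (z A' β : ℝ) (hz : 1 ≤ z)
    (hP : ∀ p ∈ P, p.Prime ∧ (p : ℝ) ≤ z) (hβ : |β| * Real.log z ≤ A') (n q : ℕ)
    (hn : n ∈ Nat.factoredNumbers P) (hq : q ∣ n) (hs : Squarefree q) :
    (q : ℝ) ^ β ≤ Real.exp A' ^ n.primeFactors.card := by
  have hn0 := factored_ne hn
  have hq0 : q ≠ 0 := hs.ne_zero
  have h1 : (q : ℝ) ^ β ≤ (q : ℝ) ^ |β| :=
    Real.rpow_le_rpow_of_exponent_le (by exact_mod_cast Nat.one_le_iff_ne_zero.2 hq0) (le_abs_self β)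
  refine h1.trans ?_
  have h2 : (q : ℝ) ^ |β| = ∏ p ∈ q.primeFactors, (p : ℝ) ^ |β| := by
    conv_lhs => rw [← Nat.prod_primeFactors_of_squarefree hs]
    rw [Nat.cast_prod, ← Real.finsetProd_rpow]
    intro p _
    positivity
  rw [h2]
  have hA : 1 ≤ Real.exp A' := by
    apply Real.one_le_exp
    exact (mul_nonneg (abs_nonneg β) (Real.log_nonneg hz)).trans hβ
  calc ∏ p ∈ q.primeFactors, (p : ℝ) ^ |β| ≤ ∏ _p ∈ q.primeFactors, Real.exp A' := by
        refine Finset.prod_le_prod (fun p _ => by positivity) fun p hp => ?_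
        have hpp := Nat.prime_of_mem_primeFactors hp
        have hpP : p ∈ P := factored_prime hn hpp ((Nat.dvd_of_mem_primeFactors hp).trans hq)
        have hp0 : (0 : ℝ) < p := by exact_mod_cast hpp.pos
        rw [Real.rpow_def_of_pos hp0]
        apply Real.exp_le_exp.2
        calc Real.log p * |β| ≤ Real.log z * |β| := by
              gcongr
              exact (hP p hpP).2
          _ = |β| * Real.log z := mul_comm _ _
          _ ≤ A' := hβ
    _ = Real.exp A' ^ q.primeFactors.card := by rw [Finset.prod_const]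
    _ ≤ Real.exp A' ^ n.primeFactors.card :=
        pow_le_pow_right₀ hA (Finset.card_le_card (Nat.primeFactors_mono hq hn0))

theorem cc_bound (P : Finset ℕ) (z A' : ℝ) (l : ℕ) (α : ℂ) (β : ℝ) (hz : 1 ≤ z)
    (hP : ∀ p ∈ P, p.Prime ∧ (p : ℝ) ≤ z) (hα : 0 < α.re) (hβ : |β| * Real.log z ≤ A') (n : ℕ)
    (hn : n ∈ Nat.factoredNumbers P) :
    ‖cc (blk P l) α β n‖ ≤ (n : ℝ) ^ (-(1 / 2) : ℝ) *
      (4 * Real.exp A' ^ 2) ^ n.primeFactors.card := by
  have hn0 := factored_ne hn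
  set S := blk P l with hS
  have hSs : ∀ m ∈ S, Squarefree m := fun m hm => blk_sqf (fun p hp => (hP p hp).1) hm
  set E := Real.exp A' ^ n.primeFactors.card with hE
  have hE0 : 0 < E := by positivity
  have key : ∀ p ∈ n.divisorsAntidiagonal, ‖(p.1 : ℂ) ^ (-(1 / 2 : ℂ) - α) *
      (aa S p.2 * (p.2 : ℂ) ^ (-(1 / 2 : ℂ) + (β : ℂ)))‖ ≤ (n : ℝ) ^ (-(1 / 2) : ℝ) * E ^ 2 *
      ∑ q ∈ p.2.divisorsAntidiagonal, (if q.1 ∈ S ∧ q.2 ∈ S then (1 : ℝ) else 0) := by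
    intro p hp
    obtain ⟨hp1, _⟩ := Nat.mem_divisorsAntidiagonal.1 hp
    have h1 : p.1 ≠ 0 := by rintro h; rw [h, zero_mul] at hp1; exact hn0 hp1.symm
    have h2 : p.2 ≠ 0 := by rintro h; rw [h, mul_zero] at hp1; exact hn0 hp1.symm
    have h1' : (0 : ℝ) < p.1 := by exact_mod_cast Nat.pos_of_ne_zero h1
    have h2' : (0 : ℝ) < p.2 := by exact_mod_cast Nat.pos_of_ne_zero h2
    rw [norm_mul, norm_mul, Complex.norm_natCast_cpow_of_pos (Nat.pos_of_ne_zero h1),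
      Complex.norm_natCast_cpow_of_pos (Nat.pos_of_ne_zero h2)]
    have e1 : (-(1 / 2 : ℂ) - α).re = -(1 / 2) - α.re := by simp
    have e2 : (-(1 / 2 : ℂ) + (β : ℂ)).re = -(1 / 2) + β := by simp
    rw [e1, e2]
    have b1 : (p.1 : ℝ) ^ (-(1 / 2) - α.re) ≤ (p.1 : ℝ) ^ (-(1 / 2) : ℝ) :=
      Real.rpow_le_rpow_of_exponent_le (by exact_mod_cast Nat.one_le_iff_ne_zero.2 h1) (by linarith)
    have b2 : (p.2 : ℝ) ^ (-(1 / 2) + β) = (p.2 : ℝ) ^ (-(1 / 2) : ℝ) * (p.2 : ℝ) ^ β :=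
      Real.rpow_add h2' _ _
    have b3 : (n : ℝ) ^ (-(1 / 2) : ℝ) = (p.1 : ℝ) ^ (-(1 / 2) : ℝ) * (p.2 : ℝ) ^ (-(1 / 2) : ℝ) := by
      rw [← hp1, Nat.cast_mul, Real.mul_rpow h1'.le h2'.le]
    have b4 : ‖aa S p.2‖ * (p.2 : ℝ) ^ β ≤ E ^ 2 *
        ∑ q ∈ p.2.divisorsAntidiagonal, (if q.1 ∈ S ∧ q.2 ∈ S then (1 : ℝ) else 0) := by
      refine (mul_le_mul_of_nonneg_right (aa_bound S p.2) (by positivity)).trans ?_
      rw [Finset.sum_mul, Finset.mul_sum]
      refine Finset.sum_le_sum fun q hq => ?_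
      split_ifs with h
      · obtain ⟨hq1, _⟩ := Nat.mem_divisorsAntidiagonal.1 hq
        have d2 : p.2 ∣ n := ⟨p.1, by rw [← hp1]; ring⟩
        have s1 := sqf_pow P z A' β hz hP hβ n q.1 hn ((Dvd.intro _ hq1).trans d2) (hSs _ h.1)
        have s2 := sqf_pow P z A' β hz hP hβ n q.2 hn ((Dvd.intro_left _ hq1).trans d2) (hSs _ h.2)
        rw [one_mul, mul_one, ← hq1, Nat.cast_mul, Real.mul_rpow (by positivity) (by positivity), sq]
        exact mul_le_mul s1 s2 (by positivity) hE0.le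
      · simp
    calc (p.1 : ℝ) ^ (-(1 / 2) - α.re) * (‖aa S p.2‖ * (p.2 : ℝ) ^ (-(1 / 2) + β))
        ≤ (p.1 : ℝ) ^ (-(1 / 2) : ℝ) * (‖aa S p.2‖ * (p.2 : ℝ) ^ (-(1 / 2) + β)) := by gcongr
      _ = (n : ℝ) ^ (-(1 / 2) : ℝ) * (‖aa S p.2‖ * (p.2 : ℝ) ^ β) := by rw [b2, b3]; ring
      _ ≤ (n : ℝ) ^ (-(1 / 2) : ℝ) * (E ^ 2 *
        ∑ q ∈ p.2.divisorsAntidiagonal, (if q.1 ∈ S ∧ q.2 ∈ S then (1 : ℝ) else 0)) := by gcongr
      _ = _ := by ring
  unfold cc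
  refine (norm_sum_le _ _).trans ((Finset.sum_le_sum key).trans ?_)
  rw [← Finset.mul_sum]
  calc _ ≤ (n : ℝ) ^ (-(1 / 2) : ℝ) * E ^ 2 * 4 ^ n.primeFactors.card := by
        gcongr
        exact sum_card n hn0 S hSs
    _ = _ := by rw [hE]; ring

/-- the majorant -/
noncomputable def maj (C : ℝ) (n : ℕ) : ℝ :=
  2 ^ ArithmeticFunction.cardFactors n * C ^ n.primeFactors.card / n

theorem maj_nonneg (C : ℝ) (hC : 0 ≤ C) (n : ℕ) : 0 ≤ maj C n := by
  unfold maj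
  positivity

theorem maj_one (C : ℝ) : maj C 1 = 1 := by simp [maj]

theorem maj_mul (C : ℝ) {m n : ℕ} (h : Nat.Coprime m n) : maj C (m * n) = maj C m * maj C n := by
  rcases Nat.eq_zero_or_pos m with rfl | hm
  · simp [maj]
  rcases Nat.eq_zero_or_pos n with rfl | hn
  · simp [maj]
  unfold maj
  rw [ArithmeticFunction.cardFactors_mul hm.ne' hn.ne', h.primeFactors_mul,
    Finset.card_union_of_disjoint h.disjoint_primeFactors, pow_add, pow_add, Nat.cast_mul]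
  field_simp

theorem maj_prime_pow (C : ℝ) (p : ℕ) (hp : p.Prime) (r : ℕ) :
    maj C (p ^ (r + 1)) = C * (2 / p) ^ (r + 1) := by
  unfold maj
  rw [ArithmeticFunction.cardFactors_apply_prime_pow hp, Nat.primeFactors_prime_pow (by omega) hp]
  simp only [Finset.card_singleton, pow_one, Nat.cast_pow, div_pow]
  ring

theorem maj_sum (C : ℝ) (hC : 0 ≤ C) (p : ℕ) (hp : p.Prime) (h5 : 5 ≤ p) :
    ∑' r : ℕ, ENNReal.ofReal (maj C (p ^ r)) ≤ ENNReal.ofReal (Real.exp (C * (10 / 3) * (1 / p))) := by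
  have hp5 : (5 : ℝ) ≤ p := by exact_mod_cast h5
  have hp0 : (0 : ℝ) < p := by linarith
  have hr0 : 0 ≤ (2 / p : ℝ) := by positivity
  have hr1 : (2 / p : ℝ) < 1 := by rw [div_lt_one hp0]; linarith
  rw [tsum_eq_zero_add' ENNReal.summable]
  have h1 : ∑' r : ℕ, ENNReal.ofReal (maj C (p ^ (r + 1))) =
      ENNReal.ofReal (C * (2 / p) * (1 - 2 / (p : ℝ))⁻¹) := by
    rw [← tsum_geometric_of_lt_one hr0 hr1, ← tsum_mul_left, ENNReal.ofReal_tsum_of_nonneg]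
    · refine tsum_congr fun r => ?_
      rw [maj_prime_pow C p hp r, pow_succ']
      ring_nf
    · intro r; positivity
    · exact (summable_geometric_of_lt_one hr0 hr1).mul_left _
  rw [h1, pow_zero, maj_one, ← ENNReal.ofReal_add zero_le_one (by
    have : 0 < 1 - 2 / (p : ℝ) := by linarith
    positivity)]
  apply ENNReal.ofReal_le_ofReal
  have h2 : C * (2 / p) * (1 - 2 / (p : ℝ))⁻¹ ≤ C * (10 / 3) * (1 / p) := by
    have h3 : (1 - 2 / (p : ℝ))⁻¹ ≤ 5 / 3 := by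
      have h4 : 3 / 5 ≤ 1 - 2 / (p : ℝ) := by
        have : 2 / (p : ℝ) ≤ 2 / 5 := by gcongr
        linarith
      calc (1 - 2 / (p : ℝ))⁻¹ ≤ (3 / 5 : ℝ)⁻¹ := inv_anti₀ (by norm_num) h4
        _ = 5 / 3 := by norm_num
    calc C * (2 / p) * (1 - 2 / (p : ℝ))⁻¹ ≤ C * (2 / p) * (5 / 3) := by gcongr
      _ = _ := by ring
  have h5 := Real.add_one_le_exp (C * (10 / 3) * (1 / (p : ℝ)))
  linarith

end B3

open B3 in
theorem cc_tail (A' B₁ : ℝ) (_hA' : 0 ≤ A') (_hB₁ : 0 ≤ B₁) : ∃ C : ℝ, 0 < C ∧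
    ∀ (P : Finset ℕ) (z : ℝ) (l : ℕ) (α : ℂ) (β : ℝ), 1 ≤ z →
    (∀ p ∈ P, p.Prime ∧ 5 ≤ p ∧ (p : ℝ) ≤ z) →
    ∑ p ∈ P, 1 / (p : ℝ) ≤ B₁ → 0 < α.re → |β| * Real.log z ≤ A' →
    ∑' n : Nat.factoredNumbers P, (if ArithmeticFunction.cardFactors (n : ℕ) ≤ l then 0 else
      ENNReal.ofReal (‖cc (blk P l) α β (n : ℕ)‖ ^ 2)) ≤ ENNReal.ofReal (C * (1 / 2) ^ l) := by
  set C₂ : ℝ := (4 * Real.exp A' ^ 2) ^ 2 with hC₂
  have hC₂0 : 0 ≤ C₂ := by positivity
  refine ⟨Real.exp (C₂ * (10 / 3) * B₁), Real.exp_pos _, ?_⟩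
  intro P z l α β hz hP hsum hα hβ
  have hP' : ∀ p ∈ P, p.Prime := fun p hp => (hP p hp).1
  have hP'' : ∀ p ∈ P, p.Prime ∧ (p : ℝ) ≤ z := fun p hp => ⟨(hP p hp).1, (hP p hp).2.2⟩
  have h1 : ∀ n : Nat.factoredNumbers P, (if ArithmeticFunction.cardFactors (n : ℕ) ≤ l then 0 else
      ENNReal.ofReal (‖cc (blk P l) α β (n : ℕ)‖ ^ 2)) ≤
      ENNReal.ofReal ((1 / 2) ^ l) * ENNReal.ofReal (maj C₂ (n : ℕ)) := by
    intro n
    split_ifs with h
    · exact bot_le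
    · rw [← ENNReal.ofReal_mul (by positivity)]
      apply ENNReal.ofReal_le_ofReal
      have hn0 := factored_ne n.2
      have hn' : (0 : ℝ) < ((n : ℕ) : ℝ) := by exact_mod_cast Nat.pos_of_ne_zero hn0
      have hb := cc_bound P z A' l α β hz hP'' hα hβ n n.2
      have hb2 : ‖cc (blk P l) α β (n : ℕ)‖ ^ 2 ≤ C₂ ^ (n : ℕ).primeFactors.card / (n : ℕ) := by
        calc ‖cc (blk P l) α β (n : ℕ)‖ ^ 2 ≤ (((n : ℕ) : ℝ) ^ (-(1 / 2) : ℝ) *
              (4 * Real.exp A' ^ 2) ^ (n : ℕ).primeFactors.card) ^ 2 := by gcongr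
          _ = (((n : ℕ) : ℝ) ^ (-(1 / 2) : ℝ)) ^ 2 * C₂ ^ (n : ℕ).primeFactors.card := by
              rw [hC₂, mul_pow, ← pow_mul, ← pow_mul, mul_comm 2]
          _ = _ := by
              rw [← Real.rpow_natCast, ← Real.rpow_mul hn'.le]
              norm_num
              rw [Real.rpow_neg_one]
              ring
      have hp : (1 : ℝ) ≤ (1 / 2) ^ l * 2 ^ ArithmeticFunction.cardFactors (n : ℕ) := by
        have : l ≤ ArithmeticFunction.cardFactors (n : ℕ) := by omega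
        calc (1 : ℝ) = (1 / 2) ^ l * 2 ^ l := by rw [← mul_pow]; norm_num
          _ ≤ _ := by
            gcongr
            norm_num
      calc ‖cc (blk P l) α β (n : ℕ)‖ ^ 2 ≤ 1 * (C₂ ^ (n : ℕ).primeFactors.card / (n : ℕ)) := by
            rw [one_mul]; exact hb2
        _ ≤ ((1 / 2) ^ l * 2 ^ ArithmeticFunction.cardFactors (n : ℕ)) *
            (C₂ ^ (n : ℕ).primeFactors.card / (n : ℕ)) := by gcongr
        _ = _ := by unfold maj; ring
  calc _ ≤ ∑' n : Nat.factoredNumbers P, ENNReal.ofReal ((1 / 2) ^ l) *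
        ENNReal.ofReal (maj C₂ (n : ℕ)) := ENNReal.tsum_le_tsum h1
    _ = ENNReal.ofReal ((1 / 2) ^ l) * ∏ p ∈ P, ∑' r : ℕ, ENNReal.ofReal (maj C₂ (p ^ r)) := by
        rw [ENNReal.tsum_mul_left, en_euler (fun n => ENNReal.ofReal (maj C₂ n)) (by simp [maj_one])
          ?_ P hP']
        intro m n h
        rw [maj_mul C₂ h, ENNReal.ofReal_mul (maj_nonneg C₂ hC₂0 m)]
    _ ≤ ENNReal.ofReal ((1 / 2) ^ l) * ∏ p ∈ P, ENNReal.ofReal (Real.exp (C₂ * (10 / 3) * (1 / p))) := by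
        gcongr with p hp
        exact maj_sum C₂ hC₂0 p (hP p hp).1 (hP p hp).2.1
    _ = ENNReal.ofReal ((1 / 2) ^ l * Real.exp (C₂ * (10 / 3) * ∑ p ∈ P, 1 / (p : ℝ))) := by
        rw [← ENNReal.ofReal_prod_of_nonneg (fun p _ => (Real.exp_pos _).le), ← Real.exp_sum,
          ← Finset.mul_sum, ← ENNReal.ofReal_mul (by positivity)]
    _ ≤ _ := by
        apply ENNReal.ofReal_le_ofReal
        rw [mul_comm]
        gcongr

end Pool.Agent.H448R2.GC
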