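import Pool.Agent.H448R2.GC.Defs
import Pool.Agent.H448R2.GC.B3

/-! Task B2 (helper83): one block, multiplicative part. -/

open Complex MeasureTheory Filter Topology

namespace Pool.Agent.H448R2.GC

namespace B2

open scoped ENNReal
open B3

theorem mem_blk {P : Finset ℕ} {l n m : ℕ} (hn : n ∈ Nat.factoredNumbers P)
    (h : ArithmeticFunction.cardFactors n ≤ l) (hm : m ∣ n) (hs : Squarefree m) : m ∈ blk P l := by
  unfold blk
  refine Finset.mem_image.2 ⟨m.primeFactors, Finset.mem_filter.2 ⟨?_, ?_⟩,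
    Nat.prod_primeFactors_of_squarefree hs⟩
  · refine Finset.mem_powerset.2 fun p hp => ?_
    exact factored_prime hn (Nat.prime_of_mem_primeFactors hp)
      ((Nat.dvd_of_mem_primeFactors hp).trans hm)
  · have h1 : m.primeFactors.card ≤ ArithmeticFunction.cardFactors m := by
      rw [ArithmeticFunction.cardFactors_apply]
      exact m.primeFactorsList.toFinset_card_le
    have h2 : ArithmeticFunction.cardFactors m ≤ ArithmeticFunction.cardFactors n := by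
      obtain ⟨k, hk⟩ := hm
      have hn0 := factored_ne hn
      have hm0 : m ≠ 0 := hs.ne_zero
      have hk0 : k ≠ 0 := by rintro rfl; exact hn0 (by simpa using hk)
      rw [hk, ArithmeticFunction.cardFactors_mul hm0 hk0]
      omega
    omega

theorem mu_ne {m : ℕ} (h : ¬ Squarefree m) : (((ArithmeticFunction.moebius m : ℤ) : ℂ)) = 0 := by
  rw [ArithmeticFunction.moebius_eq_zero_of_not_squarefree h, Int.cast_zero]

end B2

open B3 B2 in
theorem cc_eq_hh (P : Finset ℕ) (_hP : ∀ p ∈ P, p.Prime) (l n : ℕ) (hn : n ∈ Nat.factoredNumbers P)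
    (h : ArithmeticFunction.cardFactors n ≤ l) (α : ℂ) (β : ℝ) : cc (blk P l) α β n = hh α β n := by
  unfold cc hh
  refine Finset.sum_congr rfl fun p hp => ?_
  obtain ⟨hp1, _⟩ := Nat.mem_divisorsAntidiagonal.1 hp
  have d2 : p.2 ∣ n := ⟨p.1, by rw [← hp1]; ring⟩
  congr 2
  unfold aa
  refine Finset.sum_congr rfl fun q hq => ?_
  obtain ⟨hq1, _⟩ := Nat.mem_divisorsAntidiagonal.1 hq
  by_cases s1 : Squarefree q.1
  · by_cases s2 : Squarefree q.2
    · rw [if_pos ⟨mem_blk hn h ((Dvd.intro _ hq1).trans d2) s1,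
        mem_blk hn h ((Dvd.intro_left _ hq1).trans d2) s2⟩]
    · rw [mu_ne s2]; simp
  · rw [mu_ne s1]; simp

namespace B2

/-- the power as an arithmetic function -/
noncomputable def pw (s : ℂ) : ArithmeticFunction ℂ := ⟨fun n => if n = 0 then 0 else (n : ℂ) ^ s, by simp⟩

theorem pw_apply (s : ℂ) {n : ℕ} (hn : n ≠ 0) : pw s n = (n : ℂ) ^ s := by
  simp [pw, hn]

theorem pw_mult (s : ℂ) : (pw s).IsMultiplicative := by
  constructor
  · rw [pw_apply s one_ne_zero]; simp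
  · intro m n _
    rcases eq_or_ne m 0 with rfl | hm
    · simp
    rcases eq_or_ne n 0 with rfl | hn
    · simp
    rw [pw_apply s (mul_ne_zero hm hn), pw_apply s hm, pw_apply s hn, Nat.cast_mul,
      Complex.natCast_mul_natCast_cpow]

/-- the Moebius function, complex valued -/
noncomputable def muC : ArithmeticFunction ℂ := ((ArithmeticFunction.moebius : ArithmeticFunction ℤ) :
  ArithmeticFunction ℂ)

theorem muC_mult : muC.IsMultiplicative := ArithmeticFunction.isMultiplicative_moebius.intCast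

noncomputable def hA (α : ℂ) (β : ℝ) : ArithmeticFunction ℂ :=
  pw (-(1 / 2 : ℂ) - α) * ((muC * muC).pmul (pw (-(1 / 2 : ℂ) + (β : ℂ))))

theorem hA_mult (α : ℂ) (β : ℝ) : (hA α β).IsMultiplicative :=
  (pw_mult _).mul ((muC_mult.mul muC_mult).pmul (pw_mult _))

theorem hh_eq (α : ℂ) (β : ℝ) (n : ℕ) : hh α β n = hA α β n := by
  unfold hh hA
  rw [ArithmeticFunction.mul_apply]
  refine Finset.sum_congr rfl fun p hp => ?_
  obtain ⟨hp1, hn⟩ := Nat.mem_divisorsAntidiagonal.1 hp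
  have h1 : p.1 ≠ 0 := by rintro h; rw [h, zero_mul] at hp1; exact hn hp1.symm
  have h2 : p.2 ≠ 0 := by rintro h; rw [h, mul_zero] at hp1; exact hn hp1.symm
  rw [ArithmeticFunction.pmul_apply, pw_apply _ h1, pw_apply _ h2, ArithmeticFunction.mul_apply]
  rfl

theorem sum_pp (F : ℕ → ℕ → ℂ) (p r : ℕ) (hp : p.Prime) :
    ∑ x ∈ (p ^ r).divisorsAntidiagonal, F x.1 x.2 =
      ∑ x ∈ Finset.HasAntidiagonal.antidiagonal r, F (p ^ x.1) (p ^ x.2) := by
  symm
  refine Finset.sum_nbij (fun x => (p ^ x.1, p ^ x.2)) ?_ ?_ ?_ (fun _ _ => rfl)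
  · intro x hx
    rw [Nat.mem_divisorsAntidiagonal]
    refine ⟨?_, (pow_pos hp.pos r).ne'⟩
    rw [← pow_add, Finset.HasAntidiagonal.mem_antidiagonal.1 hx]
  · intro x _ y _ hxy
    simp only [Prod.mk.injEq] at hxy
    exact Prod.ext (Nat.pow_right_injective hp.two_le hxy.1) (Nat.pow_right_injective hp.two_le hxy.2)
  · intro y hy
    have hy' := (Nat.mem_divisorsAntidiagonal.1 (Finset.mem_coe.1 hy)).1
    obtain ⟨i, _, hi⟩ := (Nat.dvd_prime_pow hp).1 (Dvd.intro _ hy')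
    obtain ⟨j, _, hj⟩ := (Nat.dvd_prime_pow hp).1 (Dvd.intro_left _ hy')
    refine ⟨(i, j), ?_, ?_⟩
    · rw [Finset.mem_coe, Finset.HasAntidiagonal.mem_antidiagonal]
      rw [hi, hj, ← pow_add] at hy'
      exact Nat.pow_right_injective hp.two_le hy'
    · exact Prod.ext hi.symm hj.symm

/-- the coefficients of `(1 - x)^2` -/
theorem mm_pp (p j : ℕ) (hp : p.Prime) : (muC * muC) (p ^ j) =
    if j = 0 then 1 else if j = 1 then -2 else if j = 2 then 1 else 0 := by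
  rw [ArithmeticFunction.mul_apply, sum_pp (fun a b => muC a * muC b) p j hp]
  have h0 : muC (p ^ 0) = 1 := by
    rw [pow_zero]; exact muC_mult.1
  have h1 : muC (p ^ 1) = -1 := by
    show (((ArithmeticFunction.moebius (p ^ 1) : ℤ)) : ℂ) = -1
    rw [ArithmeticFunction.moebius_apply_prime_pow hp one_ne_zero]
    simp
  have h2 : ∀ k, 2 ≤ k → muC (p ^ k) = 0 := by
    intro k hk
    show (((ArithmeticFunction.moebius (p ^ k) : ℤ)) : ℂ) = 0
    rw [ArithmeticFunction.moebius_apply_prime_pow hp (by omega), if_neg (by omega)]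
    simp
  match j with
  | 0 => simp only [Finset.HasAntidiagonal.antidiagonal_zero, Finset.sum_singleton, h0]; simp
  | 1 =>
    rw [Finset.Nat.sum_antidiagonal_eq_sum_range_succ (fun a b => muC (p ^ a) * muC (p ^ b)),
      Finset.sum_range_succ, Finset.sum_range_one]
    simp only [Nat.sub_zero, Nat.sub_self, h0, h1]
    norm_num
  | 2 =>
    rw [Finset.Nat.sum_antidiagonal_eq_sum_range_succ (fun a b => muC (p ^ a) * muC (p ^ b)),
      Finset.sum_range_succ, Finset.sum_range_succ, Finset.sum_range_one]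
    simp only [Nat.sub_zero, Nat.sub_self, h0, h1, h2 2 le_rfl]
    norm_num [h1]
  | (j + 3) =>
    rw [if_neg (by omega), if_neg (by omega), if_neg (by omega)]
    refine Finset.sum_eq_zero fun x hx => ?_
    have := Finset.HasAntidiagonal.mem_antidiagonal.1 hx
    rcases le_or_gt 2 x.1 with h | h
    · rw [h2 _ h, zero_mul]
    · rw [h2 x.2 (by omega), mul_zero]

theorem hh_pp (α : ℂ) (β : ℝ) (p r : ℕ) (hp : p.Prime) (a b : ℂ)
    (ha : a = (p : ℂ) ^ (-(1 / 2 : ℂ) - α)) (hb : b = (p : ℂ) ^ (-(1 / 2 : ℂ) + (β : ℂ))) :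
    hh α β (p ^ r) = if r = 0 then 1 else if r = 1 then a - 2 * b else a ^ (r - 2) * (a - b) ^ 2 := by
  have hpw : ∀ (s : ℂ) (k : ℕ), pw s (p ^ k) = ((p : ℂ) ^ s) ^ k := by
    intro s k
    rw [pw_apply s (pow_pos hp.pos k).ne', Nat.cast_pow, ← Complex.natCast_cpow_natCast_mul]
    rw [Complex.cpow_nat_mul]
  rw [hh_eq]
  unfold hA
  rw [ArithmeticFunction.mul_apply, sum_pp (fun x y => pw (-(1 / 2 : ℂ) - α) x *
    ((muC * muC).pmul (pw (-(1 / 2 : ℂ) + (β : ℂ)))) y) p r hp]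
  simp only [ArithmeticFunction.pmul_apply, hpw, ← ha, ← hb, mm_pp p _ hp]
  rw [← Finset.Nat.sum_antidiagonal_swap, Finset.Nat.sum_antidiagonal_eq_sum_range_succ_mk]
  simp only [Prod.swap]
  match r with
  | 0 => simp
  | 1 =>
    rw [Finset.sum_range_succ, Finset.sum_range_one]
    simp
    ring
  | (r + 2) =>
    rw [show (r + 2).succ = 3 + r by omega, Finset.sum_range_add]
    rw [Finset.sum_range_succ, Finset.sum_range_succ, Finset.sum_range_one]
    rw [Finset.sum_eq_zero (s := Finset.range r)]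
    · simp
      rw [show r + 1 + 1 = r + 2 from rfl]
      ring
    · intro x _
      show a ^ (r + 2 - (3 + x)) * ((if 3 + x = 0 then 1 else if 3 + x = 1 then -2 else
        if 3 + x = 2 then 1 else 0) * b ^ (3 + x)) = 0
      rw [if_neg (by omega), if_neg (by omega), if_neg (by omega)]
      ring

theorem exp_sub_le (w : ℂ) (M : ℝ) (h0 : 0 ≤ M) (hM : w.re ≤ M) :
    ‖cexp w - 1‖ ≤ ‖w‖ * Real.exp M := by
  rcases eq_or_ne w 0 with rfl | hw
  · simp
  have h1 : cexp w - 1 = w * ∫ t in (0 : ℝ)..1, cexp (w * t) := by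
    rw [integral_exp_mul_complex hw]
    field_simp
    simp
  rw [h1, norm_mul]
  gcongr
  have := intervalIntegral.norm_integral_le_of_norm_le_const (a := 0) (b := 1)
    (f := fun t : ℝ => cexp (w * t)) (C := Real.exp M) ?_
  · simpa using this
  · intro t ht
    rw [Set.uIoc_of_le zero_le_one] at ht
    rw [Complex.norm_exp]
    apply Real.exp_le_exp.2
    have : (w * t).re = w.re * t := by simp
    rw [this]
    nlinarith [ht.1, ht.2]

/-- the bounds for one prime -/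
theorem prime_bounds (A' : ℝ) (z : ℝ) (α : ℂ) (β : ℝ) (p : ℕ) (hp : p.Prime)
    (hpz : (p : ℝ) ≤ z) (hα : 0 < α.re) (hβ : |β| * Real.log z ≤ A') (a b : ℂ)
    (ha : a = (p : ℂ) ^ (-(1 / 2 : ℂ) - α)) (hb : b = (p : ℂ) ^ (-(1 / 2 : ℂ) + (β : ℂ))) :
    ∃ s : ℝ, 0 ≤ s ∧ s ^ 2 = 1 / p ∧ ‖a‖ ≤ s ∧ ‖b‖ ≤ s * Real.exp A' ∧
    ‖a - 2 * b‖ ≤ s * (1 + (4 + 2 * Real.exp A') * min 1 ((‖α‖ + |β|) * Real.log z)) := by
  have hp0 : (0 : ℝ) < p := by exact_mod_cast hp.pos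
  have hp1 : (1 : ℝ) ≤ p := by exact_mod_cast hp.one_lt.le
  have hpc : (p : ℂ) ≠ 0 := by exact_mod_cast hp.ne_zero
  have hz : 1 ≤ z := hp1.trans hpz
  have hlp : 0 ≤ Real.log p := Real.log_nonneg hp1
  have hlz : Real.log p ≤ Real.log z := Real.log_le_log hp0 hpz
  have hlz0 : 0 ≤ Real.log z := hlp.trans hlz
  have hA' : 0 ≤ A' := (mul_nonneg (abs_nonneg β) hlz0).trans hβ
  set E := Real.exp A' with hE
  have hE1 : 1 ≤ E := Real.one_le_exp hA'
  set s₀ : ℂ := (p : ℂ) ^ (-(1 / 2 : ℂ)) with hs₀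
  set u : ℂ := cexp (-(α * Real.log p)) with hu
  set v : ℂ := cexp (((β * Real.log p : ℝ) : ℂ)) with hv
  have ha' : a = s₀ * u := by
    rw [ha, sub_eq_add_neg, Complex.cpow_add _ _ hpc]
    congr 1
    rw [Complex.cpow_def_of_ne_zero hpc, hu, ← Complex.natCast_log]
    congr 1
    ring
  have hb' : b = s₀ * v := by
    rw [hb, Complex.cpow_add _ _ hpc]
    congr 1
    rw [Complex.cpow_def_of_ne_zero hpc, hv, Complex.ofReal_mul, ← Complex.natCast_log]
    congr 1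
    ring
  have hs : ‖s₀‖ = (p : ℝ) ^ (-(1 / 2) : ℝ) := by
    rw [hs₀, Complex.norm_natCast_cpow_of_pos hp.pos]
    simp
  have hu1 : ‖u‖ ≤ 1 := by
    rw [hu, Complex.norm_exp]
    apply Real.exp_le_one_iff.2
    have : (-(α * (Real.log p : ℂ))).re = -(α.re * Real.log p) := by
        rw [Complex.neg_re, Complex.re_mul_ofReal]
    rw [this]
    have := mul_nonneg hα.le hlp
    linarith
  have hβp : |β * Real.log p| ≤ A' := by
    rw [abs_mul, abs_of_nonneg hlp]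
    exact (mul_le_mul_of_nonneg_left hlz (abs_nonneg β)).trans hβ
  have hv1 : ‖v‖ ≤ E := by
    rw [hv, Complex.norm_exp, Complex.ofReal_re]
    exact Real.exp_le_exp.2 ((le_abs_self _).trans hβp)
  set X := (‖α‖ + |β|) * Real.log z with hX
  have hX0 : 0 ≤ X := by positivity
  have hum : ‖u - 1‖ ≤ 2 * min 1 X := by
    have h1 : ‖u - 1‖ ≤ 2 := by
      calc ‖u - 1‖ ≤ ‖u‖ + ‖(1 : ℂ)‖ := norm_sub_le _ _
        _ ≤ 1 + 1 := by rw [norm_one]; linarith
        _ = 2 := by norm_num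
    have h2 : ‖u - 1‖ ≤ X := by
      have := exp_sub_le (-(α * Real.log p)) 0 le_rfl (by
        have : (-(α * (Real.log p : ℂ))).re = -(α.re * Real.log p) := by
          rw [Complex.neg_re, Complex.re_mul_ofReal]
        rw [this]
        have := mul_nonneg hα.le hlp
        linarith)
      rw [Real.exp_zero, mul_one, norm_neg, norm_mul, Complex.norm_real, Real.norm_eq_abs,
        abs_of_nonneg hlp] at this
      refine this.trans ?_
      rw [hX]
      have h3 : 0 ≤ |β| := abs_nonneg β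
      have h4 : 0 ≤ ‖α‖ := norm_nonneg α
      nlinarith
    rcases min_choice 1 X with h | h
    · rw [h]; linarith
    · rw [h]; linarith
  have hvm : ‖v - 1‖ ≤ (1 + E) * min 1 X := by
    have h1 : ‖v - 1‖ ≤ 1 + E := by
      calc ‖v - 1‖ ≤ ‖v‖ + ‖(1 : ℂ)‖ := norm_sub_le _ _
        _ ≤ E + 1 := by rw [norm_one]; linarith
        _ = 1 + E := by ring
    have h2 : ‖v - 1‖ ≤ X * E := by
      have := exp_sub_le (((β * Real.log p : ℝ) : ℂ)) A' hA' (by
        rw [Complex.ofReal_re]; exact (le_abs_self _).trans hβp)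
      rw [Complex.norm_real, Real.norm_eq_abs, abs_mul, abs_of_nonneg hlp] at this
      refine this.trans ?_
      rw [hX]
      have h3 : 0 ≤ |β| := abs_nonneg β
      have h4 : 0 ≤ ‖α‖ := norm_nonneg α
      have h5 : |β| * Real.log p ≤ (‖α‖ + |β|) * Real.log z := by nlinarith
      exact mul_le_mul_of_nonneg_right h5 (by positivity)
    rcases min_choice 1 X with h | h
    · rw [h]; linarith
    · rw [h]; nlinarith
  refine ⟨‖s₀‖, norm_nonneg _, ?_, ?_, ?_, ?_⟩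
  · rw [hs, ← Real.rpow_natCast, ← Real.rpow_mul hp0.le]
    norm_num
    rw [Real.rpow_neg_one]
  · rw [ha', norm_mul]
    exact mul_le_of_le_one_right (norm_nonneg _) hu1
  · rw [hb', norm_mul]
    gcongr
  · have : a - 2 * b = s₀ * (-1 + ((u - 1) - 2 * (v - 1))) := by rw [ha', hb']; ring
    rw [this, norm_mul]
    gcongr
    calc ‖-1 + ((u - 1) - 2 * (v - 1))‖ ≤ ‖(-1 : ℂ)‖ + (‖u - 1‖ + ‖2 * (v - 1)‖) := by
          refine (norm_add_le _ _).trans ?_
          gcongr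
          exact norm_sub_le _ _
      _ = 1 + (‖u - 1‖ + 2 * ‖v - 1‖) := by
          rw [norm_neg, norm_one, norm_mul]
          simp
      _ ≤ 1 + (2 * min 1 X + 2 * ((1 + E) * min 1 X)) := by gcongr
      _ = _ := by ring

theorem hh_prime_sum (A' : ℝ) (z : ℝ) (α : ℂ) (β : ℝ) (p : ℕ) (hp : p.Prime)
    (hpz : (p : ℝ) ≤ z) (hα : 0 < α.re) (hβ : |β| * Real.log z ≤ A') (C₀ C₁ C₂ m : ℝ)
    (hC₀ : C₀ = 4 + 2 * Real.exp A') (hC₁ : C₁ = 2 * C₀ + C₀ ^ 2)
    (hC₂ : C₂ = 2 * (1 + Real.exp A') ^ 4) (hm : m = min 1 ((‖α‖ + |β|) * Real.log z)) :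
    ∑' r : ℕ, ENNReal.ofReal (‖hh α β (p ^ r)‖ ^ 2) ≤
      ENNReal.ofReal (Real.exp (1 / p + C₁ * m * (1 / p) + C₂ * (1 / (p : ℝ) ^ 2))) := by
  obtain ⟨s, hs0, hs2, h1, h2, h3⟩ := prime_bounds A' z α β p hp hpz hα hβ _ _ rfl rfl
  set a : ℂ := (p : ℂ) ^ (-(1 / 2 : ℂ) - α) with ha
  set b : ℂ := (p : ℂ) ^ (-(1 / 2 : ℂ) + (β : ℂ)) with hb
  set E := Real.exp A' with hE
  have hE0 : 0 < E := Real.exp_pos _
  have hp0 : (0 : ℝ) < p := by exact_mod_cast hp.pos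
  have hp2 : (2 : ℝ) ≤ p := by exact_mod_cast hp.two_le
  have hz : 1 ≤ z := by linarith
  have hm0 : 0 ≤ m := by
    rw [hm]
    have := Real.log_nonneg hz
    positivity
  have hm1 : m ≤ 1 := by rw [hm]; exact min_le_left _ _
  have hC₀0 : 0 < C₀ := by rw [hC₀]; positivity
  rw [tsum_eq_zero_add' ENNReal.summable, tsum_eq_zero_add' ENNReal.summable]
  have e0 : ‖hh α β (p ^ 0)‖ ^ 2 = 1 := by rw [hh_pp α β p 0 hp a b ha hb]; simp
  have e1 : ‖hh α β (p ^ (0 + 1))‖ ^ 2 ≤ 1 / p + C₁ * m * (1 / p) := by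
    rw [hh_pp α β p (0 + 1) hp a b ha hb]
    simp only [zero_add, one_ne_zero, if_false, if_true]
    rw [← hC₀, ← hm] at h3
    calc ‖a - 2 * b‖ ^ 2 ≤ (s * (1 + C₀ * m)) ^ 2 := by gcongr
      _ = (1 / p) * (1 + 2 * C₀ * m + C₀ ^ 2 * (m * m)) := by rw [mul_pow, hs2]; ring
      _ ≤ (1 / p) * (1 + 2 * C₀ * m + C₀ ^ 2 * (m * 1)) := by gcongr
      _ = _ := by rw [hC₁]; ring
  have e2 : ∑' r : ℕ, ENNReal.ofReal (‖hh α β (p ^ (r + 1 + 1))‖ ^ 2) ≤
      ENNReal.ofReal (C₂ * (1 / (p : ℝ) ^ 2)) := by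
    have hr1 : (1 / p : ℝ) < 1 := by rw [div_lt_one hp0]; linarith
    have hr0 : (0 : ℝ) ≤ 1 / p := by positivity
    have t1 : ∀ r : ℕ, ‖hh α β (p ^ (r + 1 + 1))‖ ^ 2 ≤ (1 + E) ^ 4 * (1 / p) ^ 2 * (1 / p) ^ r := by
      intro r
      rw [hh_pp α β p (r + 1 + 1) hp a b ha hb, if_neg (by omega), if_neg (by omega)]
      rw [show r + 1 + 1 - 2 = r by omega, norm_mul, norm_pow, norm_pow]
      have h4 : ‖a - b‖ ≤ s * (1 + E) := by
        calc ‖a - b‖ ≤ ‖a‖ + ‖b‖ := norm_sub_le _ _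
          _ ≤ s + s * E := add_le_add h1 h2
          _ = _ := by ring
      calc (‖a‖ ^ r * ‖a - b‖ ^ 2) ^ 2 ≤ (s ^ r * (s * (1 + E)) ^ 2) ^ 2 := by gcongr
        _ = (1 + E) ^ 4 * (s ^ 2) ^ 2 * (s ^ 2) ^ r := by ring
        _ = _ := by rw [hs2]
    calc _ ≤ ∑' r : ℕ, ENNReal.ofReal ((1 + E) ^ 4 * (1 / p) ^ 2 * (1 / p) ^ r) :=
          ENNReal.tsum_le_tsum fun r => ENNReal.ofReal_le_ofReal (t1 r)
      _ = ENNReal.ofReal ((1 + E) ^ 4 * (1 / p) ^ 2 * (1 - 1 / (p : ℝ))⁻¹) := by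
          rw [← tsum_geometric_of_lt_one hr0 hr1, ← tsum_mul_left, ENNReal.ofReal_tsum_of_nonneg]
          · intro r; positivity
          · exact (summable_geometric_of_lt_one hr0 hr1).mul_left _
      _ ≤ _ := by
          apply ENNReal.ofReal_le_ofReal
          have h4 : (1 - 1 / (p : ℝ))⁻¹ ≤ 2 := by
            have h5 : 1 / 2 ≤ 1 - 1 / (p : ℝ) := by
              have : 1 / (p : ℝ) ≤ 1 / 2 := by gcongr
              linarith
            calc (1 - 1 / (p : ℝ))⁻¹ ≤ (1 / 2 : ℝ)⁻¹ := inv_anti₀ (by norm_num) h5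
              _ = 2 := by norm_num
          calc (1 + E) ^ 4 * (1 / p) ^ 2 * (1 - 1 / (p : ℝ))⁻¹ ≤ (1 + E) ^ 4 * (1 / p) ^ 2 * 2 := by
                gcongr
            _ = _ := by rw [hC₂]; field_simp
  rw [e0]
  have hC₁0 : 0 ≤ C₁ := by rw [hC₁]; positivity
  have hC₂0 : 0 ≤ C₂ := by rw [hC₂]; positivity
  calc _ ≤ ENNReal.ofReal 1 + (ENNReal.ofReal (1 / p + C₁ * m * (1 / p)) +
        ENNReal.ofReal (C₂ * (1 / (p : ℝ) ^ 2))) := by
        gcongr
    _ = ENNReal.ofReal (1 + (1 / p + C₁ * m * (1 / p) + C₂ * (1 / (p : ℝ) ^ 2))) := by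
        rw [← ENNReal.ofReal_add (by positivity) (by positivity),
          ← ENNReal.ofReal_add (by positivity) (by positivity)]
    _ ≤ _ := by
        apply ENNReal.ofReal_le_ofReal
        have := Real.add_one_le_exp (1 / p + C₁ * m * (1 / p) + C₂ * (1 / (p : ℝ) ^ 2))
        linarith

end B2

open B3 B2 in
theorem hh_sum (A' B₁ : ℝ) (_hA' : 0 ≤ A') (hB₁ : 0 ≤ B₁) : ∃ C : ℝ, 0 < C ∧
    ∀ (P : Finset ℕ) (z : ℝ) (α : ℂ) (β : ℝ), 1 ≤ z → (∀ p ∈ P, p.Prime ∧ 5 ≤ p ∧ (p : ℝ) ≤ z) →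
    ∑ p ∈ P, 1 / (p : ℝ) ≤ B₁ → 0 < α.re → |β| * Real.log z ≤ A' →
    ∑' n : Nat.factoredNumbers P, ENNReal.ofReal (‖hh α β (n : ℕ)‖ ^ 2) ≤
      ENNReal.ofReal (Real.exp (∑ p ∈ P, 1 / (p : ℝ) +
        C * (min 1 ((‖α‖ + |β|) * Real.log z) + ∑ p ∈ P, 1 / (p : ℝ) ^ 2))) := by
  set C₀ : ℝ := 4 + 2 * Real.exp A' with hC₀
  set C₁ : ℝ := 2 * C₀ + C₀ ^ 2 with hC₁
  set C₂ : ℝ := 2 * (1 + Real.exp A') ^ 4 with hC₂
  have hC₀0 : 0 < C₀ := by positivity
  have hC₁0 : 0 < C₁ := by positivity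
  have hC₂0 : 0 < C₂ := by positivity
  refine ⟨C₁ * B₁ + C₂, by positivity, ?_⟩
  intro P z α β hz hP hsum hα hβ
  set m := min 1 ((‖α‖ + |β|) * Real.log z) with hm
  have hm0 : 0 ≤ m := by
    have := Real.log_nonneg hz
    positivity
  have hF : ∑' n : Nat.factoredNumbers P, ENNReal.ofReal (‖hh α β (n : ℕ)‖ ^ 2) =
      ∏ p ∈ P, ∑' r : ℕ, ENNReal.ofReal (‖hh α β (p ^ r)‖ ^ 2) := by
    refine en_euler (fun n => ENNReal.ofReal (‖hh α β n‖ ^ 2)) ?_ ?_ P fun p hp => (hP p hp).1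
    · show ENNReal.ofReal (‖hh α β 1‖ ^ 2) = 1
      rw [hh_eq, (hA_mult α β).1]
      simp
    · intro a b hab
      show ENNReal.ofReal (‖hh α β (a * b)‖ ^ 2) = _
      rw [hh_eq, (hA_mult α β).2 hab, norm_mul, mul_pow, ENNReal.ofReal_mul (by positivity),
        ← hh_eq, ← hh_eq]
  rw [hF]
  calc _ ≤ ∏ p ∈ P, ENNReal.ofReal (Real.exp (1 / p + C₁ * m * (1 / p) + C₂ * (1 / (p : ℝ) ^ 2))) := by
        gcongr with p hp
        exact hh_prime_sum A' z α β p (hP p hp).1 (hP p hp).2.2 hα hβ C₀ C₁ C₂ m hC₀ hC₁ hC₂ hm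
    _ = ENNReal.ofReal (Real.exp (∑ p ∈ P, (1 / (p : ℝ) + C₁ * m * (1 / p) +
          C₂ * (1 / (p : ℝ) ^ 2)))) := by
        rw [← ENNReal.ofReal_prod_of_nonneg (fun p _ => (Real.exp_pos _).le), ← Real.exp_sum]
    _ ≤ _ := by
        apply ENNReal.ofReal_le_ofReal
        apply Real.exp_le_exp.2
        rw [Finset.sum_add_distrib, Finset.sum_add_distrib, ← Finset.mul_sum, ← Finset.mul_sum]
        have s2 : 0 ≤ ∑ p ∈ P, 1 / (p : ℝ) ^ 2 := Finset.sum_nonneg fun p _ => by positivity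
        have h1 : C₁ * m * ∑ p ∈ P, 1 / (p : ℝ) ≤ C₁ * m * B₁ := by gcongr
        have h2 : 0 ≤ C₁ * B₁ * ∑ p ∈ P, 1 / (p : ℝ) ^ 2 := by positivity
        have h3 : 0 ≤ C₂ * m := by positivity
        nlinarith

end Pool.Agent.H448R2.GC
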