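import Pool.Agent.H448R2.GC.Defs
import Pool.Agent.H448R2.GC.B1

/-! TEAM GC: task B4, product of blocks. -/

open Complex MeasureTheory Filter Topology

namespace Pool.Agent.H448R2.GC

namespace B4

lemma mem_blk {P : Finset ℕ} {l n : ℕ} :
    n ∈ blk P l ↔ ∃ u ⊆ P, u.card ≤ l ∧ ∏ p ∈ u, p = n := by
  simp [blk, and_assoc]

lemma mem_mul2 {S S' : Finset ℕ} {n : ℕ} : n ∈ mul2 S S' ↔ ∃ a ∈ S, ∃ b ∈ S', a * b = n := by
  simp only [mul2, Finset.mem_image, Finset.mem_product, Prod.exists]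
  constructor
  · rintro ⟨a, b, ⟨ha, hb⟩, h⟩
    exact ⟨a, ha, b, hb, h⟩
  · rintro ⟨a, ha, b, hb, h⟩
    exact ⟨a, b, ⟨ha, hb⟩, h⟩

lemma one_mem_blk (P : Finset ℕ) (l : ℕ) : 1 ∈ blk P l := mem_blk.2 ⟨∅, by simp, by simp, by simp⟩

lemma blk_prop {P : Finset ℕ} (hP : ∀ p ∈ P, p.Prime) {l n : ℕ} (hn : n ∈ blk P l) :
    Squarefree n ∧ (∀ p : ℕ, p.Prime → p ∣ n → p ∈ P) ∧ ∀ d : ℕ, d ∣ n → d ∈ blk P l := by
  obtain ⟨u, hu, hc, rfl⟩ := mem_blk.1 hn
  have hup : ∀ p ∈ u, p.Prime := fun p hp => hP p (hu hp)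
  have hpf : (∏ p ∈ u, p).primeFactors = u := Nat.primeFactors_prod hup
  have hsq : Squarefree (∏ p ∈ u, p) := by
    refine Finset.squarefree_prod_of_pairwise_isCoprime ?_ ?_
    · intro p hp q hq hpq
      exact Nat.coprime_iff_isRelPrime.1 ((Nat.coprime_primes (hup p hp) (hup q hq)).2 hpq)
    · intro p hp
      exact (hup p hp).squarefree
  have h0 : (∏ p ∈ u, p) ≠ 0 := hsq.ne_zero
  refine ⟨hsq, ?_, ?_⟩
  · intro p hp hpd
    have : p ∈ (∏ p ∈ u, p).primeFactors := Nat.mem_primeFactors.2 ⟨hp, hpd, h0⟩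
    rw [hpf] at this
    exact hu this
  · intro d hd
    have hds : Squarefree d := hsq.squarefree_of_dvd hd
    have hsub : d.primeFactors ⊆ u := by
      rw [← hpf]
      exact Nat.primeFactors_mono hd h0
    exact mem_blk.2 ⟨d.primeFactors, hsub.trans hu, (Finset.card_le_card hsub).trans hc,
      Nat.prod_primeFactors_of_squarefree hds⟩

lemma blk_fact {P : Finset ℕ} (hP : ∀ p ∈ P, p.Prime) {l n : ℕ} (hn : n ∈ blk P l) :
    n ∈ Nat.factoredNumbers P := by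
  have h := blk_prop hP hn
  refine Nat.mem_factoredNumbers_iff_primeFactors_subset.2 ⟨h.1.ne_zero, ?_⟩
  intro p hp
  exact h.2.1 p (Nat.prime_of_mem_primeFactors hp) (Nat.dvd_of_mem_primeFactors hp)

end B4

open B4

theorem SB_one (P : ℕ → Finset ℕ) (l : ℕ → ℕ) (J : ℕ) : 1 ∈ SB P l J := by
  induction J with
  | zero => simp [SB]
  | succ J ih => exact mem_mul2.2 ⟨1, ih, 1, one_mem_blk _ _, by simp⟩

theorem SB_prop (P : ℕ → Finset ℕ) (l : ℕ → ℕ) (J : ℕ) (hP : ∀ j < J, ∀ p ∈ P j, p.Prime)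
    (hd : ∀ i < J, ∀ j < J, i ≠ j → Disjoint (P i) (P j)) (n : ℕ) (hn : n ∈ SB P l J) :
    Squarefree n ∧ (∀ p : ℕ, p.Prime → p ∣ n → ∃ j < J, p ∈ P j) ∧ (∀ d : ℕ, d ∣ n → d ∈ SB P l J) := by
  induction J generalizing n with
  | zero =>
    have h1 : n = 1 := by simpa [SB] using hn
    subst h1
    refine ⟨squarefree_one, ?_, ?_⟩
    · intro p hp h
      exact absurd (Nat.dvd_one.1 h) hp.one_lt.ne'
    · intro d hd
      rw [Nat.dvd_one.1 hd]
      simp [SB]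
  | succ J ih =>
    have hP' : ∀ j < J, ∀ p ∈ P j, p.Prime := fun j hj => hP j (hj.trans (Nat.lt_succ_self J))
    have hd' : ∀ i < J, ∀ j < J, i ≠ j → Disjoint (P i) (P j) := fun i hi j hj =>
      hd i (hi.trans (Nat.lt_succ_self J)) j (hj.trans (Nat.lt_succ_self J))
    obtain ⟨a, ha, b, hb, rfl⟩ := mem_mul2.1 hn
    obtain ⟨ha1, ha2, ha3⟩ := ih hP' hd' a ha
    obtain ⟨hb1, hb2, hb3⟩ := blk_prop (hP J (Nat.lt_succ_self J)) hb
    have hcop : Nat.Coprime a b := by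
      refine Nat.coprime_of_dvd fun p hp hpa hpb => ?_
      obtain ⟨j, hj, hpj⟩ := ha2 p hp hpa
      exact (Finset.disjoint_left.1 (hd j (hj.trans (Nat.lt_succ_self J)) J (Nat.lt_succ_self J) hj.ne))
        hpj (hb2 p hp hpb)
    refine ⟨(Nat.squarefree_mul hcop).2 ⟨ha1, hb1⟩, ?_, ?_⟩
    · intro p hp hpd
      rcases (hp.dvd_mul).1 hpd with h | h
      · obtain ⟨j, hj, hpj⟩ := ha2 p hp h
        exact ⟨j, hj.trans (Nat.lt_succ_self J), hpj⟩
      · exact ⟨J, Nat.lt_succ_self J, hb2 p hp h⟩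
    · intro d hdd
      obtain ⟨x, y, hx, hy, rfl⟩ := (Nat.dvd_mul).1 hdd
      exact mem_mul2.2 ⟨x, ha3 x hx, y, hb3 y hy, rfl⟩

theorem SB_size (P : ℕ → Finset ℕ) (l : ℕ → ℕ) (J : ℕ) (w : ℕ → ℝ) (hw : ∀ j, 1 ≤ w j)
    (h : ∀ j < J, ∀ p ∈ P j, (p : ℝ) ≤ w j) (n : ℕ) (hn : n ∈ SB P l J) :
    (n : ℝ) ≤ ∏ j ∈ Finset.range J, w j ^ l j := by
  induction J generalizing n with
  | zero =>
    have h1 : n = 1 := by simpa [SB] using hn
    subst h1
    simp
  | succ J ih =>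
    obtain ⟨a, ha, b, hb, rfl⟩ := mem_mul2.1 hn
    have h1 := ih (fun j hj => h j (hj.trans (Nat.lt_succ_self J))) a ha
    obtain ⟨u, hu, hc, rfl⟩ := mem_blk.1 hb
    rw [Finset.prod_range_succ]
    push_cast
    have h2 : ∏ p ∈ u, (p : ℝ) ≤ w J ^ l J := by
      calc ∏ p ∈ u, (p : ℝ) ≤ ∏ p ∈ u, w J :=
            Finset.prod_le_prod (fun p _ => Nat.cast_nonneg p)
              (fun p hp => h J (Nat.lt_succ_self J) p (hu hp))
        _ = w J ^ u.card := by simp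
        _ ≤ w J ^ l J := pow_le_pow_right₀ (hw J) hc
    exact mul_le_mul h1 h2 (Finset.prod_nonneg fun p _ => Nat.cast_nonneg p)
      (Finset.prod_nonneg fun j _ => pow_nonneg (zero_le_one.trans (hw j)) _)

theorem norm_prod (P : ℕ → Finset ℕ) (l : ℕ → ℕ) (J : ℕ) (hP : ∀ j < J, ∀ p ∈ P j, p.Prime)
    (hd : ∀ i < J, ∀ j < J, i ≠ j → Disjoint (P i) (P j)) (α : ℂ) (β : ℝ) :
    NN (SB P l J) α β * ∏ j ∈ Finset.range J, NP (P j) {1} α β =
      NN {1} α β * ∏ j ∈ Finset.range J, NP (P j) (blk (P j) (l j)) α β := by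
  induction J with
  | zero => simp [SB]
  | succ J ih =>
    have hP' : ∀ j < J, ∀ p ∈ P j, p.Prime := fun j hj => hP j (hj.trans (Nat.lt_succ_self J))
    have hd' : ∀ i < J, ∀ j < J, i ≠ j → Disjoint (P i) (P j) := fun i hi j hj =>
      hd i (hi.trans (Nat.lt_succ_self J)) j (hj.trans (Nat.lt_succ_self J))
    have hsplit := Pool.Agent.H448R2.GC.norm_split (P J) (hP J (Nat.lt_succ_self J)) (SB P l J) (blk (P J) (l J))
      (fun h0 => (SB_prop P l J hP' hd' 0 h0).1.ne_zero rfl)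
      (fun n hn p hp hpn => by
        obtain ⟨j, hj, hpj⟩ := (SB_prop P l J hP' hd' n hn).2.1 p
          (hP J (Nat.lt_succ_self J) p hp) hpn
        exact (Finset.disjoint_left.1
          (hd j (hj.trans (Nat.lt_succ_self J)) J (Nat.lt_succ_self J) hj.ne)) hpj hp)
      (fun n hn => blk_fact (hP J (Nat.lt_succ_self J)) hn) α β
    rw [Finset.prod_range_succ, Finset.prod_range_succ]
    have e1 : SB P l (J + 1) = mul2 (SB P l J) (blk (P J) (l J)) := rfl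
    rw [e1]
    calc NN (mul2 (SB P l J) (blk (P J) (l J))) α β *
          ((∏ j ∈ Finset.range J, NP (P j) {1} α β) * NP (P J) {1} α β)
        = (NN (mul2 (SB P l J) (blk (P J) (l J))) α β * NP (P J) {1} α β) *
          ∏ j ∈ Finset.range J, NP (P j) {1} α β := by ring
      _ = (NN (SB P l J) α β * NP (P J) (blk (P J) (l J)) α β) *
          ∏ j ∈ Finset.range J, NP (P j) {1} α β := by rw [hsplit]
      _ = (NN (SB P l J) α β * ∏ j ∈ Finset.range J, NP (P j) {1} α β) *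
          NP (P J) (blk (P J) (l J)) α β := by ring
      _ = _ := by rw [ih hP' hd']; ring

end Pool.Agent.H448R2.GC
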