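import Pool.Agent.H448R2.GC.Defs

/-! TEAM GC: task B5, the free part. -/

open Complex MeasureTheory Filter Topology

namespace Pool.Agent.H448R2.GC

namespace B5

lemma aa_one (k : ℕ) : aa {1} k = if k = 1 then 1 else 0 := by
  unfold aa
  by_cases hk : k = 1
  · subst hk
    simp
  · rw [if_neg hk]
    refine Finset.sum_eq_zero fun p hp => ?_
    have h := Nat.mem_divisorsAntidiagonal.1 hp
    rw [if_neg]
    rintro ⟨h1, h2⟩
    rw [Finset.mem_singleton] at h1 h2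
    rw [h1, h2] at h
    exact hk (by simpa using h.1.symm)

lemma cc_one (α : ℂ) (β : ℝ) (n : ℕ) (hn : n ≠ 0) :
    cc {1} α β n = (n : ℂ) ^ (-(1 / 2 : ℂ) - α) := by
  unfold cc
  rw [Finset.sum_eq_single (n, 1)]
  · simp [aa_one]
  · intro p hp hpn
    have h := Nat.mem_divisorsAntidiagonal.1 hp
    rw [aa_one, if_neg]
    · simp
    · intro h2
      apply hpn
      rw [h2, mul_one] at h
      exact Prod.ext h.1 h2
  · intro h
    exact absurd (Nat.mem_divisorsAntidiagonal.2 ⟨by simp, hn⟩) h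

lemma cc_zero (S : Finset ℕ) (α : ℂ) (β : ℝ) : cc S α β 0 = 0 := by
  unfold cc
  simp

lemma cc_norm (α : ℂ) (β : ℝ) (n : ℕ) (hn : n ≠ 0) :
    ‖cc {1} α β n‖ ^ 2 = (n : ℝ) ^ (-1 - 2 * α.re) := by
  rw [cc_one α β n hn, Complex.norm_natCast_cpow_of_pos (Nat.pos_of_ne_zero hn),
    ← Real.rpow_natCast, ← Real.rpow_mul (Nat.cast_nonneg n)]
  congr 1
  simp
  ring

lemma sum_le (x : ℝ) (hx : 1 < x) (N : ℕ) :
    ∑ i ∈ Finset.range N, ((1 : ℝ) + ((i + 1 : ℕ) : ℝ)) ^ (-x) ≤ 1 / (x - 1) := by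
  have hanti : AntitoneOn (fun t : ℝ => t ^ (-x)) (Set.Icc (1 : ℝ) (1 + N)) := by
    intro a ha b hb hab
    exact Real.rpow_le_rpow_of_nonpos (by linarith [ha.1]) hab (by linarith)
  have h1 := hanti.sum_le_integral
  refine h1.trans ?_
  have hN : (0 : ℝ) ≤ N := Nat.cast_nonneg N
  rw [integral_rpow]
  · have h2 : 0 ≤ ((1 : ℝ) + N) ^ (-x + 1) := Real.rpow_nonneg (by linarith) _
    rw [Real.one_rpow]
    have h3 : -x + 1 = -(x - 1) := by ring
    rw [h3] at h2 ⊢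
    rw [div_neg, ← neg_div, neg_sub]
    gcongr
    linarith
  · right
    refine ⟨by linarith, ?_⟩
    rw [Set.uIcc_of_le (by linarith)]
    intro h
    linarith [h.1]

/-- `n ↦ n ^ (-x)` as a monoid homomorphism -/
noncomputable def pw (x : ℝ) : ℕ →* ℝ where
  toFun n := (n : ℝ) ^ (-x)
  map_one' := by simp
  map_mul' a b := by
    rw [Nat.cast_mul, Real.mul_rpow (Nat.cast_nonneg a) (Nat.cast_nonneg b)]

lemma exp_le_inv (y : ℝ) (h1 : y < 1) : Real.exp y ≤ (1 - y)⁻¹ := by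
  have h2 : 1 - y ≤ Real.exp (-y) := Real.one_sub_le_exp_neg y
  rw [Real.exp_neg] at h2
  rw [le_inv_comm₀ (Real.exp_pos y) (by linarith)]
  exact h2

end B5

open B5

theorem NN_one (α : ℂ) (β : ℝ) (h : 0 < α.re) : NN {1} α β ≤ ENNReal.ofReal (1 + 1 / (2 * α.re)) := by
  unfold NN
  refine ENNReal.tsum_le_of_sum_range_le fun N => ?_
  rw [← ENNReal.ofReal_sum_of_nonneg (fun i _ => by positivity)]
  refine ENNReal.ofReal_le_ofReal ?_
  have hx : 1 < 1 + 2 * α.re := by linarith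
  have key : ∀ N : ℕ, ∑ i ∈ Finset.range (N + 2), ‖cc {1} α β i‖ ^ 2 ≤ 1 + 1 / (2 * α.re) := by
    intro N
    rw [Finset.sum_range_succ', Finset.sum_range_succ']
    have h1 := sum_le (1 + 2 * α.re) hx N
    have h2 : ‖cc {1} α β 0‖ ^ 2 = 0 := by rw [cc_zero]; simp
    have h3 : ‖cc {1} α β (0 + 1)‖ ^ 2 = 1 := by
      rw [cc_norm α β (0 + 1) (by norm_num)]
      simp
    have h4 : ∑ i ∈ Finset.range N, ‖cc {1} α β (i + 1 + 1)‖ ^ 2 =
        ∑ i ∈ Finset.range N, ((1 : ℝ) + ((i + 1 : ℕ) : ℝ)) ^ (-(1 + 2 * α.re)) := by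
      refine Finset.sum_congr rfl fun i _ => ?_
      rw [cc_norm α β (i + 1 + 1) (by omega)]
      congr 1
      · push_cast
        ring
      · ring
    rw [h2, h3, h4]
    have h5 : 1 + 2 * α.re - 1 = 2 * α.re := by ring
    rw [h5] at h1
    linarith
  calc ∑ i ∈ Finset.range N, ‖cc {1} α β i‖ ^ 2 ≤ ∑ i ∈ Finset.range (N + 2), ‖cc {1} α β i‖ ^ 2 :=
        Finset.sum_le_sum_of_subset_of_nonneg (Finset.range_mono (by omega))
          (fun i _ _ => by positivity)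
    _ ≤ _ := key N

theorem NP_one (P : Finset ℕ) (hP : ∀ p ∈ P, p.Prime) (α : ℂ) (β : ℝ) (h : 0 < α.re) :
    ENNReal.ofReal (Real.exp (∑ p ∈ P, (p : ℝ) ^ (-1 - 2 * α.re))) ≤ NP P {1} α β := by
  unfold NP
  set x : ℝ := 1 + 2 * α.re with hx
  have hx1 : 1 < x := by rw [hx]; linarith
  have hlt : ∀ {p : ℕ}, p.Prime → ‖pw x p‖ < 1 := by
    intro p hp
    have h1 : (1 : ℝ) < p := by exact_mod_cast hp.one_lt
    change ‖(p : ℝ) ^ (-x)‖ < 1
    rw [Real.norm_of_nonneg (Real.rpow_nonneg (by linarith) _)]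
    exact Real.rpow_lt_one_of_one_lt_of_neg h1 (by linarith)
  obtain ⟨hs, ht⟩ :=
    EulerProduct.summable_and_hasSum_factoredNumbers_prod_filter_prime_geometric (f := pw x) hlt P
  have hterm : ∀ n : Nat.factoredNumbers P, ‖cc {1} α β (n : ℕ)‖ ^ 2 = pw x n := by
    intro n
    rw [cc_norm α β n (Nat.ne_zero_of_mem_factoredNumbers n.2)]
    change _ = ((n : ℕ) : ℝ) ^ (-x)
    congr 1
    rw [hx]
    ring
  have hnn : ∀ n : Nat.factoredNumbers P, 0 ≤ pw x n := fun n =>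
    Real.rpow_nonneg (Nat.cast_nonneg _) _
  simp only [hterm]
  rw [← ENNReal.ofReal_tsum_of_nonneg hnn ht.summable, ht.tsum_eq]
  refine ENNReal.ofReal_le_ofReal ?_
  rw [Finset.filter_true_of_mem hP, Real.exp_sum]
  refine Finset.prod_le_prod (fun p _ => (Real.exp_pos _).le) fun p hp => ?_
  have e1 : (p : ℝ) ^ (-1 - 2 * α.re) = pw x p := by
    change _ = (p : ℝ) ^ (-x)
    congr 1
    rw [hx]
    ring
  rw [e1]
  refine exp_le_inv _ ?_
  have := hlt (hP p hp)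
  exact (le_abs_self _).trans_lt this

end Pool.Agent.H448R2.GC
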