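import Pool.Agent.H448R2.GC.Defs

open Complex MeasureTheory Filter Topology

namespace Pool.Agent.H448R2.GC

namespace B6

theorem blk_mem {P : Finset ℕ} {l n : ℕ} (h : n ∈ blk P l) :
    ∃ u ⊆ P, u.card ≤ l ∧ ∏ p ∈ u, p = n := by
  unfold blk at h
  simp only [Finset.mem_image, Finset.mem_filter, Finset.mem_powerset] at h
  obtain ⟨u, ⟨hu, hc⟩, rfl⟩ := h
  exact ⟨u, hu, hc, rfl⟩

/-- primes dividing an element of a block -/
theorem blk_prime {P : Finset ℕ} {l n : ℕ} (hP : ∀ p ∈ P, p.Prime) (h : n ∈ blk P l) :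
    n ≠ 0 ∧ ∀ q : ℕ, q.Prime → q ∣ n → q ∈ P := by
  obtain ⟨u, hu, _, rfl⟩ := blk_mem h
  have hu' : ∀ p ∈ u, p.Prime := fun p hp => hP p (hu hp)
  refine ⟨?_, ?_⟩
  · exact Finset.prod_ne_zero_iff.mpr (fun p hp => (hu' p hp).ne_zero)
  · intro q hq hd
    have h1 : q ∈ (∏ p ∈ u, p).primeFactors := by
      rw [Nat.mem_primeFactors]
      exact ⟨hq, hd, Finset.prod_ne_zero_iff.mpr (fun p hp => (hu' p hp).ne_zero)⟩
    rw [Nat.primeFactors_prod hu'] at h1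
    exact hu h1

theorem SB_prime (P : ℕ → Finset ℕ) (l : ℕ → ℕ) (J : ℕ) (hP : ∀ j < J, ∀ p ∈ P j, p.Prime) :
    ∀ n ∈ SB P l J, n ≠ 0 ∧ ∀ q : ℕ, q.Prime → q ∣ n → ∃ j < J, q ∈ P j := by
  induction J with
  | zero =>
    intro n hn
    have h1 : n = 1 := by simpa [SB] using hn
    subst h1
    refine ⟨one_ne_zero, ?_⟩
    intro q hq hd
    exact absurd (Nat.dvd_one.mp hd) hq.ne_one
  | succ J ih =>
    intro n hn
    have ih' := ih (fun j hj => hP j (Nat.lt_succ_of_lt hj))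
    simp only [SB, mul2, Finset.mem_image, Finset.mem_product] at hn
    obtain ⟨⟨a, b⟩, ⟨ha, hb⟩, rfl⟩ := hn
    obtain ⟨ha0, ha1⟩ := ih' a ha
    obtain ⟨hb0, hb1⟩ := blk_prime (hP J (Nat.lt_succ_self J)) hb
    refine ⟨mul_ne_zero ha0 hb0, ?_⟩
    intro q hq hd
    rcases (Nat.Prime.dvd_mul hq).mp hd with h | h
    · obtain ⟨j, hj, hq'⟩ := ha1 q hq h
      exact ⟨j, Nat.lt_succ_of_lt hj, hq'⟩
    · exact ⟨J, Nat.lt_succ_self J, hb1 q hq h⟩

theorem coprime_of {P : ℕ → Finset ℕ} {l : ℕ → ℕ} {J : ℕ}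
    (hP : ∀ j < J + 1, ∀ p ∈ P j, p.Prime)
    (hd : ∀ i < J + 1, ∀ j < J + 1, i ≠ j → Disjoint (P i) (P j)) {a b : ℕ}
    (ha : a ∈ SB P l J) (hb : b ∈ blk (P J) (l J)) : Nat.Coprime a b := by
  obtain ⟨ha0, ha1⟩ := SB_prime P l J (fun j hj => hP j (Nat.lt_succ_of_lt hj)) a ha
  obtain ⟨hb0, hb1⟩ := blk_prime (hP J (Nat.lt_succ_self J)) hb
  rw [Nat.coprime_iff_gcd_eq_one]
  by_contra hne
  obtain ⟨q, hq, hqd⟩ := Nat.exists_prime_and_dvd hne
  obtain ⟨j, hj, hj'⟩ := ha1 q hq (hqd.trans (Nat.gcd_dvd_left a b))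
  have hJ' := hb1 q hq (hqd.trans (Nat.gcd_dvd_right a b))
  exact (Finset.disjoint_left.mp (hd j (Nat.lt_succ_of_lt hj) J (Nat.lt_succ_self J) (ne_of_lt hj)))
    hj' hJ'

theorem SB_succ_sum (P : ℕ → Finset ℕ) (l : ℕ → ℕ) (J : ℕ)
    (hP : ∀ j < J + 1, ∀ p ∈ P j, p.Prime)
    (hd : ∀ i < J + 1, ∀ j < J + 1, i ≠ j → Disjoint (P i) (P j)) :
    ∑ n ∈ SB P l (J + 1), 1 / (n : ℝ) =
      (∑ n ∈ SB P l J, 1 / (n : ℝ)) * ∑ n ∈ blk (P J) (l J), 1 / (n : ℝ) := by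
  have hinj : Set.InjOn (fun q : ℕ × ℕ => q.1 * q.2)
      ((SB P l J ×ˢ blk (P J) (l J) : Finset (ℕ × ℕ)) : Set (ℕ × ℕ)) := by
    rintro ⟨a, b⟩ hab ⟨a', b'⟩ hab' heq
    simp only [Finset.coe_product, Set.mem_prod, Finset.mem_coe] at hab hab'
    simp only at heq
    have h1 := coprime_of hP hd hab.1 hab'.2
    have h2 := coprime_of hP hd hab'.1 hab.2
    have h3 : a ∣ a' := by
      have : a ∣ a' * b' := ⟨b, heq.symm⟩
      exact h1.dvd_of_dvd_mul_right this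
    have h4 : a' ∣ a := by
      have : a' ∣ a * b := ⟨b', heq⟩
      exact h2.dvd_of_dvd_mul_right this
    have h5 : a = a' := Nat.dvd_antisymm h3 h4
    subst h5
    have ha0 : a ≠ 0 :=
      (SB_prime P l J (fun j hj => hP j (Nat.lt_succ_of_lt hj)) a hab.1).1
    have h6 : b = b' := Nat.eq_of_mul_eq_mul_left (Nat.pos_of_ne_zero ha0) heq
    rw [h6]
  change ∑ n ∈ mul2 (SB P l J) (blk (P J) (l J)), 1 / (n : ℝ) = _
  unfold mul2
  rw [Finset.sum_image hinj, Finset.sum_product, Finset.sum_mul]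
  refine Finset.sum_congr rfl (fun a _ => ?_)
  rw [Finset.mul_sum]
  refine Finset.sum_congr rfl (fun b _ => ?_)
  push_cast
  rw [one_div, one_div, one_div, mul_inv]

theorem blk_sum (P : Finset ℕ) (l : ℕ) (hP : ∀ p ∈ P, p.Prime) :
    ∑ n ∈ blk P l, 1 / (n : ℝ) =
      ∑ u ∈ P.powerset.filter (fun u => u.card ≤ l), ∏ p ∈ u, 1 / (p : ℝ) := by
  unfold blk
  have hinj : Set.InjOn (fun u : Finset ℕ => ∏ p ∈ u, p)
      ((P.powerset.filter (fun u => u.card ≤ l) : Finset (Finset ℕ)) : Set (Finset ℕ)) := by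
    intro u hu v hv huv
    simp only [Finset.coe_filter, Finset.mem_powerset] at hu hv
    have hu' : ∀ p ∈ u, p.Prime := fun p hp => hP p (hu.1 hp)
    have hv' : ∀ p ∈ v, p.Prime := fun p hp => hP p (hv.1 hp)
    have h1 := Nat.primeFactors_prod hu'
    have h2 := Nat.primeFactors_prod hv'
    simp only at huv
    rw [← h1, ← h2, huv]
  rw [Finset.sum_image hinj]
  refine Finset.sum_congr rfl (fun u _ => ?_)
  rw [Nat.cast_prod]
  simp only [one_div]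
  rw [Finset.prod_inv_distrib]

theorem blk_lower (B₁ : ℝ) (P : Finset ℕ) (l : ℕ) (hP : ∀ p ∈ P, p.Prime)
    (hB : ∑ p ∈ P, 1 / (p : ℝ) ≤ B₁) :
    (∏ p ∈ P, (1 + 1 / (p : ℝ))) * (1 - (1 / 2) ^ l * Real.exp (2 * B₁)) ≤
      ∑ n ∈ blk P l, 1 / (n : ℝ) := by
  rw [blk_sum P l hP]
  have hsplit : ∏ p ∈ P, (1 + 1 / (p : ℝ)) =
      ∑ u ∈ P.powerset.filter (fun u => u.card ≤ l), ∏ p ∈ u, 1 / (p : ℝ) +
      ∑ u ∈ P.powerset.filter (fun u => ¬ u.card ≤ l), ∏ p ∈ u, 1 / (p : ℝ) := by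
    rw [Finset.sum_filter_add_sum_filter_not, Finset.prod_one_add]
  have htail : ∑ u ∈ P.powerset.filter (fun u => ¬ u.card ≤ l), ∏ p ∈ u, 1 / (p : ℝ) ≤
      (1 / 2) ^ l * Real.exp (2 * B₁) := by
    calc ∑ u ∈ P.powerset.filter (fun u => ¬ u.card ≤ l), ∏ p ∈ u, 1 / (p : ℝ)
        ≤ ∑ u ∈ P.powerset.filter (fun u => ¬ u.card ≤ l),
            (1 / 2) ^ l * ∏ p ∈ u, 2 / (p : ℝ) := by
          refine Finset.sum_le_sum (fun u hu => ?_)
          rw [Finset.mem_filter] at hu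
          have hcard : l ≤ u.card := by omega
          have h1 : ∏ p ∈ u, 2 / (p : ℝ) = 2 ^ u.card * ∏ p ∈ u, 1 / (p : ℝ) := by
            rw [← Finset.prod_const, ← Finset.prod_mul_distrib]
            refine Finset.prod_congr rfl (fun p _ => ?_)
            ring
          rw [h1]
          have h2 : 0 ≤ ∏ p ∈ u, 1 / (p : ℝ) :=
            Finset.prod_nonneg (fun p _ => by positivity)
          have h3 : (1 : ℝ) ≤ (1 / 2) ^ l * 2 ^ u.card := by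
            have h4 : (2 : ℝ) ^ l ≤ 2 ^ u.card :=
              pow_le_pow_right₀ (by norm_num) hcard
            have h5 : (1 / 2 : ℝ) ^ l * 2 ^ l = 1 := by
              rw [← mul_pow]; norm_num
            calc (1 : ℝ) = (1 / 2) ^ l * 2 ^ l := h5.symm
              _ ≤ _ := mul_le_mul_of_nonneg_left h4 (by positivity)
          calc ∏ p ∈ u, 1 / (p : ℝ) = 1 * ∏ p ∈ u, 1 / (p : ℝ) := (one_mul _).symm
            _ ≤ ((1 / 2) ^ l * 2 ^ u.card) * ∏ p ∈ u, 1 / (p : ℝ) :=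
              mul_le_mul_of_nonneg_right h3 h2
            _ = _ := by ring
      _ ≤ ∑ u ∈ P.powerset, (1 / 2) ^ l * ∏ p ∈ u, 2 / (p : ℝ) := by
          refine Finset.sum_le_sum_of_subset_of_nonneg (Finset.filter_subset _ _) ?_
          intro u _ _
          exact mul_nonneg (by positivity) (Finset.prod_nonneg (fun p _ => by positivity))
      _ = (1 / 2) ^ l * ∏ p ∈ P, (1 + 2 / (p : ℝ)) := by
          rw [Finset.prod_one_add, Finset.mul_sum]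
      _ ≤ (1 / 2) ^ l * Real.exp (2 * B₁) := by
          refine mul_le_mul_of_nonneg_left ?_ (by positivity)
          calc ∏ p ∈ P, (1 + 2 / (p : ℝ)) ≤ ∏ p ∈ P, Real.exp (2 / (p : ℝ)) := by
                refine Finset.prod_le_prod (fun p _ => by positivity) (fun p _ => ?_)
                have := Real.add_one_le_exp (2 / (p : ℝ))
                linarith
            _ = Real.exp (∑ p ∈ P, 2 / (p : ℝ)) := (Real.exp_sum _ _).symm
            _ ≤ Real.exp (2 * B₁) := by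
                rw [Real.exp_le_exp]
                have : ∑ p ∈ P, 2 / (p : ℝ) = 2 * ∑ p ∈ P, 1 / (p : ℝ) := by
                  rw [Finset.mul_sum]
                  refine Finset.sum_congr rfl (fun p _ => by ring)
                rw [this]
                linarith
  have hge : (1 : ℝ) ≤ ∏ p ∈ P, (1 + 1 / (p : ℝ)) := by
    calc (1 : ℝ) = ∏ p ∈ P, (1 : ℝ) := (Finset.prod_const_one).symm
      _ ≤ _ := Finset.prod_le_prod (fun _ _ => zero_le_one) (fun p _ => by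
        have : (0 : ℝ) ≤ 1 / (p : ℝ) := by positivity
        linarith)
  have hε : (0 : ℝ) ≤ (1 / 2) ^ l * Real.exp (2 * B₁) := by positivity
  nlinarith [mul_le_mul_of_nonneg_right hge hε]

theorem one_sub_sum (ε : ℕ → ℝ) (h0 : ∀ j, 0 ≤ ε j) (h1 : ∀ j, ε j ≤ 1) (J : ℕ) :
    1 - ∑ j ∈ Finset.range J, ε j ≤ ∏ j ∈ Finset.range J, (1 - ε j) := by
  induction J with
  | zero => simp
  | succ J ih =>
    rw [Finset.sum_range_succ, Finset.prod_range_succ]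
    have h2 : ∏ j ∈ Finset.range J, (1 - ε j) ≤ 1 :=
      Finset.prod_le_one (fun j _ => by linarith [h1 j]) (fun j _ => by linarith [h0 j])
    have h3 : 0 ≤ ∏ j ∈ Finset.range J, (1 - ε j) :=
      Finset.prod_nonneg (fun j _ => by linarith [h1 j])
    nlinarith [h0 J, h1 J, mul_nonneg (h0 J) (sub_nonneg.mpr h2)]

end B6

theorem Q_lower (B₁ : ℝ) (hB₁ : 0 ≤ B₁) : ∃ l₀ : ℕ, ∀ (P : ℕ → Finset ℕ) (J : ℕ),
    (∀ j < J, ∀ p ∈ P j, p.Prime) → (∀ i < J, ∀ j < J, i ≠ j → Disjoint (P i) (P j)) →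
    (∀ j < J, ∑ p ∈ P j, 1 / (p : ℝ) ≤ B₁) → ∀ l₁ : ℕ, l₀ ≤ l₁ →
    (1 / 2) * ∏ j ∈ Finset.range J, ∏ p ∈ P j, (1 + 1 / (p : ℝ)) ≤
      ∑ n ∈ SB P (fun j => l₁ + j) J, 1 / (n : ℝ) := by
  obtain ⟨l₀, hl₀⟩ := exists_pow_lt_of_lt_one (show (0 : ℝ) < 1 / (4 * Real.exp (2 * B₁)) by positivity)
    (show (1 / 2 : ℝ) < 1 by norm_num)
  refine ⟨l₀, ?_⟩
  intro P J hP hd hB l₁ hl₁
  have hsmall : (1 / 2 : ℝ) ^ l₁ * Real.exp (2 * B₁) ≤ 1 / 4 := by
    have h1 : (1 / 2 : ℝ) ^ l₁ ≤ (1 / 2) ^ l₀ :=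
      pow_le_pow_of_le_one (by norm_num) (by norm_num) hl₁
    have h2 : (1 / 2 : ℝ) ^ l₁ ≤ 1 / (4 * Real.exp (2 * B₁)) := h1.trans hl₀.le
    have h3 : 0 < Real.exp (2 * B₁) := Real.exp_pos _
    calc (1 / 2 : ℝ) ^ l₁ * Real.exp (2 * B₁) ≤ 1 / (4 * Real.exp (2 * B₁)) * Real.exp (2 * B₁) :=
        mul_le_mul_of_nonneg_right h2 h3.le
      _ = 1 / 4 := by field_simp
  set ε : ℕ → ℝ := fun j => (1 / 2) ^ (l₁ + j) * Real.exp (2 * B₁) with hεdef
  have hεj : ∀ j, ε j ≤ 1 / 4 * (1 / 2) ^ j := by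
    intro j
    simp only [hεdef]
    have : (1 / 2 : ℝ) ^ (l₁ + j) * Real.exp (2 * B₁) =
        ((1 / 2) ^ l₁ * Real.exp (2 * B₁)) * (1 / 2) ^ j := by
      rw [pow_add]; ring
    rw [this]
    exact mul_le_mul_of_nonneg_right hsmall (by positivity)
  have hε0 : ∀ j, 0 ≤ ε j := fun j => by simp only [hεdef]; positivity
  have hε1 : ∀ j, ε j ≤ 1 := fun j => (hεj j).trans (by
    have : (1 / 2 : ℝ) ^ j ≤ 1 := pow_le_one₀ (by norm_num) (by norm_num)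
    linarith)
  -- the main induction
  have key : ∀ J : ℕ, (∀ j < J, ∀ p ∈ P j, p.Prime) →
      (∀ i < J, ∀ j < J, i ≠ j → Disjoint (P i) (P j)) →
      (∀ j < J, ∑ p ∈ P j, 1 / (p : ℝ) ≤ B₁) →
      (∏ j ∈ Finset.range J, ∏ p ∈ P j, (1 + 1 / (p : ℝ))) *
        (∏ j ∈ Finset.range J, (1 - ε j)) ≤
      ∑ n ∈ SB P (fun j => l₁ + j) J, 1 / (n : ℝ) := by
    intro J
    induction J with
    | zero =>
      intro _ _ _
      simp [SB]
    | succ J ih =>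
      intro hP hd hB
      have ih' := ih (fun j hj => hP j (Nat.lt_succ_of_lt hj))
        (fun i hi j hj => hd i (Nat.lt_succ_of_lt hi) j (Nat.lt_succ_of_lt hj))
        (fun j hj => hB j (Nat.lt_succ_of_lt hj))
      rw [B6.SB_succ_sum P (fun j => l₁ + j) J hP hd, Finset.prod_range_succ, Finset.prod_range_succ]
      have hb := B6.blk_lower B₁ (P J) (l₁ + J) (hP J (Nat.lt_succ_self J)) (hB J (Nat.lt_succ_self J))
      have h1 : (0 : ℝ) ≤ (∏ p ∈ P J, (1 + 1 / (p : ℝ))) * (1 - ε J) :=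
        mul_nonneg (Finset.prod_nonneg (fun p _ => by positivity)) (by linarith [hε1 J])
      have h2 : (0 : ℝ) ≤ ∑ n ∈ SB P (fun j => l₁ + j) J, 1 / (n : ℝ) :=
        Finset.sum_nonneg (fun n _ => by positivity)
      calc (∏ j ∈ Finset.range J, ∏ p ∈ P j, (1 + 1 / (p : ℝ))) * (∏ p ∈ P J, (1 + 1 / (p : ℝ))) *
            ((∏ j ∈ Finset.range J, (1 - ε j)) * (1 - ε J))
          = ((∏ j ∈ Finset.range J, ∏ p ∈ P j, (1 + 1 / (p : ℝ))) *
              (∏ j ∈ Finset.range J, (1 - ε j))) *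
            ((∏ p ∈ P J, (1 + 1 / (p : ℝ))) * (1 - ε J)) := by ring
        _ ≤ (∑ n ∈ SB P (fun j => l₁ + j) J, 1 / (n : ℝ)) *
            ((∏ p ∈ P J, (1 + 1 / (p : ℝ))) * (1 - ε J)) := mul_le_mul_of_nonneg_right ih' h1
        _ ≤ (∑ n ∈ SB P (fun j => l₁ + j) J, 1 / (n : ℝ)) *
            ∑ n ∈ blk (P J) (l₁ + J), 1 / (n : ℝ) := mul_le_mul_of_nonneg_left hb h2
  have h1 := key J hP hd hB
  have h2 : (1 : ℝ) / 2 ≤ ∏ j ∈ Finset.range J, (1 - ε j) := by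
    have h3 : 1 - ∑ j ∈ Finset.range J, ε j ≤ ∏ j ∈ Finset.range J, (1 - ε j) :=
      B6.one_sub_sum ε hε0 hε1 J
    have h4 : ∑ j ∈ Finset.range J, ε j ≤ 1 / 2 := by
      calc ∑ j ∈ Finset.range J, ε j ≤ ∑ j ∈ Finset.range J, 1 / 4 * (1 / 2 : ℝ) ^ j :=
            Finset.sum_le_sum (fun j _ => hεj j)
        _ = 1 / 4 * ∑ j ∈ Finset.range J, (1 / 2 : ℝ) ^ j := (Finset.mul_sum _ _ _).symm
        _ ≤ 1 / 4 * 2 := by
            refine mul_le_mul_of_nonneg_left ?_ (by norm_num)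
            have h5 : Summable (fun j : ℕ => (1 / 2 : ℝ) ^ j) := summable_geometric_two
            calc ∑ j ∈ Finset.range J, (1 / 2 : ℝ) ^ j ≤ ∑' j : ℕ, (1 / 2 : ℝ) ^ j :=
                  h5.sum_le_tsum _ (fun j _ => by positivity)
              _ = 2 := tsum_geometric_two
        _ = 1 / 2 := by norm_num
    linarith
  have h3 : (0 : ℝ) ≤ ∏ j ∈ Finset.range J, ∏ p ∈ P j, (1 + 1 / (p : ℝ)) :=
    Finset.prod_nonneg (fun j _ => Finset.prod_nonneg (fun p _ => by positivity))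
  calc (1 / 2) * ∏ j ∈ Finset.range J, ∏ p ∈ P j, (1 + 1 / (p : ℝ))
      = (∏ j ∈ Finset.range J, ∏ p ∈ P j, (1 + 1 / (p : ℝ))) * (1 / 2) := mul_comm _ _
    _ ≤ (∏ j ∈ Finset.range J, ∏ p ∈ P j, (1 + 1 / (p : ℝ))) *
        (∏ j ∈ Finset.range J, (1 - ε j)) := mul_le_mul_of_nonneg_left h2 h3
    _ ≤ _ := h1

end Pool.Agent.H448R2.GC
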