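import Pool.Agent.H448R2.GC.Defs
import Pool.Agent.H305R2.MertensM

/-! TEAM GC, task P: prime sums (helper285). -/

set_option autoImplicit false

open Complex MeasureTheory Filter Topology

namespace Pool.Agent.H448R2.GC

theorem prime_window : ∃ C : ℝ, 0 < C ∧ ∀ z : ℝ, 1 ≤ z →
    ∑ p ∈ (Finset.Icc 1 ⌊z ^ 2⌋₊).filter (fun p : ℕ => p.Prime ∧ z < p), (1 / (p : ℝ)) ≤ C := by
  obtain ⟨C, hC⟩ := Pool.Agent.Helper601.Mertens.mertens_log
  have hl2 : (0 : ℝ) < Real.log 2 := Real.log_pos (by norm_num)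
  refine ⟨5 + |C| / Real.log 2, by positivity, fun z hz => ?_⟩
  rcases le_or_gt 2 z with h2 | h2
  · have hlz : 0 < Real.log z := Real.log_pos (by linarith)
    have hlz2 : Real.log 2 ≤ Real.log z := Real.log_le_log (by norm_num) h2
    have hN1 : 1 ≤ ⌊z ^ 2⌋₊ := Nat.le_floor (by push_cast; nlinarith)
    have hA := (abs_le.1 (hC ⌊z ^ 2⌋₊ hN1)).2
    have hlogN : Real.log (⌊z ^ 2⌋₊ : ℝ) ≤ 2 * Real.log z := by
      have : Real.log (⌊z ^ 2⌋₊ : ℝ) ≤ Real.log (z ^ 2) :=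
        Real.log_le_log (by exact_mod_cast hN1) (Nat.floor_le (by positivity))
      rwa [Real.log_pow] at this
    have h3 : ∑ p ∈ (Finset.Icc 1 ⌊z ^ 2⌋₊).filter (fun p : ℕ => p.Prime ∧ z < p), (1 / (p : ℝ)) ≤
        ∑ p ∈ (Finset.Icc 1 ⌊z ^ 2⌋₊).filter (fun p : ℕ => p.Prime ∧ z < p),
          (Real.log p / p) / Real.log z := by
      refine Finset.sum_le_sum fun p hp => ?_
      rw [Finset.mem_filter] at hp
      have hp0 : (0 : ℝ) < p := by exact_mod_cast hp.2.1.pos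
      have hlp : Real.log z ≤ Real.log p := Real.log_le_log (by linarith) hp.2.2.le
      rw [div_div, mul_comm, ← div_div]
      refine div_le_div_of_nonneg_right ?_ hp0.le
      rw [le_div_iff₀ hlz]; linarith
    have h4 : ∑ p ∈ (Finset.Icc 1 ⌊z ^ 2⌋₊).filter (fun p : ℕ => p.Prime ∧ z < p),
          (Real.log p / p) / Real.log z ≤
        ∑ p ∈ (Finset.Icc 1 ⌊z ^ 2⌋₊).filter Nat.Prime, (Real.log p / p) / Real.log z := by
      refine Finset.sum_le_sum_of_subset_of_nonneg ?_ ?_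
      · intro p hp
        rw [Finset.mem_filter] at hp ⊢
        exact ⟨hp.1, hp.2.1⟩
      · intro p hp _
        rw [Finset.mem_filter] at hp
        have : (0 : ℝ) ≤ Real.log p := Real.log_nonneg (by exact_mod_cast hp.2.one_lt.le)
        positivity
    have h5 : ∑ p ∈ (Finset.Icc 1 ⌊z ^ 2⌋₊).filter Nat.Prime, (Real.log p / p) / Real.log z ≤
        (2 * Real.log z + |C|) / Real.log z := by
      rw [← Finset.sum_div]
      refine div_le_div_of_nonneg_right ?_ hlz.le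
      have := le_abs_self C
      linarith
    have h6 : (2 * Real.log z + |C|) / Real.log z ≤ 5 + |C| / Real.log 2 := by
      rw [add_div, mul_div_assoc, div_self hlz.ne']
      have : |C| / Real.log z ≤ |C| / Real.log 2 :=
        div_le_div_of_nonneg_left (abs_nonneg _) hl2 hlz2
      linarith
    linarith
  · have hN : ⌊z ^ 2⌋₊ ≤ 3 := by
      have : ⌊z ^ 2⌋₊ < 4 := by
        rw [Nat.floor_lt (by positivity)]; push_cast; nlinarith
      omega
    have h3 : ∑ p ∈ (Finset.Icc 1 ⌊z ^ 2⌋₊).filter (fun p : ℕ => p.Prime ∧ z < p), (1 / (p : ℝ)) ≤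
        ∑ p ∈ Finset.Icc 1 3, (1 : ℝ) := by
      refine (Finset.sum_le_sum fun p hp => ?_).trans
        (Finset.sum_le_sum_of_subset_of_nonneg ?_ (fun _ _ _ => zero_le_one))
      · rw [Finset.mem_filter] at hp
        have : (1 : ℝ) ≤ p := by exact_mod_cast hp.2.1.one_lt.le
        rw [div_le_one (by linarith)]; exact this
      · intro p hp
        rw [Finset.mem_filter, Finset.mem_Icc] at hp
        exact Finset.mem_Icc.2 ⟨hp.1.1, hp.1.2.trans hN⟩
    have h4 : ∑ p ∈ Finset.Icc 1 3, (1 : ℝ) = 3 := by simp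
    have : 0 ≤ |C| / Real.log 2 := by positivity
    linarith

theorem prime_log : ∃ C : ℝ, 0 < C ∧ ∀ z : ℝ, 1 ≤ z →
    ∑ p ∈ (Finset.Icc 1 ⌊z⌋₊).filter (fun p : ℕ => p.Prime), (Real.log p / (p : ℝ)) ≤
      C * (1 + Real.log z) := by
  obtain ⟨C, hC⟩ := Pool.Agent.Helper601.Mertens.mertens_log
  refine ⟨1 + |C|, by positivity, fun z hz => ?_⟩
  have hN1 : 1 ≤ ⌊z⌋₊ := Nat.le_floor (by simpa using hz)
  have hA := (abs_le.1 (hC ⌊z⌋₊ hN1)).2
  have hlogN : Real.log (⌊z⌋₊ : ℝ) ≤ Real.log z :=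
    Real.log_le_log (by exact_mod_cast hN1) (Nat.floor_le (by linarith))
  have hlz : 0 ≤ Real.log z := Real.log_nonneg hz
  have h1 := le_abs_self C
  have h2 := abs_nonneg C
  have h3 : ∑ p ∈ (Finset.Icc 1 ⌊z⌋₊).filter (fun p : ℕ => p.Prime), (Real.log p / (p : ℝ)) ≤
      Real.log z + |C| := by
    have : ∑ p ∈ (Finset.Icc 1 ⌊z⌋₊).filter (fun p : ℕ => p.Prime), (Real.log p / (p : ℝ)) -
      Real.log (⌊z⌋₊ : ℝ) ≤ C := hA
    linarith
  nlinarith [mul_nonneg h2 hlz]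

theorem prime_prod : ∃ c : ℝ, 0 < c ∧ ∀ z : ℝ, 1 ≤ z →
    c * (1 + Real.log z) ≤ ∏ p ∈ (Finset.Icc 1 ⌊z⌋₊).filter (fun p : ℕ => p.Prime), (1 + 1 / (p : ℝ)) := by
  obtain ⟨M, hM⟩ := Pool.Agent.H305R2.mertens_inv_tendsto
  have hs : Summable (fun n : ℕ => 1 / (n : ℝ) ^ 2) := Real.summable_one_div_nat_pow.2 (by norm_num)
  set S : ℝ := ∑' n : ℕ, 1 / (n : ℝ) ^ 2 with hS
  have hev := (hM.eventually (eventually_ge_nhds (show M - 1 < M by linarith)))
  obtain ⟨N₀, hN₀⟩ := eventually_atTop.1 hev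
  set N₁ : ℕ := max N₀ 3 with hN₁
  -- lower bound of the product
  have hprod : ∀ N : ℕ, N₁ ≤ N → Real.exp (M - 1 - S) * Real.log N ≤
      ∏ p ∈ (Finset.Icc 1 N).filter (fun p : ℕ => p.Prime), (1 + 1 / (p : ℝ)) := by
    intro N hN
    have hN3 : 3 ≤ N := (le_max_right _ _).trans hN
    have h1 := hN₀ N ((le_max_left _ _).trans hN)
    have hlogN : 0 < Real.log N := Real.log_pos (by exact_mod_cast (by omega : 1 < N))
    have h2 : Real.exp (∑ p ∈ (Finset.Icc 1 N).filter (fun p : ℕ => p.Prime),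
        (1 / (p : ℝ) - 1 / (p : ℝ) ^ 2)) ≤
        ∏ p ∈ (Finset.Icc 1 N).filter (fun p : ℕ => p.Prime), (1 + 1 / (p : ℝ)) := by
      rw [Real.exp_sum]
      refine Finset.prod_le_prod (fun _ _ => (Real.exp_pos _).le) fun p hp => ?_
      rw [Finset.mem_filter] at hp
      have hp0 : (0 : ℝ) < p := by exact_mod_cast hp.2.pos
      have hx : (0 : ℝ) < 1 / p := by positivity
      have h3 := Real.one_sub_inv_le_log_of_pos (show (0 : ℝ) < 1 + 1 / p by positivity)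
      have h4 : 1 / (p : ℝ) - 1 / (p : ℝ) ^ 2 ≤ Real.log (1 + 1 / p) := by
        refine le_trans ?_ h3
        have : 1 - (1 + 1 / (p : ℝ))⁻¹ = 1 / (p + 1) := by field_simp; ring
        rw [this, le_div_iff₀ (by positivity)]
        have : (1 / (p : ℝ) - 1 / (p : ℝ) ^ 2) * (p + 1) = 1 - 1 / (p : ℝ) ^ 2 := by
          field_simp; ring
        rw [this]
        have : 0 < 1 / (p : ℝ) ^ 2 := by positivity
        linarith
      calc Real.exp (1 / (p : ℝ) - 1 / (p : ℝ) ^ 2) ≤ Real.exp (Real.log (1 + 1 / p)) :=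
            Real.exp_le_exp.2 h4
        _ = 1 + 1 / p := Real.exp_log (by positivity)
    have h3 : ∑ p ∈ (Finset.Icc 1 N).filter (fun p : ℕ => p.Prime), (1 / (p : ℝ) ^ 2) ≤ S :=
      hs.sum_le_tsum _ (fun _ _ => by positivity)
    have h4 : M - 1 - S + Real.log (Real.log N) ≤
        ∑ p ∈ (Finset.Icc 1 N).filter (fun p : ℕ => p.Prime), (1 / (p : ℝ) - 1 / (p : ℝ) ^ 2) := by
      rw [Finset.sum_sub_distrib]
      have h5 : M - 1 ≤ ∑ p ∈ (Finset.Icc 1 N).filter (fun p : ℕ => p.Prime), (1 / (p : ℝ)) -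
        Real.log (Real.log N) := h1
      linarith
    calc Real.exp (M - 1 - S) * Real.log N = Real.exp (M - 1 - S + Real.log (Real.log N)) := by
          rw [Real.exp_add, Real.exp_log hlogN]
      _ ≤ _ := (Real.exp_le_exp.2 h4).trans h2
  have hone : ∀ N : ℕ, (1 : ℝ) ≤
      ∏ p ∈ (Finset.Icc 1 N).filter (fun p : ℕ => p.Prime), (1 + 1 / (p : ℝ)) := by
    intro N
    calc (1 : ℝ) = ∏ p ∈ (Finset.Icc 1 N).filter (fun p : ℕ => p.Prime), (1 : ℝ) := by simp
      _ ≤ _ := Finset.prod_le_prod (fun _ _ => zero_le_one) fun p _ => by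
        have : (0 : ℝ) ≤ 1 / (p : ℝ) := by positivity
        linarith
  have hlN1 : 0 ≤ Real.log (N₁ + 1 : ℝ) := Real.log_nonneg (by linarith [Nat.cast_nonneg (α := ℝ) N₁])
  set c : ℝ := min (Real.exp (M - 1 - S) / 3) (1 / (1 + Real.log (N₁ + 1 : ℝ))) with hc
  refine ⟨c, by positivity, fun z hz => ?_⟩
  have hlz : 0 ≤ Real.log z := Real.log_nonneg hz
  have hz1 : z < (⌊z⌋₊ : ℝ) + 1 := Nat.lt_floor_add_one z
  rcases le_or_gt N₁ ⌊z⌋₊ with h | h
  · refine le_trans ?_ (hprod _ h)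
    have hN3 : 3 ≤ ⌊z⌋₊ := (le_max_right _ _).trans h
    have hN3' : (3 : ℝ) ≤ (⌊z⌋₊ : ℝ) := by exact_mod_cast hN3
    have h1 : 1 ≤ Real.log (⌊z⌋₊ : ℝ) := by
      rw [Real.le_log_iff_exp_le (by linarith)]
      linarith [Real.exp_one_lt_d9]
    have h2 : Real.log z ≤ 2 * Real.log (⌊z⌋₊ : ℝ) := by
      have : Real.log z ≤ Real.log ((⌊z⌋₊ : ℝ) ^ 2) :=
        Real.log_le_log (by linarith) (by nlinarith)
      rwa [Real.log_pow] at this
    have h3 : c ≤ Real.exp (M - 1 - S) / 3 := min_le_left _ _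
    have h4 : 0 ≤ Real.exp (M - 1 - S) := (Real.exp_pos _).le
    calc c * (1 + Real.log z) ≤ Real.exp (M - 1 - S) / 3 * (1 + Real.log z) :=
          mul_le_mul_of_nonneg_right h3 (by linarith)
      _ ≤ Real.exp (M - 1 - S) / 3 * (3 * Real.log (⌊z⌋₊ : ℝ)) :=
          mul_le_mul_of_nonneg_left (by linarith) (by positivity)
      _ = _ := by ring
  · refine le_trans ?_ (hone _)
    have h1 : Real.log z ≤ Real.log (N₁ + 1 : ℝ) := by
      refine Real.log_le_log (by linarith) ?_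
      have : ((⌊z⌋₊ : ℝ)) + 1 ≤ N₁ := by exact_mod_cast h
      linarith
    have h3 : c ≤ 1 / (1 + Real.log (N₁ + 1 : ℝ)) := min_le_right _ _
    calc c * (1 + Real.log z) ≤ 1 / (1 + Real.log (N₁ + 1 : ℝ)) * (1 + Real.log (N₁ + 1 : ℝ)) :=
          mul_le_mul h3 (by linarith) (by linarith) (by positivity)
      _ = 1 := by field_simp

end Pool.Agent.H448R2.GC
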