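import Pool.Agent.H448R2.GC.Defs
import Pool.Agent.H448R2.GC.B2
import Pool.Agent.H448R2.GC.B3
import Pool.Agent.H448R2.GC.B4
import Pool.Agent.H448R2.GC.B5
import Pool.Agent.H448R2.GC.B6
import Pool.Agent.H448R2.GC.P

/-! TEAM GC, task B7: assembly of the block mollifier. -/

open Complex MeasureTheory Filter Topology

namespace Pool.Agent.H448R2.GC

namespace B7

theorem geom_le (J : ℕ) : ∑ j ∈ Finset.range J, ((1 : ℝ) / 2) ^ j ≤ 2 := by
  have h : ∀ J : ℕ, ∑ j ∈ Finset.range J, ((1 : ℝ) / 2) ^ j = 2 - 2 * (1 / 2) ^ J := by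
    intro J
    induction J with
    | zero => simp
    | succ J ih => rw [Finset.sum_range_succ, ih, pow_succ]; ring
  rw [h J]
  have : (0 : ℝ) < (1 / 2) ^ J := by positivity
  linarith

theorem sum_min_aux (m : ℕ) : ∀ (θ : ℝ), 0 ≤ θ → θ ≤ 2 ^ m → ∀ J : ℕ,
    ∑ j ∈ Finset.range J, min 1 (θ * (1 / 2) ^ j) ≤ m + 2 := by
  induction m with
  | zero =>
    intro θ hθ h1 J
    have h2 : ∑ j ∈ Finset.range J, min 1 (θ * (1 / 2) ^ j) ≤
        ∑ j ∈ Finset.range J, ((1 : ℝ) / 2) ^ j := by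
      refine Finset.sum_le_sum fun j _ => ?_
      refine (min_le_right _ _).trans ?_
      have : (0 : ℝ) < (1 / 2) ^ j := by positivity
      rw [pow_zero] at h1
      nlinarith
    have h3 := geom_le J
    push_cast
    linarith
  | succ m ih =>
    intro θ hθ h1 J
    cases J with
    | zero =>
      simp only [Finset.range_zero, Finset.sum_empty]
      positivity
    | succ J =>
      rw [Finset.sum_range_succ']
      have h2 := ih (θ / 2) (by positivity) (by rw [pow_succ] at h1; linarith) J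
      have h3 : ∑ j ∈ Finset.range J, min 1 (θ * (1 / 2) ^ (j + 1)) =
          ∑ j ∈ Finset.range J, min 1 (θ / 2 * (1 / 2) ^ j) := by
        refine Finset.sum_congr rfl fun j _ => ?_
        congr 1
        rw [pow_succ]; ring
      rw [h3]
      have h4 : min 1 (θ * (1 / 2) ^ 0) ≤ 1 := min_le_left _ _
      push_cast
      linarith

end B7

/-- sum of the block errors -/
theorem sum_min (θ : ℝ) (hθ : 0 ≤ θ) (J : ℕ) :
    ∑ j ∈ Finset.range J, min 1 (θ * (1 / 2) ^ j) ≤ 3 + 2 * Real.log (1 + θ) := by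
  set m : ℕ := ⌈Real.log (1 + θ) / Real.log 2⌉₊ with hm
  have hlog2 : (0 : ℝ) < Real.log 2 := Real.log_pos (by norm_num)
  have hlog : 0 ≤ Real.log (1 + θ) := Real.log_nonneg (by linarith)
  have h1 : Real.log (1 + θ) / Real.log 2 ≤ m := Nat.le_ceil _
  have h2 : (m : ℝ) < Real.log (1 + θ) / Real.log 2 + 1 :=
    Nat.ceil_lt_add_one (by positivity)
  have h3 : θ ≤ 2 ^ m := by
    have : Real.log (1 + θ) ≤ Real.log ((2 : ℝ) ^ m) := by
      rw [Real.log_pow]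
      rwa [div_le_iff₀ hlog2] at h1
    have h4 : 1 + θ ≤ (2 : ℝ) ^ m := (Real.log_le_log_iff (by linarith) (by positivity)).1 this
    linarith
  have h4 := B7.sum_min_aux m θ hθ h3 J
  have h5 : Real.log (1 + θ) / Real.log 2 ≤ 2 * Real.log (1 + θ) := by
    rw [div_le_iff₀ hlog2]
    have : (1 : ℝ) / 2 ≤ Real.log 2 := by
      have := Real.log_two_gt_d9
      linarith
    nlinarith
  linarith

namespace B7

/-- one block -/
theorem NP_blk (A' B₁ : ℝ) (hA' : 0 ≤ A') (hB₁ : 0 ≤ B₁) : ∃ C : ℝ, 0 < C ∧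
    ∀ (P : Finset ℕ) (z : ℝ) (l : ℕ) (α : ℂ) (β : ℝ), 1 ≤ z →
    (∀ p ∈ P, p.Prime ∧ 5 ≤ p ∧ (p : ℝ) ≤ z) →
    ∑ p ∈ P, 1 / (p : ℝ) ≤ B₁ → 0 < α.re → |β| * Real.log z ≤ A' →
    NP P (blk P l) α β ≤ ENNReal.ofReal (Real.exp (∑ p ∈ P, 1 / (p : ℝ) +
        C * (min 1 ((‖α‖ + |β|) * Real.log z) + ∑ p ∈ P, 1 / (p : ℝ) ^ 2 + (1 / 2) ^ l))) := by
  obtain ⟨C1, hC1, h1⟩ := Pool.Agent.H448R2.GC.hh_sum A' B₁ hA' hB₁
  obtain ⟨C2, hC2, h2⟩ := Pool.Agent.H448R2.GC.cc_tail A' B₁ hA' hB₁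
  refine ⟨C1 + C2, by linarith, ?_⟩
  intro P z l α β hz hP hB hα hβ
  have h1' := h1 P z α β hz hP hB hα hβ
  have h2' := h2 P z l α β hz hP hB hα hβ
  have hlog : 0 ≤ Real.log z := Real.log_nonneg hz
  set E : ℝ := ∑ p ∈ P, 1 / (p : ℝ) +
        C1 * (min 1 ((‖α‖ + |β|) * Real.log z) + ∑ p ∈ P, 1 / (p : ℝ) ^ 2) with hE
  have hmin : 0 ≤ min 1 ((‖α‖ + |β|) * Real.log z) := by
    apply le_min (by norm_num)
    positivity
  have hs1 : 0 ≤ ∑ p ∈ P, 1 / (p : ℝ) := Finset.sum_nonneg fun _ _ => by positivity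
  have hs2 : 0 ≤ ∑ p ∈ P, 1 / (p : ℝ) ^ 2 := Finset.sum_nonneg fun _ _ => by positivity
  have hE0 : 0 ≤ E := by positivity
  have key : NP P (blk P l) α β ≤
      (∑' n : Nat.factoredNumbers P, ENNReal.ofReal (‖hh α β (n : ℕ)‖ ^ 2)) +
      ∑' n : Nat.factoredNumbers P, (if ArithmeticFunction.cardFactors (n : ℕ) ≤ l then 0 else
      ENNReal.ofReal (‖cc (blk P l) α β (n : ℕ)‖ ^ 2)) := by
    rw [← ENNReal.tsum_add]
    refine ENNReal.tsum_le_tsum fun n => ?_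
    by_cases hn : ArithmeticFunction.cardFactors (n : ℕ) ≤ l
    · rw [if_pos hn, add_zero, Pool.Agent.H448R2.GC.cc_eq_hh P (fun p hp => (hP p hp).1) l n n.2 hn α β]
    · rw [if_neg hn]
      exact le_add_self
  refine key.trans ((add_le_add h1' h2').trans ?_)
  rw [← ENNReal.ofReal_add (by positivity) (by positivity)]
  apply ENNReal.ofReal_le_ofReal
  have e1 : 1 ≤ Real.exp E := Real.one_le_exp hE0
  have e2 : C2 * (1 / 2) ^ l + 1 ≤ Real.exp (C2 * (1 / 2) ^ l) := Real.add_one_le_exp _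
  have e3 : 0 ≤ C2 * (1 / 2 : ℝ) ^ l := by positivity
  calc Real.exp E + C2 * (1 / 2) ^ l ≤ Real.exp E * Real.exp (C2 * (1 / 2) ^ l) := by nlinarith
    _ = Real.exp (E + C2 * (1 / 2) ^ l) := (Real.exp_add _ _).symm
    _ ≤ _ := by
        apply Real.exp_le_exp.2
        rw [hE]
        have e4 : 0 ≤ C1 * (1 / 2 : ℝ) ^ l := by positivity
        have e5 : 0 ≤ C2 * (min 1 ((‖α‖ + |β|) * Real.log z) + ∑ p ∈ P, 1 / (p : ℝ) ^ 2) := by
          positivity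
        nlinarith

/-- all blocks -/
theorem NN_bound (P : ℕ → Finset ℕ) (l : ℕ → ℕ) (J : ℕ) (hP : ∀ j < J, ∀ p ∈ P j, p.Prime)
    (hd : ∀ i < J, ∀ j < J, i ≠ j → Disjoint (P i) (P j)) (α : ℂ) (β : ℝ) (hα : 0 < α.re)
    (b : ℕ → ℝ)
    (hb : ∀ j < J, NP (P j) (blk (P j) (l j)) α β ≤ ENNReal.ofReal (Real.exp (b j))) :
    NN (SB P l J) α β ≤ ENNReal.ofReal ((1 + 1 / (2 * α.re)) *
      Real.exp (∑ j ∈ Finset.range J, (b j - ∑ p ∈ P j, (p : ℝ) ^ (-1 - 2 * α.re)))) := by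
  have h0 := Pool.Agent.H448R2.GC.norm_prod P l J hP hd α β
  set a : ℕ → ℝ := fun j => ∑ p ∈ P j, (p : ℝ) ^ (-1 - 2 * α.re) with ha
  have h1 : ENNReal.ofReal (Real.exp (∑ j ∈ Finset.range J, a j)) ≤
      ∏ j ∈ Finset.range J, NP (P j) {1} α β := by
    rw [Real.exp_sum, ENNReal.ofReal_prod_of_nonneg (fun _ _ => (Real.exp_pos _).le)]
    refine Finset.prod_le_prod' fun j hj => ?_
    exact Pool.Agent.H448R2.GC.NP_one (P j) (hP j (Finset.mem_range.1 hj)) α β hα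
  have h2 : ∏ j ∈ Finset.range J, NP (P j) (blk (P j) (l j)) α β ≤
      ENNReal.ofReal (Real.exp (∑ j ∈ Finset.range J, b j)) := by
    rw [Real.exp_sum, ENNReal.ofReal_prod_of_nonneg (fun _ _ => (Real.exp_pos _).le)]
    refine Finset.prod_le_prod' fun j hj => ?_
    exact hb j (Finset.mem_range.1 hj)
  have h3 : NN {1} α β ≤ ENNReal.ofReal (1 + 1 / (2 * α.re)) := Pool.Agent.H448R2.GC.NN_one α β hα
  have h4 : NN (SB P l J) α β * ENNReal.ofReal (Real.exp (∑ j ∈ Finset.range J, a j)) ≤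
      ENNReal.ofReal (1 + 1 / (2 * α.re)) *
        ENNReal.ofReal (Real.exp (∑ j ∈ Finset.range J, b j)) :=
    calc NN (SB P l J) α β * ENNReal.ofReal (Real.exp (∑ j ∈ Finset.range J, a j)) ≤
        NN (SB P l J) α β * ∏ j ∈ Finset.range J, NP (P j) {1} α β := by gcongr
      _ = NN {1} α β * ∏ j ∈ Finset.range J, NP (P j) (blk (P j) (l j)) α β := h0
      _ ≤ _ := by gcongr
  have h5 : ENNReal.ofReal (Real.exp (∑ j ∈ Finset.range J, a j)) *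
      ENNReal.ofReal (Real.exp (-∑ j ∈ Finset.range J, a j)) = 1 := by
    rw [← ENNReal.ofReal_mul (Real.exp_pos _).le, ← Real.exp_add]
    simp
  calc NN (SB P l J) α β = NN (SB P l J) α β * (ENNReal.ofReal (Real.exp (∑ j ∈ Finset.range J, a j)) *
      ENNReal.ofReal (Real.exp (-∑ j ∈ Finset.range J, a j))) := by rw [h5, mul_one]
    _ = (NN (SB P l J) α β * ENNReal.ofReal (Real.exp (∑ j ∈ Finset.range J, a j))) *
      ENNReal.ofReal (Real.exp (-∑ j ∈ Finset.range J, a j)) := by rw [mul_assoc]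
    _ ≤ (ENNReal.ofReal (1 + 1 / (2 * α.re)) *
        ENNReal.ofReal (Real.exp (∑ j ∈ Finset.range J, b j))) *
      ENNReal.ofReal (Real.exp (-∑ j ∈ Finset.range J, a j)) := by gcongr
    _ = _ := by
      rw [← ENNReal.ofReal_mul (by positivity), ← ENNReal.ofReal_mul (by positivity), mul_assoc,
        ← Real.exp_add, Finset.sum_sub_distrib, sub_eq_add_neg]

/-! the scales -/

noncomputable def zz (z0 : ℝ) (j : ℕ) : ℝ := z0 ^ ((1 / 2 : ℝ) ^ j)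

theorem zz_zero (z0 : ℝ) : zz z0 0 = z0 := by simp [zz]

theorem zz_sq (z0 : ℝ) (h : 1 ≤ z0) (j : ℕ) : zz z0 (j + 1) ^ 2 = zz z0 j := by
  unfold zz
  rw [← Real.rpow_natCast, ← Real.rpow_mul (by linarith)]
  congr 1
  rw [pow_succ]
  push_cast
  ring

theorem one_le_zz (z0 : ℝ) (h : 1 ≤ z0) (j : ℕ) : 1 ≤ zz z0 j :=
  Real.one_le_rpow h (by positivity)

theorem log_zz (z0 : ℝ) (h : 1 ≤ z0) (j : ℕ) :
    Real.log (zz z0 j) = (1 / 2) ^ j * Real.log z0 := by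
  unfold zz
  rw [Real.log_rpow (by linarith)]

theorem zz_anti (z0 : ℝ) (h : 1 ≤ z0) {i j : ℕ} (hij : i ≤ j) : zz z0 j ≤ zz z0 i := by
  unfold zz
  apply Real.rpow_le_rpow_of_exponent_le h
  exact pow_le_pow_of_le_one (by norm_num) (by norm_num) hij

theorem exists_J (z0 : ℝ) (h : 1 ≤ z0) : ∃ J : ℕ, zz z0 J < 25 ∧ ∀ j < J, 25 ≤ zz z0 j := by
  have hex : ∃ J : ℕ, zz z0 J < 25 := by
    have h1 : Tendsto (fun j : ℕ => ((1 : ℝ) / 2) ^ j) atTop (𝓝 0) :=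
      tendsto_pow_atTop_nhds_zero_of_lt_one (by norm_num) (by norm_num)
    have h2 : Tendsto (fun j : ℕ => zz z0 j) atTop (𝓝 (z0 ^ (0 : ℝ))) := by
      unfold zz
      exact (Real.continuous_const_rpow (by positivity)).continuousAt.tendsto.comp h1
    rw [Real.rpow_zero] at h2
    exact (h2.eventually (gt_mem_nhds (by norm_num : (1 : ℝ) < 25))).exists
  classical
  refine ⟨Nat.find hex, Nat.find_spec hex, fun j hj => ?_⟩
  exact not_lt.1 (Nat.find_min hex hj)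

/-- primes up to `z` -/
noncomputable def pr (z : ℝ) : Finset ℕ := (Finset.Icc 1 ⌊z⌋₊).filter (fun p : ℕ => p.Prime)

/-- the windows -/
noncomputable def PP (z0 : ℝ) (j : ℕ) : Finset ℕ :=
  (Finset.Icc 1 ⌊zz z0 (j + 1) ^ 2⌋₊).filter (fun p : ℕ => p.Prime ∧ zz z0 (j + 1) < p)

theorem mem_pr {z : ℝ} (hz : 0 ≤ z) {p : ℕ} : p ∈ pr z ↔ p.Prime ∧ (p : ℝ) ≤ z := by
  unfold pr
  rw [Finset.mem_filter, Finset.mem_Icc, Nat.le_floor_iff hz]
  constructor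
  · rintro ⟨⟨_, h⟩, h'⟩; exact ⟨h', h⟩
  · rintro ⟨h, h'⟩; exact ⟨⟨h.one_lt.le, h'⟩, h⟩

theorem mem_PP {z0 : ℝ} (h : 1 ≤ z0) {j p : ℕ} :
    p ∈ PP z0 j ↔ p.Prime ∧ zz z0 (j + 1) < p ∧ (p : ℝ) ≤ zz z0 j := by
  unfold PP
  rw [zz_sq z0 h, Finset.mem_filter, Finset.mem_Icc,
    Nat.le_floor_iff (by linarith [one_le_zz z0 h j])]
  constructor
  · rintro ⟨⟨_, h⟩, h', h''⟩; exact ⟨h', h'', h⟩
  · rintro ⟨h, h', h''⟩; exact ⟨⟨h.one_lt.le, h''⟩, h, h'⟩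

theorem pr_union {z0 : ℝ} (h : 1 ≤ z0) (j : ℕ) :
    pr (zz z0 j) = PP z0 j ∪ pr (zz z0 (j + 1)) := by
  have h1 := one_le_zz z0 h j
  have h2 := one_le_zz z0 h (j + 1)
  have h3 : zz z0 (j + 1) ≤ zz z0 j := zz_anti z0 h (Nat.le_succ j)
  ext p
  rw [Finset.mem_union, mem_pr (by linarith), mem_pr (by linarith), mem_PP h]
  constructor
  · rintro ⟨hp, hp2⟩
    by_cases hq : (p : ℝ) ≤ zz z0 (j + 1)
    · exact Or.inr ⟨hp, hq⟩
    · exact Or.inl ⟨hp, not_le.1 hq, hp2⟩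
  · rintro (⟨hp, _, hp2⟩ | ⟨hp, hp2⟩)
    · exact ⟨hp, hp2⟩
    · exact ⟨hp, hp2.trans h3⟩

theorem pr_disj {z0 : ℝ} (h : 1 ≤ z0) (j : ℕ) : Disjoint (PP z0 j) (pr (zz z0 (j + 1))) := by
  have h2 := one_le_zz z0 h (j + 1)
  rw [Finset.disjoint_left]
  intro p hp hp'
  rw [mem_PP h] at hp
  rw [mem_pr (by linarith)] at hp'
  linarith [hp.2.1, hp'.2]

theorem PP_disj {z0 : ℝ} (h : 1 ≤ z0) {i j : ℕ} (hij : i ≠ j) : Disjoint (PP z0 i) (PP z0 j) := by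
  rw [Finset.disjoint_left]
  intro p hp hp'
  rw [mem_PP h] at hp hp'
  rcases lt_or_gt_of_ne hij with h1 | h1
  · have := zz_anti z0 h (show i + 1 ≤ j by omega)
    linarith [hp.2.1, hp'.2.2]
  · have := zz_anti z0 h (show j + 1 ≤ i by omega)
    linarith [hp'.2.1, hp.2.2]

theorem sum_PP {z0 : ℝ} (h : 1 ≤ z0) (f : ℕ → ℝ) (J : ℕ) :
    (∑ j ∈ Finset.range J, ∑ p ∈ PP z0 j, f p) + ∑ p ∈ pr (zz z0 J), f p = ∑ p ∈ pr z0, f p := by
  induction J with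
  | zero => simp [zz_zero]
  | succ J ih =>
    rw [Finset.sum_range_succ, ← ih, pr_union h J, Finset.sum_union (pr_disj h J)]
    ring

theorem prod_PP {z0 : ℝ} (h : 1 ≤ z0) (f : ℕ → ℝ) (J : ℕ) :
    (∏ j ∈ Finset.range J, ∏ p ∈ PP z0 j, f p) * ∏ p ∈ pr (zz z0 J), f p = ∏ p ∈ pr z0, f p := by
  induction J with
  | zero => simp [zz_zero]
  | succ J ih =>
    rw [Finset.prod_range_succ, ← ih, pr_union h J, Finset.prod_union (pr_disj h J)]
    ring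

theorem expo_sum (l₁ J : ℕ) : ∑ j ∈ Finset.range J, ((1 : ℝ) / 2) ^ j * ((l₁ : ℝ) + j) =
    2 * l₁ + 2 - (1 / 2) ^ J * (2 * l₁ + 2 * J + 2) := by
  induction J with
  | zero => simp
  | succ J ih =>
    rw [Finset.sum_range_succ, ih, pow_succ]
    push_cast
    ring

theorem prod_size {z0 : ℝ} (h : 1 ≤ z0) (l₁ J : ℕ) :
    ∏ j ∈ Finset.range J, zz z0 j ^ (l₁ + j) ≤ z0 ^ ((2 : ℝ) * l₁ + 2) := by
  have h0 : (0 : ℝ) < z0 := by linarith
  have h1 : ∏ j ∈ Finset.range J, zz z0 j ^ (l₁ + j) =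
      z0 ^ (∑ j ∈ Finset.range J, ((1 : ℝ) / 2) ^ j * ((l₁ : ℝ) + j)) := by
    rw [Real.rpow_sum_of_pos h0]
    refine Finset.prod_congr rfl fun j _ => ?_
    unfold zz
    rw [← Real.rpow_natCast, ← Real.rpow_mul h0.le]
    push_cast
    rfl
  rw [h1, expo_sum]
  apply Real.rpow_le_rpow_of_exponent_le h
  have : (0 : ℝ) ≤ (1 / 2) ^ J * (2 * l₁ + 2 * J + 2) := by positivity
  linarith

theorem sum_sq_le (S : Finset ℕ) (h : ∀ n ∈ S, 1 ≤ n) : ∑ n ∈ S, 1 / (n : ℝ) ^ 2 ≤ 2 := by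
  have h1 : S ⊆ Finset.Icc 1 (S.sup id) := by
    intro n hn
    rw [Finset.mem_Icc]
    exact ⟨h n hn, Finset.le_sup (f := id) hn⟩
  have h2 : ∑ n ∈ S, 1 / (n : ℝ) ^ 2 ≤ ∑ n ∈ Finset.Icc 1 (S.sup id), 1 / (n : ℝ) ^ 2 :=
    Finset.sum_le_sum_of_subset_of_nonneg h1 fun _ _ _ => by positivity
  have h3 : ∀ N : ℕ, ∑ n ∈ Finset.Icc 1 (N + 1), 1 / (n : ℝ) ^ 2 ≤ 2 - 1 / ((N : ℝ) + 1) := by
    intro N
    induction N with
    | zero => simp; norm_num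
    | succ N ih =>
      rw [Finset.sum_Icc_succ_top (by omega)]
      have h6 : (1 : ℝ) / (((N + 1 + 1 : ℕ) : ℝ)) ^ 2 ≤ 1 / ((N : ℝ) + 1) - 1 / ((N : ℝ) + 1 + 1) := by
        push_cast
        rw [div_sub_div _ _ (by positivity) (by positivity), div_le_div_iff₀ (by positivity) (by positivity)]
        nlinarith [(Nat.cast_nonneg N : (0 : ℝ) ≤ N)]
      have h7 : (((N + 1 : ℕ) : ℝ) + 1) = (N : ℝ) + 1 + 1 := by push_cast; ring
      rw [h7]
      linarith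
  rcases Nat.eq_zero_or_pos (S.sup id) with h0 | h0
  · rw [h0] at h2
    simp at h2
    have : (0 : ℝ) ≤ 2 := by norm_num
    simp only [one_div]
    linarith
  · obtain ⟨N, hN⟩ := Nat.exists_eq_succ_of_ne_zero h0.ne'
    rw [hN] at h2
    have h4 := h3 N
    have h5 : (0 : ℝ) < 1 / ((N : ℝ) + 1) := by positivity
    linarith

theorem prod_pr_le (z : ℝ) (hz : 0 ≤ z) (h : z < 25) :
    ∏ p ∈ pr z, (1 + 1 / (p : ℝ)) ≤ 2 ^ 25 := by
  have h1 : ∏ p ∈ pr z, (1 + 1 / (p : ℝ)) ≤ ∏ p ∈ pr z, (2 : ℝ) := by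
    refine Finset.prod_le_prod (fun _ _ => by positivity) fun p hp => ?_
    rw [mem_pr hz] at hp
    have hp1 : (1 : ℝ) ≤ p := by exact_mod_cast hp.1.one_lt.le
    have : 1 / (p : ℝ) ≤ 1 := by
      rw [div_le_one (by linarith)]
      exact hp1
    linarith
  rw [Finset.prod_const] at h1
  refine h1.trans (pow_le_pow_right₀ (by norm_num) ?_)
  have h2 : pr z ⊆ Finset.Icc 1 25 := by
    intro p hp
    rw [mem_pr hz] at hp
    rw [Finset.mem_Icc]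
    refine ⟨hp.1.one_lt.le, ?_⟩
    have : (p : ℝ) < 25 := lt_of_le_of_lt hp.2 h
    exact_mod_cast this.le
  exact (Finset.card_le_card h2).trans (by simp)

theorem point_le (p : ℕ) (hp : 1 ≤ p) (r : ℝ) :
    1 / (p : ℝ) - (p : ℝ) ^ (-1 - 2 * r) ≤ 2 * r * (Real.log p / p) := by
  have hp0 : (0 : ℝ) < p := by exact_mod_cast hp
  have h1 : (p : ℝ) ^ (-1 - 2 * r) = 1 / (p : ℝ) * Real.exp (-(2 * r * Real.log p)) := by
    rw [sub_eq_add_neg, Real.rpow_add hp0, Real.rpow_neg_one, one_div,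
      Real.rpow_def_of_pos hp0 (-(2 * r))]
    congr 2
    ring
  rw [h1]
  have h2 : -(2 * r * Real.log p) + 1 ≤ Real.exp (-(2 * r * Real.log p)) := Real.add_one_le_exp _
  have h3 : (0 : ℝ) < 1 / p := by positivity
  have h4 : 2 * r * (Real.log p / p) = 1 / p * (2 * r * Real.log p) := by ring
  rw [h4]
  nlinarith

/-- the final numerical estimate -/
theorem final_num (A' L ν' Cl Cb ar ai nα β : ℝ) (K₀ : ℕ) (J l₁ : ℕ) (z0 : ℝ) (hz0 : 1 ≤ z0)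
    (hA' : 0 ≤ A') (hL : 1 ≤ L) (hν'0 : 0 < ν') (hν' : ν' ≤ 1)
    (hCl : 0 < Cl) (hCb : 0 < Cb) (hK : 2 * Cb ≤ K₀) (hlogz : Real.log z0 = ν' * L)
    (h1 : 1 / L ≤ ar) (h2 : ar ≤ A' / L) (h3 : |β| ≤ A' / L) (hnα : nα ≤ |ar| + |ai|)
    (hnα0 : 0 ≤ nα)
    (hlogp : ∑ p ∈ pr z0, (Real.log p / (p : ℝ)) ≤ Cl * (1 + Real.log z0)) :
    (1 + 1 / (2 * ar)) * Real.exp (∑ j ∈ Finset.range J, ((∑ p ∈ PP z0 j, 1 / (p : ℝ) +
        Cb * (min 1 ((nα + |β|) * Real.log (zz z0 j)) + ∑ p ∈ PP z0 j, 1 / (p : ℝ) ^ 2 +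
          (1 / 2) ^ (l₁ + j))) - ∑ p ∈ PP z0 j, (p : ℝ) ^ (-1 - 2 * ar))) ≤
      (2 * Real.exp (4 * A' * Cl + 7 * Cb) * (1 + 2 * A') ^ K₀) * L * (1 + L * |ai|) ^ K₀ := by
  have hL0 : 0 < L := by linarith
  have har : 0 < ar := lt_of_lt_of_le (by positivity) h1
  have hlogz0 : 0 ≤ Real.log z0 := Real.log_nonneg hz0
  -- first factor
  have f1 : 1 + 1 / (2 * ar) ≤ 2 * L := by
    have : 1 / (2 * ar) ≤ L / 2 := by
      rw [div_le_div_iff₀ (by positivity) (by norm_num)]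
      rw [div_le_iff₀ hL0] at h1
      nlinarith
    linarith
  -- (i)
  have e1 : ∑ j ∈ Finset.range J, ∑ p ∈ PP z0 j, (1 / (p : ℝ) - (p : ℝ) ^ (-1 - 2 * ar)) ≤
      4 * A' * Cl := by
    have g1 : ∑ j ∈ Finset.range J, ∑ p ∈ PP z0 j, (1 / (p : ℝ) - (p : ℝ) ^ (-1 - 2 * ar)) ≤
        ∑ j ∈ Finset.range J, ∑ p ∈ PP z0 j, 2 * ar * (Real.log p / p) := by
      refine Finset.sum_le_sum fun j _ => Finset.sum_le_sum fun p hp => ?_
      rw [mem_PP hz0] at hp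
      exact point_le p hp.1.one_lt.le ar
    have g2 := sum_PP hz0 (fun p : ℕ => 2 * ar * (Real.log p / p)) J
    have g3 : 0 ≤ ∑ p ∈ pr (zz z0 J), 2 * ar * (Real.log p / (p : ℝ)) := by
      refine Finset.sum_nonneg fun p hp => ?_
      have hz := one_le_zz z0 hz0 J
      rw [mem_pr (by linarith)] at hp
      have : 0 ≤ Real.log p := Real.log_nonneg (by exact_mod_cast hp.1.one_lt.le)
      positivity
    have g4 : ∑ p ∈ pr z0, 2 * ar * (Real.log p / (p : ℝ)) =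
        2 * ar * ∑ p ∈ pr z0, (Real.log p / (p : ℝ)) := by rw [Finset.mul_sum]
    have g5 : 2 * ar * ∑ p ∈ pr z0, (Real.log p / (p : ℝ)) ≤
        2 * (A' / L) * (Cl * (1 + ν' * L)) := by
      rw [← hlogz]
      have : 0 ≤ Cl * (1 + Real.log z0) := by positivity
      have g6 : 2 * ar * ∑ p ∈ pr z0, (Real.log p / (p : ℝ)) ≤ 2 * ar * (Cl * (1 + Real.log z0)) :=
        mul_le_mul_of_nonneg_left hlogp (by positivity)
      refine g6.trans ?_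
      apply mul_le_mul_of_nonneg_right _ this
      linarith
    have g7 : 2 * (A' / L) * (Cl * (1 + ν' * L)) ≤ 4 * A' * Cl := by
      have : 2 * (A' / L) * (Cl * (1 + ν' * L)) = 2 * A' * Cl * ((1 + ν' * L) / L) := by
        field_simp
      rw [this]
      have g8 : (1 + ν' * L) / L ≤ 2 := by
        rw [div_le_iff₀ hL0]
        nlinarith
      have : 0 ≤ 2 * A' * Cl := by positivity
      nlinarith

    linarith
  -- (ii)
  set θ : ℝ := (nα + |β|) * Real.log z0 with hθ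
  have hθ0 : 0 ≤ θ := by positivity
  have e2 : ∑ j ∈ Finset.range J, min 1 ((nα + |β|) * Real.log (zz z0 j)) ≤
      3 + 2 * Real.log (1 + θ) := by
    have g1 : ∑ j ∈ Finset.range J, min 1 ((nα + |β|) * Real.log (zz z0 j)) =
        ∑ j ∈ Finset.range J, min 1 (θ * (1 / 2) ^ j) := by
      refine Finset.sum_congr rfl fun j _ => ?_
      rw [log_zz z0 hz0, hθ]
      congr 1
      ring
    rw [g1]
    exact sum_min θ hθ0 J
  -- (iii)
  have e3 : ∑ j ∈ Finset.range J, ∑ p ∈ PP z0 j, 1 / (p : ℝ) ^ 2 ≤ 2 := by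
    have g2 := sum_PP hz0 (fun p : ℕ => 1 / (p : ℝ) ^ 2) J
    have g3 : 0 ≤ ∑ p ∈ pr (zz z0 J), 1 / (p : ℝ) ^ 2 :=
      Finset.sum_nonneg fun p hp => by positivity
    have g4 : ∑ p ∈ pr z0, 1 / (p : ℝ) ^ 2 ≤ 2 := by
      apply sum_sq_le
      intro n hn
      rw [mem_pr (by linarith)] at hn
      exact hn.1.one_lt.le

    linarith
  -- (iv)
  have e4 : ∑ j ∈ Finset.range J, ((1 : ℝ) / 2) ^ (l₁ + j) ≤ 2 := by
    refine (Finset.sum_le_sum fun j _ => ?_).trans (geom_le J)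
    exact pow_le_pow_of_le_one (by norm_num) (by norm_num) (by omega)
  have e5 : ∑ j ∈ Finset.range J, ((∑ p ∈ PP z0 j, 1 / (p : ℝ) +
        Cb * (min 1 ((nα + |β|) * Real.log (zz z0 j)) + ∑ p ∈ PP z0 j, 1 / (p : ℝ) ^ 2 +
          (1 / 2) ^ (l₁ + j))) - ∑ p ∈ PP z0 j, (p : ℝ) ^ (-1 - 2 * ar)) =
      (∑ j ∈ Finset.range J, ∑ p ∈ PP z0 j, (1 / (p : ℝ) - (p : ℝ) ^ (-1 - 2 * ar))) +
      Cb * ((∑ j ∈ Finset.range J, min 1 ((nα + |β|) * Real.log (zz z0 j))) +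
        (∑ j ∈ Finset.range J, ∑ p ∈ PP z0 j, 1 / (p : ℝ) ^ 2) +
        ∑ j ∈ Finset.range J, ((1 : ℝ) / 2) ^ (l₁ + j)) := by
    rw [← Finset.sum_add_distrib, ← Finset.sum_add_distrib, Finset.mul_sum,
      ← Finset.sum_add_distrib]
    refine Finset.sum_congr rfl fun j _ => ?_
    rw [Finset.sum_sub_distrib]
    ring
  have e6 : 1 + θ ≤ (1 + 2 * A') * (1 + L * |ai|) := by
    have har' : |ar| = ar := abs_of_pos har
    have g1 : nα + |β| ≤ 2 * (A' / L) + |ai| := by rw [har'] at hnα; linarith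
    have g2 : θ ≤ (2 * (A' / L) + |ai|) * (ν' * L) := by
      rw [hθ, hlogz]
      exact mul_le_mul_of_nonneg_right g1 (by positivity)
    have g3 : (2 * (A' / L) + |ai|) * (ν' * L) = ν' * (2 * A' + L * |ai|) := by
      field_simp
    have g4 : ν' * (2 * A' + L * |ai|) ≤ 2 * A' + L * |ai| := by
      have : 0 ≤ 2 * A' + L * |ai| := by positivity
      nlinarith
    have g5 : 0 ≤ 2 * A' * (L * |ai|) := by positivity
    nlinarith
  have e7 : Real.exp (2 * Cb * Real.log (1 + θ)) ≤ (1 + 2 * A') ^ K₀ * (1 + L * |ai|) ^ K₀ := by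
    rw [← mul_pow]
    have g1 : 0 ≤ Real.log (1 + θ) := Real.log_nonneg (by linarith)
    calc Real.exp (2 * Cb * Real.log (1 + θ)) ≤ Real.exp (K₀ * Real.log (1 + θ)) := by
          apply Real.exp_le_exp.2
          exact mul_le_mul_of_nonneg_right hK g1
      _ = (1 + θ) ^ K₀ := by
          rw [← Real.log_pow, Real.exp_log (by positivity)]
      _ ≤ _ := by
          apply pow_le_pow_left₀ (by positivity) e6
  rw [e5]
  set S1 := ∑ j ∈ Finset.range J, ∑ p ∈ PP z0 j, (1 / (p : ℝ) - (p : ℝ) ^ (-1 - 2 * ar))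
  set S2 := ∑ j ∈ Finset.range J, min 1 ((nα + |β|) * Real.log (zz z0 j))
  set S3 := ∑ j ∈ Finset.range J, ∑ p ∈ PP z0 j, 1 / (p : ℝ) ^ 2
  set S4 := ∑ j ∈ Finset.range J, ((1 : ℝ) / 2) ^ (l₁ + j)
  have e8 : S1 + Cb * (S2 + S3 + S4) ≤ (4 * A' * Cl + 7 * Cb) + 2 * Cb * Real.log (1 + θ) := by
    have : Cb * (S2 + S3 + S4) ≤ Cb * (7 + 2 * Real.log (1 + θ)) :=
      mul_le_mul_of_nonneg_left (by linarith) hCb.le
    nlinarith
  calc (1 + 1 / (2 * ar)) * Real.exp (S1 + Cb * (S2 + S3 + S4)) ≤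
      (2 * L) * Real.exp ((4 * A' * Cl + 7 * Cb) + 2 * Cb * Real.log (1 + θ)) := by
        apply mul_le_mul f1 (Real.exp_le_exp.2 e8) (Real.exp_pos _).le (by positivity)
    _ = (2 * L) * (Real.exp (4 * A' * Cl + 7 * Cb) * Real.exp (2 * Cb * Real.log (1 + θ))) := by
        rw [Real.exp_add]
    _ ≤ (2 * L) * (Real.exp (4 * A' * Cl + 7 * Cb) * ((1 + 2 * A') ^ K₀ * (1 + L * |ai|) ^ K₀)) := by
        gcongr
    _ = _ := by ring

end B7

theorem blocks (ν A' : ℝ) (hν : 0 < ν) (hA' : 0 ≤ A') : ∃ (c C T₀ : ℝ) (K₀ : ℕ), 0 < c ∧ 0 < C ∧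
    ∀ T : ℝ, T₀ ≤ T → ∃ S : Finset ℕ, Good T ν A' C K₀ S ∧ c * Real.log T ≤ ∑ n ∈ S, 1 / (n : ℝ) := by
  obtain ⟨B₁, hB₁, hwin⟩ := Pool.Agent.H448R2.GC.prime_window
  obtain ⟨Cl, hCl, hlogp⟩ := Pool.Agent.H448R2.GC.prime_log
  obtain ⟨cp, hcp, hprod⟩ := Pool.Agent.H448R2.GC.prime_prod
  obtain ⟨l₁, hQ⟩ := Pool.Agent.H448R2.GC.Q_lower B₁ hB₁.le
  obtain ⟨Cb, hCb, hblk⟩ := B7.NP_blk A' B₁ hA' hB₁.le
  set ν' : ℝ := min ν 1 / (2 * l₁ + 2) with hν'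
  have hm0 : 0 < min ν 1 := lt_min hν one_pos
  have hm1 : min ν 1 ≤ 1 := min_le_right _ _
  have hν'0 : 0 < ν' := by positivity
  have hν'1 : ν' ≤ 1 := by
    rw [hν', div_le_one (by positivity)]
    have : (0 : ℝ) ≤ l₁ := Nat.cast_nonneg _
    linarith
  refine ⟨cp * ν' / 2 ^ 26, 2 * Real.exp (4 * A' * Cl + 7 * Cb) * (1 + 2 * A') ^ ⌈2 * Cb⌉₊,
    Real.exp 1, ⌈2 * Cb⌉₊, by positivity, by positivity, ?_⟩
  intro T hT
  have hT0 : 0 < T := lt_of_lt_of_le (Real.exp_pos _) hT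
  have hT1 : 1 ≤ T := le_trans (Real.one_le_exp (by norm_num)) hT
  set L : ℝ := Real.log T with hL
  have hL1 : 1 ≤ L := by
    rw [hL, Real.le_log_iff_exp_le hT0]
    exact hT
  have hL0 : 0 < L := by linarith
  set z0 : ℝ := T ^ ν' with hz0
  have hz1 : 1 ≤ z0 := Real.one_le_rpow hT1 hν'0.le
  have hlogz : Real.log z0 = ν' * L := by rw [hz0, Real.log_rpow hT0]
  obtain ⟨J, hJ, hJ'⟩ := B7.exists_J z0 hz1
  have hPp : ∀ j < J, ∀ p ∈ B7.PP z0 j, p.Prime ∧ 5 ≤ p ∧ (p : ℝ) ≤ B7.zz z0 j := by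
    intro j hj p hp
    rw [B7.mem_PP hz1] at hp
    refine ⟨hp.1, ?_, hp.2.2⟩
    have h1 := B7.zz_sq z0 hz1 j
    have h2 := hJ' j hj
    have h3 : 5 ≤ B7.zz z0 (j + 1) := by
      have := B7.one_le_zz z0 hz1 (j + 1)
      nlinarith
    have h4 : (5 : ℝ) < p := lt_of_le_of_lt h3 hp.2.1
    exact_mod_cast h4.le
  have hP : ∀ j < J, ∀ p ∈ B7.PP z0 j, p.Prime := fun j hj p hp => (hPp j hj p hp).1
  have hd : ∀ i < J, ∀ j < J, i ≠ j → Disjoint (B7.PP z0 i) (B7.PP z0 j) :=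
    fun i _ j _ hij => B7.PP_disj hz1 hij
  have hB : ∀ j, ∑ p ∈ B7.PP z0 j, 1 / (p : ℝ) ≤ B₁ :=
    fun j => hwin (B7.zz z0 (j + 1)) (B7.one_le_zz z0 hz1 (j + 1))
  refine ⟨SB (B7.PP z0) (fun j => l₁ + j) J, ?_, ?_⟩
  · have hNN : ∀ (α : ℂ) (β : ℝ), 1 / Real.log T ≤ α.re → α.re ≤ A' / Real.log T →
        |β| ≤ A' / Real.log T → NN (SB (B7.PP z0) (fun j => l₁ + j) J) α β ≤
        ENNReal.ofReal ((2 * Real.exp (4 * A' * Cl + 7 * Cb) * (1 + 2 * A') ^ ⌈2 * Cb⌉₊) *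
          L * (1 + L * |α.im|) ^ ⌈2 * Cb⌉₊) := by
      intro α β h1 h2 h3
      have hα : 0 < α.re := lt_of_lt_of_le (by positivity) h1
      have hb : ∀ j < J, NP (B7.PP z0 j) (blk (B7.PP z0 j) (l₁ + j)) α β ≤
          ENNReal.ofReal (Real.exp (∑ p ∈ B7.PP z0 j, 1 / (p : ℝ) +
        Cb * (min 1 ((‖α‖ + |β|) * Real.log (B7.zz z0 j)) + ∑ p ∈ B7.PP z0 j, 1 / (p : ℝ) ^ 2 +
          (1 / 2) ^ (l₁ + j)))) := by
        intro j hj
        refine hblk (B7.PP z0 j) (B7.zz z0 j) (l₁ + j) α β (B7.one_le_zz z0 hz1 j) (hPp j hj)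
          (hB j) hα ?_
        rw [B7.log_zz z0 hz1, hlogz]
        have h4 : ((1 : ℝ) / 2) ^ j ≤ 1 := pow_le_one₀ (by norm_num) (by norm_num)
        have h5 : (0 : ℝ) < (1 / 2) ^ j := by positivity
        calc |β| * ((1 / 2) ^ j * (ν' * L)) ≤ A' / L * ((1 / 2) ^ j * (ν' * L)) := by gcongr
          _ = A' * (ν' * (1 / 2) ^ j) := by field_simp
          _ ≤ A' * (1 * 1) := by gcongr
          _ = A' := by ring
      refine (B7.NN_bound (B7.PP z0) (fun j => l₁ + j) J hP hd α β hα _ hb).trans ?_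
      apply ENNReal.ofReal_le_ofReal
      exact B7.final_num A' L ν' Cl Cb α.re α.im ‖α‖ β ⌈2 * Cb⌉₊ J l₁ z0 hz1 hA' hL1 hν'0 hν'1 hCl hCb
        (Nat.le_ceil _) hlogz h1 h2 h3 (Complex.norm_le_abs_re_add_abs_im α) (norm_nonneg α)
        (hlogp z0 hz1)
    have hsum : ∀ (α : ℂ) (β : ℝ), 1 / Real.log T ≤ α.re → α.re ≤ A' / Real.log T →
        |β| ≤ A' / Real.log T →
        Summable (fun n : ℕ => ‖cc (SB (B7.PP z0) (fun j => l₁ + j) J) α β n‖ ^ 2) := by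
      intro α β h1 h2 h3
      have h4 := hNN α β h1 h2 h3
      have h5 : NN (SB (B7.PP z0) (fun j => l₁ + j) J) α β ≠ ⊤ :=
        ne_top_of_le_ne_top ENNReal.ofReal_ne_top h4
      have h6 := ENNReal.summable_toReal h5
      refine h6.congr fun n => ?_
      rw [ENNReal.toReal_ofReal (by positivity)]
    refine ⟨Pool.Agent.H448R2.GC.SB_one _ _ _, fun n hn => (Pool.Agent.H448R2.GC.SB_prop _ _ J hP hd n hn).1, ?_,
      fun n hn => (Pool.Agent.H448R2.GC.SB_prop _ _ J hP hd n hn).2.2, hsum, ?_⟩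
    · intro n hn
      have h1 := Pool.Agent.H448R2.GC.SB_size (B7.PP z0) (fun j => l₁ + j) J (B7.zz z0) (B7.one_le_zz z0 hz1)
        (fun j hj p hp => (hPp j hj p hp).2.2) n hn
      refine h1.trans ((B7.prod_size hz1 l₁ J).trans ?_)
      rw [hz0, ← Real.rpow_mul hT0.le]
      apply Real.rpow_le_rpow_of_exponent_le hT1
      have : ν' * (2 * (l₁ : ℝ) + 2) = min ν 1 := by
        rw [hν']
        field_simp
      rw [this]
      exact min_le_left _ _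
    · intro α β h1 h2 h3
      have h4 := hNN α β h1 h2 h3
      have h5 := hsum α β h1 h2 h3
      unfold NN at h4
      rw [← ENNReal.ofReal_tsum_of_nonneg (fun n => by positivity) h5] at h4
      exact (ENNReal.ofReal_le_ofReal_iff (by positivity)).1 h4
  · have h1 := hQ (B7.PP z0) J hP hd (fun j _ => hB j) l₁ le_rfl
    refine le_trans ?_ h1
    have h2 := hprod z0 hz1
    have h3 := B7.prod_PP hz1 (fun p : ℕ => 1 + 1 / (p : ℝ)) J
    have h4 := B7.prod_pr_le (B7.zz z0 J) (by linarith [B7.one_le_zz z0 hz1 J]) hJ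
    have h5 : 0 ≤ ∏ j ∈ Finset.range J, ∏ p ∈ B7.PP z0 j, (1 + 1 / (p : ℝ)) :=
      Finset.prod_nonneg fun _ _ => Finset.prod_nonneg fun _ _ => by positivity
    have h6 : cp * (1 + Real.log z0) ≤
        (∏ j ∈ Finset.range J, ∏ p ∈ B7.PP z0 j, (1 + 1 / (p : ℝ))) * 2 ^ 25 := by
      refine h2.trans ?_
      have h7 : ∏ p ∈ (Finset.Icc 1 ⌊z0⌋₊).filter (fun p : ℕ => p.Prime), (1 + 1 / (p : ℝ)) =
        (∏ j ∈ Finset.range J, ∏ p ∈ B7.PP z0 j, (1 + 1 / (p : ℝ))) *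
          ∏ p ∈ B7.pr (B7.zz z0 J), (1 + 1 / (p : ℝ)) := h3.symm
      rw [h7]
      exact mul_le_mul_of_nonneg_left h4 h5
    rw [hlogz] at h6
    have h8 : cp * (ν' * L) ≤ cp * (1 + ν' * L) := by nlinarith
    have h9 : cp * ν' / 2 ^ 26 * L = (1 / 2) * ((cp * (ν' * L)) / 2 ^ 25) := by ring
    rw [h9]
    apply mul_le_mul_of_nonneg_left _ (by norm_num)
    rw [div_le_iff₀ (by positivity)]
    linarith

end Pool.Agent.H448R2.GC
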