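import Pool.Agent.H448R2.GC.Defs
import Pool.Agent.H448R2.GC.K1

/-! TEAM GC, task I: the exact identity. -/

open Complex MeasureTheory Filter Topology

namespace Pool.Agent.H448R2.GC

namespace TaskI

theorem inner_reindex (N d : ℕ) (hd : 1 ≤ d) (g : ℕ → ℂ) :
    ∑ m ∈ Finset.Icc 1 (N / d), g (d * m) = ∑ n ∈ (Finset.Icc 1 N).filter (fun n => d ∣ n), g n := by
  refine Finset.sum_bij (fun m _ => d * m) ?_ ?_ ?_ ?_
  · intro m hm
    rw [Finset.mem_Icc] at hm
    rw [Finset.mem_filter, Finset.mem_Icc]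
    refine ⟨⟨?_, ?_⟩, dvd_mul_right _ _⟩
    · exact Nat.one_le_iff_ne_zero.mpr (Nat.mul_ne_zero (by omega) (by omega))
    · have := (Nat.le_div_iff_mul_le (by omega : 0 < d)).1 hm.2
      rw [mul_comm]; exact this
  · intro a _ b _ h
    exact Nat.eq_of_mul_eq_mul_left (by omega) h
  · intro n hn
    rw [Finset.mem_filter, Finset.mem_Icc] at hn
    obtain ⟨⟨h1, h2⟩, ⟨m, rfl⟩⟩ := hn
    refine ⟨m, ?_, rfl⟩
    rw [Finset.mem_Icc]
    constructor
    · by_contra h
      have : m = 0 := by omega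
      subst this; simp at h1
    · rw [Nat.le_div_iff_mul_le (by omega : 0 < d), mul_comm]; exact h2
  · intro m _; rfl

theorem moebius_sum (N : ℕ) (hN : 1 ≤ N) (g : ℕ → ℂ) :
    ∑ d ∈ Finset.Icc 1 N, (((ArithmeticFunction.moebius d : ℤ) : ℂ)) *
      ∑ m ∈ Finset.Icc 1 (N / d), g (d * m) = g 1 := by
  have h1 : ∀ d ∈ Finset.Icc 1 N, (((ArithmeticFunction.moebius d : ℤ) : ℂ)) *
      ∑ m ∈ Finset.Icc 1 (N / d), g (d * m) =
      ∑ n ∈ (Finset.Icc 1 N).filter (fun n => d ∣ n),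
        (((ArithmeticFunction.moebius d : ℤ) : ℂ)) * g n := by
    intro d hd
    rw [Finset.mem_Icc] at hd
    rw [inner_reindex N d hd.1 g, Finset.mul_sum]
  rw [Finset.sum_congr rfl h1]
  have h2 : ∑ d ∈ Finset.Icc 1 N, ∑ n ∈ (Finset.Icc 1 N).filter (fun n => d ∣ n),
        (((ArithmeticFunction.moebius d : ℤ) : ℂ)) * g n =
      ∑ n ∈ Finset.Icc 1 N, ∑ d ∈ n.divisors, (((ArithmeticFunction.moebius d : ℤ) : ℂ)) * g n := by
    refine Finset.sum_comm' ?_
    intro d n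
    rw [Finset.mem_Icc, Finset.mem_filter, Finset.mem_Icc, Nat.mem_divisors]
    constructor
    · rintro ⟨hd, hn, hdn⟩
      exact ⟨⟨hdn, by omega⟩, hn⟩
    · rintro ⟨⟨hdn, h0⟩, hn⟩
      refine ⟨⟨Nat.pos_of_dvd_of_pos hdn (by omega), (Nat.le_of_dvd (by omega) hdn).trans hn.2⟩,
        hn, hdn⟩
  rw [h2]
  have h3 : ∀ n ∈ Finset.Icc 1 N, ∑ d ∈ n.divisors, (((ArithmeticFunction.moebius d : ℤ) : ℂ)) * g n =
      if n = 1 then g 1 else 0 := by
    intro n hn
    rw [Finset.mem_Icc] at hn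
    rw [← Finset.sum_mul]
    have h4 : ∑ d ∈ n.divisors, (ArithmeticFunction.moebius d : ℤ) = if n = 1 then 1 else 0 := by
      have h5 := congrArg (fun f : ArithmeticFunction ℤ => f n)
        ArithmeticFunction.coe_zeta_mul_moebius
      rw [ArithmeticFunction.coe_zeta_mul_apply] at h5
      rw [h5, ArithmeticFunction.one_apply]
    have h6 : ∑ d ∈ n.divisors, (((ArithmeticFunction.moebius d : ℤ) : ℂ)) =
        if n = 1 then 1 else 0 := by
      have := congrArg (fun z : ℤ => (z : ℂ)) h4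
      simp only [Int.cast_sum] at this
      rw [this]
      split_ifs <;> simp
    rw [h6]
    split_ifs with h
    · rw [h, one_mul]
    · rw [zero_mul]
  rw [Finset.sum_congr rfl h3, Finset.sum_ite_eq' (Finset.Icc 1 N) 1 (fun _ => g 1)]
  rw [if_pos (Finset.mem_Icc.2 ⟨le_refl _, hN⟩)]

end TaskI

theorem mob_identity (k : ℕ) (c D : ℝ) (hc : 0 < c) (hD : 0 ≤ D) (s : ℂ) :
    ∑ d ∈ Finset.Icc 1 ⌊Real.exp (D + k * c)⌋₊,
      (((ArithmeticFunction.moebius d : ℤ) : ℂ)) * (d : ℂ) ^ (-s) * cs k c (D - Real.log d) s = 1 := by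
  set N := ⌊Real.exp (D + k * c)⌋₊ with hN
  have hN1 : 1 ≤ N := by
    rw [hN]
    apply Nat.le_floor
    rw [Nat.cast_one]
    have h0 : 0 ≤ D + k * c := by positivity
    exact Real.one_le_exp h0
  have h1 : ∀ d ∈ Finset.Icc 1 N,
      (((ArithmeticFunction.moebius d : ℤ) : ℂ)) * (d : ℂ) ^ (-s) * cs k c (D - Real.log d) s =
      (((ArithmeticFunction.moebius d : ℤ) : ℂ)) * ∑ m ∈ Finset.Icc 1 (N / d),
        (fun n : ℕ => (cu k c (Real.log n - D) : ℂ) * (n : ℂ) ^ (-s)) (d * m) := by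
    intro d hd
    rw [Finset.mem_Icc] at hd
    have hd0 : (0 : ℝ) < d := by exact_mod_cast hd.1
    rw [mul_assoc]
    congr 1
    unfold cs
    have h2 : ⌊Real.exp (D - Real.log d + k * c)⌋₊ = N / d := by
      rw [hN, ← Nat.floor_div_natCast]
      congr 1
      rw [show D - Real.log d + k * c = (D + k * c) - Real.log d by ring, Real.exp_sub,
        Real.exp_log hd0]
    rw [h2, Finset.mul_sum]
    refine Finset.sum_congr rfl ?_
    intro m hm
    rw [Finset.mem_Icc] at hm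
    have hm0 : (0 : ℝ) < m := by exact_mod_cast hm.1
    simp only
    rw [Nat.cast_mul, Nat.cast_mul, Real.log_mul hd0.ne' hm0.ne']
    rw [Complex.natCast_mul_natCast_cpow]
    rw [show Real.log m - (D - Real.log d) = Real.log d + Real.log m - D by ring]
    ring
  rw [Finset.sum_congr rfl h1, TaskI.moebius_sum N hN1
    (fun n : ℕ => (cu k c (Real.log n - D) : ℂ) * (n : ℂ) ^ (-s))]
  simp only [Nat.cast_one, Real.log_one, zero_sub, Complex.one_cpow, mul_one]
  rw [Pool.Agent.H448R2.GC.cu_one k c (-D) hc (by linarith)]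
  norm_num

end Pool.Agent.H448R2.GC
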