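import Pool.Agent.H448R2.GC.Defs
import Pool.Agent.H448R2.GC.K1
import Pool.Agent.H448R2.GC.K2
import Pool.Agent.H448R2.GC.K3

/-! TEAM GC, task S1: smoothed partial sums of zeta as line integrals in the region of absolute
convergence. -/

open Complex MeasureTheory Filter Topology

namespace Pool.Agent.H448R2.GC

namespace S1

/-- the kernel with a shifted length -/
theorem ker_shift (k : ℕ) (c D x y : ℝ) (n : ℕ) :
    ker k c (-(Real.log ((n : ℝ) + 1) - D)) x y =
      (((n : ℂ) + 1) ^ (-((x : ℂ) + (y : ℂ) * I))) * ker k c D x y := by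
  have hn : ((n : ℂ) + 1) ≠ 0 := Nat.cast_add_one_ne_zero n
  have hlog : Complex.log ((n : ℂ) + 1) = ((Real.log ((n : ℝ) + 1) : ℝ) : ℂ) := by
    rw [Complex.ofReal_log (by positivity)]
    push_cast
    rfl
  unfold ker
  rw [Complex.cpow_def_of_ne_zero hn, hlog]
  rw [← mul_div_assoc, ← mul_assoc, ← Complex.exp_add]
  congr 3
  push_cast
  ring

theorem norm_cpow_neg (n : ℕ) (w : ℂ) :
    ‖((n : ℂ) + 1) ^ (-w)‖ = ((n : ℝ) + 1) ^ (-w.re) := by
  have h1 : ((n : ℂ) + 1) = (((n : ℝ) + 1 : ℝ) : ℂ) := by push_cast; rfl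
  rw [h1, Complex.norm_cpow_eq_rpow_re_of_pos (by positivity)]
  simp

end S1

theorem cs_line (k : ℕ) (hk : 1 ≤ k) (c D x : ℝ) (hc : 0 < c) (hx : 0 < x) (s : ℂ) (hs : 1 < s.re + x) :
    cs k c D s = (1 / (2 * Real.pi)) * ∫ y : ℝ,
      riemannZeta (s + ((x : ℂ) + (y : ℂ) * I)) * ker k c D x y := by
  classical
  set g : ℕ → ℂ := fun n => (cu k c (Real.log ((n : ℝ) + 1) - D) : ℂ) * ((n : ℂ) + 1) ^ (-s) with hg
  set N := ⌊Real.exp (D + k * c)⌋₊ with hN
  have hcs : cs k c D s = ∑ n ∈ Finset.range N, g n := by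
    unfold cs
    rw [← hN, Finset.sum_bij (fun m _ => m - 1)]
    · intro m hm
      rw [Finset.mem_Icc] at hm
      rw [Finset.mem_range]; omega
    · intro m hm m' hm' h
      rw [Finset.mem_Icc] at hm hm'
      omega
    · intro n hn
      rw [Finset.mem_range] at hn
      exact ⟨n + 1, by rw [Finset.mem_Icc]; omega, by simp⟩
    · intro m hm
      rw [Finset.mem_Icc] at hm
      obtain ⟨n, rfl⟩ : ∃ n, m = n + 1 := ⟨m - 1, by omega⟩
      simp only [hg, Nat.add_sub_cancel]
      push_cast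
      rfl
  have hzero : ∀ n ∉ Finset.range N, g n = 0 := by
    intro n hn
    rw [Finset.mem_range, not_lt] at hn
    have h1 : Real.exp (D + k * c) < (n : ℝ) + 1 := by
      have h2 := Nat.lt_floor_add_one (Real.exp (D + k * c))
      rw [← hN] at h2
      have h3 : (N : ℝ) ≤ n := by exact_mod_cast hn
      linarith
    have h2 : D + k * c < Real.log ((n : ℝ) + 1) := (Real.lt_log_iff_exp_lt (by positivity)).mpr h1
    simp only [hg]
    rw [Pool.Agent.H448R2.GC.cu_zero k c _ hc (by linarith)]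
    simp
  have hts : cs k c D s = ∑' n, g n := by
    rw [hcs, tsum_eq_sum hzero]
  -- the integrals
  set F : ℕ → ℝ → ℂ := fun n y =>
    (((n : ℂ) + 1) ^ (-(s + ((x : ℂ) + (y : ℂ) * I)))) * ker k c D x y with hF
  have hker : Integrable (ker k c D x) := Pool.Agent.H448R2.GC.ker_integrable k hk c D x hc hx.ne'
  have hnorm : ∀ n y, ‖F n y‖ = ((n : ℝ) + 1) ^ (-(s.re + x)) * ‖ker k c D x y‖ := by
    intro n y
    simp only [hF]
    rw [norm_mul, S1.norm_cpow_neg]
    simp
  have hcontF : ∀ n : ℕ, Continuous (fun y : ℝ => ((n : ℂ) + 1) ^ (-(s + ((x : ℂ) + (y : ℂ) * I)))) := by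
    intro n
    have hn : ((n : ℂ) + 1) ≠ 0 := Nat.cast_add_one_ne_zero n
    exact Continuous.const_cpow (by fun_prop) (Or.inl hn)
  have hFint : ∀ n, Integrable (F n) := by
    intro n
    refine (hker.norm.const_mul (((n : ℝ) + 1) ^ (-(s.re + x)))).mono' ?_ ?_
    · exact ((hcontF n).aestronglyMeasurable).mul hker.aestronglyMeasurable
    · exact Eventually.of_forall (fun y => (hnorm n y).le)
  have hFsum : Summable (fun n => ∫ y, ‖F n y‖) := by
    have h1 : ∀ n : ℕ, ∫ y, ‖F n y‖ = ((n : ℝ) + 1) ^ (-(s.re + x)) * ∫ y, ‖ker k c D x y‖ := by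
      intro n
      rw [← integral_const_mul]
      exact integral_congr_ae (Eventually.of_forall (fun y => hnorm n y))
    simp_rw [h1]
    apply Summable.mul_right
    have h2 : Summable (fun n : ℕ => (n : ℝ) ^ (-(s.re + x))) :=
      Real.summable_nat_rpow.mpr (by linarith)
    have h3 := (summable_nat_add_iff 1).mpr h2
    refine h3.congr (fun n => ?_)
    push_cast
    rfl
  have hmain := hasSum_integral_of_summable_integral_norm hFint hFsum
  have hgn : ∀ n, g n = (1 / (2 * Real.pi)) * ∫ y, F n y := by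
    intro n
    have hn : ((n : ℂ) + 1) ≠ 0 := Nat.cast_add_one_ne_zero n
    simp only [hg]
    rw [Pool.Agent.H448R2.GC.cu_mellin k hk c hc x hx, mul_assoc]
    congr 1
    rw [mul_comm, ← integral_const_mul]
    refine integral_congr_ae (Eventually.of_forall (fun y => ?_))
    simp only [hF]
    have hsplit : -(s + ((x : ℂ) + (y : ℂ) * I)) = -s + -((x : ℂ) + (y : ℂ) * I) := by ring
    rw [S1.ker_shift, hsplit, Complex.cpow_add _ _ hn]
    ring
  have hsum : ∀ y : ℝ, ∑' n, F n y = riemannZeta (s + ((x : ℂ) + (y : ℂ) * I)) * ker k c D x y := by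
    intro y
    have hre : 1 < (s + ((x : ℂ) + (y : ℂ) * I)).re := by simpa using hs
    rw [zeta_eq_tsum_one_div_nat_add_one_cpow hre]
    simp only [hF]
    rw [tsum_mul_right]
    congr 1
    refine tsum_congr (fun n => ?_)
    rw [Complex.cpow_neg, one_div]
  rw [hts]
  simp_rw [hgn]
  rw [tsum_mul_left, hmain.tsum_eq]
  congr 1
  exact integral_congr_ae (Eventually.of_forall (fun y => hsum y))

end Pool.Agent.H448R2.GC
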