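import Pool.Agent.H448R2.GC.Defs
import Pool.Agent.H448R2.GC.K2
import Pool.Agent.H448R2.GC.S0
import Pool.Agent.H448R2.GC.S1
import Pool.Agent.H448R2.GC.X1
import Pool.Agent.H448R2.GC.X2

/-! TEAM GC, task S2 (helper356): smoothed sums of length `≥ T^(1+2η)` are equal to zeta. -/

open Complex MeasureTheory Filter Topology

namespace Pool.Agent.H448R2.GC

namespace S2

/-- the entire function `(w-1) ζ(w)` -/
noncomputable def Z : ℂ → ℂ := Function.update (fun w : ℂ => (w - 1) * riemannZeta w) 1 1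

theorem Z_one : Z 1 = 1 := by simp [Z]

theorem Z_ne {w : ℂ} (hw : w ≠ 1) : Z w = (w - 1) * riemannZeta w := by
  simp [Z, Function.update_of_ne hw]

/-- the numerator of the integrand -/
noncomputable def G (k : ℕ) (c D : ℝ) (s z : ℂ) : ℂ := Z (s + z) * cexp ((D : ℂ) * z) * Ps k c z

theorem G_diff (k : ℕ) (c D : ℝ) (s : ℂ) : Differentiable ℂ (G k c D s) := by
  have h1 : Differentiable ℂ Z := Pool.Agent.H448R2.GC.zeta_one_entire
  have h2 : Differentiable ℂ (Ps k c) := Pool.Agent.H448R2.GC.Ps_entire k c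
  unfold G
  exact ((h1.comp ((differentiable_const s).add differentiable_id)).mul
    ((differentiable_id.const_mul (D : ℂ)).cexp)).mul h2

theorem re_line (x y : ℝ) : ((x : ℂ) + (y : ℂ) * I).re = x := by simp
theorem im_line (x y : ℝ) : ((x : ℂ) + (y : ℂ) * I).im = y := by simp

theorem G_line (k : ℕ) (c D x y : ℝ) (s : ℂ) (hx : x ≠ 0) (hs : s.re + x ≠ 1) :
    G k c D s ((x : ℂ) + (y : ℂ) * I) /
      ((((x : ℂ) + (y : ℂ) * I) - 0) * (((x : ℂ) + (y : ℂ) * I) - (1 - s))) =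
    riemannZeta (s + ((x : ℂ) + (y : ℂ) * I)) * ker k c D x y := by
  set z : ℂ := (x : ℂ) + (y : ℂ) * I with hz
  have hzre : z.re = x := re_line x y
  have hz0 : z ≠ 0 := by
    intro h
    apply hx
    rw [← hzre, h]; simp
  have h1 : s + z ≠ 1 := by
    intro h
    apply hs
    rw [← hzre, ← Complex.add_re, h]; simp
  have h2 : z - (1 - s) ≠ 0 := by
    intro h
    apply h1
    linear_combination h
  unfold G ker
  rw [Z_ne h1, ← hz, sub_zero]
  have h3 : s + z - 1 ≠ 0 := by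
    intro h; apply h2; linear_combination h
  have h4 : z - (1 - s) = s + z - 1 := by ring
  rw [h4]
  field_simp

theorem G_bdd (X : ℝ) : ∃ N : ℕ, ∀ k : ℕ, N ≤ k → ∀ (c D : ℝ), 0 < c → ∀ s : ℂ, 1 / 4 ≤ s.re →
    s.re ≤ 3 / 4 → ∃ C : ℝ, ∀ z : ℂ, -X ≤ z.re → z.re ≤ 1 → ‖G k c D s z‖ ≤ C := by
  obtain ⟨C, N, hC, h⟩ := Pool.Agent.H448R2.GC.zeta_one_growth X
  refine ⟨N, fun k hk c D hc s hs1 hs2 => ?_⟩
  refine ⟨C * (1 + |s.im|) ^ N * Real.exp (|D| * (|X| + 1)) *
    (Real.exp (k * c) * (3 * (1 + 1 / c)) ^ k), fun z hz1 hz2 => ?_⟩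
  unfold G
  rw [norm_mul, norm_mul, Complex.norm_exp]
  have hre : (s + z).re = s.re + z.re := Complex.add_re _ _
  have him : (s + z).im = s.im + z.im := Complex.add_im _ _
  have h1 : ‖Z (s + z)‖ ≤ C * (1 + |(s + z).im|) ^ N :=
    h (s + z) (by rw [hre]; linarith) (by rw [hre]; linarith)
  have h2 : 1 + |(s + z).im| ≤ (1 + |s.im|) * (1 + |z.im|) := by
    rw [him]
    have := abs_add_le s.im z.im
    nlinarith [abs_nonneg s.im, abs_nonneg z.im, mul_nonneg (abs_nonneg s.im) (abs_nonneg z.im)]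
  have h3 : (1 + |(s + z).im|) ^ N ≤ (1 + |s.im|) ^ N * (1 + |z.im|) ^ N := by
    rw [← mul_pow]
    exact pow_le_pow_left₀ (by positivity) h2 N
  have h4 : (1 + |z.im|) ^ N ≤ (1 + |z.im|) ^ k :=
    pow_le_pow_right₀ (by linarith [abs_nonneg z.im]) hk
  have h5 : ((D : ℂ) * z).re ≤ |D| * (|X| + 1) := by
    have e : ((D : ℂ) * z).re = D * z.re := by simp
    rw [e]
    have hz : |z.re| ≤ |X| + 1 := by
      rw [abs_le]
      constructor
      · have := neg_abs_le X
        have := le_abs_self X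
        linarith
      · have := abs_nonneg X
        linarith
    calc D * z.re ≤ |D * z.re| := le_abs_self _
      _ = |D| * |z.re| := abs_mul _ _
      _ ≤ |D| * (|X| + 1) := by
        apply mul_le_mul_of_nonneg_left hz (abs_nonneg _)
  have h6 : Real.exp (((D : ℂ) * z).re) ≤ Real.exp (|D| * (|X| + 1)) := Real.exp_le_exp.mpr h5
  have h7 : ‖Ps k c z‖ ≤ Real.exp (k * c * max z.re 0) * (3 / (1 + c * ‖z‖)) ^ k :=
    Pool.Agent.H448R2.GC.Ps_bound k c hc z
  have h8 : Real.exp (k * c * max z.re 0) ≤ Real.exp (k * c) := by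
    apply Real.exp_le_exp.mpr
    have : max z.re 0 ≤ 1 := max_le hz2 (by norm_num)
    have hk0 : (0 : ℝ) ≤ k * c := by positivity
    nlinarith
  have h9 : 1 + |z.im| ≤ (1 + 1 / c) * (1 + c * ‖z‖) := by
    have hzn : |z.im| ≤ ‖z‖ := Complex.abs_im_le_norm z
    have e : (1 + 1 / c) * (1 + c * ‖z‖) = 1 + 1 / c + c * ‖z‖ + ‖z‖ := by
      field_simp
      ring
    rw [e]
    have : 0 < 1 / c := by positivity
    have : 0 ≤ c * ‖z‖ := by positivity
    linarith
  have hpos : 0 < 1 + c * ‖z‖ := by positivity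
  have h10 : (1 + |z.im|) ^ k * (3 / (1 + c * ‖z‖)) ^ k ≤ (3 * (1 + 1 / c)) ^ k := by
    rw [← mul_pow]
    apply pow_le_pow_left₀ (by positivity)
    rw [mul_div_assoc', div_le_iff₀ hpos]
    nlinarith
  calc ‖Z (s + z)‖ * Real.exp (((D : ℂ) * z).re) * ‖Ps k c z‖
      ≤ (C * ((1 + |s.im|) ^ N * (1 + |z.im|) ^ k)) * Real.exp (|D| * (|X| + 1)) *
        (Real.exp (k * c) * (3 / (1 + c * ‖z‖)) ^ k) := by
        apply mul_le_mul
        · apply mul_le_mul _ h6 (by positivity) (by positivity)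
          apply h1.trans
          apply mul_le_mul_of_nonneg_left _ hC.le
          apply h3.trans
          apply mul_le_mul_of_nonneg_left h4 (by positivity)
        · apply h7.trans
          apply mul_le_mul_of_nonneg_right h8 (by positivity)
        · positivity
        · positivity
    _ = C * (1 + |s.im|) ^ N * Real.exp (|D| * (|X| + 1)) *
        (Real.exp (k * c) * ((1 + |z.im|) ^ k * (3 / (1 + c * ‖z‖)) ^ k)) := by ring
    _ ≤ _ := by
        apply mul_le_mul_of_nonneg_left _ (by positivity)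
        apply mul_le_mul_of_nonneg_left h10 (by positivity)

/-- the residue at `z = 1 - s` is negligible -/
theorem res_small (η B K : ℝ) (hη : 0 < η) (hB : 0 < B) (k : ℕ) (hk : 1 ≤ k)
    (hk2 : 2 * (B + η + K) ≤ k) : ∃ T₀ : ℝ, 8 ≤ T₀ ∧ ∀ T : ℝ, T₀ ≤ T → ∀ D : ℝ, D ≤ B * Real.log T →
    ∀ s : ℂ, 1 / 4 ≤ s.re → s.re ≤ 3 / 4 → T / 8 ≤ s.im →
    ‖G k (η * Real.log T / k) D s (1 - s) / ((1 - s) - 0)‖ ≤ T ^ (-K) := by
  refine ⟨max 8 ((24 * k / η) ^ 2), le_max_left _ _, ?_⟩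
  intro T hT D hD s hs1 hs2 hs3
  have hT8 : 8 ≤ T := le_trans (le_max_left _ _) hT
  have hTk : (24 * k / η) ^ 2 ≤ T := le_trans (le_max_right _ _) hT
  have hT0 : 0 < T := by linarith
  have hL : 1 ≤ Real.log T := by
    rw [← Real.log_exp 1]
    apply Real.log_le_log (Real.exp_pos 1)
    have := Real.exp_one_lt_d9
    linarith
  have hk0 : (0 : ℝ) < k := by exact_mod_cast hk
  set L := Real.log T with hLdef
  set c := η * L / k with hc
  have hcpos : 0 < c := by positivity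
  have hkc : (k : ℝ) * c = η * L := by rw [hc]; field_simp
  have hre : (1 - s).re = 1 - s.re := by simp
  have hnorm : T / 8 ≤ ‖1 - s‖ := by
    have h1 := Complex.abs_im_le_norm (1 - s)
    have h2 : (1 - s).im = - s.im := by simp
    rw [h2, abs_neg] at h1
    exact le_trans hs3 (le_trans (le_abs_self _) h1)
  have hn1 : 1 ≤ ‖1 - s‖ := by linarith
  have h1 : ‖cexp ((D : ℂ) * (1 - s))‖ ≤ Real.exp (B * L) := by
    rw [Complex.norm_exp]
    apply Real.exp_le_exp.mpr
    have e : ((D : ℂ) * (1 - s)).re = D * (1 - s.re) := by simp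
    rw [e]
    rcases le_or_gt 0 D with h | h
    · calc D * (1 - s.re) ≤ D * 1 := by apply mul_le_mul_of_nonneg_left (by linarith) h
        _ = D := by ring
        _ ≤ B * L := hD
    · have : D * (1 - s.re) ≤ 0 := mul_nonpos_of_nonpos_of_nonneg h.le (by linarith)
      have : 0 < B * L := by positivity
      linarith
  have h2 : ‖Ps k c (1 - s)‖ ≤ Real.exp (η * L) * (T ^ (-(1 / 2) : ℝ)) ^ k := by
    apply (Pool.Agent.H448R2.GC.Ps_bound k c hcpos (1 - s)).trans
    apply mul_le_mul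
    · apply Real.exp_le_exp.mpr
      rw [hkc, hre]
      have : max (1 - s.re) 0 ≤ 1 := max_le (by linarith) (by norm_num)
      have h0 : 0 ≤ η * L := by positivity
      nlinarith
    · apply pow_le_pow_left₀ (by positivity)
      have hpos : 0 < 1 + c * ‖1 - s‖ := by positivity
      rw [div_le_iff₀ hpos]
      have hsq : Real.sqrt T * Real.sqrt T = T := Real.mul_self_sqrt hT0.le
      have hs0 : 0 < Real.sqrt T := Real.sqrt_pos.mpr hT0
      have e : T ^ (-(1 / 2) : ℝ) = (Real.sqrt T)⁻¹ := by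
        rw [Real.rpow_neg hT0.le, Real.sqrt_eq_rpow]
      rw [e, inv_mul_eq_div, le_div_iff₀ hs0]
      have h24 : 24 * k / η ≤ Real.sqrt T := by
        apply Real.le_sqrt_of_sq_le hTk
      have h24' : 24 * k ≤ η * Real.sqrt T := by
        rw [div_le_iff₀ hη] at h24
        linarith
      have hcT : 3 * Real.sqrt T ≤ c * (T / 8) := by
        rw [hc]
        rw [div_mul_eq_mul_div, le_div_iff₀ hk0]
        have : 3 * Real.sqrt T * k * 8 ≤ η * L * T := by
          calc 3 * Real.sqrt T * k * 8 = (24 * k) * Real.sqrt T := by ring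
            _ ≤ (η * Real.sqrt T) * Real.sqrt T := by
              apply mul_le_mul_of_nonneg_right h24' hs0.le
            _ = η * T := by rw [mul_assoc, hsq]
            _ ≤ η * L * T := by
              have : η * 1 ≤ η * L := mul_le_mul_of_nonneg_left hL hη.le
              nlinarith
        linarith
      have : c * (T / 8) ≤ c * ‖1 - s‖ := mul_le_mul_of_nonneg_left hnorm hcpos.le
      linarith
    · positivity
    · positivity
  unfold G
  rw [show s + (1 - s) = 1 by ring, Z_one, one_mul, sub_zero, norm_div, norm_mul]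
  have h3 : ‖cexp ((D : ℂ) * (1 - s))‖ * ‖Ps k c (1 - s)‖ ≤ T ^ (-K) := by
    calc ‖cexp ((D : ℂ) * (1 - s))‖ * ‖Ps k c (1 - s)‖
        ≤ Real.exp (B * L) * (Real.exp (η * L) * (T ^ (-(1 / 2) : ℝ)) ^ k) := by
          apply mul_le_mul h1 h2 (norm_nonneg _) (Real.exp_pos _).le
      _ = T ^ (B + η - k / 2 : ℝ) := by
          have e1 : Real.exp (B * L) = T ^ B := by
            rw [Real.rpow_def_of_pos hT0, mul_comm]
          have e2 : Real.exp (η * L) = T ^ η := by
            rw [Real.rpow_def_of_pos hT0, mul_comm]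
          rw [e1, e2, ← Real.rpow_natCast, ← Real.rpow_mul hT0.le, ← Real.rpow_add hT0,
            ← Real.rpow_add hT0]
          congr 1
          ring
      _ ≤ T ^ (-K) := by
          apply Real.rpow_le_rpow_of_exponent_le (by linarith)
          linarith
  calc ‖cexp ((D : ℂ) * (1 - s))‖ * ‖Ps k c (1 - s)‖ / ‖1 - s‖ ≤ T ^ (-K) / ‖1 - s‖ := by
        apply div_le_div_of_nonneg_right h3 (norm_nonneg _)
    _ ≤ T ^ (-K) := by
        apply div_le_self (Real.rpow_nonneg hT0.le _) hn1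

/-- the integral on a line far to the left is negligible -/
theorem int_small (η K : ℝ) (hη : 0 < η) (hK : 0 ≤ K) : ∃ X : ℝ, 2 ≤ X ∧ ∃ k₀ : ℕ, ∀ k : ℕ,
    k₀ ≤ k → ∃ T₀ : ℝ, ∀ T : ℝ, T₀ ≤ T → ∀ D : ℝ, (1 + 2 * η) * Real.log T ≤ D → ∀ s : ℂ,
    1 / 4 ≤ s.re → s.re ≤ 3 / 4 → T / 8 ≤ s.im → s.im ≤ 8 * T →
    ‖∫ y : ℝ, riemannZeta (s + (((-X : ℝ) : ℂ) + (y : ℂ) * I)) *
      ker k (η * Real.log T / k) D (-X) y‖ ≤ T ^ (-K) := by
  set X : ℝ := (K + 4) / (2 * η) + 2 with hX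
  have hX2 : 2 ≤ X := by
    have : 0 ≤ (K + 4) / (2 * η) := by positivity
    linarith
  have hηX : 2 * η * X = K + 4 + 4 * η := by
    rw [hX]; field_simp; ring
  obtain ⟨C, hC, hz⟩ := Pool.Agent.H448R2.GC.zeta_left X
  obtain ⟨k₀, hk₀⟩ := exists_nat_ge (X + 5)
  refine ⟨X, hX2, k₀, fun k hk => ?_⟩
  have hkX : X + 5 ≤ k := le_trans hk₀ (by exact_mod_cast hk)
  have hk0 : (0 : ℝ) < k := by linarith
  set C' : ℝ := C * 9 ^ (1 / 4 + X) * 3 ^ k * 2 with hC'
  have hC'pos : 0 < C' := by positivity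
  refine ⟨max (max 8 C') (Real.exp (k / η)), ?_⟩
  intro T hT D hD s hs1 hs2 hs3 hs4
  have hT8 : 8 ≤ T := le_trans (le_trans (le_max_left _ _) (le_max_left _ _)) hT
  have hTC : C' ≤ T := le_trans (le_trans (le_max_right _ _) (le_max_left _ _)) hT
  have hTe : Real.exp (k / η) ≤ T := le_trans (le_max_right _ _) hT
  have hT0 : 0 < T := by linarith
  have hL1 : k / η ≤ Real.log T := by
    rw [← Real.log_exp (k / η)]
    exact Real.log_le_log (Real.exp_pos _) hTe
  have hL : 1 ≤ Real.log T := by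
    rw [← Real.log_exp 1]
    apply Real.log_le_log (Real.exp_pos 1)
    have := Real.exp_one_lt_d9
    linarith
  set L := Real.log T with hLdef
  set c := η * L / k with hc
  have hc1 : 1 ≤ c := by
    rw [hc, le_div_iff₀ hk0]
    rw [div_le_iff₀ hη] at hL1
    linarith
  have hcpos : 0 < c := by linarith
  -- pointwise bound
  have hpt : ∀ y : ℝ, ‖riemannZeta (s + (((-X : ℝ) : ℂ) + (y : ℂ) * I)) * ker k c D (-X) y‖ ≤
      (C * (9 * T) ^ (1 / 4 + X) * (Real.exp (-(D * X)) * 3 ^ k)) * (1 / (1 + 1 * |y|) ^ 2) := by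
    intro y
    rw [norm_mul]
    set w : ℂ := s + (((-X : ℝ) : ℂ) + (y : ℂ) * I) with hw
    have hwre : w.re = s.re - X := by rw [hw]; simp; ring
    have hwim : w.im = s.im + y := by rw [hw]; simp
    have hy0 : 0 ≤ |y| := abs_nonneg y
    have hsim : 0 ≤ s.im := by linarith
    have h1 : ‖riemannZeta w‖ ≤ C * ((9 * T) ^ (1 / 4 + X) * (1 + |y|) ^ (1 / 4 + X)) := by
      apply (hz w (by rw [hwre]; linarith) (by rw [hwre]; linarith)).trans
      apply mul_le_mul_of_nonneg_left _ hC.le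
      have hb1 : 1 ≤ 1 + |w.im| := by linarith [abs_nonneg w.im]
      calc (1 + |w.im|) ^ (1 / 2 - w.re) ≤ (1 + |w.im|) ^ (1 / 4 + X) := by
            apply Real.rpow_le_rpow_of_exponent_le hb1
            rw [hwre]; linarith
        _ ≤ ((9 * T) * (1 + |y|)) ^ (1 / 4 + X) := by
            apply Real.rpow_le_rpow (by linarith) _ (by linarith)
            rw [hwim]
            have := abs_add_le s.im y
            rw [abs_of_nonneg hsim] at this
            nlinarith
        _ = _ := by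
            rw [Real.mul_rpow (by linarith) (by linarith)]
    have h2 : ‖ker k c D (-X) y‖ ≤ Real.exp (-(D * X)) * (3 ^ k * ((1 + |y|) ^ (k : ℝ))⁻¹) := by
      apply (Pool.Agent.H448R2.GC.ker_bound k c D (-X) y hcpos).trans
      set z : ℂ := ((-X : ℝ) : ℂ) + (y : ℂ) * I with hz'
      have hzre : z.re = -X := re_line _ _
      have hzim : z.im = y := im_line _ _
      have hzn : 1 ≤ ‖z‖ := by
        have := Complex.abs_re_le_norm z
        rw [hzre, abs_neg] at this
        have h3 := le_abs_self X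
        linarith
      have hyn : |y| ≤ ‖z‖ := by
        have := Complex.abs_im_le_norm z
        rwa [hzim] at this
      have hmax : max (-X) 0 = 0 := max_eq_right (by linarith)
      rw [hmax, mul_zero, add_zero]
      have e1 : D * -X = -(D * X) := by ring
      rw [e1]
      have hb : (3 / (1 + c * ‖z‖)) ^ k ≤ 3 ^ k * ((1 + |y|) ^ (k : ℝ))⁻¹ := by
        rw [Real.rpow_natCast, div_pow, ← div_eq_mul_inv]
        apply div_le_div_of_nonneg_left (by positivity) (by positivity)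
        apply pow_le_pow_left₀ (by positivity)
        nlinarith [norm_nonneg z]
      calc Real.exp (-(D * X)) * (3 / (1 + c * ‖z‖)) ^ k / ‖z‖
          ≤ Real.exp (-(D * X)) * (3 / (1 + c * ‖z‖)) ^ k := by
            apply div_le_self (by positivity) hzn
        _ ≤ _ := mul_le_mul_of_nonneg_left hb (Real.exp_pos _).le
    have hb : 0 < 1 + |y| := by linarith
    have h3 : (1 + |y|) ^ (1 / 4 + X) * ((1 + |y|) ^ (k : ℝ))⁻¹ ≤ 1 / (1 + 1 * |y|) ^ 2 := by
      rw [one_mul, ← Real.rpow_neg hb.le, ← Real.rpow_add hb]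
      have e : (1 : ℝ) / (1 + |y|) ^ 2 = (1 + |y|) ^ (-2 : ℝ) := by
        rw [Real.rpow_neg hb.le, one_div]
        norm_num
      rw [e]
      apply Real.rpow_le_rpow_of_exponent_le (by linarith)
      linarith
    calc ‖riemannZeta w‖ * ‖ker k c D (-X) y‖
        ≤ (C * ((9 * T) ^ (1 / 4 + X) * (1 + |y|) ^ (1 / 4 + X))) *
          (Real.exp (-(D * X)) * (3 ^ k * ((1 + |y|) ^ (k : ℝ))⁻¹)) := by
          apply mul_le_mul h1 h2 (norm_nonneg _) (by positivity)
      _ = (C * (9 * T) ^ (1 / 4 + X) * (Real.exp (-(D * X)) * 3 ^ k)) *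
          ((1 + |y|) ^ (1 / 4 + X) * ((1 + |y|) ^ (k : ℝ))⁻¹) := by ring
      _ ≤ _ := mul_le_mul_of_nonneg_left h3 (by positivity)
  have hint : Integrable (fun y : ℝ => (1 : ℝ) / (1 + 1 * |y|) ^ 2) :=
    Pool.Agent.H448R2.GC.scale_integrable 1 2 le_rfl le_rfl
  have hint2 : ∫ y : ℝ, (1 : ℝ) / (1 + 1 * |y|) ^ 2 ≤ 2 := Pool.Agent.H448R2.GC.scale_integral 1 2 le_rfl le_rfl
  calc ‖∫ y : ℝ, riemannZeta (s + (((-X : ℝ) : ℂ) + (y : ℂ) * I)) * ker k c D (-X) y‖
      ≤ ∫ y : ℝ, (C * (9 * T) ^ (1 / 4 + X) * (Real.exp (-(D * X)) * 3 ^ k)) *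
          (1 / (1 + 1 * |y|) ^ 2) := by
        apply norm_integral_le_of_norm_le (hint.const_mul _)
        exact Filter.Eventually.of_forall hpt
    _ = (C * (9 * T) ^ (1 / 4 + X) * (Real.exp (-(D * X)) * 3 ^ k)) *
          ∫ y : ℝ, (1 : ℝ) / (1 + 1 * |y|) ^ 2 := integral_const_mul _ _
    _ ≤ (C * (9 * T) ^ (1 / 4 + X) * (Real.exp (-(D * X)) * 3 ^ k)) * 2 :=
        mul_le_mul_of_nonneg_left hint2 (by positivity)
    _ ≤ C' * (T ^ (1 / 4 + X) * T ^ (-((1 + 2 * η) * X))) := by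
        have h9 : (9 * T) ^ (1 / 4 + X) = 9 ^ (1 / 4 + X) * T ^ (1 / 4 + X) :=
          Real.mul_rpow (by norm_num) hT0.le
        have hexp : Real.exp (-(D * X)) ≤ T ^ (-((1 + 2 * η) * X)) := by
          rw [Real.rpow_def_of_pos hT0]
          apply Real.exp_le_exp.mpr
          rw [← hLdef]
          have : (1 + 2 * η) * L * X ≤ D * X := mul_le_mul_of_nonneg_right hD (by linarith)
          linarith
        rw [h9, hC']
        calc C * (9 ^ (1 / 4 + X) * T ^ (1 / 4 + X)) * (Real.exp (-(D * X)) * 3 ^ k) * 2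
            = (C * 9 ^ (1 / 4 + X) * 3 ^ k * 2) * (T ^ (1 / 4 + X) * Real.exp (-(D * X))) := by ring
          _ ≤ _ := by
            apply mul_le_mul_of_nonneg_left _ (by positivity)
            apply mul_le_mul_of_nonneg_left hexp (by positivity)
    _ = C' * T ^ (1 / 4 - (K + 4 + 4 * η)) := by
        rw [← Real.rpow_add hT0]
        congr 2
        rw [← hηX]; ring
    _ ≤ T * T ^ (1 / 4 - (K + 4 + 4 * η)) :=
        mul_le_mul_of_nonneg_right hTC (Real.rpow_nonneg hT0.le _)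
    _ = T ^ (1 + (1 / 4 - (K + 4 + 4 * η))) := by
        rw [Real.rpow_add hT0, Real.rpow_one]
    _ ≤ T ^ (-K) := by
        apply Real.rpow_le_rpow_of_exponent_le (by linarith)
        linarith

end S2

theorem cs_zeta (η B K : ℝ) (hη : 0 < η) (hB : 0 < B) : ∃ k₀ : ℕ, ∀ k : ℕ, k₀ ≤ k → ∃ T₀ : ℝ, ∀ T : ℝ,
    T₀ ≤ T → ∀ D : ℝ, (1 + 2 * η) * Real.log T ≤ D → D ≤ B * Real.log T → ∀ s : ℂ,
    1 / 4 ≤ s.re → s.re ≤ 3 / 4 → T / 8 ≤ s.im → s.im ≤ 8 * T →
    ‖cs k (η * Real.log T / k) D s - riemannZeta s‖ ≤ T ^ (-K) := by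
  set K' : ℝ := max K 0 with hK'
  obtain ⟨X, hX, k₁, h1⟩ := S2.int_small η K' hη (le_max_right _ _)
  obtain ⟨N, hN⟩ := S2.G_bdd X
  obtain ⟨k₂, hk₂⟩ := exists_nat_ge (2 * (B + η + (K' + 1)))
  refine ⟨max (max k₁ N) (max k₂ 1), fun k hk => ?_⟩
  have hk1 : k₁ ≤ k := le_trans (le_trans (le_max_left _ _) (le_max_left _ _)) hk
  have hkN : N ≤ k := le_trans (le_trans (le_max_right _ _) (le_max_left _ _)) hk
  have hk2 : k₂ ≤ k := le_trans (le_trans (le_max_left _ _) (le_max_right _ _)) hk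
  have hk3 : 1 ≤ k := le_trans (le_trans (le_max_right _ _) (le_max_right _ _)) hk
  obtain ⟨T₁, h1⟩ := h1 k hk1
  obtain ⟨T₂, hT₂, h2⟩ := S2.res_small η B (K' + 1) hη hB k hk3
    (le_trans hk₂ (by exact_mod_cast hk2))
  refine ⟨max T₁ T₂, ?_⟩
  intro T hT D hD1 hD2 s hs1 hs2 hs3 hs4
  have hTT1 : T₁ ≤ T := le_trans (le_max_left _ _) hT
  have hTT2 : T₂ ≤ T := le_trans (le_max_right _ _) hT
  have hT8 : 8 ≤ T := le_trans hT₂ hTT2
  have hT0 : 0 < T := by linarith
  have hL : 0 < Real.log T := Real.log_pos (by linarith)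
  have hk0 : (0 : ℝ) < k := by exact_mod_cast hk3
  set c := η * Real.log T / k with hc
  have hcpos : 0 < c := by positivity
  obtain ⟨C, hC⟩ := hN k hkN c D hcpos s hs1 hs2
  have hshift := Pool.Agent.H448R2.GC.shift2 (S2.G k c D s) 0 (1 - s) (-X) 1 C (S2.G_diff k c D s)
    (by
      intro h
      have : s.im = 0 := by
        have := congrArg Complex.im h
        simp at this
        exact this
      linarith)
    (by simp; linarith) (by simp) (by simp; linarith) (by simp; linarith)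
    (fun z hz1 hz2 => hC z hz1 hz2)
  have e1 : (fun y : ℝ => S2.G k c D s (((1 : ℝ) : ℂ) + (y : ℂ) * I) /
      (((((1 : ℝ) : ℂ) + (y : ℂ) * I) - 0) * ((((1 : ℝ) : ℂ) + (y : ℂ) * I) - (1 - s)))) =
      fun y : ℝ => riemannZeta (s + (((1 : ℝ) : ℂ) + (y : ℂ) * I)) * ker k c D 1 y := by
    funext y
    exact S2.G_line k c D 1 y s (by norm_num) (by intro h; linarith)
  have e2 : (fun y : ℝ => S2.G k c D s (((-X : ℝ) : ℂ) + (y : ℂ) * I) /
      (((((-X : ℝ) : ℂ) + (y : ℂ) * I) - 0) * ((((-X : ℝ) : ℂ) + (y : ℂ) * I) - (1 - s)))) =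
      fun y : ℝ => riemannZeta (s + (((-X : ℝ) : ℂ) + (y : ℂ) * I)) * ker k c D (-X) y := by
    funext y
    exact S2.G_line k c D (-X) y s (by linarith) (by intro h; linarith)
  rw [e1, e2] at hshift
  have hline := Pool.Agent.H448R2.GC.cs_line k hk3 c D 1 hcpos one_pos s (by linarith)
  have hres0 : S2.G k c D s 0 / (0 - (1 - s)) = riemannZeta s := by
    have hs1 : s ≠ 1 := by
      intro h
      rw [h] at hs3
      simp at hs3
      linarith
    unfold S2.G
    rw [add_zero, S2.Z_ne hs1, mul_zero, Complex.exp_zero, Pool.Agent.H448R2.GC.Ps_zero]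
    have : s - 1 ≠ 0 := sub_ne_zero.mpr hs1
    have h' : 0 - (1 - s) = s - 1 := by ring
    rw [h']
    field_simp
  rw [hres0] at hshift
  have hpi : (2 * (Real.pi : ℂ)) ≠ 0 := by
    have := Real.pi_ne_zero
    simp [this]
  have hkey : cs k c D s - riemannZeta s = S2.G k c D s (1 - s) / ((1 - s) - 0) +
      (1 / (2 * (Real.pi : ℂ))) * ∫ y : ℝ,
        riemannZeta (s + (((-X : ℝ) : ℂ) + (y : ℂ) * I)) * ker k c D (-X) y := by
    rw [hline]
    rw [sub_eq_iff_eq_add] at hshift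
    rw [hshift]
    generalize (∫ y : ℝ, riemannZeta (s + (((-X : ℝ) : ℂ) + (y : ℂ) * I)) * ker k c D (-X) y) = J
    generalize S2.G k c D s (1 - s) / ((1 - s) - 0) = R
    field_simp
    ring
  rw [hkey]
  have hA := h2 T hTT2 D hD2 s hs1 hs2 hs3
  have hB' := h1 T hTT1 D hD1 s hs1 hs2 hs3 hs4
  rw [← hc] at hA hB'
  have hK : T ^ (-K') ≤ T ^ (-K) := by
    apply Real.rpow_le_rpow_of_exponent_le (by linarith)
    have := le_max_left K 0
    linarith
  have hK1 : T ^ (-(K' + 1)) ≤ (1 / 2) * T ^ (-K') := by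
    rw [neg_add, Real.rpow_add hT0, Real.rpow_neg_one]
    have h0 : 0 ≤ T ^ (-K') := Real.rpow_nonneg hT0.le _
    have : T⁻¹ ≤ 1 / 2 := by
      rw [one_div]
      apply inv_anti₀ (by norm_num) (by linarith)
    nlinarith
  have hpi2 : ‖(1 / (2 * (Real.pi : ℂ)))‖ ≤ 1 / 2 := by
    rw [norm_div, norm_one, norm_mul, Complex.norm_real, Real.norm_of_nonneg Real.pi_pos.le]
    rw [Complex.norm_ofNat]
    apply div_le_div_of_nonneg_left (by norm_num) (by norm_num)
    have := Real.pi_gt_three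
    linarith
  calc _ ≤ ‖S2.G k c D s (1 - s) / ((1 - s) - 0)‖ + ‖(1 / (2 * (Real.pi : ℂ))) * ∫ y : ℝ,
        riemannZeta (s + (((-X : ℝ) : ℂ) + (y : ℂ) * I)) * ker k c D (-X) y‖ := norm_add_le _ _
    _ ≤ T ^ (-(K' + 1)) + (1 / 2) * T ^ (-K') := by
        apply add_le_add hA
        rw [norm_mul]
        apply mul_le_mul hpi2 hB' (norm_nonneg _) (by norm_num)
    _ ≤ T ^ (-K') := by linarith
    _ ≤ T ^ (-K) := hK

end Pool.Agent.H448R2.GC
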