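import Pool.Agent.H448R2.GC.Defs
import Pool.Agent.H448R2.GC.S2
import Pool.Agent.H448R2.GC.S0
import Pool.Agent.H448R2.GC.S1

/-! TEAM GC, task S3 (helper356): smoothed sums as an integral of zeta on a vertical line near zero. -/

open Complex MeasureTheory Filter Topology

namespace Pool.Agent.H448R2.GC

theorem cs_repr (η B K : ℝ) (hη : 0 < η) (hB : 0 < B) : ∃ k₀ : ℕ, ∀ k : ℕ, k₀ ≤ k → ∃ T₀ : ℝ, ∀ T : ℝ,
    T₀ ≤ T → ∀ D : ℝ, -(2 * η * Real.log T) ≤ D → D ≤ B * Real.log T → ∀ s : ℂ,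
    1 / 4 ≤ s.re → s.re ≤ 3 / 4 → T / 8 ≤ s.im → s.im ≤ 8 * T → ∀ x : ℝ, 1 / Real.log T ≤ x →
    x ≤ 1 / 8 →
    ‖cs k (η * Real.log T / k) D s - (1 / (2 * Real.pi)) * ∫ y : ℝ,
      riemannZeta (s + ((x : ℂ) + (y : ℂ) * I)) * ker k (η * Real.log T / k) D x y‖ ≤ T ^ (-K) := by
  obtain ⟨N, hN⟩ := S2.G_bdd 0
  obtain ⟨k₂, hk₂⟩ := exists_nat_ge (2 * (B + η + K))
  refine ⟨max N (max k₂ 1), fun k hk => ?_⟩
  have hkN : N ≤ k := le_trans (le_max_left _ _) hk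
  have hk2 : k₂ ≤ k := le_trans (le_trans (le_max_left _ _) (le_max_right _ _)) hk
  have hk3 : 1 ≤ k := le_trans (le_trans (le_max_right _ _) (le_max_right _ _)) hk
  obtain ⟨T₂, hT₂, h2⟩ := S2.res_small η B K hη hB k hk3
    (le_trans hk₂ (by exact_mod_cast hk2))
  refine ⟨T₂, ?_⟩
  intro T hT D _ hD2 s hs1 hs2 hs3 hs4 x hx1 hx2
  have hT8 : 8 ≤ T := le_trans hT₂ hT
  have hT0 : 0 < T := by linarith
  have hL : 0 < Real.log T := Real.log_pos (by linarith)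
  have hx0 : 0 < x := lt_of_lt_of_le (by positivity) hx1
  have hk0 : (0 : ℝ) < k := by exact_mod_cast hk3
  set c := η * Real.log T / k with hc
  have hcpos : 0 < c := by positivity
  obtain ⟨C, hC⟩ := hN k hkN c D hcpos s hs1 hs2
  have hshift := Pool.Agent.H448R2.GC.shift1 (S2.G k c D s) 0 (1 - s) x 1 C (S2.G_diff k c D s)
    (by simpa using hx0) (by simp; linarith) (by simp; linarith)
    (fun z hz1 hz2 => hC z (by linarith) hz2)
  have e1 : (fun y : ℝ => S2.G k c D s (((1 : ℝ) : ℂ) + (y : ℂ) * I) /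
      (((((1 : ℝ) : ℂ) + (y : ℂ) * I) - 0) * ((((1 : ℝ) : ℂ) + (y : ℂ) * I) - (1 - s)))) =
      fun y : ℝ => riemannZeta (s + (((1 : ℝ) : ℂ) + (y : ℂ) * I)) * ker k c D 1 y := by
    funext y
    exact S2.G_line k c D 1 y s (by norm_num) (by intro h; linarith)
  have e2 : (fun y : ℝ => S2.G k c D s ((x : ℂ) + (y : ℂ) * I) /
      ((((x : ℂ) + (y : ℂ) * I) - 0) * (((x : ℂ) + (y : ℂ) * I) - (1 - s)))) =
      fun y : ℝ => riemannZeta (s + ((x : ℂ) + (y : ℂ) * I)) * ker k c D x y := by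
    funext y
    exact S2.G_line k c D x y s hx0.ne' (by intro h; linarith)
  rw [e1, e2] at hshift
  have hline := Pool.Agent.H448R2.GC.cs_line k hk3 c D 1 hcpos one_pos s (by linarith)
  have hpi : (2 * (Real.pi : ℂ)) ≠ 0 := by
    have := Real.pi_ne_zero
    simp [this]
  have hkey : cs k c D s - (1 / (2 * (Real.pi : ℂ))) * ∫ y : ℝ,
        riemannZeta (s + ((x : ℂ) + (y : ℂ) * I)) * ker k c D x y =
        S2.G k c D s (1 - s) / ((1 - s) - 0) := by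
    rw [hline]
    rw [sub_eq_iff_eq_add] at hshift
    rw [hshift]
    generalize (∫ y : ℝ, riemannZeta (s + ((x : ℂ) + (y : ℂ) * I)) * ker k c D x y) = J
    generalize S2.G k c D s (1 - s) / ((1 - s) - 0) = R
    field_simp
    ring
  rw [hkey]
  exact h2 T hT D hD2 s hs1 hs2 hs3

end Pool.Agent.H448R2.GC
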