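import Pool.Agent.H448R2.GC.Defs
import Pool.Agent.H448R2.GC.I
import Pool.Agent.H448R2.GC.K1
import Pool.Agent.H448R2.GC.K2
import Pool.Agent.H448R2.GC.S2
import Pool.Agent.H448R2.GC.S3
import Pool.Agent.H448R2.GC.X2

/-! TEAM GC, task E: the error representation. -/

open Complex MeasureTheory Filter Topology

namespace Pool.Agent.H448R2.GC

namespace E

theorem fs_ext (k : ℕ) (c D : ℝ) (hc : 0 < c) (N : ℕ) (hN : ⌊Real.exp (D + k * c)⌋₊ ≤ N) (w : ℂ) :
    fs k c D w = ∑ n ∈ Finset.Icc 1 N,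
      (((ArithmeticFunction.moebius n : ℤ) : ℂ)) * (cu k c (Real.log n - D) : ℂ) *
        (n : ℂ) ^ (-w) := by
  unfold fs
  refine Finset.sum_subset (Finset.Icc_subset_Icc le_rfl hN) ?_
  intro n hn hn'
  rw [Finset.mem_Icc] at hn hn'
  have h1 : ⌊Real.exp (D + k * c)⌋₊ < n := by
    by_contra h
    exact hn' ⟨hn.1, by omega⟩
  have h2 : Real.exp (D + k * c) < n := (Nat.floor_lt (Real.exp_pos _).le).mp h1
  have h3 : D + k * c < Real.log n := (Real.lt_log_iff_exp_lt (by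
    have : (0 : ℝ) < Real.exp (D + k * c) := Real.exp_pos _
    linarith)).mpr h2
  rw [Pool.Agent.H448R2.GC.cu_zero k c _ hc (by linarith)]
  simp

theorem ker_shift (k : ℕ) (c D x y : ℝ) (n : ℕ) (hn : 1 ≤ n) :
    ker k c (D - Real.log n) x y =
      (n : ℂ) ^ (-((x : ℂ) + (y : ℂ) * I)) * ker k c D x y := by
  have hn0 : (n : ℂ) ≠ 0 := by
    have : n ≠ 0 := by omega
    exact_mod_cast this
  unfold ker
  have h1 : cexp (((D - Real.log n : ℝ) : ℂ) * ((x : ℂ) + (y : ℂ) * I)) =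
      (n : ℂ) ^ (-((x : ℂ) + (y : ℂ) * I)) * cexp ((D : ℂ) * ((x : ℂ) + (y : ℂ) * I)) := by
    rw [Complex.cpow_def_of_ne_zero hn0, ← Complex.exp_add]
    congr 1
    rw [Complex.ofReal_sub, Complex.ofReal_log (Nat.cast_nonneg n)]
    push_cast
    ring
  rw [h1]
  ring

theorem norm_z_ge (x y : ℝ) : |y| ≤ ‖(x : ℂ) + (y : ℂ) * I‖ := by
  have := Complex.abs_im_le_norm ((x : ℂ) + (y : ℂ) * I)
  simpa using this

theorem norm_z_ge' (x y : ℝ) : |x| ≤ ‖(x : ℂ) + (y : ℂ) * I‖ := by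
  have := Complex.abs_re_le_norm ((x : ℂ) + (y : ℂ) * I)
  simpa using this

theorem kz_int (k : ℕ) (hk : 3 ≤ k) (c D x : ℝ) (hc : 0 < c) (hx : 0 < x) (s : ℂ)
    (h1 : 1 / 8 ≤ s.re + x) (h2 : s.re + x ≤ 7 / 8) :
    Integrable (fun y : ℝ => riemannZeta (s + ((x : ℂ) + (y : ℂ) * I)) * ker k c D x y) := by
  obtain ⟨C, hC, hCz⟩ := Pool.Agent.H448R2.GC.zeta_growth_mid
  have hre : ∀ y : ℝ, (s + ((x : ℂ) + (y : ℂ) * I)).re = s.re + x := by
    intro y; simp
  have him : ∀ y : ℝ, (s + ((x : ℂ) + (y : ℂ) * I)).im = s.im + y := by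
    intro y; simp
  have hcont : Continuous (fun y : ℝ => riemannZeta (s + ((x : ℂ) + (y : ℂ) * I)) *
      ker k c D x y) := by
    refine Continuous.mul ?_ (Pool.Agent.H448R2.GC.ker_cont k c D x hx.ne')
    rw [continuous_iff_continuousAt]
    intro y
    have hne : s + ((x : ℂ) + (y : ℂ) * I) ≠ 1 := by
      intro h
      have := congrArg Complex.re h
      rw [hre] at this
      simp at this
      linarith
    have h3 : ContinuousAt riemannZeta (s + ((x : ℂ) + (y : ℂ) * I)) :=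
      (differentiableAt_riemannZeta hne).continuousAt
    have h4 : ContinuousAt (fun y : ℝ => s + ((x : ℂ) + (y : ℂ) * I)) y := by
      apply Continuous.continuousAt
      fun_prop
    exact ContinuousAt.comp (f := fun y : ℝ => s + ((x : ℂ) + (y : ℂ) * I)) h3 h4
  set m : ℝ := min 1 c with hm
  have hm0 : 0 < m := lt_min one_pos hc
  set M : ℝ := C * (1 + |s.im|) * (Real.exp (D * x + k * c * x) * 3 ^ k / x) * (m⁻¹) ^ 3 with hM
  refine Integrable.mono' ((integrable_inv_one_add_sq).const_mul M)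
    hcont.aestronglyMeasurable (Filter.Eventually.of_forall fun y => ?_)
  rw [norm_mul]
  set z : ℂ := (x : ℂ) + (y : ℂ) * I with hz
  have hzx : x ≤ ‖z‖ := (le_abs_self x).trans (norm_z_ge' x y)
  have hzy : |y| ≤ ‖z‖ := norm_z_ge x y
  have e1 : ‖riemannZeta (s + z)‖ ≤ C * (1 + |s.im|) * (1 + |y|) := by
    have h3 := hCz (s + z) (by rw [hre]; exact h1) (by rw [hre]; exact h2)
    rw [him] at h3
    refine h3.trans ?_
    rw [mul_assoc]
    apply mul_le_mul_of_nonneg_left _ hC.le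
    have h4 := abs_add_le s.im y
    nlinarith [abs_nonneg s.im, abs_nonneg y, mul_nonneg (abs_nonneg s.im) (abs_nonneg y)]
  have hm1 : m * (1 + |y|) ≤ 1 + c * ‖z‖ := by
    have h3 : m ≤ 1 := min_le_left _ _
    have h4 : m ≤ c := min_le_right _ _
    have h5 : m * |y| ≤ c * ‖z‖ := mul_le_mul h4 hzy (abs_nonneg y) hc.le
    nlinarith
  have hpos1 : 0 < 1 + |y| := by positivity
  have e2 : ‖ker k c D x y‖ ≤ (Real.exp (D * x + k * c * x) * 3 ^ k / x) *
      ((m⁻¹) ^ 3 * ((1 + |y|) ^ 3)⁻¹) := by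
    have h3 := Pool.Agent.H448R2.GC.ker_bound k c D x y hc
    rw [max_eq_left hx.le] at h3
    refine h3.trans ?_
    have hz0 : 0 < ‖z‖ := lt_of_lt_of_le hx hzx
    have hd1 : 1 ≤ 1 + c * ‖z‖ := by
      have : 0 ≤ c * ‖z‖ := by positivity
      linarith
    have h5 : (3 / (1 + c * ‖z‖)) ^ k ≤ 3 ^ k * ((m⁻¹) ^ 3 * ((1 + |y|) ^ 3)⁻¹) := by
      rw [div_pow, div_eq_mul_inv]
      apply mul_le_mul_of_nonneg_left _ (by positivity)
      have h6 : (m * (1 + |y|)) ^ 3 ≤ (1 + c * ‖z‖) ^ k :=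
        (pow_le_pow_left₀ (by positivity) hm1 3).trans (pow_le_pow_right₀ hd1 hk)
      have h7 : (m⁻¹) ^ 3 * ((1 + |y|) ^ 3)⁻¹ = ((m * (1 + |y|)) ^ 3)⁻¹ := by
        rw [mul_pow, mul_inv, inv_pow]
      rw [h7]
      exact inv_anti₀ (by positivity) h6
    calc Real.exp (D * x + k * c * x) * (3 / (1 + c * ‖z‖)) ^ k / ‖z‖
        ≤ Real.exp (D * x + k * c * x) * (3 ^ k * ((m⁻¹) ^ 3 * ((1 + |y|) ^ 3)⁻¹)) / x := by
          gcongr
      _ = (Real.exp (D * x + k * c * x) * 3 ^ k / x) *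
          ((m⁻¹) ^ 3 * ((1 + |y|) ^ 3)⁻¹) := by ring
  have e3 : (1 + |y|) * ((1 + |y|) ^ 3)⁻¹ ≤ (1 + y ^ 2)⁻¹ := by
    have h3 : (1 + |y|) * ((1 + |y|) ^ 3)⁻¹ = ((1 + |y|) ^ 2)⁻¹ := by
      field_simp
    rw [h3]
    apply inv_anti₀ (by positivity)
    nlinarith [abs_nonneg y, sq_abs y]
  have hE : 0 ≤ Real.exp (D * x + k * c * x) * 3 ^ k / x := by positivity
  calc ‖riemannZeta (s + z)‖ * ‖ker k c D x y‖
      ≤ (C * (1 + |s.im|) * (1 + |y|)) * ((Real.exp (D * x + k * c * x) * 3 ^ k / x) *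
        ((m⁻¹) ^ 3 * ((1 + |y|) ^ 3)⁻¹)) := by
        apply mul_le_mul e1 e2 (norm_nonneg _) (by positivity)
    _ = M * ((1 + |y|) * ((1 + |y|) ^ 3)⁻¹) := by rw [hM]; ring
    _ ≤ M * (1 + y ^ 2)⁻¹ := by
        apply mul_le_mul_of_nonneg_left e3
        rw [hM]
        positivity

/-- the finite identity -/
theorem core (k : ℕ) (hk : 3 ≤ k) (c D₀ D₁ x : ℝ) (hc : 0 < c) (hD0 : 0 ≤ D₀) (hx : 0 < x)
    (hD : D₁ ≤ D₀ + k * c) (s : ℂ) (h1 : 1 / 8 ≤ s.re + x) (h2 : s.re + x ≤ 7 / 8) :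
    (1 - riemannZeta s * fs k c D₁ s) -
      (1 / (2 * Real.pi)) * ∫ y : ℝ,
      riemannZeta (s + ((x : ℂ) + (y : ℂ) * I)) *
        (fs k c (D₀ + k * c) (s + ((x : ℂ) + (y : ℂ) * I)) -
         fs k c D₁ (s + ((x : ℂ) + (y : ℂ) * I))) * ker k c D₀ x y =
    (∑ n ∈ Finset.Icc 1 ⌊Real.exp (D₀ + k * c + k * c)⌋₊,
      (((ArithmeticFunction.moebius n : ℤ) : ℂ)) *
        ((cu k c (Real.log n - (D₀ + k * c)) : ℂ) - (cu k c (Real.log n - D₁) : ℂ)) *
        (n : ℂ) ^ (-s) * (cs k c (D₀ - Real.log n) s - (1 / (2 * Real.pi)) * ∫ y : ℝ,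
      riemannZeta (s + ((x : ℂ) + (y : ℂ) * I)) * ker k c (D₀ - Real.log n) x y)) +
    ∑ n ∈ Finset.Icc 1 ⌊Real.exp (D₁ + k * c)⌋₊,
      (((ArithmeticFunction.moebius n : ℤ) : ℂ)) * (cu k c (Real.log n - D₁) : ℂ) *
        (n : ℂ) ^ (-s) * (cs k c (D₀ - Real.log n) s - riemannZeta s) := by
  set D₂ : ℝ := D₀ + k * c with hD2
  set N : ℕ := ⌊Real.exp (D₂ + k * c)⌋₊ with hN
  have hkc : 0 ≤ (k : ℝ) * c := by positivity
  have hN1 : ⌊Real.exp (D₁ + k * c)⌋₊ ≤ N :=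
    Nat.floor_le_floor (Real.exp_le_exp.mpr (by linarith))
  have hN2 : ⌊Real.exp D₂⌋₊ ≤ N :=
    Nat.floor_le_floor (Real.exp_le_exp.mpr (by linarith))
  have hfs2 : ∀ w, fs k c D₂ w = ∑ n ∈ Finset.Icc 1 N,
      (((ArithmeticFunction.moebius n : ℤ) : ℂ)) * (cu k c (Real.log n - D₂) : ℂ) *
        (n : ℂ) ^ (-w) := fun w => fs_ext k c D₂ hc N le_rfl w
  have hfs1 : ∀ w, fs k c D₁ w = ∑ n ∈ Finset.Icc 1 N,
      (((ArithmeticFunction.moebius n : ℤ) : ℂ)) * (cu k c (Real.log n - D₁) : ℂ) *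
        (n : ℂ) ^ (-w) := fun w => fs_ext k c D₁ hc N hN1 w
  -- the identity
  have hone : ∑ n ∈ Finset.Icc 1 N,
      (((ArithmeticFunction.moebius n : ℤ) : ℂ)) * (cu k c (Real.log n - D₂) : ℂ) *
        (n : ℂ) ^ (-s) * cs k c (D₀ - Real.log n) s = 1 := by
    rw [← Pool.Agent.H448R2.GC.mob_identity k c D₀ hc hD0 s]
    rw [← hD2]
    symm
    have hstep : ∑ d ∈ Finset.Icc 1 ⌊Real.exp D₂⌋₊,
        (((ArithmeticFunction.moebius d : ℤ) : ℂ)) * (d : ℂ) ^ (-s) * cs k c (D₀ - Real.log d) s =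
        ∑ n ∈ Finset.Icc 1 ⌊Real.exp D₂⌋₊,
      (((ArithmeticFunction.moebius n : ℤ) : ℂ)) * (cu k c (Real.log n - D₂) : ℂ) *
        (n : ℂ) ^ (-s) * cs k c (D₀ - Real.log n) s := by
      refine Finset.sum_congr rfl fun n hn => ?_
      rw [Finset.mem_Icc] at hn
      have h3 : (n : ℝ) ≤ Real.exp D₂ := (Nat.le_floor_iff (Real.exp_pos _).le).mp hn.2
      have h4 : Real.log n ≤ D₂ := by
        rw [Real.log_le_iff_le_exp (by exact_mod_cast hn.1)]
        exact h3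
      rw [Pool.Agent.H448R2.GC.cu_one k c _ hc (by linarith)]
      push_cast
      ring
    rw [hstep]
    refine Finset.sum_subset (Finset.Icc_subset_Icc le_rfl hN2) ?_
    intro n hn hn'
    rw [Finset.mem_Icc] at hn hn'
    have h3 : ⌊Real.exp D₂⌋₊ < n := by
      by_contra h
      exact hn' ⟨hn.1, by omega⟩
    have h4 : Real.exp D₂ < n := (Nat.floor_lt (Real.exp_pos _).le).mp h3
    have h5 : D₂ < Real.log n := (Real.lt_log_iff_exp_lt (by
      have : (0 : ℝ) < Real.exp D₂ := Real.exp_pos _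
      linarith)).mpr h4
    have h6 : cs k c (D₀ - Real.log n) s = 0 := by
      unfold cs
      have h7 : ⌊Real.exp (D₀ - Real.log n + k * c)⌋₊ = 0 := by
        rw [Nat.floor_eq_zero]
        rw [Real.exp_lt_one_iff]
        linarith
      rw [h7]
      simp
    rw [h6, mul_zero]
  -- second sum extended
  have hsec : ∑ n ∈ Finset.Icc 1 ⌊Real.exp (D₁ + k * c)⌋₊,
      (((ArithmeticFunction.moebius n : ℤ) : ℂ)) * (cu k c (Real.log n - D₁) : ℂ) *
        (n : ℂ) ^ (-s) * (cs k c (D₀ - Real.log n) s - riemannZeta s) =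
      ∑ n ∈ Finset.Icc 1 N,
      (((ArithmeticFunction.moebius n : ℤ) : ℂ)) * (cu k c (Real.log n - D₁) : ℂ) *
        (n : ℂ) ^ (-s) * (cs k c (D₀ - Real.log n) s - riemannZeta s) := by
    refine Finset.sum_subset (Finset.Icc_subset_Icc le_rfl hN1) ?_
    intro n hn hn'
    rw [Finset.mem_Icc] at hn hn'
    have h3 : ⌊Real.exp (D₁ + k * c)⌋₊ < n := by
      by_contra h
      exact hn' ⟨hn.1, by omega⟩
    have h4 : Real.exp (D₁ + k * c) < n := (Nat.floor_lt (Real.exp_pos _).le).mp h3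
    have h5 : D₁ + k * c < Real.log n := (Real.lt_log_iff_exp_lt (by
      have : (0 : ℝ) < Real.exp (D₁ + k * c) := Real.exp_pos _
      linarith)).mpr h4
    rw [Pool.Agent.H448R2.GC.cu_zero k c _ hc (by linarith)]
    simp
  -- the integral
  have hint : ∫ y : ℝ, riemannZeta (s + ((x : ℂ) + (y : ℂ) * I)) *
        (fs k c D₂ (s + ((x : ℂ) + (y : ℂ) * I)) -
         fs k c D₁ (s + ((x : ℂ) + (y : ℂ) * I))) * ker k c D₀ x y =
      ∑ n ∈ Finset.Icc 1 N, (((ArithmeticFunction.moebius n : ℤ) : ℂ)) *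
        ((cu k c (Real.log n - D₂) : ℂ) - (cu k c (Real.log n - D₁) : ℂ)) *
        (n : ℂ) ^ (-s) * ∫ y : ℝ,
      riemannZeta (s + ((x : ℂ) + (y : ℂ) * I)) * ker k c (D₀ - Real.log n) x y := by
    have hpt : ∀ y : ℝ, riemannZeta (s + ((x : ℂ) + (y : ℂ) * I)) *
        (fs k c D₂ (s + ((x : ℂ) + (y : ℂ) * I)) -
         fs k c D₁ (s + ((x : ℂ) + (y : ℂ) * I))) * ker k c D₀ x y =
        ∑ n ∈ Finset.Icc 1 N, (((ArithmeticFunction.moebius n : ℤ) : ℂ)) *
        ((cu k c (Real.log n - D₂) : ℂ) - (cu k c (Real.log n - D₁) : ℂ)) *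
        (n : ℂ) ^ (-s) *
        (riemannZeta (s + ((x : ℂ) + (y : ℂ) * I)) * ker k c (D₀ - Real.log n) x y) := by
      intro y
      rw [hfs2, hfs1, ← Finset.sum_sub_distrib, Finset.mul_sum, Finset.sum_mul]
      refine Finset.sum_congr rfl fun n hn => ?_
      rw [Finset.mem_Icc] at hn
      have hn0 : (n : ℂ) ≠ 0 := by
        have : n ≠ 0 := by omega
        exact_mod_cast this
      rw [ker_shift k c D₀ x y n hn.1, neg_add, Complex.cpow_add _ _ hn0]
      ring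
    rw [show (fun y : ℝ => riemannZeta (s + ((x : ℂ) + (y : ℂ) * I)) *
        (fs k c D₂ (s + ((x : ℂ) + (y : ℂ) * I)) -
         fs k c D₁ (s + ((x : ℂ) + (y : ℂ) * I))) * ker k c D₀ x y) =
        fun y : ℝ => ∑ n ∈ Finset.Icc 1 N, (((ArithmeticFunction.moebius n : ℤ) : ℂ)) *
        ((cu k c (Real.log n - D₂) : ℂ) - (cu k c (Real.log n - D₁) : ℂ)) *
        (n : ℂ) ^ (-s) *
        (riemannZeta (s + ((x : ℂ) + (y : ℂ) * I)) * ker k c (D₀ - Real.log n) x y) from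
      funext hpt]
    rw [integral_finsetSum]
    · refine Finset.sum_congr rfl fun n _ => ?_
      rw [integral_const_mul]
    · intro n _
      exact (kz_int k hk c (D₀ - Real.log n) x hc hx s h1 h2).const_mul _
  rw [hint, hsec, hfs1 s]
  rw [← hone, Finset.mul_sum, Finset.mul_sum, ← Finset.sum_sub_distrib,
    ← Finset.sum_sub_distrib, ← Finset.sum_add_distrib]
  refine Finset.sum_congr rfl fun n _ => ?_
  ring

end E

theorem err_repr (a η K : ℝ) (ha : 1 < a) (hη : 0 < η) : ∃ k₀ : ℕ, ∀ k : ℕ, k₀ ≤ k → ∃ T₀ : ℝ, ∀ T : ℝ,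
    T₀ ≤ T → ∀ s : ℂ, 1 / 4 ≤ s.re → s.re ≤ 3 / 4 → T / 8 ≤ s.im → s.im ≤ 8 * T → ∀ x : ℝ,
    1 / Real.log T ≤ x → x ≤ 1 / 8 →
    ‖(1 - riemannZeta s * fs k (η * Real.log T / k) (a * Real.log T) s) -
      (1 / (2 * Real.pi)) * ∫ y : ℝ,
      riemannZeta (s + ((x : ℂ) + (y : ℂ) * I)) *
        (fs k (η * Real.log T / k) ((a + 1 + 4 * η) * Real.log T) (s + ((x : ℂ) + (y : ℂ) * I)) -
         fs k (η * Real.log T / k) (a * Real.log T) (s + ((x : ℂ) + (y : ℂ) * I))) *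
        ker k (η * Real.log T / k) ((a + 1 + 3 * η) * Real.log T) x y‖ ≤ T ^ (-K) := by
  have hB : 0 < a + 2 + 4 * η := by linarith
  obtain ⟨k1, hk1⟩ := Pool.Agent.H448R2.GC.cs_zeta η (a + 2 + 4 * η) (K + a + η + 2) hη hB
  obtain ⟨k2, hk2⟩ := Pool.Agent.H448R2.GC.cs_repr η (a + 2 + 4 * η) (K + a + 5 * η + 4) hη hB
  refine ⟨max (max k1 k2) 3, fun k hk => ?_⟩
  have hkk1 : k1 ≤ k := (le_max_left _ _).trans ((le_max_left _ _).trans hk)
  have hkk2 : k2 ≤ k := (le_max_right _ _).trans ((le_max_left _ _).trans hk)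
  have hkk3 : 3 ≤ k := (le_max_right _ _).trans hk
  obtain ⟨T1, hT1⟩ := hk1 k hkk1
  obtain ⟨T2, hT2⟩ := hk2 k hkk2
  refine ⟨max (max T1 T2) (Real.exp 1), fun T hT s hs1 hs2 hs3 hs4 x hx1 hx2 => ?_⟩
  have hTT1 : T1 ≤ T := (le_max_left _ _).trans ((le_max_left _ _).trans hT)
  have hTT2 : T2 ≤ T := (le_max_right _ _).trans ((le_max_left _ _).trans hT)
  have hTe : Real.exp 1 ≤ T := (le_max_right _ _).trans hT
  have hT0 : 0 < T := lt_of_lt_of_le (Real.exp_pos _) hTe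
  set L : ℝ := Real.log T with hL
  have hL1 : 1 ≤ L := (Real.le_log_iff_exp_le hT0).mpr hTe
  have hL0 : 0 < L := by linarith
  have hk0 : (0 : ℝ) < k := by
    have : 0 < k := by omega
    exact_mod_cast this
  set c : ℝ := η * L / k with hc
  have hc0 : 0 < c := by positivity
  have hkc : (k : ℝ) * c = η * L := by rw [hc]; field_simp
  have hx0 : 0 < x := lt_of_lt_of_le (by positivity) hx1
  have hcore := E.core k hkk3 c ((a + 1 + 3 * η) * L) (a * L) x hc0 (by positivity) hx0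
    (by rw [hkc]; nlinarith) s (by linarith) (by linarith)
  have hD2 : (a + 1 + 3 * η) * L + k * c = (a + 1 + 4 * η) * L := by rw [hkc]; ring
  rw [hD2] at hcore
  rw [hcore]
  -- bounds
  have hterm : ∀ n : ℕ, 1 ≤ n → ∀ (b : ℂ), ‖b‖ ≤ 1 →
      ‖(((ArithmeticFunction.moebius n : ℤ) : ℂ)) * b * (n : ℂ) ^ (-s)‖ ≤ 1 := by
    intro n hn b hb
    rw [norm_mul, norm_mul]
    have e1 : ‖(((ArithmeticFunction.moebius n : ℤ) : ℂ))‖ ≤ 1 := by
      rw [Complex.norm_intCast]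
      have := ArithmeticFunction.abs_moebius_le_one (n := n)
      exact_mod_cast this
    have e2 : ‖(n : ℂ) ^ (-s)‖ ≤ 1 := by
      rw [Complex.norm_natCast_cpow_of_pos (by omega)]
      apply Real.rpow_le_one_of_one_le_of_nonpos
      · exact_mod_cast hn
      · rw [Complex.neg_re]; linarith
    calc ‖(((ArithmeticFunction.moebius n : ℤ) : ℂ))‖ * ‖b‖ * ‖(n : ℂ) ^ (-s)‖
        ≤ 1 * 1 * 1 := by gcongr
      _ = 1 := by norm_num
  have hcu0 : ∀ r, 0 ≤ cu k c r := fun r => Pool.Agent.H448R2.GC.cu_nonneg k c r hc0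
  have hcu1 : ∀ r, cu k c r ≤ 1 := fun r => Pool.Agent.H448R2.GC.cu_le_one k c r hc0
  have hsum1 : ‖∑ n ∈ Finset.Icc 1 ⌊Real.exp ((a + 1 + 4 * η) * L + k * c)⌋₊,
      (((ArithmeticFunction.moebius n : ℤ) : ℂ)) *
        ((cu k c (Real.log n - ((a + 1 + 4 * η) * L)) : ℂ) - (cu k c (Real.log n - a * L) : ℂ)) *
        (n : ℂ) ^ (-s) * (cs k c ((a + 1 + 3 * η) * L - Real.log n) s -
          (1 / (2 * Real.pi)) * ∫ y : ℝ,
      riemannZeta (s + ((x : ℂ) + (y : ℂ) * I)) *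
        ker k c ((a + 1 + 3 * η) * L - Real.log n) x y)‖ ≤
      Real.exp (-(K + 3) * L) := by
    have hb : ∀ n ∈ Finset.Icc 1 ⌊Real.exp ((a + 1 + 4 * η) * L + k * c)⌋₊,
        ‖(((ArithmeticFunction.moebius n : ℤ) : ℂ)) *
        ((cu k c (Real.log n - ((a + 1 + 4 * η) * L)) : ℂ) - (cu k c (Real.log n - a * L) : ℂ)) *
        (n : ℂ) ^ (-s) * (cs k c ((a + 1 + 3 * η) * L - Real.log n) s -
          (1 / (2 * Real.pi)) * ∫ y : ℝ,
      riemannZeta (s + ((x : ℂ) + (y : ℂ) * I)) *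
        ker k c ((a + 1 + 3 * η) * L - Real.log n) x y)‖ ≤ T ^ (-(K + a + 5 * η + 4)) := by
      intro n hn
      rw [Finset.mem_Icc] at hn
      have hn1 : (n : ℝ) ≤ Real.exp ((a + 1 + 4 * η) * L + k * c) :=
        (Nat.le_floor_iff (Real.exp_pos _).le).mp hn.2
      have hn2 : Real.log n ≤ (a + 1 + 4 * η) * L + k * c := by
        rw [Real.log_le_iff_le_exp (by exact_mod_cast hn.1)]
        exact hn1
      have hn3 : 0 ≤ Real.log n := Real.log_natCast_nonneg n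
      rw [hkc] at hn2
      rw [norm_mul]
      have e1 := hT2 T hTT2 ((a + 1 + 3 * η) * L - Real.log n) (by rw [← hL]; nlinarith)
        (by rw [← hL]; nlinarith) s hs1 hs2 hs3 hs4 x hx1 hx2
      rw [← hL, ← hc] at e1
      have e2 := hterm n hn.1 ((cu k c (Real.log n - ((a + 1 + 4 * η) * L)) : ℂ) -
        (cu k c (Real.log n - a * L) : ℂ)) (by
          rw [← Complex.ofReal_sub, Complex.norm_real, Real.norm_eq_abs, abs_le]
          have := hcu0 (Real.log n - ((a + 1 + 4 * η) * L))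
          have := hcu1 (Real.log n - ((a + 1 + 4 * η) * L))
          have := hcu0 (Real.log n - a * L)
          have := hcu1 (Real.log n - a * L)
          constructor <;> linarith)
      calc _ ≤ 1 * T ^ (-(K + a + 5 * η + 4)) :=
            mul_le_mul e2 e1 (norm_nonneg _) zero_le_one
        _ = _ := one_mul _
    refine (norm_sum_le _ _).trans ((Finset.sum_le_sum hb).trans ?_)
    rw [Finset.sum_const, Nat.card_Icc, nsmul_eq_mul, Nat.add_sub_cancel]
    have hfl : (⌊Real.exp ((a + 1 + 4 * η) * L + k * c)⌋₊ : ℝ) ≤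
        Real.exp ((a + 1 + 4 * η) * L + k * c) := Nat.floor_le (Real.exp_pos _).le
    rw [Real.rpow_def_of_pos hT0, ← hL]
    calc (⌊Real.exp ((a + 1 + 4 * η) * L + k * c)⌋₊ : ℝ) *
          Real.exp (L * -(K + a + 5 * η + 4))
        ≤ Real.exp ((a + 1 + 4 * η) * L + k * c) * Real.exp (L * -(K + a + 5 * η + 4)) := by
          gcongr
      _ = Real.exp (-(K + 3) * L) := by
          rw [← Real.exp_add, hkc]
          congr 1
          ring
  have hsum2 : ‖∑ n ∈ Finset.Icc 1 ⌊Real.exp (a * L + k * c)⌋₊,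
      (((ArithmeticFunction.moebius n : ℤ) : ℂ)) * (cu k c (Real.log n - a * L) : ℂ) *
        (n : ℂ) ^ (-s) * (cs k c ((a + 1 + 3 * η) * L - Real.log n) s - riemannZeta s)‖ ≤
      Real.exp (-(K + 2) * L) := by
    have hb : ∀ n ∈ Finset.Icc 1 ⌊Real.exp (a * L + k * c)⌋₊,
        ‖(((ArithmeticFunction.moebius n : ℤ) : ℂ)) * (cu k c (Real.log n - a * L) : ℂ) *
        (n : ℂ) ^ (-s) * (cs k c ((a + 1 + 3 * η) * L - Real.log n) s - riemannZeta s)‖ ≤
        T ^ (-(K + a + η + 2)) := by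
      intro n hn
      rw [Finset.mem_Icc] at hn
      have hn1 : (n : ℝ) ≤ Real.exp (a * L + k * c) :=
        (Nat.le_floor_iff (Real.exp_pos _).le).mp hn.2
      have hn2 : Real.log n ≤ a * L + k * c := by
        rw [Real.log_le_iff_le_exp (by exact_mod_cast hn.1)]
        exact hn1
      have hn3 : 0 ≤ Real.log n := Real.log_natCast_nonneg n
      rw [hkc] at hn2
      rw [norm_mul]
      have e1 := hT1 T hTT1 ((a + 1 + 3 * η) * L - Real.log n) (by rw [← hL]; nlinarith)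
        (by rw [← hL]; nlinarith) s hs1 hs2 hs3 hs4
      rw [← hL, ← hc] at e1
      have e2 := hterm n hn.1 (cu k c (Real.log n - a * L) : ℂ) (by
          rw [Complex.norm_real, Real.norm_eq_abs, abs_le]
          have := hcu0 (Real.log n - a * L)
          have := hcu1 (Real.log n - a * L)
          constructor <;> linarith)
      calc _ ≤ 1 * T ^ (-(K + a + η + 2)) :=
            mul_le_mul e2 e1 (norm_nonneg _) zero_le_one
        _ = _ := one_mul _
    refine (norm_sum_le _ _).trans ((Finset.sum_le_sum hb).trans ?_)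
    rw [Finset.sum_const, Nat.card_Icc, nsmul_eq_mul, Nat.add_sub_cancel]
    have hfl : (⌊Real.exp (a * L + k * c)⌋₊ : ℝ) ≤
        Real.exp (a * L + k * c) := Nat.floor_le (Real.exp_pos _).le
    rw [Real.rpow_def_of_pos hT0, ← hL]
    calc (⌊Real.exp (a * L + k * c)⌋₊ : ℝ) * Real.exp (L * -(K + a + η + 2))
        ≤ Real.exp (a * L + k * c) * Real.exp (L * -(K + a + η + 2)) := by
          gcongr
      _ = Real.exp (-(K + 2) * L) := by
          rw [← Real.exp_add, hkc]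
          congr 1
          ring
  refine (norm_add_le _ _).trans ((add_le_add hsum1 hsum2).trans ?_)
  rw [Real.rpow_def_of_pos hT0, ← hL]
  have e1 : Real.exp (-(K + 3) * L) ≤ Real.exp (-(K + 2) * L) :=
    Real.exp_le_exp.mpr (by nlinarith)
  have e2 : Real.exp (-(K + 2) * L) = Real.exp (L * -K) * Real.exp (-2 * L) := by
    rw [← Real.exp_add]; congr 1; ring
  have e3 : Real.exp (-2 * L) ≤ 1 / 2 := by
    have h3 : Real.exp (-2 * L) ≤ Real.exp (-1) := Real.exp_le_exp.mpr (by linarith)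
    have h4 : Real.exp (-1) ≤ 1 / 2 := by
      rw [Real.exp_neg, inv_le_comm₀ (Real.exp_pos _) (by norm_num)]
      have := Real.add_one_le_exp (1 : ℝ)
      linarith
    linarith
  have e4 : 0 < Real.exp (L * -K) := Real.exp_pos _
  nlinarith

end Pool.Agent.H448R2.GC
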