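import Pool.Agent.H448R2.GC.Defs

/-! TEAM GC: general integrability and size lemmas used in the last steps. -/

open Complex MeasureTheory Filter Topology

namespace Pool.Agent.H448R2.GC

namespace F0

theorem norm_cpow_le_one (n : ℕ) (hn : 1 ≤ n) (s : ℂ) (hs : 0 ≤ s.re) : ‖(n : ℂ) ^ (-s)‖ ≤ 1 := by
  rw [Complex.norm_natCast_cpow_of_pos (by omega)]
  apply Real.rpow_le_one_of_one_le_of_nonpos
  · exact_mod_cast hn
  · simpa using hs

theorem norm_moebius_le (n : ℕ) : ‖((ArithmeticFunction.moebius n : ℤ) : ℂ)‖ ≤ 1 := by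
  rw [Complex.norm_intCast]
  exact_mod_cast ArithmeticFunction.abs_moebius_le_one

theorem cu_norm_le (cu_nonneg : ∀ (k : ℕ) (c r : ℝ), 0 < c → 0 ≤ cu k c r)
    (cu_le_one : ∀ (k : ℕ) (c r : ℝ), 0 < c → cu k c r ≤ 1) (k : ℕ) (c r : ℝ) (hc : 0 < c) :
    ‖(cu k c r : ℂ)‖ ≤ 1 := by
  rw [Complex.norm_real, Real.norm_of_nonneg (cu_nonneg k c r hc)]
  exact cu_le_one k c r hc

theorem fs_norm_le (cu_nonneg : ∀ (k : ℕ) (c r : ℝ), 0 < c → 0 ≤ cu k c r)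
    (cu_le_one : ∀ (k : ℕ) (c r : ℝ), 0 < c → cu k c r ≤ 1)
    (k : ℕ) (c D : ℝ) (hc : 0 < c) (s : ℂ) (hs : 0 ≤ s.re) :
    ‖fs k c D s‖ ≤ Real.exp (D + k * c) := by
  unfold fs
  refine (norm_sum_le _ _).trans ?_
  have h : ∀ n ∈ Finset.Icc 1 ⌊Real.exp (D + k * c)⌋₊,
      ‖(((ArithmeticFunction.moebius n : ℤ) : ℂ)) * (cu k c (Real.log n - D) : ℂ) * (n : ℂ) ^ (-s)‖
        ≤ 1 := by
    intro n hn
    rw [norm_mul, norm_mul]
    have h1 := norm_moebius_le n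
    have h2 := cu_norm_le cu_nonneg cu_le_one k c (Real.log n - D) hc
    have h3 := norm_cpow_le_one n (Finset.mem_Icc.mp hn).1 s hs
    have h12 : ‖(((ArithmeticFunction.moebius n : ℤ) : ℂ))‖ * ‖(cu k c (Real.log n - D) : ℂ)‖ ≤ 1 :=
      mul_le_one₀ h1 (norm_nonneg _) h2
    exact mul_le_one₀ h12 (norm_nonneg _) h3
  refine (Finset.sum_le_sum h).trans ?_
  simp only [Finset.sum_const, Nat.card_Icc, nsmul_eq_mul, mul_one]
  have := Nat.floor_le (Real.exp_pos (D + k * c)).le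
  simpa using this

theorem MM_norm_le (S : Finset ℕ) (N : ℝ) (hS : ∀ n ∈ S, 1 ≤ n) (hN : ∀ n ∈ S, (n : ℝ) ≤ N)
    (hN0 : 0 ≤ N) (s : ℂ) (hs : 0 ≤ s.re) : ‖MM S s‖ ≤ N := by
  unfold MM
  refine (norm_sum_le _ _).trans ?_
  have h : ∀ n ∈ S, ‖(((ArithmeticFunction.moebius n : ℤ) : ℂ)) * (n : ℂ) ^ (-s)‖ ≤ 1 := by
    intro n hn
    rw [norm_mul]
    exact mul_le_one₀ (norm_moebius_le n) (norm_nonneg _) (norm_cpow_le_one n (hS n hn) s hs)
  refine (Finset.sum_le_sum h).trans ?_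
  simp only [Finset.sum_const, nsmul_eq_mul, mul_one]
  have h1 : S ⊆ Finset.Icc 1 ⌊N⌋₊ := by
    intro n hn
    rw [Finset.mem_Icc]
    exact ⟨hS n hn, Nat.le_floor (hN n hn)⟩
  have h2 := Finset.card_le_card h1
  rw [Nat.card_Icc, Nat.add_sub_cancel] at h2
  calc (S.card : ℝ) ≤ (⌊N⌋₊ : ℝ) := by exact_mod_cast h2
    _ ≤ N := Nat.floor_le hN0

theorem cpow_cont (n : ℕ) (hn : 1 ≤ n) (σ : ℝ) :
    Continuous (fun t : ℝ => (n : ℂ) ^ (-((σ : ℂ) + (t : ℂ) * I))) := by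
  have h : (n : ℂ) ≠ 0 := by exact_mod_cast (by omega : n ≠ 0)
  refine Continuous.const_cpow (by fun_prop) (Or.inl h)

theorem fs_cont (k : ℕ) (c D σ : ℝ) : Continuous (fun t : ℝ => fs k c D ((σ : ℂ) + (t : ℂ) * I)) := by
  unfold fs
  refine continuous_finsetSum _ fun n hn => ?_
  exact continuous_const.mul (cpow_cont n (Finset.mem_Icc.mp hn).1 σ)

theorem MM_cont (S : Finset ℕ) (hS : ∀ n ∈ S, 1 ≤ n) (σ : ℝ) :
    Continuous (fun t : ℝ => MM S ((σ : ℂ) + (t : ℂ) * I)) := by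
  unfold MM
  refine continuous_finsetSum _ fun n hn => ?_
  exact continuous_const.mul (cpow_cont n (hS n hn) σ)

theorem zeta_cont (σ : ℝ) (hσ : σ ≠ 1) :
    Continuous (fun t : ℝ => riemannZeta ((σ : ℂ) + (t : ℂ) * I)) := by
  rw [continuous_iff_continuousAt]
  intro t
  have h1 : (σ : ℂ) + (t : ℂ) * I ≠ 1 := by
    intro h
    apply hσ
    have := congrArg Complex.re h
    simpa using this
  have h2 : ContinuousAt riemannZeta ((σ : ℂ) + (t : ℂ) * I) := (differentiableAt_riemannZeta h1).continuousAt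
  exact ContinuousAt.comp (f := fun t : ℝ => (σ : ℂ) + (t : ℂ) * I) h2 (by fun_prop)

theorem gw_cont (τ Δ : ℝ) : Continuous (gw τ Δ) := by
  unfold gw
  fun_prop

theorem gw_pos (τ Δ t : ℝ) (hΔ : 0 < Δ) : 0 ≤ gw τ Δ t := by
  unfold gw
  have := Real.sqrt_nonneg Real.pi
  positivity

/-- `(1 + |v|)^j ≤ C exp (b v^2)` -/
theorem poly_le_exp (j : ℕ) (b : ℝ) (hb : 0 < b) : ∃ C : ℝ, 0 < C ∧ ∀ v : ℝ,
    (1 + |v|) ^ j ≤ C * Real.exp (b * v ^ 2) := by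
  -- `(1+|v|)^j ≤ j! * exp(1+|v|)` and `|v| ≤ b v^2 + 1/(4b)`
  refine ⟨j.factorial * Real.exp (1 + 1 / (4 * b)), by positivity, fun v => ?_⟩
  have h1 : (1 + |v|) ^ j / j.factorial ≤ Real.exp (1 + |v|) :=
    Real.pow_div_factorial_le_exp _ (by positivity) j
  have hf : (0 : ℝ) < j.factorial := by exact_mod_cast j.factorial_pos
  have h2 : (1 + |v|) ^ j ≤ j.factorial * Real.exp (1 + |v|) := by
    rw [div_le_iff₀ hf] at h1
    linarith [mul_comm (Real.exp (1 + |v|)) (j.factorial : ℝ)]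
  have h3 : |v| ≤ b * v ^ 2 + 1 / (4 * b) := by
    have h4 : 0 ≤ b * (|v| - 1 / (2 * b)) ^ 2 := by positivity
    have h5 : b * (|v| - 1 / (2 * b)) ^ 2 = b * v ^ 2 - |v| + 1 / (4 * b) := by
      rw [← sq_abs v]
      field_simp
      ring
    linarith
  calc (1 + |v|) ^ j ≤ j.factorial * Real.exp (1 + |v|) := h2
    _ ≤ j.factorial * Real.exp ((1 + 1 / (4 * b)) + b * v ^ 2) := by
        apply mul_le_mul_of_nonneg_left _ hf.le
        apply Real.exp_le_exp.2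
        linarith
    _ = j.factorial * Real.exp (1 + 1 / (4 * b)) * Real.exp (b * v ^ 2) := by
        rw [Real.exp_add]; ring

theorem gw_poly_integrable (τ Δ : ℝ) (hΔ : 0 < Δ) (j : ℕ) :
    Integrable (fun t : ℝ => gw τ Δ t * (1 + |t|) ^ j) := by
  obtain ⟨C, hC, h⟩ := poly_le_exp j (1 / (2 * Δ ^ 2)) (by positivity)
  have hb : 0 < 1 / (2 * Δ ^ 2) := by positivity
  have hg : Integrable (fun t : ℝ => Real.exp (-(1 / (2 * Δ ^ 2)) * (t - τ) ^ 2)) := by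
    have := (integrable_exp_neg_mul_sq hb).comp_sub_right τ
    simpa using this
  have hg2 := hg.const_mul (C * (1 + |τ|) ^ j / (Δ * Real.sqrt Real.pi))
  refine hg2.mono' ?_ (Eventually.of_forall fun t => ?_)
  · exact ((gw_cont τ Δ).mul (by fun_prop)).aestronglyMeasurable
  · have hpi : 0 < Real.sqrt Real.pi := Real.sqrt_pos.2 Real.pi_pos
    rw [Real.norm_of_nonneg (mul_nonneg (gw_pos τ Δ t hΔ) (by positivity))]
    unfold gw
    have h1 : (1 + |t|) ^ j ≤ (1 + |τ|) ^ j * (1 + |t - τ|) ^ j := by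
      rw [← mul_pow]
      apply pow_le_pow_left₀ (by positivity)
      have : |t| ≤ |τ| + |t - τ| := by
        calc |t| = |τ + (t - τ)| := by ring_nf
          _ ≤ |τ| + |t - τ| := abs_add_le _ _
      nlinarith [abs_nonneg τ, abs_nonneg (t - τ), mul_nonneg (abs_nonneg τ) (abs_nonneg (t - τ))]
    have h2 := h (t - τ)
    have h3 : (1 + |t|) ^ j ≤ (1 + |τ|) ^ j * (C * Real.exp (1 / (2 * Δ ^ 2) * (t - τ) ^ 2)) :=
      h1.trans (mul_le_mul_of_nonneg_left h2 (by positivity))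
    have h4 : Real.exp (-((t - τ) / Δ) ^ 2) * Real.exp (1 / (2 * Δ ^ 2) * (t - τ) ^ 2) =
        Real.exp (-(1 / (2 * Δ ^ 2)) * (t - τ) ^ 2) := by
      rw [← Real.exp_add]
      congr 1
      field_simp
      ring
    calc Real.exp (-((t - τ) / Δ) ^ 2) / (Δ * Real.sqrt Real.pi) * (1 + |t|) ^ j
        ≤ Real.exp (-((t - τ) / Δ) ^ 2) / (Δ * Real.sqrt Real.pi) *
          ((1 + |τ|) ^ j * (C * Real.exp (1 / (2 * Δ ^ 2) * (t - τ) ^ 2))) :=
          mul_le_mul_of_nonneg_left h3 (by positivity)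
      _ = C * (1 + |τ|) ^ j / (Δ * Real.sqrt Real.pi) *
          (Real.exp (-((t - τ) / Δ) ^ 2) * Real.exp (1 / (2 * Δ ^ 2) * (t - τ) ^ 2)) := by ring
      _ = _ := by rw [h4]

theorem gw_mul_integrable (τ Δ : ℝ) (hΔ : 0 < Δ) (g : ℝ → ℝ) (hg : Continuous g) (C : ℝ) (j : ℕ)
    (h : ∀ t, |g t| ≤ C * (1 + |t|) ^ j) : Integrable (fun t : ℝ => gw τ Δ t * g t) := by
  refine ((gw_poly_integrable τ Δ hΔ j).const_mul C).mono' ?_ (Eventually.of_forall fun t => ?_)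
  · exact ((gw_cont τ Δ).mul hg).aestronglyMeasurable
  · rw [norm_mul, Real.norm_of_nonneg (gw_pos τ Δ t hΔ), Real.norm_eq_abs]
    calc gw τ Δ t * |g t| ≤ gw τ Δ t * (C * (1 + |t|) ^ j) :=
          mul_le_mul_of_nonneg_left (h t) (gw_pos τ Δ t hΔ)
      _ = C * (gw τ Δ t * (1 + |t|) ^ j) := by ring

theorem gw_mul_tail (τ Δ : ℝ) (hΔ : 0 < Δ) (g : ℝ → ℝ) (hg : Continuous g) (C : ℝ) (j : ℕ)
    (h : ∀ t, |g t| ≤ C * (1 + |t|) ^ j) (E : Set ℝ) (hE : MeasurableSet E) :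
    ∫ t in E, gw τ Δ t * g t ≤ C * ∫ t in E, gw τ Δ t * (1 + |t|) ^ j := by
  rw [← integral_const_mul]
  apply setIntegral_mono_on (gw_mul_integrable τ Δ hΔ g hg C j h).integrableOn
    ((gw_poly_integrable τ Δ hΔ j).const_mul C).integrableOn hE
  intro t _
  calc gw τ Δ t * g t ≤ gw τ Δ t * (C * (1 + |t|) ^ j) :=
        mul_le_mul_of_nonneg_left ((le_abs_self _).trans (h t)) (gw_pos τ Δ t hΔ)
    _ = C * (gw τ Δ t * (1 + |t|) ^ j) := by ring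

end F0

end Pool.Agent.H448R2.GC
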