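import Pool.Agent.H448R2.GC.Defs
import Pool.Agent.H448R2.GC.F0

/-! TEAM GC: abstract inequalities for the error term. -/

open Complex MeasureTheory Filter Topology

namespace Pool.Agent.H448R2.GC

namespace F1

/-- AM-GM and Tonelli -/
theorem core (g M ω Z B : ℝ → ℝ) (hg : Continuous g) (hM : Continuous M) (hω : Continuous ω)
    (hZ : Continuous Z) (hB : Continuous B) (g0 : ∀ t, 0 ≤ g t) (ω0 : ∀ t, 0 ≤ ω t)
    (E Y : Set ℝ) (r : ℝ) (hr : 0 < r) :
    ∫⁻ t in E, ENNReal.ofReal (g t * M t ^ 2) * ∫⁻ y in Y, ENNReal.ofReal (Z (t + y) * B (t + y) * ω y) ≤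
    ENNReal.ofReal (r / 2) * (∫⁻ y in Y, ENNReal.ofReal (ω y) *
        ∫⁻ t in E, ENNReal.ofReal (g t * (Z (t + y) ^ 2 * M t ^ 4))) +
      ENNReal.ofReal (1 / (2 * r)) * ∫⁻ y in Y, ENNReal.ofReal (ω y) *
        ∫⁻ t in E, ENNReal.ofReal (g t * B (t + y) ^ 2) := by
  have key : ∀ t y : ℝ, ENNReal.ofReal (g t * M t ^ 2) * ENNReal.ofReal (Z (t + y) * B (t + y) * ω y) ≤
      ENNReal.ofReal (r / 2) * (ENNReal.ofReal (ω y) * ENNReal.ofReal (g t * (Z (t + y) ^ 2 * M t ^ 4))) +
      ENNReal.ofReal (1 / (2 * r)) * (ENNReal.ofReal (ω y) * ENNReal.ofReal (g t * B (t + y) ^ 2)) := by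
    intro t y
    have h1 : 0 ≤ g t * M t ^ 2 := mul_nonneg (g0 t) (by positivity)
    have h2 : 0 ≤ g t * (Z (t + y) ^ 2 * M t ^ 4) := mul_nonneg (g0 t) (by positivity)
    have h3 : 0 ≤ g t * B (t + y) ^ 2 := mul_nonneg (g0 t) (by positivity)
    rw [← ENNReal.ofReal_mul h1, ← ENNReal.ofReal_mul (ω0 y), ← ENNReal.ofReal_mul (ω0 y),
      ← ENNReal.ofReal_mul (by positivity), ← ENNReal.ofReal_mul (by positivity),
      ← ENNReal.ofReal_add (mul_nonneg (by positivity) (mul_nonneg (ω0 y) h2))
        (mul_nonneg (by positivity) (mul_nonneg (ω0 y) h3))]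
    apply ENNReal.ofReal_le_ofReal
    have h4 : M t ^ 2 * (Z (t + y) * B (t + y)) ≤
        r / 2 * (Z (t + y) ^ 2 * M t ^ 4) + 1 / (2 * r) * B (t + y) ^ 2 := by
      have h5 : 0 ≤ (r * (Z (t + y) * M t ^ 2) - B (t + y)) ^ 2 / (2 * r) := by positivity
      have h6 : (r * (Z (t + y) * M t ^ 2) - B (t + y)) ^ 2 / (2 * r) =
          r / 2 * (Z (t + y) ^ 2 * M t ^ 4) + 1 / (2 * r) * B (t + y) ^ 2 -
          M t ^ 2 * (Z (t + y) * B (t + y)) := by
        field_simp
        ring
      linarith
    have h7 : 0 ≤ g t * ω y := mul_nonneg (g0 t) (ω0 y)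
    calc g t * M t ^ 2 * (Z (t + y) * B (t + y) * ω y)
        = g t * ω y * (M t ^ 2 * (Z (t + y) * B (t + y))) := by ring
      _ ≤ g t * ω y * (r / 2 * (Z (t + y) ^ 2 * M t ^ 4) + 1 / (2 * r) * B (t + y) ^ 2) :=
          mul_le_mul_of_nonneg_left h4 h7
      _ = _ := by ring
  have m1 : Measurable (fun p : ℝ × ℝ => ENNReal.ofReal (r / 2) * (ENNReal.ofReal (ω p.2) *
      ENNReal.ofReal (g p.1 * (Z (p.1 + p.2) ^ 2 * M p.1 ^ 4)))) := by
    apply Measurable.const_mul
    refine Measurable.fun_mul ?_ ?_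
    · exact (hω.comp continuous_snd).measurable.ennreal_ofReal
    · apply Measurable.ennreal_ofReal
      apply Continuous.measurable
      fun_prop
  have m2 : Measurable (fun p : ℝ × ℝ => ENNReal.ofReal (1 / (2 * r)) * (ENNReal.ofReal (ω p.2) *
      ENNReal.ofReal (g p.1 * B (p.1 + p.2) ^ 2))) := by
    apply Measurable.const_mul
    refine Measurable.fun_mul ?_ ?_
    · exact (hω.comp continuous_snd).measurable.ennreal_ofReal
    · apply Measurable.ennreal_ofReal
      apply Continuous.measurable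
      fun_prop
  calc ∫⁻ t in E, ENNReal.ofReal (g t * M t ^ 2) *
        ∫⁻ y in Y, ENNReal.ofReal (Z (t + y) * B (t + y) * ω y)
      = ∫⁻ t in E, ∫⁻ y in Y, ENNReal.ofReal (g t * M t ^ 2) *
          ENNReal.ofReal (Z (t + y) * B (t + y) * ω y) := by
        refine lintegral_congr fun t => ?_
        rw [lintegral_const_mul]
        apply Measurable.ennreal_ofReal
        apply Continuous.measurable
        fun_prop
    _ ≤ ∫⁻ t in E, ∫⁻ y in Y, (ENNReal.ofReal (r / 2) * (ENNReal.ofReal (ω y) *
          ENNReal.ofReal (g t * (Z (t + y) ^ 2 * M t ^ 4))) +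
        ENNReal.ofReal (1 / (2 * r)) * (ENNReal.ofReal (ω y) * ENNReal.ofReal (g t * B (t + y) ^ 2))) :=
        lintegral_mono fun t => lintegral_mono fun y => key t y
    _ = ∫⁻ y in Y, ∫⁻ t in E, (ENNReal.ofReal (r / 2) * (ENNReal.ofReal (ω y) *
          ENNReal.ofReal (g t * (Z (t + y) ^ 2 * M t ^ 4))) +
        ENNReal.ofReal (1 / (2 * r)) * (ENNReal.ofReal (ω y) * ENNReal.ofReal (g t * B (t + y) ^ 2))) :=
        lintegral_lintegral_swap (m1.add m2).aemeasurable
    _ = ∫⁻ y in Y, (ENNReal.ofReal (r / 2) * (ENNReal.ofReal (ω y) *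
          ∫⁻ t in E, ENNReal.ofReal (g t * (Z (t + y) ^ 2 * M t ^ 4))) +
        ENNReal.ofReal (1 / (2 * r)) * (ENNReal.ofReal (ω y) *
          ∫⁻ t in E, ENNReal.ofReal (g t * B (t + y) ^ 2))) := by
        refine lintegral_congr fun y => ?_
        have n1 : Measurable (fun t : ℝ => ENNReal.ofReal (g t * (Z (t + y) ^ 2 * M t ^ 4))) := by
          apply Measurable.ennreal_ofReal
          apply Continuous.measurable
          fun_prop
        have n2 : Measurable (fun t : ℝ => ENNReal.ofReal (g t * B (t + y) ^ 2)) := by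
          apply Measurable.ennreal_ofReal
          apply Continuous.measurable
          fun_prop
        rw [lintegral_add_left ((n1.const_mul _).const_mul _), lintegral_const_mul _ (n1.const_mul _),
          lintegral_const_mul _ n1, lintegral_const_mul _ (n2.const_mul _), lintegral_const_mul _ n2]
    _ = _ := by
        have n1 : Measurable (fun y : ℝ => ENNReal.ofReal (ω y) *
            ∫⁻ t in E, ENNReal.ofReal (g t * (Z (t + y) ^ 2 * M t ^ 4))) := by
          apply hω.measurable.ennreal_ofReal.mul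
          apply Measurable.lintegral_prod_left' (μ := volume.restrict E)
            (f := fun p : ℝ × ℝ => ENNReal.ofReal (g p.1 * (Z (p.1 + p.2) ^ 2 * M p.1 ^ 4)))
          apply Measurable.ennreal_ofReal
          apply Continuous.measurable
          fun_prop
        have n2 : Measurable (fun y : ℝ => ENNReal.ofReal (ω y) *
            ∫⁻ t in E, ENNReal.ofReal (g t * B (t + y) ^ 2)) := by
          apply hω.measurable.ennreal_ofReal.mul
          apply Measurable.lintegral_prod_left' (μ := volume.restrict E)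
            (f := fun p : ℝ × ℝ => ENNReal.ofReal (g p.1 * B (p.1 + p.2) ^ 2))
          apply Measurable.ennreal_ofReal
          apply Continuous.measurable
          fun_prop
        rw [lintegral_add_left (n1.const_mul _), lintegral_const_mul _ n1, lintegral_const_mul _ n2]

theorem gw_symm (τ Δ t : ℝ) : gw τ Δ t = gw t Δ τ := by
  unfold gw
  congr 2
  ring

/-- choice of `τ` -/
theorem choose_tau (gw_int : ∀ τ Δ : ℝ, 0 < Δ → ∫ t, gw τ Δ t = 1)
    (gw_integrable : ∀ τ Δ : ℝ, 0 < Δ → Integrable (gw τ Δ))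
    (T Δ : ℝ) (hT : 1 ≤ T) (hΔ : 0 < Δ) (ω B : ℝ → ℝ) (hω : Continuous ω) (hB : Continuous B)
    (Y : Set ℝ) (hY : ∀ y ∈ Y, |y| ≤ T) (hYm : MeasurableSet Y) (W R ε : ℝ) (hε : 0 < ε) (hW : 0 ≤ W)
    (hWi : ∫⁻ y in Y, ENNReal.ofReal (ω y) ≤ ENNReal.ofReal W)
    (hR : ∫ t in (-(5 * T))..(5 * T), B t ^ 2 ≤ R) :
    ∃ τ : ℝ, T ≤ τ ∧ τ ≤ 2 * T ∧
      ∫⁻ y in Y, ENNReal.ofReal (ω y) *
        ∫⁻ t in Set.Icc (τ - T / 4) (τ + T / 4), ENNReal.ofReal (gw τ Δ t * B (t + y) ^ 2) ≤
      ENNReal.ofReal (W * R / T) + ENNReal.ofReal ε := by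
  by_contra hcon
  push Not at hcon
  have hR0 : 0 ≤ R := by
    refine le_trans ?_ hR
    apply intervalIntegral.integral_nonneg (by linarith)
    intro t _
    positivity
  have hT0 : 0 < T := by linarith
  set G : ℝ → ENNReal := fun τ => ∫⁻ y in Y, ENNReal.ofReal (ω y) *
        ∫⁻ t in Set.Icc (-(4 * T)) (4 * T), ENNReal.ofReal (gw τ Δ t * B (t + y) ^ 2) with hG
  have h1 : ∀ τ ∈ Set.Icc T (2 * T), ENNReal.ofReal (W * R / T) + ENNReal.ofReal ε ≤ G τ := by
    intro τ hτ
    refine (hcon τ hτ.1 hτ.2).le.trans ?_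
    refine lintegral_mono fun y => ?_
    refine mul_le_mul_right ?_ _
    apply lintegral_mono_set
    intro t ht
    rw [Set.mem_Icc] at ht ⊢
    constructor <;> linarith [hτ.1, hτ.2, ht.1, ht.2]
  have h2 : (ENNReal.ofReal (W * R / T) + ENNReal.ofReal ε) * ENNReal.ofReal T ≤
      ∫⁻ τ in Set.Icc T (2 * T), G τ := by
    calc (ENNReal.ofReal (W * R / T) + ENNReal.ofReal ε) * ENNReal.ofReal T
        = ∫⁻ _ in Set.Icc T (2 * T), (ENNReal.ofReal (W * R / T) + ENNReal.ofReal ε) := by
          rw [setLIntegral_const, Real.volume_Icc]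
          congr 2
          ring
      _ ≤ _ := setLIntegral_mono' measurableSet_Icc h1
  have h3 : ∫⁻ τ in Set.Icc T (2 * T), G τ ≤ ENNReal.ofReal (W * R) := by
    have mB : Measurable (fun p : (ℝ × ℝ) × ℝ => ENNReal.ofReal (gw p.1.1 Δ p.2 * B (p.2 + p.1.2) ^ 2)) := by
      apply Measurable.ennreal_ofReal
      apply Continuous.measurable
      unfold gw
      fun_prop
    have mG : Measurable (fun p : ℝ × ℝ => ENNReal.ofReal (ω p.2) *
        ∫⁻ t in Set.Icc (-(4 * T)) (4 * T), ENNReal.ofReal (gw p.1 Δ t * B (t + p.2) ^ 2)) := by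
      refine Measurable.fun_mul ?_ ?_
      · exact (hω.comp continuous_snd).measurable.ennreal_ofReal
      · exact Measurable.lintegral_prod_right' (ν := volume.restrict (Set.Icc (-(4 * T)) (4 * T)))
          (f := fun p : (ℝ × ℝ) × ℝ => ENNReal.ofReal (gw p.1.1 Δ p.2 * B (p.2 + p.1.2) ^ 2)) mB
    calc ∫⁻ τ in Set.Icc T (2 * T), G τ
        = ∫⁻ y in Y, ∫⁻ τ in Set.Icc T (2 * T), ENNReal.ofReal (ω y) *
          ∫⁻ t in Set.Icc (-(4 * T)) (4 * T), ENNReal.ofReal (gw τ Δ t * B (t + y) ^ 2) := by
          exact lintegral_lintegral_swap mG.aemeasurable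
      _ ≤ ∫⁻ y in Y, ENNReal.ofReal (ω y) * ENNReal.ofReal R := by
          refine setLIntegral_mono' hYm fun y hy => ?_
          have mBy : Measurable (fun p : ℝ × ℝ => ENNReal.ofReal (gw p.1 Δ p.2 * B (p.2 + y) ^ 2)) := by
            apply Measurable.ennreal_ofReal
            apply Continuous.measurable
            unfold gw
            fun_prop
          rw [lintegral_const_mul _ (Measurable.lintegral_prod_right'
            (ν := volume.restrict (Set.Icc (-(4 * T)) (4 * T))) mBy)]
          refine mul_le_mul_right ?_ _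
          calc ∫⁻ τ in Set.Icc T (2 * T), ∫⁻ t in Set.Icc (-(4 * T)) (4 * T),
                ENNReal.ofReal (gw τ Δ t * B (t + y) ^ 2)
              = ∫⁻ t in Set.Icc (-(4 * T)) (4 * T), ∫⁻ τ in Set.Icc T (2 * T),
                ENNReal.ofReal (gw τ Δ t * B (t + y) ^ 2) := lintegral_lintegral_swap mBy.aemeasurable
            _ ≤ ∫⁻ t in Set.Icc (-(4 * T)) (4 * T), ENNReal.ofReal (B (t + y) ^ 2) := by
                refine lintegral_mono fun t => ?_
                have e1 : ∀ τ : ℝ, ENNReal.ofReal (gw τ Δ t * B (t + y) ^ 2) =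
                    ENNReal.ofReal (gw t Δ τ) * ENNReal.ofReal (B (t + y) ^ 2) := by
                  intro τ
                  rw [gw_symm, ENNReal.ofReal_mul (F0.gw_pos _ _ _ hΔ)]
                simp_rw [e1]
                rw [lintegral_mul_const _ (F0.gw_cont t Δ).measurable.ennreal_ofReal]
                calc _ ≤ 1 * ENNReal.ofReal (B (t + y) ^ 2) := by
                      refine mul_le_mul_left ?_ _
                      calc ∫⁻ τ in Set.Icc T (2 * T), ENNReal.ofReal (gw t Δ τ)
                          ≤ ∫⁻ τ, ENNReal.ofReal (gw t Δ τ) := setLIntegral_le_lintegral _ _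
                        _ = ENNReal.ofReal (∫ τ, gw t Δ τ) :=
                            (ofReal_integral_eq_lintegral_ofReal (gw_integrable t Δ hΔ)
                              (Eventually.of_forall fun τ => F0.gw_pos _ _ _ hΔ)).symm
                        _ = 1 := by rw [gw_int t Δ hΔ, ENNReal.ofReal_one]
                  _ = _ := one_mul _
            _ ≤ ∫⁻ u in Set.Icc (-(5 * T)) (5 * T), ENNReal.ofReal (B u ^ 2) := by
                rw [← lintegral_indicator measurableSet_Icc, ← lintegral_indicator measurableSet_Icc,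
                  ← lintegral_add_right_eq_self
                    ((Set.Icc (-(5 * T)) (5 * T)).indicator fun u => ENNReal.ofReal (B u ^ 2)) y]
                refine lintegral_mono fun t => ?_
                by_cases ht : t ∈ Set.Icc (-(4 * T)) (4 * T)
                · have ht' : t + y ∈ Set.Icc (-(5 * T)) (5 * T) := by
                    have := abs_le.1 (hY y hy)
                    rw [Set.mem_Icc] at ht ⊢
                    constructor <;> linarith [ht.1, ht.2, this.1, this.2]
                  rw [Set.indicator_of_mem ht, Set.indicator_of_mem ht']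
                · rw [Set.indicator_of_notMem ht]
                  exact zero_le
            _ = ENNReal.ofReal (∫ u in Set.Icc (-(5 * T)) (5 * T), B u ^ 2) := by
                rw [ofReal_integral_eq_lintegral_ofReal]
                · exact (Continuous.integrableOn_Icc (by fun_prop))
                · exact Eventually.of_forall fun u => by positivity
            _ ≤ ENNReal.ofReal R := by
                apply ENNReal.ofReal_le_ofReal
                rw [integral_Icc_eq_integral_Ioc, ← intervalIntegral.integral_of_le (by linarith)]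
                exact hR
      _ = (∫⁻ y in Y, ENNReal.ofReal (ω y)) * ENNReal.ofReal R := by
          rw [lintegral_mul_const _ hω.measurable.ennreal_ofReal]
      _ ≤ ENNReal.ofReal W * ENNReal.ofReal R := mul_le_mul_left hWi _
      _ = ENNReal.ofReal (W * R) := (ENNReal.ofReal_mul hW).symm
  have h4 := h2.trans h3
  rw [← ENNReal.ofReal_add (by positivity) hε.le, ← ENNReal.ofReal_mul (by positivity),
    ENNReal.ofReal_le_ofReal_iff (by positivity)] at h4
  have h5 : (W * R / T + ε) * T = W * R + ε * T := by field_simp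
  rw [h5] at h4
  have h6 : 0 < ε * T := by positivity
  linarith

end F1

end Pool.Agent.H448R2.GC
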