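import Pool.Agent.H448R2.GC.Defs
import Pool.Agent.H448R2.GC.F1a
import Pool.Agent.H448R2.GC.E
import Pool.Agent.H448R2.GC.K1
import Pool.Agent.H448R2.GC.K2
import Pool.Agent.H448R2.GC.X2

/-! TEAM GC: pointwise bound for the error term. -/

open Complex MeasureTheory Filter Topology

namespace Pool.Agent.H448R2.GC

namespace F1

noncomputable def Zf (A T t : ℝ) : ℝ :=
  ‖riemannZeta (((sm A T + 1 / Real.log T : ℝ) : ℂ) + (t : ℂ) * I)‖

noncomputable def Bf (A T a η : ℝ) (k : ℕ) (t : ℝ) : ℝ :=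
  ‖fs k (η * Real.log T / k) ((a + 1 + 4 * η) * Real.log T)
      (((sm A T + 1 / Real.log T : ℝ) : ℂ) + (t : ℂ) * I) -
    fs k (η * Real.log T / k) (a * Real.log T)
      (((sm A T + 1 / Real.log T : ℝ) : ℂ) + (t : ℂ) * I)‖

noncomputable def Wf (T a η : ℝ) (k : ℕ) (y : ℝ) : ℝ :=
  ‖ker k (η * Real.log T / k) ((a + 1 + 3 * η) * Real.log T) (1 / Real.log T) y‖

noncomputable def Ef (A T a η : ℝ) (k : ℕ) (t : ℝ) : ℝ :=
  ‖1 - riemannZeta ((sm A T : ℂ) + (t : ℂ) * I) *
        fs k (η * Real.log T / k) (a * Real.log T) ((sm A T : ℂ) + (t : ℂ) * I)‖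

theorem ev_log (K : ℝ) : ∃ T₀ : ℝ, ∀ T : ℝ, T₀ ≤ T → K ≤ Real.log T := by
  refine ⟨Real.exp K, fun T hT => ?_⟩
  rw [Real.le_log_iff_exp_le (lt_of_lt_of_le (Real.exp_pos _) hT)]
  exact hT

theorem sm_bounds (A T : ℝ) (hA : 1 ≤ A) (hL : 8 * A + 8 ≤ Real.log T) :
    3 / 8 ≤ sm A T ∧ sm A T ≤ 1 / 2 ∧ 3 / 8 ≤ sm A T + 1 / Real.log T ∧
      sm A T + 1 / Real.log T ≤ 1 / 2 := by
  have hL0 : 0 < Real.log T := by linarith
  have h1 : A / Real.log T ≤ 1 / 8 := by
    rw [div_le_iff₀ hL0]; linarith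
  have h2 : 1 / Real.log T ≤ A / Real.log T := by
    gcongr
  have h3 : 0 < 1 / Real.log T := by positivity
  unfold sm
  refine ⟨by linarith, by linarith, by linarith, by linarith⟩

theorem ker_bd (a η : ℝ) (k : ℕ) (ha : 1 < a) (hη : 0 < η) (hk : 1 ≤ k) : ∃ Ck : ℝ, 0 < Ck ∧
    ∀ T : ℝ, 1 ≤ Real.log T → ∀ y : ℝ,
      Wf T a η k y ≤ Ck * (Real.log T / (1 + Real.log T * |y|) ^ (k + 1)) := by
  obtain ⟨Ck, hCk, h⟩ := Pool.Agent.H448R2.GC.ker_scale η (a + 2 + 3 * η) k hη (by linarith) hk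
  refine ⟨Ck, hCk, fun T hT y => ?_⟩
  have hL0 : 0 < Real.log T := by linarith
  have hx : |1 / Real.log T| = 1 / Real.log T := abs_of_pos (by positivity)
  refine h (Real.log T) _ (1 / Real.log T) y hT ?_ ?_ ?_
  · rw [abs_of_nonneg (by positivity)]
    apply mul_le_mul_of_nonneg_right _ hL0.le
    linarith
  · rw [hx]
  · rw [hx]
    gcongr
    linarith

theorem Bf_le (A T a η : ℝ) (k : ℕ) (hA : 1 ≤ A) (ha : 1 < a) (hη : 0 < η) (hk : 1 ≤ k)
    (hL : 8 * A + 8 ≤ Real.log T) (t : ℝ) : Bf A T a η k t ≤ 2 * Real.exp ((a + 1 + 5 * η) * Real.log T) := by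
  obtain ⟨h1, h2, h3, h4⟩ := sm_bounds A T hA hL
  have hL0 : 0 < Real.log T := by linarith
  have hk0 : (0 : ℝ) < k := by exact_mod_cast hk
  have hc : 0 < η * Real.log T / k := by positivity
  have hkc : (k : ℝ) * (η * Real.log T / k) = η * Real.log T := by field_simp
  have hre : ((((sm A T + 1 / Real.log T : ℝ) : ℂ) + (t : ℂ) * I)).re = sm A T + 1 / Real.log T := by simp
  have e1 := F0.fs_norm_le Pool.Agent.H448R2.GC.cu_nonneg Pool.Agent.H448R2.GC.cu_le_one k (η * Real.log T / k)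
    ((a + 1 + 4 * η) * Real.log T) hc (((sm A T + 1 / Real.log T : ℝ) : ℂ) + (t : ℂ) * I)
    (by rw [hre]; linarith)
  have e2 := F0.fs_norm_le Pool.Agent.H448R2.GC.cu_nonneg Pool.Agent.H448R2.GC.cu_le_one k (η * Real.log T / k)
    (a * Real.log T) hc (((sm A T + 1 / Real.log T : ℝ) : ℂ) + (t : ℂ) * I)
    (by rw [hre]; linarith)
  rw [hkc] at e1 e2
  have e3 : Real.exp (a * Real.log T + η * Real.log T) ≤ Real.exp ((a + 1 + 5 * η) * Real.log T) := by
    apply Real.exp_le_exp.2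
    nlinarith [mul_pos hη hL0]
  have e4 : Real.exp ((a + 1 + 4 * η) * Real.log T + η * Real.log T) =
      Real.exp ((a + 1 + 5 * η) * Real.log T) := by
    congr 1; ring
  rw [e4] at e1
  unfold Bf
  refine (norm_sub_le _ _).trans ?_
  linarith

theorem Zf_le (Cz : ℝ) (hCz : 0 < Cz) (hz : ∀ w : ℂ, 1 / 8 ≤ w.re → w.re ≤ 7 / 8 →
    ‖riemannZeta w‖ ≤ Cz * (1 + |w.im|)) (A T : ℝ) (hA : 1 ≤ A)
    (hL : 8 * A + 8 ≤ Real.log T) (t : ℝ) : Zf A T t ≤ Cz * (1 + |t|) := by
  obtain ⟨h1, h2, h3, h4⟩ := sm_bounds A T hA hL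
  have hre : ((((sm A T + 1 / Real.log T : ℝ) : ℂ) + (t : ℂ) * I)).re = sm A T + 1 / Real.log T := by simp
  have him : ((((sm A T + 1 / Real.log T : ℝ) : ℂ) + (t : ℂ) * I)).im = t := by simp
  have := hz (((sm A T + 1 / Real.log T : ℝ) : ℂ) + (t : ℂ) * I) (by rw [hre]; linarith)
    (by rw [hre]; linarith)
  rwa [him] at this

theorem pw (A a η : ℝ) (hA : 1 ≤ A) (ha : 1 < a) (hη : 0 < η) : ∃ k₀ : ℕ, ∀ k : ℕ, k₀ ≤ k →
    ∃ T₀ : ℝ, ∀ T : ℝ, T₀ ≤ T → ∀ t : ℝ, T / 8 ≤ t → t ≤ 8 * T →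
    ENNReal.ofReal (Ef A T a η k t) ≤
      (∫⁻ y in Set.Icc (-Real.sqrt T) (Real.sqrt T),
        ENNReal.ofReal (Zf A T (t + y) * Bf A T a η k (t + y) * Wf T a η k y)) +
      ENNReal.ofReal (2 / T) := by
  obtain ⟨Cz, hCz, hz⟩ := Pool.Agent.H448R2.GC.zeta_growth_mid
  obtain ⟨k₀, hrep⟩ := Pool.Agent.H448R2.GC.err_repr a η 1 ha hη
  refine ⟨max k₀ (max 2 ⌈2 * (a + 1 + 5 * η) + 8⌉₊), fun k hk => ?_⟩
  have hk1 : k₀ ≤ k := (le_max_left _ _).trans hk
  have hk2 : 2 ≤ k := ((le_max_left _ _).trans (le_max_right _ _)).trans hk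
  have hk3 : 2 * (a + 1 + 5 * η) + 8 ≤ k :=
    (Nat.le_ceil _).trans (by exact_mod_cast ((le_max_right _ _).trans (le_max_right _ _)).trans hk)
  obtain ⟨T₁, hrep⟩ := hrep k hk1
  obtain ⟨Ck, hCk, hker⟩ := ker_bd a η k ha hη (by omega)
  obtain ⟨T₂, hlog⟩ := ev_log (8 * A + 8)
  refine ⟨max T₁ (max T₂ (max 1 (36 * Cz * Ck))), fun T hT t ht1 ht2 => ?_⟩
  simp only [max_le_iff] at hT
  obtain ⟨hT1, hT2, hT3, hT4⟩ := hT
  have hL := hlog T hT2
  have hL1 : 1 ≤ Real.log T := by linarith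
  have hL0 : 0 < Real.log T := by linarith
  have hT0 : 0 < T := by linarith
  obtain ⟨s1, s2, s3, s4⟩ := sm_bounds A T hA hL
  have hre : (((sm A T : ℂ) + (t : ℂ) * I)).re = sm A T := by simp
  have him : (((sm A T : ℂ) + (t : ℂ) * I)).im = t := by simp
  have hx : 1 / Real.log T ≤ 1 / 8 := by
    apply one_div_le_one_div_of_le (by norm_num); linarith
  have hr := hrep T hT1 ((sm A T : ℂ) + (t : ℂ) * I) (by rw [hre]; linarith) (by rw [hre]; linarith)
    (by rw [him]; exact ht1) (by rw [him]; exact ht2) (1 / Real.log T) le_rfl hx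
  set J : ℂ := ∫ y : ℝ,
      riemannZeta ((sm A T : ℂ) + (t : ℂ) * I + (((1 / Real.log T : ℝ) : ℂ) + (y : ℂ) * I)) *
        (fs k (η * Real.log T / k) ((a + 1 + 4 * η) * Real.log T)
          ((sm A T : ℂ) + (t : ℂ) * I + (((1 / Real.log T : ℝ) : ℂ) + (y : ℂ) * I)) -
         fs k (η * Real.log T / k) (a * Real.log T)
          ((sm A T : ℂ) + (t : ℂ) * I + (((1 / Real.log T : ℝ) : ℂ) + (y : ℂ) * I))) *
        ker k (η * Real.log T / k) ((a + 1 + 3 * η) * Real.log T) (1 / Real.log T) y with hJ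
  have hJe : ‖J‖ₑ ≤ ∫⁻ y : ℝ, ENNReal.ofReal (Zf A T (t + y) * Bf A T a η k (t + y) * Wf T a η k y) := by
    refine (enorm_integral_le_lintegral_enorm _).trans (le_of_eq ?_)
    refine lintegral_congr fun y => ?_
    have e1 : (sm A T : ℂ) + (t : ℂ) * I + (((1 / Real.log T : ℝ) : ℂ) + (y : ℂ) * I) =
        ((sm A T + 1 / Real.log T : ℝ) : ℂ) + ((t + y : ℝ) : ℂ) * I := by
      push_cast; ring
    rw [e1, ← ofReal_norm, norm_mul, norm_mul]
    rfl
  have hmain : Ef A T a η k t ≤ ‖J‖ + 1 / T := by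
    unfold Ef
    have h1 := norm_sub_norm_le (1 - riemannZeta ((sm A T : ℂ) + (t : ℂ) * I) *
        fs k (η * Real.log T / k) (a * Real.log T) ((sm A T : ℂ) + (t : ℂ) * I))
        (1 / (2 * Real.pi) * J)
    have h2 : ‖(1 / (2 * Real.pi) * J : ℂ)‖ ≤ ‖J‖ := by
      rw [norm_mul]
      have h3 : ‖(1 / (2 * Real.pi) : ℂ)‖ ≤ 1 := by
        rw [norm_div, norm_one, norm_mul, Complex.norm_real, Real.norm_of_nonneg Real.pi_pos.le]
        rw [div_le_one (by simp [Real.pi_pos])]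
        simp only [Complex.norm_ofNat]
        linarith [Real.pi_gt_three]
      calc _ ≤ 1 * ‖J‖ := mul_le_mul_of_nonneg_right h3 (norm_nonneg _)
        _ = ‖J‖ := one_mul _
    have h4 : T ^ (-1 : ℝ) = 1 / T := by
      rw [Real.rpow_neg_one, one_div]
    rw [h4] at hr
    linarith
  -- split the integral
  set Y : Set ℝ := Set.Icc (-Real.sqrt T) (Real.sqrt T) with hY
  have htail : ∫⁻ y in Yᶜ, ENNReal.ofReal (Zf A T (t + y) * Bf A T a η k (t + y) * Wf T a η k y) ≤
      ENNReal.ofReal (1 / T) := by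
    have hb : ∀ y ∈ Yᶜ, ENNReal.ofReal (Zf A T (t + y) * Bf A T a η k (t + y) * Wf T a η k y) ≤
        ENNReal.ofReal (18 * Cz * Ck / T ^ 2 * (Real.log T / (1 + Real.log T * |y|) ^ 2)) := by
      intro y hy
      apply ENNReal.ofReal_le_ofReal
      have hy' : Real.sqrt T < |y| := by
        by_contra hcon
        push Not at hcon
        exact hy (Set.mem_Icc.2 (abs_le.1 hcon))
      have q1 : Zf A T (t + y) ≤ Cz * (9 * T * (1 + Real.log T * |y|)) := by
        refine (Zf_le Cz hCz hz A T hA hL (t + y)).trans ?_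
        apply mul_le_mul_of_nonneg_left _ hCz.le
        have e1 : |t + y| ≤ 8 * T + |y| := by
          refine (abs_add_le _ _).trans ?_
          have : |t| ≤ 8 * T := by rw [abs_le]; constructor <;> linarith
          linarith
        have e2 : |y| ≤ Real.log T * |y| := by
          have := abs_nonneg y
          nlinarith
        have e3 : 0 ≤ Real.log T * |y| := by positivity
        nlinarith
      have q2 := Bf_le A T a η k hA ha hη (by omega) hL (t + y)
      have q3 := hker T hL1 y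
      set u : ℝ := 1 + Real.log T * |y| with hu
      have hu1 : Real.sqrt T ≤ u := by
        have e2 : |y| ≤ Real.log T * |y| := by
          have := abs_nonneg y
          nlinarith
        linarith
      have hu0 : 0 < u := lt_of_lt_of_le (Real.sqrt_pos.2 hT0) hu1
      have hpow : Real.exp ((a + 1 + 5 * η) * Real.log T) * T ^ 3 ≤ u ^ (k - 2) := by
        have e1 : Real.exp ((a + 1 + 5 * η) * Real.log T) = T ^ (a + 1 + 5 * η) := by
          rw [Real.rpow_def_of_pos hT0, mul_comm]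
        have e2 : (T : ℝ) ^ 3 = T ^ (3 : ℝ) := by
          rw [← Real.rpow_natCast]; norm_num
        have e3 : (Real.sqrt T) ^ (k - 2) = T ^ (((k - 2 : ℕ) : ℝ) / 2) := by
          rw [Real.sqrt_eq_rpow, ← Real.rpow_natCast, ← Real.rpow_mul hT0.le]
          congr 1; ring
        rw [e1, e2, ← Real.rpow_add hT0]
        refine le_trans ?_ (pow_le_pow_left₀ (Real.sqrt_nonneg T) hu1 (k - 2))
        rw [e3]
        apply Real.rpow_le_rpow_of_exponent_le hT3
        rw [Nat.cast_sub hk2]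
        push_cast
        linarith
      have hup : u ^ (k + 1) = u ^ (k - 2) * u ^ 3 := by
        rw [← pow_add]; congr 1; omega
      have hE0 : 0 < Real.exp ((a + 1 + 5 * η) * Real.log T) := Real.exp_pos _
      have hZ0 : 0 ≤ Zf A T (t + y) := norm_nonneg _
      have hB0 : 0 ≤ Bf A T a η k (t + y) := norm_nonneg _
      have hW0 : 0 ≤ Wf T a η k y := norm_nonneg _
      have q4 : Real.log T / u ^ (k + 1) ≤
          Real.log T / (Real.exp ((a + 1 + 5 * η) * Real.log T) * T ^ 3 * u ^ 3) := by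
        rw [hup]
        apply div_le_div_of_nonneg_left hL0.le (by positivity)
        exact mul_le_mul_of_nonneg_right hpow (by positivity)
      calc Zf A T (t + y) * Bf A T a η k (t + y) * Wf T a η k y
          ≤ (Cz * (9 * T * u)) * (2 * Real.exp ((a + 1 + 5 * η) * Real.log T)) *
            (Ck * (Real.log T / (Real.exp ((a + 1 + 5 * η) * Real.log T) * T ^ 3 * u ^ 3))) := by
            apply mul_le_mul (mul_le_mul q1 q2 hB0 (by positivity)) _ hW0 (by positivity)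
            exact q3.trans (mul_le_mul_of_nonneg_left q4 hCk.le)
        _ = 18 * Cz * Ck / T ^ 2 * (Real.log T / u ^ 2) := by
            field_simp
            ring
    calc ∫⁻ y in Yᶜ, ENNReal.ofReal (Zf A T (t + y) * Bf A T a η k (t + y) * Wf T a η k y)
        ≤ ∫⁻ y in Yᶜ, ENNReal.ofReal (18 * Cz * Ck / T ^ 2 *
            (Real.log T / (1 + Real.log T * |y|) ^ 2)) :=
          setLIntegral_mono' measurableSet_Icc.compl hb
      _ ≤ ∫⁻ y, ENNReal.ofReal (18 * Cz * Ck / T ^ 2 *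
            (Real.log T / (1 + Real.log T * |y|) ^ 2)) := setLIntegral_le_lintegral _ _
      _ = ENNReal.ofReal (∫ y : ℝ, 18 * Cz * Ck / T ^ 2 *
            (Real.log T / (1 + Real.log T * |y|) ^ 2)) := by
          rw [ofReal_integral_eq_lintegral_ofReal]
          · exact (Pool.Agent.H448R2.GC.scale_integrable _ 2 hL1 le_rfl).const_mul _
          · exact Eventually.of_forall fun y => by positivity
      _ ≤ ENNReal.ofReal (1 / T) := by
          apply ENNReal.ofReal_le_ofReal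
          rw [integral_const_mul]
          have h1 := Pool.Agent.H448R2.GC.scale_integral (Real.log T) 2 hL1 le_rfl
          calc _ ≤ 18 * Cz * Ck / T ^ 2 * 2 := mul_le_mul_of_nonneg_left h1 (by positivity)
            _ = 36 * Cz * Ck / T ^ 2 := by ring
            _ ≤ T / T ^ 2 := by gcongr
            _ = 1 / T := by field_simp
  calc ENNReal.ofReal (Ef A T a η k t) ≤ ENNReal.ofReal (‖J‖ + 1 / T) := ENNReal.ofReal_le_ofReal hmain
    _ = ‖J‖ₑ + ENNReal.ofReal (1 / T) := by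
        rw [ENNReal.ofReal_add (norm_nonneg _) (by positivity), ofReal_norm]
    _ ≤ (∫⁻ y : ℝ, ENNReal.ofReal (Zf A T (t + y) * Bf A T a η k (t + y) * Wf T a η k y)) +
        ENNReal.ofReal (1 / T) := by gcongr
    _ = (∫⁻ y in Y, ENNReal.ofReal (Zf A T (t + y) * Bf A T a η k (t + y) * Wf T a η k y)) +
        (∫⁻ y in Yᶜ, ENNReal.ofReal (Zf A T (t + y) * Bf A T a η k (t + y) * Wf T a η k y)) +
        ENNReal.ofReal (1 / T) := by
        rw [lintegral_add_compl _ measurableSet_Icc]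
    _ ≤ (∫⁻ y in Y, ENNReal.ofReal (Zf A T (t + y) * Bf A T a η k (t + y) * Wf T a η k y)) +
        ENNReal.ofReal (1 / T) + ENNReal.ofReal (1 / T) := by gcongr
    _ = _ := by
        rw [add_assoc, ← ENNReal.ofReal_add (by positivity) (by positivity)]
        congr 2
        ring

end F1

end Pool.Agent.H448R2.GC
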