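import Pool.Agent.H448R2.GC.Defs

open Complex MeasureTheory Filter Topology

namespace Pool.Agent.H448R2.GC

namespace MV

theorem gauss_int (τ Δ : ℝ) (hΔ : 0 < Δ) :
    Integrable (fun t : ℝ => Real.exp (-((t - τ) / Δ) ^ 2)) := by
  have h := (integrable_exp_neg_mul_sq (b := 1 / Δ ^ 2) (by positivity)).comp_sub_right τ
  refine h.congr (Eventually.of_forall fun t => ?_)
  simp only
  congr 1
  field_simp

theorem gint (w τ Δ : ℝ) (hΔ : 0 < Δ) :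
    ∫ t : ℝ, (gw τ Δ t : ℂ) * cexp (I * w * t) =
      cexp (I * w * τ) * ((Real.exp (-(Δ ^ 2 * w ^ 2 / 4)) : ℝ) : ℂ) := by
  have hD' : (Δ : ℂ) ≠ 0 := by exact_mod_cast hΔ.ne'
  have hpi : (0 : ℝ) < Real.sqrt Real.pi := Real.sqrt_pos.mpr Real.pi_pos
  have hpi' : ((Real.sqrt Real.pi : ℝ) : ℂ) ≠ 0 := by exact_mod_cast hpi.ne'
  have h1 : ∀ t : ℝ, (gw τ Δ t : ℂ) * cexp (I * w * t) =
      (1 / ((Δ : ℂ) * ((Real.sqrt Real.pi : ℝ) : ℂ))) *
      cexp (((-(1 / (Δ ^ 2)) : ℝ) : ℂ) * (t : ℂ) ^ 2 +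
        ((2 * τ / Δ ^ 2 : ℝ) + I * w : ℂ) * t + ((-(τ ^ 2 / (Δ ^ 2)) : ℝ) : ℂ)) := by
    intro t
    unfold gw
    rw [Complex.ofReal_div, Complex.ofReal_exp, Complex.ofReal_mul, div_mul_eq_mul_div,
      ← Complex.exp_add, one_div, mul_comm (_)⁻¹, ← div_eq_mul_inv]
    congr 2
    push_cast
    field_simp
    ring
  simp_rw [h1]
  rw [integral_const_mul, integral_cexp_quadratic (by
    rw [Complex.ofReal_re]
    have : 0 < 1 / (Δ ^ 2) := by positivity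
    linarith)]
  have e1 : ((Real.pi : ℂ) / -((-(1 / (Δ ^ 2)) : ℝ) : ℂ)) ^ (1 / 2 : ℂ) =
      (Δ : ℂ) * ((Real.sqrt Real.pi : ℝ) : ℂ) := by
    have e2 : ((Real.pi : ℂ) / -((-(1 / (Δ ^ 2)) : ℝ) : ℂ)) =
        ((Δ ^ 2 * Real.pi : ℝ) : ℂ) := by
      push_cast
      field_simp
    have e3 : (1 / 2 : ℂ) = ((1 / 2 : ℝ) : ℂ) := by push_cast; ring
    rw [e2, e3, ← Complex.ofReal_cpow (by positivity), ← Real.sqrt_eq_rpow,
      Real.sqrt_mul (by positivity), Real.sqrt_sq hΔ.le]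
    push_cast
    rfl
  have e4 : (((-(τ ^ 2 / (Δ ^ 2)) : ℝ) : ℂ) - ((2 * τ / Δ ^ 2 : ℝ) + I * w : ℂ) ^ 2 /
      (4 * ((-(1 / (Δ ^ 2)) : ℝ) : ℂ))) =
      I * w * τ + ((-(Δ ^ 2 * w ^ 2 / 4) : ℝ) : ℂ) := by
    push_cast
    field_simp
    ring_nf
    rw [Complex.I_sq]
    ring
  rw [e1, e4, Complex.exp_add, ← Complex.ofReal_exp]
  field_simp

end MV

theorem gw_nonneg (τ Δ t : ℝ) (hΔ : 0 < Δ) : 0 ≤ gw τ Δ t := by
  unfold gw
  positivity

theorem gw_integrable (τ Δ : ℝ) (hΔ : 0 < Δ) : Integrable (gw τ Δ) := by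
  unfold gw
  exact (MV.gauss_int τ Δ hΔ).div_const _

theorem gw_integral (τ Δ : ℝ) (hΔ : 0 < Δ) : ∫ t, gw τ Δ t = 1 := by
  have h := MV.gint 0 τ Δ hΔ
  simp only [Complex.ofReal_zero, mul_zero, zero_mul, Complex.exp_zero, mul_one, one_mul] at h
  rw [integral_complex_ofReal] at h
  have h2 : (Real.exp (-(Δ ^ 2 * (0 : ℝ) ^ 2 / 4)) : ℝ) = 1 := by simp
  rw [h2] at h
  exact_mod_cast h

namespace MV

theorem poly_le (j : ℕ) (u : ℝ) : (1 + |u|) ^ j ≤ Real.exp ((j : ℝ) ^ 2) * Real.exp (u ^ 2 / 4) := by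
  have h1 : 1 + |u| ≤ Real.exp |u| := by linarith [Real.add_one_le_exp |u|]
  have h0 : 0 ≤ 1 + |u| := by positivity
  calc (1 + |u|) ^ j ≤ (Real.exp |u|) ^ j := pow_le_pow_left₀ h0 h1 j
    _ = Real.exp (j * |u|) := by rw [← Real.exp_nat_mul]
    _ ≤ Real.exp ((j : ℝ) ^ 2 + u ^ 2 / 4) := by
        apply Real.exp_le_exp.mpr
        have := sq_nonneg ((j : ℝ) - |u| / 2)
        have h2 : |u| ^ 2 = u ^ 2 := sq_abs u
        nlinarith
    _ = _ := Real.exp_add _ _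

theorem ptw (j : ℕ) (T τ Δ t : ℝ) (hT : 1 ≤ T) (hτ : T ≤ τ) (hτ2 : τ ≤ 2 * T) (hΔ : 0 < Δ)
    (hΔT : Δ ≤ T) :
    gw τ Δ t * (1 + |t|) ^ j ≤ (3 * T) ^ (2 * j) * Real.exp ((j : ℝ) ^ 2) *
      (Real.exp (-((t - τ) / Δ) ^ 2 / 4) * (Real.exp (-((t - τ) / Δ) ^ 2 / 2) /
        (Δ * Real.sqrt Real.pi))) := by
  set u := (t - τ) / Δ with hu
  have hpi : (0 : ℝ) < Real.sqrt Real.pi := Real.sqrt_pos.mpr Real.pi_pos
  have h1 : |t| ≤ 2 * T + T * |u| := by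
    have e : t = τ + Δ * u := by rw [hu]; field_simp; ring
    calc |t| = |τ + Δ * u| := by rw [← e]
      _ ≤ |τ| + |Δ * u| := abs_add_le _ _
      _ = τ + Δ * |u| := by rw [abs_mul, abs_of_pos hΔ, abs_of_nonneg (by linarith)]
      _ ≤ 2 * T + T * |u| := by
          have := abs_nonneg u
          nlinarith
  have hu0 := abs_nonneg u
  have h2 : (1 + |t|) ^ j ≤ (3 * T) ^ (2 * j) * (1 + |u|) ^ j := by
    rw [pow_mul, ← mul_pow]
    apply pow_le_pow_left₀ (by positivity)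
    nlinarith [mul_nonneg (by linarith : (0:ℝ) ≤ T) hu0, mul_nonneg (sq_nonneg T) hu0, mul_nonneg (by nlinarith : (0:ℝ) ≤ T ^ 2 - T) hu0]
  have h3 := poly_le j u
  have e5 : Real.exp (-u ^ 2) * Real.exp (u ^ 2 / 4) =
      Real.exp (-u ^ 2 / 4) * Real.exp (-u ^ 2 / 2) := by
    rw [← Real.exp_add, ← Real.exp_add]
    congr 1
    ring
  have hE : 0 ≤ Real.exp (-u ^ 2) / (Δ * Real.sqrt Real.pi) := by positivity
  calc gw τ Δ t * (1 + |t|) ^ j = Real.exp (-u ^ 2) / (Δ * Real.sqrt Real.pi) * (1 + |t|) ^ j := rfl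
    _ ≤ Real.exp (-u ^ 2) / (Δ * Real.sqrt Real.pi) *
        ((3 * T) ^ (2 * j) * (Real.exp ((j : ℝ) ^ 2) * Real.exp (u ^ 2 / 4))) := by
        apply mul_le_mul_of_nonneg_left _ hE
        exact h2.trans (mul_le_mul_of_nonneg_left h3 (by positivity))
    _ = (3 * T) ^ (2 * j) * Real.exp ((j : ℝ) ^ 2) *
        ((Real.exp (-u ^ 2) * Real.exp (u ^ 2 / 4)) / (Δ * Real.sqrt Real.pi)) := by ring
    _ = _ := by rw [e5]; ring

theorem half_int (τ Δ : ℝ) (hΔ : 0 < Δ) :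
    Integrable (fun t : ℝ => Real.exp (-((t - τ) / Δ) ^ 2 / 2) / (Δ * Real.sqrt Real.pi)) := by
  have h := (gauss_int τ (Δ * Real.sqrt 2) (by positivity)).div_const (Δ * Real.sqrt Real.pi)
  refine h.congr (Eventually.of_forall fun t => ?_)
  simp only
  congr 2
  have h2 : Real.sqrt 2 ^ 2 = 2 := Real.sq_sqrt (by norm_num)
  rw [div_pow, div_pow, mul_pow, h2]
  field_simp

theorem half_val (τ Δ : ℝ) (hΔ : 0 < Δ) :
    ∫ t : ℝ, Real.exp (-((t - τ) / Δ) ^ 2 / 2) / (Δ * Real.sqrt Real.pi) ≤ 2 := by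
  have hs : (0 : ℝ) < Real.sqrt 2 := by positivity
  have h2 : Real.sqrt 2 ^ 2 = 2 := Real.sq_sqrt (by norm_num)
  have h := gw_integral τ (Δ * Real.sqrt 2) (by positivity)
  have e : (fun t : ℝ => Real.exp (-((t - τ) / Δ) ^ 2 / 2) / (Δ * Real.sqrt Real.pi)) =
      fun t => Real.sqrt 2 * gw τ (Δ * Real.sqrt 2) t := by
    funext t
    unfold gw
    have e1 : -((t - τ) / (Δ * Real.sqrt 2)) ^ 2 = -((t - τ) / Δ) ^ 2 / 2 := by
      rw [div_pow, div_pow, mul_pow, h2]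
      field_simp
    rw [e1]
    field_simp
  rw [e, integral_const_mul, h, mul_one]
  nlinarith [Real.sqrt_nonneg 2]

theorem ev (C s K b : ℝ) (hb : 0 < b) : ∃ T₀ : ℝ, 1 ≤ T₀ ∧ ∀ T : ℝ, T₀ ≤ T →
    C * T ^ s * Real.exp (-b * T ^ (1 / 8 : ℝ)) ≤ T ^ (-K) := by
  have h1 := tendsto_rpow_mul_exp_neg_mul_atTop_nhds_zero (8 * (s + K)) b hb
  have h2 : Tendsto (fun T : ℝ => T ^ (1 / 8 : ℝ)) atTop atTop := tendsto_rpow_atTop (by norm_num)
  have h3 := (h1.comp h2).const_mul (|C| + 1)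
  rw [mul_zero] at h3
  have h4 := h3.eventually (gt_mem_nhds (show (0 : ℝ) < 1 by norm_num))
  rw [eventually_atTop] at h4
  obtain ⟨T0, hT0⟩ := h4
  refine ⟨max 1 T0, le_max_left _ _, fun T hT => ?_⟩
  have hT1 : 1 ≤ T := (le_max_left _ _).trans hT
  have h5 := (hT0 T ((le_max_right _ _).trans hT)).le
  simp only [Function.comp] at h5
  have e : (T ^ (1 / 8 : ℝ)) ^ (8 * (s + K)) = T ^ s * T ^ K := by
    rw [← Real.rpow_mul (by linarith), ← Real.rpow_add (by linarith)]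
    congr 1
    ring
  rw [e] at h5
  have hTK : 0 < T ^ K := Real.rpow_pos_of_pos (by linarith) _
  have hTs : 0 < T ^ s := Real.rpow_pos_of_pos (by linarith) _
  have hE : 0 < Real.exp (-b * T ^ (1 / 8 : ℝ)) := Real.exp_pos _
  rw [Real.rpow_neg (by linarith), ← one_div, le_div_iff₀ hTK]
  refine le_trans ?_ h5
  have h6 : C ≤ |C| + 1 := by linarith [le_abs_self C]
  have h7 : 0 ≤ T ^ s * T ^ K * Real.exp (-b * T ^ (1 / 8 : ℝ)) := by positivity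
  calc C * T ^ s * Real.exp (-b * T ^ (1 / 8 : ℝ)) * T ^ K
      = C * (T ^ s * T ^ K * Real.exp (-b * T ^ (1 / 8 : ℝ))) := by ring
    _ ≤ (|C| + 1) * (T ^ s * T ^ K * Real.exp (-b * T ^ (1 / 8 : ℝ))) :=
        mul_le_mul_of_nonneg_right h6 h7

end MV

/-- tails -/
theorem gw_tail (j : ℕ) (K : ℝ) : ∃ T₀ : ℝ, ∀ T : ℝ, T₀ ≤ T → ∀ τ : ℝ, T ≤ τ → τ ≤ 2 * T →
    Integrable (fun t : ℝ => gw τ (T ^ (15 / 16 : ℝ)) t * (1 + |t|) ^ j) ∧
    ∫ t in {t : ℝ | T / 4 ≤ |t - τ|}, gw τ (T ^ (15 / 16 : ℝ)) t * (1 + |t|) ^ j ≤ T ^ (-K) := by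
  obtain ⟨T₀, hT₀1, hT₀⟩ := MV.ev (2 * (3 ^ (2 * j) * Real.exp ((j : ℝ) ^ 2))) (2 * j : ℝ) K (1 / 64)
    (by norm_num)
  refine ⟨T₀, fun T hT τ hτ hτ2 => ?_⟩
  have hT1 : 1 ≤ T := hT₀1.trans hT
  have hT0 : 0 < T := by linarith
  set Δ := T ^ (15 / 16 : ℝ) with hΔ'
  have hΔ : 0 < Δ := Real.rpow_pos_of_pos hT0 _
  have hΔT : Δ ≤ T := by
    calc Δ ≤ T ^ (1 : ℝ) := Real.rpow_le_rpow_of_exponent_le hT1 (by norm_num)
      _ = T := Real.rpow_one T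
  set B : ℝ := (3 * T) ^ (2 * j) * Real.exp ((j : ℝ) ^ 2) with hB
  have hB0 : 0 ≤ B := by positivity
  set g : ℝ → ℝ := fun t => Real.exp (-((t - τ) / Δ) ^ 2 / 2) / (Δ * Real.sqrt Real.pi) with hg
  have hg0 : ∀ t, 0 ≤ g t := fun t => by rw [hg]; positivity
  have hgi : Integrable g := MV.half_int τ Δ hΔ
  have hgv : ∫ t, g t ≤ 2 := MV.half_val τ Δ hΔ
  have hptw := fun t => MV.ptw j T τ Δ t hT1 hτ hτ2 hΔ hΔT
  have hf0 : ∀ t, 0 ≤ gw τ Δ t * (1 + |t|) ^ j := fun t => by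
    have := gw_nonneg τ Δ t hΔ
    positivity
  have hcont : Continuous (fun t : ℝ => gw τ Δ t * (1 + |t|) ^ j) := by
    unfold gw
    fun_prop
  have hint : Integrable (fun t : ℝ => gw τ Δ t * (1 + |t|) ^ j) := by
    refine (hgi.const_mul B).mono' hcont.aestronglyMeasurable (Eventually.of_forall fun t => ?_)
    rw [Real.norm_of_nonneg (hf0 t)]
    refine (hptw t).trans ?_
    apply mul_le_mul_of_nonneg_left _ hB0
    have : Real.exp (-((t - τ) / Δ) ^ 2 / 4) ≤ 1 := by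
      rw [Real.exp_le_one_iff]
      have := sq_nonneg ((t - τ) / Δ)
      linarith
    calc _ ≤ 1 * g t := mul_le_mul_of_nonneg_right this (hg0 t)
      _ = g t := one_mul _
  refine ⟨hint, ?_⟩
  have hms : MeasurableSet {t : ℝ | T / 4 ≤ |t - τ|} := by
    apply measurableSet_le measurable_const
    fun_prop
  have hbd : ∫ t in {t : ℝ | T / 4 ≤ |t - τ|}, gw τ Δ t * (1 + |t|) ^ j ≤
      ∫ t in {t : ℝ | T / 4 ≤ |t - τ|}, B * Real.exp (-(1 / 64) * T ^ (1 / 8 : ℝ)) * g t := by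
    apply setIntegral_mono_on hint.integrableOn (hgi.const_mul _).integrableOn hms
    intro t ht
    refine (hptw t).trans ?_
    rw [← hB, mul_assoc B]
    apply mul_le_mul_of_nonneg_left _ hB0
    apply mul_le_mul_of_nonneg_right _ (hg0 t)
    apply Real.exp_le_exp.mpr
    have h1 : T / 4 ≤ |t - τ| := ht
    have h2 : T ^ (1 / 8 : ℝ) / 16 ≤ ((t - τ) / Δ) ^ 2 := by
      have e1 : T ^ (1 / 8 : ℝ) * Δ ^ 2 = T ^ 2 := by
        rw [hΔ', ← Real.rpow_natCast, ← Real.rpow_natCast, ← Real.rpow_mul hT0.le,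
          ← Real.rpow_add hT0]
        congr 1
        push_cast
        norm_num
      rw [div_pow, le_div_iff₀ (by positivity), ← sq_abs (t - τ)]
      have h3 : (T / 4) ^ 2 ≤ |t - τ| ^ 2 := pow_le_pow_left₀ (by positivity) h1 2
      calc T ^ (1 / 8 : ℝ) / 16 * Δ ^ 2 = (T ^ (1 / 8 : ℝ) * Δ ^ 2) / 16 := by ring
        _ = (T / 4) ^ 2 := by rw [e1]; ring
        _ ≤ _ := h3
    linarith
  have hlast : ∫ t in {t : ℝ | T / 4 ≤ |t - τ|}, B * Real.exp (-(1 / 64) * T ^ (1 / 8 : ℝ)) * g t ≤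
      B * Real.exp (-(1 / 64) * T ^ (1 / 8 : ℝ)) * 2 := by
    rw [integral_const_mul]
    apply mul_le_mul_of_nonneg_left _ (by positivity)
    exact (setIntegral_le_integral hgi (Eventually.of_forall hg0)).trans hgv
  refine hbd.trans (hlast.trans ?_)
  refine le_trans (le_of_eq ?_) (hT₀ T hT)
  rw [hB, mul_pow, show (2 * (j : ℝ)) = ((2 * j : ℕ) : ℝ) by push_cast; ring, Real.rpow_natCast]
  ring

namespace MV

theorem cpow_nat (n : ℕ) (hn : 1 ≤ n) (z : ℂ) : (n : ℂ) ^ z = cexp ((Real.log n : ℝ) * z) := by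
  have hn0 : (n : ℂ) ≠ 0 := by exact_mod_cast (by omega : n ≠ 0)
  rw [Complex.cpow_def_of_ne_zero hn0, ← Complex.natCast_log]

theorem log_gap {m n : ℕ} {N : ℝ} (hm : 1 ≤ m) (hn : 1 ≤ n) (hmN : (m : ℝ) ≤ N) (h : m ≠ n) :
    1 / (4 * N ^ 2) ≤ (Real.log m - Real.log n) ^ 2 := by
  have hm0 : (0 : ℝ) < m := by exact_mod_cast hm
  have hn0 : (0 : ℝ) < n := by exact_mod_cast hn
  have hm1 : (1 : ℝ) ≤ m := by exact_mod_cast hm
  have hN0 : (0 : ℝ) < N := by linarith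
  have key : 1 / (2 * N) ≤ |Real.log m - Real.log n| := by
    rcases lt_or_gt_of_ne h with h | h
    · -- m < n
      have h2 : (m : ℝ) + 1 ≤ n := by exact_mod_cast h
      have h1 := Real.one_sub_inv_le_log_of_pos (div_pos hn0 hm0)
      rw [Real.log_div hn0.ne' hm0.ne', inv_div] at h1
      have h3 : 1 / (2 * N) ≤ 1 - (m : ℝ) / n := by
        have e : 1 - (m : ℝ) / n = ((n : ℝ) - m) / n := by field_simp
        rw [e, div_le_div_iff₀ (by positivity) hn0]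
        nlinarith [mul_le_mul_of_nonneg_right hmN (by linarith : (0:ℝ) ≤ (n:ℝ) - m),
          mul_nonneg (by linarith : (0:ℝ) ≤ (m:ℝ) - 1) (by linarith : (0:ℝ) ≤ (n:ℝ) - m - 1)]
      rw [abs_sub_comm]
      exact (h3.trans h1).trans (le_abs_self _)
    · have h2 : (n : ℝ) + 1 ≤ m := by exact_mod_cast h
      have h1 := Real.one_sub_inv_le_log_of_pos (div_pos hm0 hn0)
      rw [Real.log_div hm0.ne' hn0.ne', inv_div] at h1
      have h3 : 1 / (2 * N) ≤ 1 - (n : ℝ) / m := by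
        have e : 1 - (n : ℝ) / m = ((m : ℝ) - n) / m := by field_simp
        rw [e, div_le_div_iff₀ (by positivity) hm0]
        nlinarith
      exact (h3.trans h1).trans (le_abs_self _)
  rw [← sq_abs (Real.log m - Real.log n)]
  calc 1 / (4 * N ^ 2) = (1 / (2 * N)) ^ 2 := by field_simp; norm_num
    _ ≤ _ := pow_le_pow_left₀ (by positivity) key 2

theorem ptint (τ Δ : ℝ) (hΔ : 0 < Δ) (w : ℝ) :
    Integrable (fun t : ℝ => (gw τ Δ t : ℂ) * cexp (I * w * t)) := by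
  refine (gw_integrable τ Δ hΔ).mono' ?_ (Eventually.of_forall fun t => ?_)
  · apply Continuous.aestronglyMeasurable
    have : Continuous (gw τ Δ) := by unfold gw; fun_prop
    fun_prop
  · rw [norm_mul, Complex.norm_real, Real.norm_of_nonneg (gw_nonneg τ Δ t hΔ), Complex.norm_exp]
    have : (I * w * t : ℂ).re = 0 := by simp [Complex.mul_re]
    rw [this, Real.exp_zero, mul_one]

theorem expand (S S' : Finset ℕ) (hS : ∀ n ∈ S, 1 ≤ n) (hS' : ∀ n ∈ S', 1 ≤ n)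
    (a b : ℕ → ℂ) (τ Δ t : ℝ) :
    (gw τ Δ t : ℂ) * ((∑ n ∈ S, a n * (n : ℂ) ^ (-((t : ℂ) * I))) *
      (starRingEnd ℂ) (∑ n ∈ S', b n * (n : ℂ) ^ (-((t : ℂ) * I)))) =
    ∑ n ∈ S, ∑ m ∈ S', (a n * (starRingEnd ℂ) (b m)) *
      ((gw τ Δ t : ℂ) * cexp (I * ((Real.log m - Real.log n : ℝ) : ℂ) * t)) := by
  rw [map_sum, Finset.sum_mul_sum, Finset.mul_sum]
  refine Finset.sum_congr rfl fun n hn => ?_
  rw [Finset.mul_sum]
  refine Finset.sum_congr rfl fun m hm => ?_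
  rw [cpow_nat n (hS n hn), cpow_nat m (hS' m hm), map_mul, ← Complex.exp_conj]
  have e : (starRingEnd ℂ) ((Real.log m : ℝ) * -((t : ℂ) * I)) = (Real.log m : ℝ) * ((t : ℂ) * I) := by
    rw [map_mul, map_neg, map_mul, Complex.conj_ofReal, Complex.conj_ofReal, Complex.conj_I]
    ring
  rw [e]
  have e2 : cexp (I * ((Real.log m - Real.log n : ℝ) : ℂ) * t) =
      cexp ((Real.log n : ℝ) * -((t : ℂ) * I)) * cexp ((Real.log m : ℝ) * ((t : ℂ) * I)) := by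
    rw [← Complex.exp_add]
    congr 1
    push_cast
    ring
  rw [e2]
  ring

end MV

theorem mv (S S' : Finset ℕ) (N : ℝ) (hS : ∀ n ∈ S, 1 ≤ n) (hS' : ∀ n ∈ S', 1 ≤ n ∧ (n : ℝ) ≤ N)
    (a b : ℕ → ℂ) (τ Δ : ℝ) (hΔ : 0 < Δ) :
    ‖(∫ t : ℝ, (gw τ Δ t : ℂ) * ((∑ n ∈ S, a n * (n : ℂ) ^ (-((t : ℂ) * I))) *
      (starRingEnd ℂ) (∑ n ∈ S', b n * (n : ℂ) ^ (-((t : ℂ) * I))))) -
      ∑ n ∈ S ∩ S', a n * (starRingEnd ℂ) (b n)‖ ≤
    (∑ n ∈ S, ‖a n‖) * (∑ n ∈ S', ‖b n‖) * Real.exp (-(Δ / N) ^ 2 / 16) := by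
  simp_rw [MV.expand S S' hS (fun n hn => (hS' n hn).1) a b τ Δ]
  have hi : ∀ n ∈ S, ∀ m ∈ S', Integrable (fun t : ℝ => (a n * (starRingEnd ℂ) (b m)) *
      ((gw τ Δ t : ℂ) * cexp (I * ((Real.log m - Real.log n : ℝ) : ℂ) * t))) :=
    fun n _ m _ => (MV.ptint τ Δ hΔ _).const_mul _
  rw [integral_finsetSum _ (fun n hn => integrable_finsetSum _ (hi n hn))]
  have h1 : ∀ n ∈ S, (∫ t : ℝ, ∑ m ∈ S', (a n * (starRingEnd ℂ) (b m)) *
      ((gw τ Δ t : ℂ) * cexp (I * ((Real.log m - Real.log n : ℝ) : ℂ) * t))) =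
      ∑ m ∈ S', (a n * (starRingEnd ℂ) (b m)) * (cexp (I * ((Real.log m - Real.log n : ℝ) : ℂ) * τ) *
        ((Real.exp (-(Δ ^ 2 * (Real.log m - Real.log n) ^ 2 / 4)) : ℝ) : ℂ)) := by
    intro n hn
    rw [integral_finsetSum _ (hi n hn)]
    refine Finset.sum_congr rfl fun m _ => ?_
    rw [integral_const_mul, MV.gint _ τ Δ hΔ]
  rw [Finset.sum_congr rfl h1]
  have h2 : ∑ n ∈ S ∩ S', a n * (starRingEnd ℂ) (b n) =
      ∑ n ∈ S, ∑ m ∈ S', if n = m then a n * (starRingEnd ℂ) (b m) else 0 := by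
    rw [← Finset.filter_mem_eq_inter, Finset.sum_filter]
    refine Finset.sum_congr rfl fun n _ => ?_
    rw [Finset.sum_ite_eq]
  rw [h2, ← Finset.sum_sub_distrib]
  simp_rw [← Finset.sum_sub_distrib]
  rw [Finset.sum_mul_sum, Finset.sum_mul]
  refine (norm_sum_le _ _).trans (Finset.sum_le_sum fun n hn => ?_)
  rw [Finset.sum_mul]
  refine (norm_sum_le _ _).trans (Finset.sum_le_sum fun m hm => ?_)
  by_cases hnm : n = m
  · subst hnm
    rw [if_pos rfl]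
    simp only [sub_self, Complex.ofReal_zero, mul_zero, zero_mul, Complex.exp_zero, one_mul]
    norm_num
    positivity
  · rw [if_neg hnm, sub_zero, norm_mul, norm_mul, RCLike.norm_conj]
    apply mul_le_mul_of_nonneg_left _ (by positivity)
    rw [norm_mul, Complex.norm_real, Real.norm_of_nonneg (Real.exp_pos _).le, Complex.norm_exp]
    have h3 : (I * ((Real.log m - Real.log n : ℝ) : ℂ) * τ : ℂ).re = 0 := by
      rw [mul_assoc, ← Complex.ofReal_mul, Complex.I_mul_re, Complex.ofReal_im, neg_zero]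
    rw [h3, Real.exp_zero, one_mul]
    apply Real.exp_le_exp.mpr
    have h4 := MV.log_gap (hS' m hm).1 (hS n hn) (hS' m hm).2 (Ne.symm hnm)
    have hm1 : (1 : ℝ) ≤ m := by exact_mod_cast (hS' m hm).1
    have hN : 0 < N := by linarith [(hS' m hm).2]
    have h5 : (Δ / N) ^ 2 / 16 ≤ Δ ^ 2 * (Real.log m - Real.log n) ^ 2 / 4 := by
      calc (Δ / N) ^ 2 / 16 = Δ ^ 2 * (1 / (4 * N ^ 2)) / 4 := by field_simp; norm_num
        _ ≤ _ := by
          apply div_le_div_of_nonneg_right _ (by norm_num)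
          exact mul_le_mul_of_nonneg_left h4 (by positivity)
    linarith

end Pool.Agent.H448R2.GC
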