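import Pool.Agent.H448R2.GC.Defs
import Pool.Agent.H448R2.GC.K1
import Pool.Agent.H448R2.GC.K2
import Pool.Agent.H448R2.GC.K3
import Pool.Agent.H448R2.GC.MV

/-! TEAM GC, task M0 (helper329): mollified second moment of smoothed sums. -/

open Complex MeasureTheory Filter Topology

namespace Pool.Agent.H448R2.GC

namespace M0

/-- product of two Dirichlet polynomials -/
theorem prod_expand (A B : Finset ℕ) (N : ℕ) (f g h : ℕ → ℂ) (hA : ∀ m ∈ A, 1 ≤ m)
    (hB : ∀ l ∈ B, 1 ≤ l) (hN : ∀ m ∈ A, ∀ l ∈ B, m * l ≤ N)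
    (hh : ∀ m ∈ A, ∀ l ∈ B, h (m * l) = h m * h l) :
    (∑ m ∈ A, f m * h m) * (∑ l ∈ B, g l * h l) =
      ∑ n ∈ Finset.Icc 1 N, (∑ p ∈ n.divisorsAntidiagonal,
        if p.1 ∈ A ∧ p.2 ∈ B then f p.1 * g p.2 else 0) * h n := by
  rw [Finset.sum_mul_sum, ← Finset.sum_product']
  rw [← Finset.sum_fiberwise_of_maps_to (s := A ×ˢ B) (t := Finset.Icc 1 N)
    (g := fun q : ℕ × ℕ => q.1 * q.2)]
  · apply Finset.sum_congr rfl
    intro n hn
    rw [Finset.mem_Icc] at hn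
    rw [← Finset.sum_filter, Finset.sum_mul]
    have e : (Finset.filter (fun a : ℕ × ℕ => a.1 ∈ A ∧ a.2 ∈ B) n.divisorsAntidiagonal) =
        Finset.filter (fun q : ℕ × ℕ => q.1 * q.2 = n) (A ×ˢ B) := by
      ext q
      simp only [Finset.mem_filter, Nat.mem_divisorsAntidiagonal, Finset.mem_product]
      constructor
      · rintro ⟨⟨h1, h2⟩, h3, h4⟩
        exact ⟨⟨h3, h4⟩, h1⟩
      · rintro ⟨⟨h3, h4⟩, h1⟩
        exact ⟨⟨h1, by omega⟩, h3, h4⟩
    rw [e]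
    apply Finset.sum_congr rfl
    intro q hq
    simp only [Finset.mem_filter, Finset.mem_product] at hq
    rw [← hq.2, hh q.1 hq.1.1 q.2 hq.1.2]
    ring
  · intro q hq
    rw [Finset.mem_product] at hq
    rw [Finset.mem_Icc]
    exact ⟨Nat.one_le_iff_ne_zero.mpr (Nat.mul_ne_zero (by have := hA q.1 hq.1; omega)
      (by have := hB q.2 hq.2; omega)), hN q.1 hq.1 q.2 hq.2⟩

/-- Cauchy–Schwarz with a weight -/
theorem cs_weight (u v : ℝ → ℝ) (hu : ∀ y, 0 ≤ u y) (h0 : Integrable u)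
    (h1 : Integrable (fun y => u y * v y)) (h2 : Integrable (fun y => u y * v y ^ 2)) :
    (∫ y, u y * v y) ^ 2 ≤ (∫ y, u y) * ∫ y, u y * v y ^ 2 := by
  have key : ∀ x : ℝ, 0 ≤ (∫ y, u y) * (x * x) + (-2 * ∫ y, u y * v y) * x + ∫ y, u y * v y ^ 2 := by
    intro x
    have e : (∫ y, u y) * (x * x) + (-2 * ∫ y, u y * v y) * x + ∫ y, u y * v y ^ 2 =
        ∫ y, u y * (v y - x) ^ 2 := by
      have e1 : (fun y => u y * (v y - x) ^ 2) =
          fun y => (x * x) * u y + ((-2 * x) * (u y * v y) + u y * v y ^ 2) := by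
        funext y; ring
      have i1 : Integrable (fun y => (-2 * x) * (u y * v y) + u y * v y ^ 2) :=
        (h1.const_mul (-2 * x)).add h2
      rw [e1, integral_add (h0.const_mul (x * x)) i1, integral_add (h1.const_mul (-2 * x)) h2,
        integral_const_mul, integral_const_mul]
      ring
    rw [e]
    exact integral_nonneg fun y => mul_nonneg (hu y) (sq_nonneg _)
  have := discrim_le_zero key
  unfold discrim at this
  nlinarith

/-- the shift of the kernel -/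
theorem ker_shift (k : ℕ) (c D x y : ℝ) (m : ℕ) (hm : 1 ≤ m) :
    ker k c (-(Real.log m - D)) x y = (m : ℂ) ^ (-((x : ℂ) + (y : ℂ) * I)) * ker k c D x y := by
  have hm0 : (m : ℂ) ≠ 0 := by exact_mod_cast (by omega : m ≠ 0)
  unfold ker
  rw [Complex.cpow_def_of_ne_zero hm0, ← Complex.natCast_log, ← mul_div_assoc, ← mul_assoc,
    ← Complex.exp_add]
  congr 3
  push_cast
  ring

/-- coefficients of the product -/
noncomputable def gg (S : Finset ℕ) (k : ℕ) (c D ρ κ y : ℝ) (n : ℕ) : ℂ :=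
  ∑ p ∈ n.divisorsAntidiagonal, ((cu k c (Real.log p.1 - D) : ℂ) *
    (p.1 : ℂ) ^ (-((1 / 2 + ρ : ℝ) : ℂ) - (y : ℂ) * I)) *
      (aa S p.2 * (p.2 : ℂ) ^ (-((1 / 2 - κ : ℝ) : ℂ)))

/-- integral representation of the coefficients -/
theorem gg_int (S : Finset ℕ) (k : ℕ) (hk : 1 ≤ k) (c D ρ κ y x : ℝ) (hc : 0 < c) (hx : 0 < x) (n : ℕ)
    (hker : Integrable (ker k c D x)) :
    gg S k c D ρ κ y n = (1 / (2 * Real.pi)) * ∫ y' : ℝ, ker k c D x y' *
      cc S (((ρ + x : ℝ) : ℂ) + ((y + y' : ℝ) : ℂ) * I) κ n := by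
  unfold gg cc
  simp_rw [Finset.mul_sum]
  rw [integral_finsetSum]
  · rw [Finset.mul_sum]
    apply Finset.sum_congr rfl
    intro p hp
    have hn : n ≠ 0 := (Nat.mem_divisorsAntidiagonal.mp hp).2
    have hpn : p.1 * p.2 = n := (Nat.mem_divisorsAntidiagonal.mp hp).1
    have hp1 : p.1 ≠ 0 := by rintro h; rw [h, zero_mul] at hpn; exact hn hpn.symm
    have hp1' : (p.1 : ℂ) ≠ 0 := by exact_mod_cast hp1
    rw [Pool.Agent.H448R2.GC.cu_mellin k hk c hc x hx (Real.log p.1 - D)]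
    have e : ∀ y' : ℝ, ker k c (-(Real.log p.1 - D)) x y' * (p.1 : ℂ) ^ (-((1 / 2 + ρ : ℝ) : ℂ) - (y : ℂ) * I) *
        (aa S p.2 * (p.2 : ℂ) ^ (-((1 / 2 - κ : ℝ) : ℂ))) =
        ker k c D x y' * ((p.1 : ℂ) ^ (-(1 / 2 : ℂ) - (((ρ + x : ℝ) : ℂ) + ((y + y' : ℝ) : ℂ) * I)) *
        (aa S p.2 * (p.2 : ℂ) ^ (-(1 / 2 : ℂ) + (κ : ℂ)))) := by
      intro y'
      rw [ker_shift k c D x y' p.1 (by omega)]
      have e1 : (p.1 : ℂ) ^ (-(1 / 2 : ℂ) - (((ρ + x : ℝ) : ℂ) + ((y + y' : ℝ) : ℂ) * I)) =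
          (p.1 : ℂ) ^ (-((x : ℂ) + (y' : ℂ) * I)) * (p.1 : ℂ) ^ (-((1 / 2 + ρ : ℝ) : ℂ) - (y : ℂ) * I) := by
        rw [← Complex.cpow_add _ _ hp1']
        congr 1
        push_cast
        ring
      have e2 : (-((1 / 2 - κ : ℝ) : ℂ)) = (-(1 / 2 : ℂ) + (κ : ℂ)) := by push_cast; ring
      rw [e1, e2]
      ring
    simp_rw [← e]
    rw [integral_mul_const, integral_mul_const]
    ring
  · intro p hp
    have hn : n ≠ 0 := (Nat.mem_divisorsAntidiagonal.mp hp).2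
    have hpn : p.1 * p.2 = n := (Nat.mem_divisorsAntidiagonal.mp hp).1
    have hp1 : p.1 ≠ 0 := by rintro h; rw [h, zero_mul] at hpn; exact hn hpn.symm
    have hp1' : (p.1 : ℂ) ≠ 0 := by exact_mod_cast hp1
    have hp0 : (0 : ℝ) < (p.1 : ℝ) := by exact_mod_cast Nat.pos_of_ne_zero hp1
    apply Integrable.mul_bdd (c := (p.1 : ℝ) ^ (-(1 / 2 : ℝ) - (ρ + x)) *
      ‖(aa S p.2 * (p.2 : ℂ) ^ (-(1 / 2 : ℂ) + (κ : ℂ)))‖) hker
    · apply Continuous.aestronglyMeasurable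
      apply Continuous.mul _ continuous_const
      have : ∀ y' : ℝ, (p.1 : ℂ) ^ (-(1 / 2 : ℂ) - (((ρ + x : ℝ) : ℂ) + ((y + y' : ℝ) : ℂ) * I)) =
          cexp (Complex.log p.1 * (-(1 / 2 : ℂ) - (((ρ + x : ℝ) : ℂ) + ((y + y' : ℝ) : ℂ) * I))) := by
        intro y'
        rw [Complex.cpow_def_of_ne_zero hp1']
      simp_rw [this]
      fun_prop
    · refine Filter.Eventually.of_forall fun y' => ?_
      rw [norm_mul]
      apply mul_le_mul_of_nonneg_right _ (norm_nonneg _)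
      rw [← Complex.ofReal_natCast, Complex.norm_cpow_eq_rpow_re_of_pos hp0]
      apply le_of_eq
      congr 1
      simp

theorem cc_cont (S : Finset ℕ) (a y β : ℝ) (n : ℕ) :
    Continuous (fun y' : ℝ => cc S (((a : ℝ) : ℂ) + ((y + y' : ℝ) : ℂ) * I) β n) := by
  unfold cc
  apply continuous_finsetSum
  intro p hp
  have hn : n ≠ 0 := (Nat.mem_divisorsAntidiagonal.mp hp).2
  have hpn : p.1 * p.2 = n := (Nat.mem_divisorsAntidiagonal.mp hp).1
  have hp1 : p.1 ≠ 0 := by rintro h; rw [h, zero_mul] at hpn; exact hn hpn.symm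
  have hp1' : (p.1 : ℂ) ≠ 0 := by exact_mod_cast hp1
  apply Continuous.mul _ continuous_const
  simp_rw [Complex.cpow_def_of_ne_zero hp1']
  fun_prop

theorem cc_bd (S : Finset ℕ) (a β : ℝ) (n : ℕ) : ∃ K : ℝ, ∀ b : ℝ,
    ‖cc S (((a : ℝ) : ℂ) + ((b : ℝ) : ℂ) * I) β n‖ ≤ K := by
  refine ⟨∑ p ∈ n.divisorsAntidiagonal, (p.1 : ℝ) ^ (-(1 / 2 : ℝ) - a) *
      ‖(aa S p.2 * (p.2 : ℂ) ^ (-(1 / 2 : ℂ) + (β : ℂ)))‖, fun b => ?_⟩
  unfold cc
  refine (norm_sum_le _ _).trans (Finset.sum_le_sum fun p hp => ?_)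
  have hn : n ≠ 0 := (Nat.mem_divisorsAntidiagonal.mp hp).2
  have hpn : p.1 * p.2 = n := (Nat.mem_divisorsAntidiagonal.mp hp).1
  have hp1 : p.1 ≠ 0 := by rintro h; rw [h, zero_mul] at hpn; exact hn hpn.symm
  have hp0 : (0 : ℝ) < (p.1 : ℝ) := by exact_mod_cast Nat.pos_of_ne_zero hp1
  rw [norm_mul]
  apply mul_le_mul_of_nonneg_right _ (norm_nonneg _)
  rw [← Complex.ofReal_natCast, Complex.norm_cpow_eq_rpow_re_of_pos hp0]
  apply le_of_eq
  congr 1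
  simp

theorem gg_bound (A C₁ : ℝ) (K₀ : ℕ) (hA : 0 ≤ A) (hC₁ : 0 < C₁) (k : ℕ) (hk : K₀ + 2 ≤ k) :
    ∃ C : ℝ, 0 < C ∧ ∀ T : ℝ, 1 ≤ Real.log T → ∀ S : Finset ℕ,
    Good T (1 / 16) (2 * A + 3) C₁ K₀ S → ∀ y ρ D : ℝ, |ρ| ≤ A / Real.log T → 0 ≤ D →
    D ≤ 17 / 32 * Real.log T → ∀ N : ℕ,
    ∑ n ∈ Finset.Icc 1 N, ‖gg S k (1 / 32 * Real.log T / k) D ρ (A / Real.log T) y n‖ ^ 2 ≤
      C * Real.log T * (1 + Real.log T * |y|) ^ K₀ := by
  obtain ⟨Ck, hCk, hker⟩ := Pool.Agent.H448R2.GC.ker_scale (1 / 32) (A + 1) k (by norm_num) (by linarith) (by omega)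
  refine ⟨4 * Ck ^ 2 * C₁, by positivity, ?_⟩
  intro T hL S hS y ρ D hρ hD0 hD N
  set L := Real.log T with hLdef
  have hL0 : 0 < L := by linarith
  have hk0 : (0 : ℝ) < k := by exact_mod_cast (by omega : 0 < k)
  set c := 1 / 32 * L / k with hc
  have hc0 : 0 < c := by positivity
  set x := (A + 1) / L with hx
  have hx0 : 0 < x := by positivity
  have hK : ∀ y' : ℝ, ‖ker k c D x y'‖ ≤ Ck * (L / (1 + L * |y'|) ^ (k + 1)) := by
    intro y'
    apply hker L D x y' hL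
    · rw [abs_of_nonneg hD0]
      nlinarith
    · rw [abs_of_pos hx0, hx]
      apply div_le_div_of_nonneg_right _ hL0.le
      linarith
    · rw [abs_of_pos hx0]
  have hki : Integrable (ker k c D x) := Pool.Agent.H448R2.GC.ker_integrable k (by omega) c D x hc0 hx0.ne'
  set u : ℝ → ℝ := fun y' => ‖ker k c D x y'‖ with hu
  have hui : Integrable u := hki.norm
  have hu0 : ∀ y', 0 ≤ u y' := fun y' => norm_nonneg _
  have hIu : ∫ y', u y' ≤ 2 * Ck := by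
    calc ∫ y', u y' ≤ ∫ y', Ck * (L / (1 + L * |y'|) ^ (k + 1)) := by
          apply integral_mono hui ((Pool.Agent.H448R2.GC.scale_integrable L (k + 1) hL (by omega)).const_mul _) hK
      _ = Ck * ∫ y', (L / (1 + L * |y'|) ^ (k + 1)) := integral_const_mul _ _
      _ ≤ Ck * 2 := by
          apply mul_le_mul_of_nonneg_left _ hCk.le
          exact Pool.Agent.H448R2.GC.scale_integral L (k + 1) hL (by omega)
      _ = 2 * Ck := by ring
  have hIu0 : 0 ≤ ∫ y', u y' := integral_nonneg hu0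
  set v : ℕ → ℝ → ℝ := fun n y' => ‖cc S (((ρ + x : ℝ) : ℂ) + ((y + y' : ℝ) : ℂ) * I) (A / L) n‖ with hv
  have hvc : ∀ n, Continuous (v n) := fun n => (cc_cont S (ρ + x) y (A / L) n).norm
  have hi1 : ∀ n, Integrable (fun y' => u y' * v n y') := by
    intro n
    obtain ⟨K, hKb⟩ := cc_bd S (ρ + x) (A / L) n
    apply Integrable.mul_bdd (c := K) hui (hvc n).aestronglyMeasurable
    refine Filter.Eventually.of_forall fun y' => ?_
    rw [Real.norm_eq_abs, abs_of_nonneg (norm_nonneg _)]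
    exact hKb _
  have hi2 : ∀ n, Integrable (fun y' => u y' * v n y' ^ 2) := by
    intro n
    obtain ⟨K, hKb⟩ := cc_bd S (ρ + x) (A / L) n
    apply Integrable.mul_bdd (c := K ^ 2) hui ((hvc n).pow 2).aestronglyMeasurable
    refine Filter.Eventually.of_forall fun y' => ?_
    rw [Real.norm_eq_abs, abs_of_nonneg (sq_nonneg _)]
    exact pow_le_pow_left₀ (norm_nonneg _) (hKb _) 2
  have hgn : ∀ n, ‖gg S k c D ρ (A / L) y n‖ ^ 2 ≤ (2 * Ck) * ∫ y', u y' * v n y' ^ 2 := by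
    intro n
    have h1 : ‖gg S k c D ρ (A / L) y n‖ ≤ ∫ y', u y' * v n y' := by
      rw [gg_int S k (by omega) c D ρ (A / L) y x hc0 hx0 n hki, norm_mul]
      have hpi : ‖(1 / (2 * Real.pi) : ℂ)‖ ≤ 1 := by
        rw [norm_div, norm_mul, norm_one, Complex.norm_real, Real.norm_eq_abs,
          abs_of_pos Real.pi_pos, Complex.norm_ofNat, div_le_one (by positivity)]
        nlinarith [Real.pi_gt_three]
      have h2 : ‖∫ y' : ℝ, ker k c D x y' * cc S (((ρ + x : ℝ) : ℂ) + ((y + y' : ℝ) : ℂ) * I) (A / L : ℝ) n‖ ≤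
          ∫ y', u y' * v n y' := by
        refine (norm_integral_le_integral_norm _).trans (le_of_eq ?_)
        apply integral_congr_ae
        refine Filter.Eventually.of_forall fun y' => ?_
        simp only [norm_mul, hu, hv]
      have h3 : 0 ≤ ∫ y', u y' * v n y' :=
        integral_nonneg fun y' => mul_nonneg (hu0 y') (norm_nonneg _)
      calc _ ≤ 1 * ∫ y', u y' * v n y' := mul_le_mul hpi h2 (norm_nonneg _) zero_le_one
        _ = _ := one_mul _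
    calc ‖gg S k c D ρ (A / L) y n‖ ^ 2 ≤ (∫ y', u y' * v n y') ^ 2 :=
          pow_le_pow_left₀ (norm_nonneg _) h1 2
      _ ≤ (∫ y', u y') * ∫ y', u y' * v n y' ^ 2 := cs_weight u (v n) hu0 hui (hi1 n) (hi2 n)
      _ ≤ _ := by
          apply mul_le_mul_of_nonneg_right hIu
          exact integral_nonneg fun y' => mul_nonneg (hu0 y') (sq_nonneg _)
  have hsum : ∑ n ∈ Finset.Icc 1 N, ∫ y', u y' * v n y' ^ 2 ≤
      (Ck * (C₁ * L * (1 + L * |y|) ^ K₀)) * 2 := by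
    rw [← integral_finsetSum _ (fun n _ => hi2 n)]
    have hpt : ∀ y' : ℝ, ∑ n ∈ Finset.Icc 1 N, u y' * v n y' ^ 2 ≤
        (Ck * (C₁ * L * (1 + L * |y|) ^ K₀)) * (L / (1 + L * |y'|) ^ (k + 1 - K₀)) := by
      intro y'
      rw [← Finset.mul_sum]
      have hre : (((ρ + x : ℝ) : ℂ) + ((y + y' : ℝ) : ℂ) * I).re = ρ + x := by simp
      have him : (((ρ + x : ℝ) : ℂ) + ((y + y' : ℝ) : ℂ) * I).im = y + y' := by simp
      have hρ' := abs_le.mp hρ
      have hsplit : x = A / L + 1 / L := by rw [hx]; ring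
      have ha1 : 1 / L ≤ (((ρ + x : ℝ) : ℂ) + ((y + y' : ℝ) : ℂ) * I).re := by
        rw [hre, hsplit]; linarith [hρ'.1]
      have ha2 : (((ρ + x : ℝ) : ℂ) + ((y + y' : ℝ) : ℂ) * I).re ≤ (2 * A + 3) / L := by
        rw [hre, hsplit]
        have : (2 * A + 3) / L = A / L + A / L + 1 / L + 2 / L := by ring
        have h2L : 0 < 2 / L := by positivity
        linarith [hρ'.2]
      have ha3 : |A / L| ≤ (2 * A + 3) / L := by
        rw [abs_of_nonneg (by positivity)]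
        apply div_le_div_of_nonneg_right _ hL0.le
        linarith
      have hb : ∑ n ∈ Finset.Icc 1 N, v n y' ^ 2 ≤ C₁ * L * (1 + L * |y + y'|) ^ K₀ := by
        have := hS.bound (((ρ + x : ℝ) : ℂ) + ((y + y' : ℝ) : ℂ) * I) (A / L) ha1 ha2 ha3
        rw [him] at this
        refine le_trans ?_ this
        exact (hS.summ _ _ ha1 ha2 ha3).sum_le_tsum _ (fun n _ => sq_nonneg _)
      have habs : 1 + L * |y + y'| ≤ (1 + L * |y|) * (1 + L * |y'|) := by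
        have h1 := abs_add_le y y'
        have h2 : L * |y + y'| ≤ L * (|y| + |y'|) := mul_le_mul_of_nonneg_left h1 hL0.le
        have h3 : 0 ≤ (L * |y|) * (L * |y'|) := by positivity
        nlinarith
      have hpw : (1 + L * |y + y'|) ^ K₀ ≤ (1 + L * |y|) ^ K₀ * (1 + L * |y'|) ^ K₀ := by
        rw [← mul_pow]
        exact pow_le_pow_left₀ (by positivity) habs _
      have hpos : (0 : ℝ) < 1 + L * |y'| := by positivity
      calc u y' * ∑ n ∈ Finset.Icc 1 N, v n y' ^ 2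
          ≤ (Ck * (L / (1 + L * |y'|) ^ (k + 1))) *
            (C₁ * L * ((1 + L * |y|) ^ K₀ * (1 + L * |y'|) ^ K₀)) := by
            apply mul_le_mul (hK y') _ (Finset.sum_nonneg fun n _ => sq_nonneg _) (by positivity)
            refine hb.trans ?_
            exact mul_le_mul_of_nonneg_left hpw (by positivity)
        _ = _ := by
            have e : (1 + L * |y'|) ^ (k + 1) = (1 + L * |y'|) ^ (k + 1 - K₀) * (1 + L * |y'|) ^ K₀ := by
              rw [← pow_add]; congr 1; omega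
            rw [e]
            field_simp
    calc ∫ y', ∑ n ∈ Finset.Icc 1 N, u y' * v n y' ^ 2
        ≤ ∫ y', (Ck * (C₁ * L * (1 + L * |y|) ^ K₀)) * (L / (1 + L * |y'|) ^ (k + 1 - K₀)) := by
          apply integral_mono (integrable_finsetSum _ fun n _ => hi2 n)
            ((Pool.Agent.H448R2.GC.scale_integrable L (k + 1 - K₀) hL (by omega)).const_mul _) hpt
      _ = (Ck * (C₁ * L * (1 + L * |y|) ^ K₀)) * ∫ y', (L / (1 + L * |y'|) ^ (k + 1 - K₀)) :=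
          integral_const_mul _ _
      _ ≤ _ := by
          apply mul_le_mul_of_nonneg_left _ (by positivity)
          exact Pool.Agent.H448R2.GC.scale_integral L (k + 1 - K₀) hL (by omega)
  calc ∑ n ∈ Finset.Icc 1 N, ‖gg S k c D ρ (A / L) y n‖ ^ 2
      ≤ ∑ n ∈ Finset.Icc 1 N, (2 * Ck) * ∫ y', u y' * v n y' ^ 2 :=
        Finset.sum_le_sum fun n _ => hgn n
    _ = (2 * Ck) * ∑ n ∈ Finset.Icc 1 N, ∫ y', u y' * v n y' ^ 2 := by rw [Finset.mul_sum]
    _ ≤ (2 * Ck) * ((Ck * (C₁ * L * (1 + L * |y|) ^ K₀)) * 2) :=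
        mul_le_mul_of_nonneg_left hsum (by positivity)
    _ = _ := by ring

theorem aa_norm (S : Finset ℕ) (l : ℕ) : ‖aa S l‖ ≤ l := by
  unfold aa
  refine (norm_sum_le _ _).trans ?_
  calc ∑ p ∈ l.divisorsAntidiagonal, ‖(if p.1 ∈ S ∧ p.2 ∈ S then
      (((ArithmeticFunction.moebius p.1 : ℤ) : ℂ)) * (((ArithmeticFunction.moebius p.2 : ℤ) : ℂ)) else 0)‖
      ≤ ∑ p ∈ l.divisorsAntidiagonal, (1 : ℝ) := by
        apply Finset.sum_le_sum
        intro p _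
        split_ifs
        · rw [norm_mul]
          have h : ∀ n : ℕ, ‖(((ArithmeticFunction.moebius n : ℤ) : ℂ))‖ ≤ 1 := by
            intro n
            rw [← Complex.ofReal_intCast, Complex.norm_real, Real.norm_eq_abs, ← Int.cast_abs]
            exact_mod_cast ArithmeticFunction.abs_moebius_le_one
          exact mul_le_one₀ (h _) (norm_nonneg _) (h _)
        · simp
    _ = (l.divisorsAntidiagonal.card : ℝ) := by simp
    _ ≤ l := by
        have : l.divisorsAntidiagonal.card = l.divisors.card := by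
          rw [← Nat.map_div_right_divisors, Finset.card_map]
        rw [this]
        exact_mod_cast Nat.card_divisors_le_self l

theorem aa_zero (S : Finset ℕ) (T : ℝ) (hT : 1 ≤ T) (hS : ∀ n ∈ S, (n : ℝ) ≤ T ^ (1 / 16 : ℝ)) (l : ℕ)
    (hl : ⌊T ^ (1 / 8 : ℝ)⌋₊ < l) : aa S l = 0 := by
  unfold aa
  apply Finset.sum_eq_zero
  intro p hp
  rw [if_neg]
  rintro ⟨h1, h2⟩
  have hpn : p.1 * p.2 = l := (Nat.mem_divisorsAntidiagonal.mp hp).1
  have h3 : (l : ℝ) ≤ T ^ (1 / 8 : ℝ) := by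
    rw [← hpn]
    push_cast
    calc (p.1 : ℝ) * p.2 ≤ T ^ (1 / 16 : ℝ) * T ^ (1 / 16 : ℝ) :=
          mul_le_mul (hS _ h1) (hS _ h2) (by positivity) (by positivity)
      _ = T ^ (1 / 8 : ℝ) := by
          rw [← Real.rpow_add (by linarith)]; norm_num
  exact absurd (Nat.le_floor h3) (by omega)

theorem gg_norm (S : Finset ℕ) (k : ℕ) (c D ρ κ y : ℝ) (hc : 0 < c) (hρ : |ρ| ≤ 1 / 2) (hκ : κ ≤ 1 / 2)
    (n : ℕ) : ‖gg S k c D ρ κ y n‖ ≤ (n : ℝ) * n := by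
  unfold gg
  refine (norm_sum_le _ _).trans ?_
  calc ∑ p ∈ n.divisorsAntidiagonal, ‖((cu k c (Real.log p.1 - D) : ℂ) *
    (p.1 : ℂ) ^ (-((1 / 2 + ρ : ℝ) : ℂ) - (y : ℂ) * I)) *
      (aa S p.2 * (p.2 : ℂ) ^ (-((1 / 2 - κ : ℝ) : ℂ)))‖
      ≤ ∑ p ∈ n.divisorsAntidiagonal, (n : ℝ) := by
        apply Finset.sum_le_sum
        intro p hp
        have hn : n ≠ 0 := (Nat.mem_divisorsAntidiagonal.mp hp).2
        have hpn : p.1 * p.2 = n := (Nat.mem_divisorsAntidiagonal.mp hp).1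
        have hp1 : p.1 ≠ 0 := by rintro h; rw [h, zero_mul] at hpn; exact hn hpn.symm
        have hp2 : p.2 ≠ 0 := by rintro h; rw [h, mul_zero] at hpn; exact hn hpn.symm
        have hp1' : (0 : ℝ) < (p.1 : ℝ) := by exact_mod_cast Nat.pos_of_ne_zero hp1
        have hp2' : (0 : ℝ) < (p.2 : ℝ) := by exact_mod_cast Nat.pos_of_ne_zero hp2
        have hp1'' : (1 : ℝ) ≤ (p.1 : ℝ) := by exact_mod_cast Nat.one_le_iff_ne_zero.mpr hp1
        have hp2'' : (1 : ℝ) ≤ (p.2 : ℝ) := by exact_mod_cast Nat.one_le_iff_ne_zero.mpr hp2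
        rw [norm_mul, norm_mul, norm_mul]
        have a1 : ‖(cu k c (Real.log p.1 - D) : ℂ)‖ ≤ 1 := by
          rw [Complex.norm_real, Real.norm_eq_abs, abs_of_nonneg (Pool.Agent.H448R2.GC.cu_nonneg k c _ hc)]
          exact Pool.Agent.H448R2.GC.cu_le_one k c _ hc
        have a2 : ‖(p.1 : ℂ) ^ (-((1 / 2 + ρ : ℝ) : ℂ) - (y : ℂ) * I)‖ ≤ 1 := by
          rw [← Complex.ofReal_natCast, Complex.norm_cpow_eq_rpow_re_of_pos hp1']
          apply Real.rpow_le_one_of_one_le_of_nonpos hp1''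
          have := (abs_le.mp hρ).1
          have e : (-((1 / 2 + ρ : ℝ) : ℂ) - (y : ℂ) * I).re = -(1 / 2 + ρ) := by simp
          rw [e]; linarith
        have a3 : ‖(p.2 : ℂ) ^ (-((1 / 2 - κ : ℝ) : ℂ))‖ ≤ 1 := by
          rw [← Complex.ofReal_natCast, Complex.norm_cpow_eq_rpow_re_of_pos hp2']
          apply Real.rpow_le_one_of_one_le_of_nonpos hp2''
          have e : (-((1 / 2 - κ : ℝ) : ℂ)).re = -(1 / 2 - κ) := by simp
          rw [e]; linarith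
        have a4 := aa_norm S p.2
        have a5 : (p.2 : ℝ) ≤ n := by
          exact_mod_cast Nat.le_of_dvd (Nat.pos_of_ne_zero hn) ⟨p.1, by rw [mul_comm]; exact hpn.symm⟩
        calc _ ≤ (1 * 1) * ((p.2 : ℝ) * 1) := by
              apply mul_le_mul (mul_le_mul a1 a2 (norm_nonneg _) zero_le_one)
                (mul_le_mul a4 a3 (norm_nonneg _) (by positivity)) (by positivity) (by norm_num)
          _ ≤ n := by linarith
    _ = (n.divisorsAntidiagonal.card : ℝ) * n := by simp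
    _ ≤ (n : ℝ) * n := by
        have : n.divisorsAntidiagonal.card = n.divisors.card := by
          rw [← Nat.map_div_right_divisors, Finset.card_map]
        rw [this]
        apply mul_le_mul_of_nonneg_right _ (by positivity)
        exact_mod_cast Nat.card_divisors_le_self n

/-- the product is a Dirichlet polynomial -/
theorem expand (S : Finset ℕ) (k : ℕ) (c D ρ κ y T t : ℝ) (hT : 1 ≤ T) (hc : 0 < c)
    (hS1 : ∀ n ∈ S, 1 ≤ n) (hS : ∀ n ∈ S, (n : ℝ) ≤ T ^ (1 / 16 : ℝ)) :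
    cs k c D (((1 / 2 + ρ : ℝ) : ℂ) + ((t + y : ℝ) : ℂ) * I) *
      MM S (((1 / 2 - κ : ℝ) : ℂ) + (t : ℂ) * I) ^ 2 =
    ∑ n ∈ Finset.Icc 1 (⌊Real.exp (D + k * c)⌋₊ * ⌊T ^ (1 / 8 : ℝ)⌋₊),
      gg S k c D ρ κ y n * (n : ℂ) ^ (-((t : ℂ) * I)) := by
  have hmul : ∀ (z : ℂ) (m l : ℕ), ((m * l : ℕ) : ℂ) ^ z = (m : ℂ) ^ z * (l : ℂ) ^ z := by
    intro z m l
    rw [Nat.cast_mul]
    exact Complex.natCast_mul_natCast_cpow m l z
  have e1 : MM S (((1 / 2 - κ : ℝ) : ℂ) + (t : ℂ) * I) ^ 2 =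
      ∑ l ∈ Finset.Icc 1 ⌊T ^ (1 / 8 : ℝ)⌋₊, (aa S l * (l : ℂ) ^ (-((1 / 2 - κ : ℝ) : ℂ))) *
        (l : ℂ) ^ (-((t : ℂ) * I)) := by
    rw [sq]
    unfold MM
    rw [prod_expand S S ⌊T ^ (1 / 8 : ℝ)⌋₊ (fun n => (((ArithmeticFunction.moebius n : ℤ) : ℂ)))
      (fun n => (((ArithmeticFunction.moebius n : ℤ) : ℂ)))
      (fun n => (n : ℂ) ^ (-(((1 / 2 - κ : ℝ) : ℂ) + (t : ℂ) * I))) hS1 hS1]
    · apply Finset.sum_congr rfl
      intro l hl
      have hl0 : (l : ℂ) ≠ 0 := by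
        rw [Finset.mem_Icc] at hl
        exact_mod_cast (by omega : l ≠ 0)
      rw [mul_assoc, ← Complex.cpow_add _ _ hl0]
      unfold aa
      congr 2
      ring
    · intro m hm l hl
      apply Nat.le_floor
      push_cast
      calc (m : ℝ) * l ≤ T ^ (1 / 16 : ℝ) * T ^ (1 / 16 : ℝ) :=
            mul_le_mul (hS _ hm) (hS _ hl) (by positivity) (by positivity)
        _ = T ^ (1 / 8 : ℝ) := by
            rw [← Real.rpow_add (by linarith)]; norm_num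
    · intro m _ l _
      exact hmul _ m l
  have e2 : cs k c D (((1 / 2 + ρ : ℝ) : ℂ) + ((t + y : ℝ) : ℂ) * I) =
      ∑ m ∈ Finset.Icc 1 ⌊Real.exp (D + k * c)⌋₊, ((cu k c (Real.log m - D) : ℂ) *
        (m : ℂ) ^ (-((1 / 2 + ρ : ℝ) : ℂ) - (y : ℂ) * I)) * (m : ℂ) ^ (-((t : ℂ) * I)) := by
    unfold cs
    apply Finset.sum_congr rfl
    intro m hm
    have hm0 : (m : ℂ) ≠ 0 := by
      rw [Finset.mem_Icc] at hm
      exact_mod_cast (by omega : m ≠ 0)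
    rw [mul_assoc, ← Complex.cpow_add _ _ hm0]
    congr 2
    push_cast
    ring
  rw [e1, e2]
  rw [prod_expand (Finset.Icc 1 ⌊Real.exp (D + k * c)⌋₊) (Finset.Icc 1 ⌊T ^ (1 / 8 : ℝ)⌋₊)
    (⌊Real.exp (D + k * c)⌋₊ * ⌊T ^ (1 / 8 : ℝ)⌋₊)
    (fun m => ((cu k c (Real.log m - D) : ℂ) * (m : ℂ) ^ (-((1 / 2 + ρ : ℝ) : ℂ) - (y : ℂ) * I)))
    (fun l => (aa S l * (l : ℂ) ^ (-((1 / 2 - κ : ℝ) : ℂ))))
    (fun n => (n : ℂ) ^ (-((t : ℂ) * I)))]
  · apply Finset.sum_congr rfl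
    intro n hn
    congr 1
    unfold gg
    apply Finset.sum_congr rfl
    intro p hp
    have hn : n ≠ 0 := (Nat.mem_divisorsAntidiagonal.mp hp).2
    have hpn : p.1 * p.2 = n := (Nat.mem_divisorsAntidiagonal.mp hp).1
    have hp1 : p.1 ≠ 0 := by rintro h; rw [h, zero_mul] at hpn; exact hn hpn.symm
    have hp2 : p.2 ≠ 0 := by rintro h; rw [h, mul_zero] at hpn; exact hn hpn.symm
    split_ifs with h
    · rfl
    · rw [not_and_or] at h
      rcases h with h | h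
      · rw [Finset.mem_Icc, not_and_or] at h
        have h1 : ⌊Real.exp (D + k * c)⌋₊ < p.1 := by
          rcases h with h | h <;> omega
        have h2 : Real.exp (D + k * c) < p.1 := Nat.lt_of_floor_lt h1
        have h3 : D + k * c < Real.log p.1 := (Real.lt_log_iff_exp_lt (by positivity)).mpr h2
        rw [Pool.Agent.H448R2.GC.cu_zero k c _ hc (by linarith)]
        simp
      · rw [Finset.mem_Icc, not_and_or] at h
        have h1 : ⌊T ^ (1 / 8 : ℝ)⌋₊ < p.2 := by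
          rcases h with h | h <;> omega
        rw [aa_zero S T hT hS p.2 h1]
        simp
  · intro m hm; rw [Finset.mem_Icc] at hm; exact hm.1
  · intro m hm; rw [Finset.mem_Icc] at hm; exact hm.1
  · intro m hm l hl
    rw [Finset.mem_Icc] at hm hl
    exact Nat.mul_le_mul hm.2 hl.2
  · intro m _ l _
    exact hmul _ m l

end M0

open M0 in
theorem mom_poly (A C₁ : ℝ) (K₀ : ℕ) (hA : 0 ≤ A) (hC₁ : 0 < C₁) : ∃ k₀ : ℕ, ∀ k : ℕ, k₀ ≤ k →
    ∃ C T₀ : ℝ, 0 < C ∧ ∀ T : ℝ, T₀ ≤ T →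
    ∀ S : Finset ℕ, Good T (1 / 16) (2 * A + 3) C₁ K₀ S → ∀ τ y ρ D : ℝ,
    |ρ| ≤ A / Real.log T → 0 ≤ D → D ≤ 17 / 32 * Real.log T →
    ∫ t : ℝ, gw τ (T ^ (15 / 16 : ℝ)) t *
      (‖cs k (1 / 32 * Real.log T / k) D (((1 / 2 + ρ : ℝ) : ℂ) + ((t + y : ℝ) : ℂ) * I)‖ ^ 2 *
        ‖MM S ((sm A T : ℂ) + (t : ℂ) * I)‖ ^ 4) ≤
      C * Real.log T * (1 + Real.log T * |y|) ^ K₀ := by
  refine ⟨K₀ + 2, fun k hk => ?_⟩
  obtain ⟨C, hC, hb⟩ := gg_bound A C₁ K₀ hA hC₁ k hk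
  have hev : ∀ᶠ T : ℝ in atTop, 80 * Real.log T ≤ T ^ (1 / 2 : ℝ) := by
    have h1 := (isLittleO_log_rpow_atTop (show (0 : ℝ) < 1 / 2 by norm_num)).bound
      (show (0 : ℝ) < 1 / 80 by norm_num)
    filter_upwards [h1, eventually_ge_atTop 1] with T hT hT1
    rw [Real.norm_eq_abs, Real.norm_eq_abs, abs_of_nonneg (Real.log_nonneg hT1),
      abs_of_nonneg (by positivity)] at hT
    linarith
  obtain ⟨T₁, hT₁⟩ := Filter.eventually_atTop.mp hev
  refine ⟨C + 1, max T₁ (Real.exp (2 * A + 1)), by linarith, ?_⟩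
  intro T hT S hS τ y ρ D hρ hD0 hD
  have hTe : Real.exp (2 * A + 1) ≤ T := le_trans (le_max_right _ _) hT
  have hT80 := hT₁ T (le_trans (le_max_left _ _) hT)
  have hT0 : 0 < T := lt_of_lt_of_le (Real.exp_pos _) hTe
  have hT1 : 1 ≤ T := le_trans (Real.one_le_exp (by linarith)) hTe
  have hLA : 2 * A + 1 ≤ Real.log T := (Real.le_log_iff_exp_le hT0).mpr hTe
  set L := Real.log T with hLdef
  have hL1 : 1 ≤ L := by linarith
  have hL0 : 0 < L := by linarith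
  have hκ : A / L ≤ 1 / 2 := by
    rw [div_le_iff₀ hL0]; linarith
  have hκ0 : 0 ≤ A / L := by positivity
  have hk0 : (0 : ℝ) < k := by exact_mod_cast (by omega : 0 < k)
  set c := 1 / 32 * L / k with hc
  have hc0 : 0 < c := by positivity
  have hkc : k * c = 1 / 32 * L := by rw [hc]; field_simp
  set N := ⌊Real.exp (D + k * c)⌋₊ * ⌊T ^ (1 / 8 : ℝ)⌋₊ with hN
  have hS1 : ∀ n ∈ S, 1 ≤ n := fun n hn => Nat.one_le_iff_ne_zero.mpr (hS.sqf n hn).ne_zero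
  have hexp : Real.exp (D + k * c) ≤ T ^ (9 / 16 : ℝ) := by
    rw [Real.rpow_def_of_pos hT0, ← hLdef]
    apply Real.exp_le_exp.mpr
    rw [hkc]; linarith
  have hNle : (N : ℝ) ≤ T ^ (11 / 16 : ℝ) := by
    rw [hN]
    push_cast
    calc (⌊Real.exp (D + k * c)⌋₊ : ℝ) * (⌊T ^ (1 / 8 : ℝ)⌋₊ : ℝ) ≤ T ^ (9 / 16 : ℝ) * T ^ (1 / 8 : ℝ) := by
          apply mul_le_mul ((Nat.floor_le (Real.exp_pos _).le).trans hexp)
            (Nat.floor_le (by positivity)) (by positivity) (by positivity)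
      _ = T ^ (11 / 16 : ℝ) := by rw [← Real.rpow_add hT0]; norm_num
  set G : ℕ → ℂ := gg S k c D ρ (A / L) y with hG
  set Δ := T ^ (15 / 16 : ℝ) with hΔ
  have hΔ0 : 0 < Δ := by positivity
  set F : ℝ → ℂ := fun t => ∑ n ∈ Finset.Icc 1 N, G n * (n : ℂ) ^ (-((t : ℂ) * I)) with hF
  -- rewrite the integrand
  have hint : ∀ t : ℝ, gw τ Δ t *
      (‖cs k c D (((1 / 2 + ρ : ℝ) : ℂ) + ((t + y : ℝ) : ℂ) * I)‖ ^ 2 *
        ‖MM S ((sm A T : ℂ) + (t : ℂ) * I)‖ ^ 4) = gw τ Δ t * ‖F t‖ ^ 2 := by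
    intro t
    congr 1
    have h1 := expand S k c D ρ (A / L) y T t hT1 hc0 hS1 hS.le
    have h2 : F t = cs k c D (((1 / 2 + ρ : ℝ) : ℂ) + ((t + y : ℝ) : ℂ) * I) *
      MM S (((1 / 2 - A / L : ℝ) : ℂ) + (t : ℂ) * I) ^ 2 := h1.symm
    have h3 : (sm A T : ℂ) = ((1 / 2 - A / L : ℝ) : ℂ) := rfl
    rw [h2, norm_mul, norm_pow, h3]
    ring
  simp_rw [hint]
  have hmv := Pool.Agent.H448R2.GC.mv (Finset.Icc 1 N) (Finset.Icc 1 N) (T ^ (11 / 16 : ℝ))
    (fun n hn => (Finset.mem_Icc.mp hn).1)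
    (fun n hn => ⟨(Finset.mem_Icc.mp hn).1, le_trans (by exact_mod_cast (Finset.mem_Icc.mp hn).2) hNle⟩)
    G G τ Δ hΔ0
  have hreal : (∫ t : ℝ, (gw τ Δ t : ℂ) * ((∑ n ∈ Finset.Icc 1 N, G n * (n : ℂ) ^ (-((t : ℂ) * I))) *
      (starRingEnd ℂ) (∑ n ∈ Finset.Icc 1 N, G n * (n : ℂ) ^ (-((t : ℂ) * I))))) =
      ((∫ t : ℝ, gw τ Δ t * ‖F t‖ ^ 2 : ℝ) : ℂ) := by
    rw [← integral_complex_ofReal]
    apply integral_congr_ae
    refine Filter.Eventually.of_forall fun t => ?_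
    simp only [hF]
    rw [Complex.mul_conj, Complex.normSq_eq_norm_sq]
    push_cast
    ring
  have hdiag : (∑ n ∈ Finset.Icc 1 N ∩ Finset.Icc 1 N, G n * (starRingEnd ℂ) (G n)) =
      ((∑ n ∈ Finset.Icc 1 N, ‖G n‖ ^ 2 : ℝ) : ℂ) := by
    rw [Finset.inter_self]
    push_cast
    apply Finset.sum_congr rfl
    intro n _
    rw [Complex.mul_conj, Complex.normSq_eq_norm_sq]
    push_cast
    ring
  rw [hreal, hdiag, ← Complex.ofReal_sub, Complex.norm_real, Real.norm_eq_abs] at hmv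
  have hle := (abs_le.mp hmv).2
  -- the error
  have hsumG : ∑ n ∈ Finset.Icc 1 N, ‖G n‖ ≤ T ^ (33 / 16 : ℝ) := by
    calc ∑ n ∈ Finset.Icc 1 N, ‖G n‖ ≤ ∑ n ∈ Finset.Icc 1 N, (N : ℝ) * N := by
          apply Finset.sum_le_sum
          intro n hn
          have h1 : (n : ℝ) ≤ N := by exact_mod_cast (Finset.mem_Icc.mp hn).2
          refine (gg_norm S k c D ρ (A / L) y hc0 (hρ.trans hκ) hκ n).trans ?_
          exact mul_le_mul h1 h1 (by positivity) (by positivity)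
      _ = (N : ℝ) * (N * N) := by simp
      _ ≤ T ^ (11 / 16 : ℝ) * (T ^ (11 / 16 : ℝ) * T ^ (11 / 16 : ℝ)) := by
          have h0 : (0 : ℝ) ≤ N := by positivity
          exact mul_le_mul hNle (mul_le_mul hNle hNle h0 (by positivity)) (by positivity) (by positivity)
      _ = T ^ (33 / 16 : ℝ) := by rw [← Real.rpow_add hT0, ← Real.rpow_add hT0]; norm_num
  have hsumG0 : 0 ≤ ∑ n ∈ Finset.Icc 1 N, ‖G n‖ := Finset.sum_nonneg fun n _ => norm_nonneg _
  have herr : (∑ n ∈ Finset.Icc 1 N, ‖G n‖) * (∑ n ∈ Finset.Icc 1 N, ‖G n‖) *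
      Real.exp (-(Δ / T ^ (11 / 16 : ℝ)) ^ 2 / 16) ≤ 1 := by
    have h1 : (Δ / T ^ (11 / 16 : ℝ)) ^ 2 = T ^ (1 / 2 : ℝ) := by
      rw [hΔ, ← Real.rpow_sub hT0, ← Real.rpow_natCast, ← Real.rpow_mul hT0.le]
      norm_num
    rw [h1]
    calc _ ≤ T ^ (33 / 16 : ℝ) * T ^ (33 / 16 : ℝ) * Real.exp (-T ^ (1 / 2 : ℝ) / 16) := by
          apply mul_le_mul_of_nonneg_right _ (Real.exp_pos _).le
          exact mul_le_mul hsumG hsumG hsumG0 (by positivity)
      _ = Real.exp (33 / 8 * L - T ^ (1 / 2 : ℝ) / 16) := by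
          rw [← Real.rpow_add hT0, Real.rpow_def_of_pos hT0, ← Real.exp_add, ← hLdef]
          congr 1
          ring
      _ ≤ Real.exp 0 := by
          apply Real.exp_le_exp.mpr
          linarith
      _ = 1 := Real.exp_zero
  have hmain := hb T hL1 S hS y ρ D hρ hD0 hD N
  have hone : 1 ≤ (1 + L * |y|) ^ K₀ := one_le_pow₀ (by
    have : 0 ≤ L * |y| := by positivity
    linarith)
  have hone' : 1 ≤ L * (1 + L * |y|) ^ K₀ := one_le_mul_of_one_le_of_one_le hL1 hone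
  calc ∫ t : ℝ, gw τ Δ t * ‖F t‖ ^ 2 ≤ ∑ n ∈ Finset.Icc 1 N, ‖G n‖ ^ 2 + 1 := by linarith
    _ ≤ C * L * (1 + L * |y|) ^ K₀ + L * (1 + L * |y|) ^ K₀ := by linarith [hmain]
    _ = (C + 1) * L * (1 + L * |y|) ^ K₀ := by ring

end Pool.Agent.H448R2.GC
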