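import Pool.Agent.H448R2.GC.Defs
import Pool.Agent.H448R2.GC.K1
import Pool.Agent.H448R2.GC.K2
import Pool.Agent.H448R2.GC.S0
import Pool.Agent.H448R2.GC.S1
import Pool.Agent.H448R2.GC.X1
import Pool.Agent.H448R2.GC.X2

/-! TEAM GC, Task S4: smoothed approximate functional equation. -/

open Complex MeasureTheory Filter Topology

namespace Pool.Agent.H448R2.GC

namespace S4

theorem one_add_abs_le (a b : ℝ) : 1 + |a + b| ≤ (1 + |a|) * (1 + |b|) := by
  have := abs_add_le a b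
  nlinarith [abs_nonneg a, abs_nonneg b, mul_nonneg (abs_nonneg a) (abs_nonneg b)]

theorem ratio (k : ℕ) (c : ℝ) (hc : 0 < c) (w : ℝ) (hw : 0 ≤ w) :
    (3 / (1 + c * w)) ^ k ≤ (3 / min 1 c) ^ k * ((1 + w) ^ k)⁻¹ := by
  have hm : 0 < min 1 c := lt_min one_pos hc
  rw [← inv_pow, ← mul_pow]
  apply pow_le_pow_left₀ (by positivity)
  rw [← div_eq_mul_inv, div_div]
  apply div_le_div_of_nonneg_left (by norm_num) (by positivity)
  have h1 := min_le_left 1 c
  have h2 := min_le_right 1 c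
  nlinarith

theorem decay (k : ℕ) (e w : ℝ) (hw : 0 ≤ w) (he : e + 2 ≤ k) :
    (1 + w) ^ e * ((1 + w) ^ k)⁻¹ ≤ (1 + w ^ 2)⁻¹ := by
  have h1 : (1 + w) ^ e * ((1 + w) ^ k)⁻¹ = (1 + w) ^ (e - k) := by
    rw [Real.rpow_sub (by linarith), Real.rpow_natCast, div_eq_mul_inv]
  rw [h1]
  calc (1 + w) ^ (e - k) ≤ (1 + w) ^ (-2 : ℝ) :=
        Real.rpow_le_rpow_of_exponent_le (by linarith) (by linarith)
    _ = ((1 + w) ^ 2)⁻¹ := by
        rw [Real.rpow_neg (by linarith)]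
        norm_cast
    _ ≤ (1 + w ^ 2)⁻¹ := by
        apply inv_anti₀ (by positivity)
        nlinarith

theorem XX_diff (u : ℂ) (hu : 0 < u.re) : DifferentiableAt ℂ XX u := by
  have h1 : DifferentiableAt ℂ Complex.Gamma u := by
    apply differentiableAt_Gamma
    intro m h
    rw [h] at hu
    simp at hu
    have : (0 : ℝ) ≤ m := Nat.cast_nonneg m
    linarith
  have h2 : DifferentiableAt ℂ (fun u : ℂ => (2 * (Real.pi : ℂ)) ^ (-u)) u := by
    apply DifferentiableAt.const_cpow (by fun_prop)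
    left
    simp [Real.pi_ne_zero]
  have h3 : DifferentiableAt ℂ (fun u : ℂ => Complex.cos (Real.pi * u / 2)) u := by fun_prop
  unfold XX
  exact (((differentiableAt_const 2).mul h2).mul h1).mul h3

theorem cs_diff (k : ℕ) (c D : ℝ) : Differentiable ℂ (cs k c D) := by
  intro u
  unfold cs
  apply DifferentiableAt.fun_sum
  intro m hm
  rw [Finset.mem_Icc] at hm
  apply DifferentiableAt.mul (by fun_prop)
  apply DifferentiableAt.const_cpow (by fun_prop)
  left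
  exact_mod_cast (by omega : m ≠ 0)

theorem cs_bound (k : ℕ) (c D : ℝ) (hc : 0 < c) (u : ℂ) (hu : 0 ≤ u.re) :
    ‖cs k c D u‖ ≤ (⌊Real.exp (D + k * c)⌋₊ : ℝ) := by
  unfold cs
  refine (norm_sum_le _ _).trans ?_
  have : ∀ m ∈ Finset.Icc 1 ⌊Real.exp (D + k * c)⌋₊,
      ‖(cu k c (Real.log m - D) : ℂ) * (m : ℂ) ^ (-u)‖ ≤ 1 := by
    intro m hm
    rw [Finset.mem_Icc] at hm
    rw [norm_mul, Complex.norm_real, Real.norm_eq_abs, abs_of_nonneg (Pool.Agent.H448R2.GC.cu_nonneg _ _ _ hc),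
      Complex.norm_natCast_cpow_of_pos (by omega)]
    have h1 := Pool.Agent.H448R2.GC.cu_le_one k c (Real.log m - D) hc
    have h2 : (m : ℝ) ^ (-u).re ≤ 1 := by
      apply Real.rpow_le_one_of_one_le_of_nonpos
      · exact_mod_cast hm.1
      · simpa using hu
    have h3 : 0 ≤ (m : ℝ) ^ (-u).re := by positivity
    have h4 := Pool.Agent.H448R2.GC.cu_nonneg k c (Real.log m - D) hc
    calc cu k c (Real.log m - D) * (m : ℝ) ^ (-u).re ≤ 1 * 1 :=
          mul_le_mul h1 h2 h3 zero_le_one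
      _ = 1 := by norm_num
  refine (Finset.sum_le_sum this).trans ?_
  simp

/-- truncation of the Dirichlet series of zeta -/
theorem zeta_cs (k : ℕ) (c D : ℝ) (hc : 0 < c) (u : ℂ) (hu : 3 / 2 ≤ u.re) :
    ‖riemannZeta u - cs k c D u‖ ≤
      Real.exp (-(D * (u.re - 3 / 2))) * ∑' m : ℕ, (m : ℝ) ^ (-(3 / 2) : ℝ) := by
  have hu1 : 1 < u.re := by linarith
  have hune : u ≠ 0 := by
    intro h
    rw [h] at hu1
    simp at hu1
    linarith
  have hz : riemannZeta u = ∑' m : ℕ, (m : ℂ) ^ (-u) := by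
    rw [zeta_eq_tsum_one_div_nat_cpow hu1]
    congr 1
    ext m
    rw [Complex.cpow_neg, one_div]
  have hsum1 : Summable (fun m : ℕ => (m : ℂ) ^ (-u)) := by
    have := (Complex.summable_one_div_nat_cpow (p := u)).2 hu1
    refine this.congr ?_
    intro m
    rw [Complex.cpow_neg, one_div]
  have hc' : cs k c D u = ∑' m : ℕ, (cu k c (Real.log m - D) : ℂ) * (m : ℂ) ^ (-u) := by
    unfold cs
    rw [tsum_eq_sum]
    intro m hm
    rw [Finset.mem_Icc, not_and_or] at hm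
    rcases Nat.eq_zero_or_pos m with h0 | h0
    · rw [h0]
      simp [Complex.zero_cpow, hune]
    · have h1 : ⌊Real.exp (D + k * c)⌋₊ < m := by
        rcases hm with h | h
        · omega
        · omega
      have h2 : Real.exp (D + k * c) < m := (Nat.floor_lt (Real.exp_pos _).le).1 h1
      have h3 : D + k * c < Real.log m := by
        rw [Real.lt_log_iff_exp_lt (by exact_mod_cast h0)]
        exact h2
      rw [Pool.Agent.H448R2.GC.cu_zero k c _ hc (by linarith)]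
      simp
  have hsum2 : Summable (fun m : ℕ => (cu k c (Real.log m - D) : ℂ) * (m : ℂ) ^ (-u)) := by
    apply summable_of_ne_finset_zero (s := Finset.Icc 1 ⌊Real.exp (D + k * c)⌋₊)
    intro m hm
    rw [Finset.mem_Icc, not_and_or] at hm
    rcases Nat.eq_zero_or_pos m with h0 | h0
    · rw [h0]
      simp [Complex.zero_cpow, hune]
    · have h1 : ⌊Real.exp (D + k * c)⌋₊ < m := by
        rcases hm with h | h
        · omega
        · omega
      have h2 : Real.exp (D + k * c) < m := (Nat.floor_lt (Real.exp_pos _).le).1 h1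
      have h3 : D + k * c < Real.log m := by
        rw [Real.lt_log_iff_exp_lt (by exact_mod_cast h0)]
        exact h2
      rw [Pool.Agent.H448R2.GC.cu_zero k c _ hc (by linarith)]
      simp
  rw [hz, hc', ← hsum1.tsum_sub hsum2, ← tsum_mul_left]
  have hsum3 : Summable (fun m : ℕ => Real.exp (-(D * (u.re - 3 / 2))) * (m : ℝ) ^ (-(3 / 2) : ℝ)) := by
    apply Summable.mul_left
    exact Real.summable_nat_rpow.2 (by norm_num)
  apply tsum_of_norm_bounded hsum3.hasSum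
  intro m
  rcases Nat.eq_zero_or_pos m with h0 | h0
  · rw [h0]
    simp [Complex.zero_cpow, hune]
  · have hmpos : (0 : ℝ) < m := by exact_mod_cast h0
    have h1 : (m : ℂ) ^ (-u) - (cu k c (Real.log m - D) : ℂ) * (m : ℂ) ^ (-u) =
        ((1 - cu k c (Real.log m - D) : ℝ) : ℂ) * (m : ℂ) ^ (-u) := by
      push_cast
      ring
    rw [h1, norm_mul, Complex.norm_real, Real.norm_eq_abs,
      abs_of_nonneg (by linarith [Pool.Agent.H448R2.GC.cu_le_one k c (Real.log m - D) hc]),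
      Complex.norm_natCast_cpow_of_pos h0]
    rcases le_or_gt (Real.log m) D with h | h
    · rw [Pool.Agent.H448R2.GC.cu_one k c _ hc (by linarith)]
      simp
      positivity
    · have h2 : (m : ℝ) ^ (-u).re = (m : ℝ) ^ (-(u.re - 3 / 2)) * (m : ℝ) ^ (-(3 / 2) : ℝ) := by
        rw [← Real.rpow_add hmpos]
        congr 1
        simp
        ring
      have h3 : (m : ℝ) ^ (-(u.re - 3 / 2)) ≤ Real.exp (-(D * (u.re - 3 / 2))) := by
        rw [Real.rpow_def_of_pos hmpos]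
        apply Real.exp_le_exp.2
        nlinarith
      have h4 := Pool.Agent.H448R2.GC.cu_nonneg k c (Real.log m - D) hc
      have h5 := Pool.Agent.H448R2.GC.cu_le_one k c (Real.log m - D) hc
      rw [h2]
      calc (1 - cu k c (Real.log m - D)) * ((m : ℝ) ^ (-(u.re - 3 / 2)) * (m : ℝ) ^ (-(3 / 2) : ℝ))
          ≤ 1 * ((m : ℝ) ^ (-(u.re - 3 / 2)) * (m : ℝ) ^ (-(3 / 2) : ℝ)) := by
            apply mul_le_mul_of_nonneg_right (by linarith) (by positivity)
        _ ≤ _ := by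
            rw [one_mul]
            exact mul_le_mul_of_nonneg_right h3 (by positivity)

/-- the exact formula after the shift to the far left -/
theorem left_identity (x₁ : ℝ) (hx₁ : 1 ≤ x₁) : ∃ k₀ : ℕ, ∀ k : ℕ, k₀ ≤ k → ∀ (c D : ℝ), 0 < c →
    ∀ s : ℂ, 1 / 4 ≤ s.re → s.re ≤ 1 / 2 → 
    riemannZeta s - cs k c D s + (1 / (2 * Real.pi)) * ∫ y : ℝ,
      riemannZeta (s + (((-x₁ : ℝ) : ℂ) + (y : ℂ) * I)) * ker k c D (-x₁) y =
    -(cexp ((D : ℂ) * (1 - s)) * Ps k c (1 - s) / (1 - s)) := by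
  obtain ⟨CZ, B, hCZ, hZ⟩ := Pool.Agent.H448R2.GC.zeta_one_growth x₁
  refine ⟨B + 1, ?_⟩
  intro k hk c D hc s hs1 hs2
  have hm : 0 < min 1 c := lt_min one_pos hc
  set Z : ℂ → ℂ := Function.update (fun w : ℂ => (w - 1) * riemannZeta w) 1 1 with hZdef
  have hZne : ∀ w : ℂ, w ≠ 1 → Z w = (w - 1) * riemannZeta w := by
    intro w hw
    rw [hZdef, Function.update_of_ne hw]
  have hZ1 : Z 1 = 1 := by
    rw [hZdef, Function.update_self]
  set G : ℂ → ℂ := fun z => Z (s + z) * (cexp ((D : ℂ) * z) * Ps k c z) with hG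
  have hGd : Differentiable ℂ G := by
    have h1 : Differentiable ℂ (fun z : ℂ => Z (s + z)) :=
      Pool.Agent.H448R2.GC.zeta_one_entire.comp (by fun_prop)
    have h2 : Differentiable ℂ (fun z : ℂ => cexp ((D : ℂ) * z)) := by fun_prop
    exact h1.mul (h2.mul (Pool.Agent.H448R2.GC.Ps_entire k c))
  have hs : s ≠ 1 := by
    intro h
    rw [h] at hs2
    norm_num at hs2
  have hs' : (1 : ℂ) - s ≠ 0 := fun h => hs (sub_eq_zero.1 h).symm
  have hline : ∀ x : ℝ, s.re + x ≠ 1 → x ≠ 0 → ∀ y : ℝ,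
      G ((x : ℂ) + (y : ℂ) * I) /
        ((((x : ℂ) + (y : ℂ) * I) - 0) * (((x : ℂ) + (y : ℂ) * I) - (1 - s))) =
      riemannZeta (s + ((x : ℂ) + (y : ℂ) * I)) * ker k c D x y := by
    intro x hx hx0 y
    have hne : s + ((x : ℂ) + (y : ℂ) * I) ≠ 1 := by
      intro h
      apply hx
      have := congrArg Complex.re h
      simpa using this
    have hz0 : ((x : ℂ) + (y : ℂ) * I) ≠ 0 := by
      intro h
      apply hx0
      have := congrArg Complex.re h
      simpa using this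
    have hsub : ((x : ℂ) + (y : ℂ) * I) - (1 - s) = (s + ((x : ℂ) + (y : ℂ) * I)) - 1 := by ring
    have hne' : (s + ((x : ℂ) + (y : ℂ) * I)) - 1 ≠ 0 := sub_ne_zero.2 hne
    rw [hG]
    simp only
    rw [hZne _ hne, hsub, sub_zero]
    unfold ker
    field_simp
  have key := Pool.Agent.H448R2.GC.shift2 G 0 (1 - s) (-x₁) 1
    (CZ * (1 + |s.im|) ^ B * (Real.exp (|D| * x₁) * (Real.exp (k * c) * (3 / min 1 c) ^ k)))
    hGd (Ne.symm hs') (by simp; linarith) (by simp) (by simp; linarith) (by simp; linarith) ?_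
  · have e1 : (∫ y : ℝ, G (((1 : ℝ) : ℂ) + (y : ℂ) * I) /
        (((((1 : ℝ) : ℂ) + (y : ℂ) * I) - 0) * ((((1 : ℝ) : ℂ) + (y : ℂ) * I) - (1 - s)))) =
        ∫ y : ℝ, riemannZeta (s + (((1 : ℝ) : ℂ) + (y : ℂ) * I)) * ker k c D 1 y := by
      congr 1
      ext y
      exact hline 1 (by linarith) one_ne_zero y
    have e2 : (∫ y : ℝ, G (((-x₁ : ℝ) : ℂ) + (y : ℂ) * I) /
        (((((-x₁ : ℝ) : ℂ) + (y : ℂ) * I) - 0) * ((((-x₁ : ℝ) : ℂ) + (y : ℂ) * I) - (1 - s)))) =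
        ∫ y : ℝ, riemannZeta (s + (((-x₁ : ℝ) : ℂ) + (y : ℂ) * I)) * ker k c D (-x₁) y := by
      congr 1
      ext y
      exact hline (-x₁) (by linarith) (by linarith) y
    rw [e1, e2] at key
    have e3 := Pool.Agent.H448R2.GC.cs_line k (by omega) c D 1 hc one_pos s (by linarith)
    have e4 : G 0 / (0 - (1 - s)) = riemannZeta s := by
      rw [hG]
      simp only
      rw [add_zero, hZne s hs, Pool.Agent.H448R2.GC.Ps_zero]
      have : (0 : ℂ) - (1 - s) = s - 1 := by ring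
      rw [this]
      have h3 : s - 1 ≠ 0 := sub_ne_zero.2 hs
      simp
      field_simp
    have e5 : G (1 - s) / (1 - s - 0) = cexp ((D : ℂ) * (1 - s)) * Ps k c (1 - s) / (1 - s) := by
      rw [hG]
      simp only
      have : s + (1 - s) = 1 := by ring
      rw [this, hZ1, one_mul, sub_zero]
    rw [e4, e5] at key
    rw [e3]
    have hpi : (Real.pi : ℂ) ≠ 0 := by exact_mod_cast Real.pi_ne_zero
    have key2 : (∫ y : ℝ, riemannZeta (s + (((1 : ℝ) : ℂ) + (y : ℂ) * I)) * ker k c D 1 y) =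
        (∫ y : ℝ, riemannZeta (s + (((-x₁ : ℝ) : ℂ) + (y : ℂ) * I)) * ker k c D (-x₁) y) +
        2 * Real.pi * (riemannZeta s + cexp ((D : ℂ) * (1 - s)) * Ps k c (1 - s) / (1 - s)) := by
      rw [← key]
      ring
    rw [key2, mul_add]
    have h5 : (1 / (2 * (Real.pi : ℂ))) * (2 * Real.pi *
        (riemannZeta s + cexp ((D : ℂ) * (1 - s)) * Ps k c (1 - s) / (1 - s))) =
        riemannZeta s + cexp ((D : ℂ) * (1 - s)) * Ps k c (1 - s) / (1 - s) := by
      rw [← mul_assoc]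
      rw [one_div, inv_mul_cancel₀ (by simp [Real.pi_ne_zero]), one_mul]
    rw [h5]
    ring
  · intro z hz1 hz2
    have b1 : ‖Z (s + z)‖ ≤ CZ * (1 + |s.im|) ^ B * (1 + ‖z‖) ^ B := by
      refine (hZ (s + z) (by simp; linarith) (by simp; linarith)).trans ?_
      have e1 : 1 + |(s + z).im| ≤ (1 + |s.im|) * (1 + ‖z‖) := by
        rw [Complex.add_im]
        refine (one_add_abs_le _ _).trans ?_
        apply mul_le_mul_of_nonneg_left _ (by positivity)
        linarith [Complex.abs_im_le_norm z]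
      calc CZ * (1 + |(s + z).im|) ^ B ≤ CZ * ((1 + |s.im|) * (1 + ‖z‖)) ^ B := by gcongr
        _ = _ := by rw [mul_pow]; ring
    have b2 : ‖cexp ((D : ℂ) * z)‖ ≤ Real.exp (|D| * x₁) := by
      rw [Complex.norm_exp]
      apply Real.exp_le_exp.2
      simp
      calc D * z.re ≤ |D * z.re| := le_abs_self _
        _ = |D| * |z.re| := abs_mul _ _
        _ ≤ |D| * x₁ := by
            apply mul_le_mul_of_nonneg_left _ (abs_nonneg D)
            rw [abs_le]
            constructor <;> linarith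
    have b3 : ‖Ps k c z‖ ≤ Real.exp (k * c) * (3 / min 1 c) ^ k * ((1 + ‖z‖) ^ k)⁻¹ := by
      refine (Pool.Agent.H448R2.GC.Ps_bound k c hc z).trans ?_
      rw [mul_assoc (Real.exp (k * c))]
      apply mul_le_mul _ (ratio k c hc ‖z‖ (norm_nonneg z)) (by positivity) (Real.exp_pos _).le
      apply Real.exp_le_exp.2
      have : max z.re 0 ≤ 1 := max_le hz2 zero_le_one
      have h2 : 0 ≤ (k : ℝ) * c := by positivity
      nlinarith
    have b4 : (1 + ‖z‖) ^ B * ((1 + ‖z‖) ^ k)⁻¹ ≤ 1 := by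
      rw [← div_eq_mul_inv]
      apply div_le_one_of_le₀ _ (by positivity)
      apply pow_le_pow_right₀ (by linarith [norm_nonneg z]) (by omega)
    rw [hG]
    simp only
    rw [norm_mul, norm_mul]
    calc ‖Z (s + z)‖ * (‖cexp ((D : ℂ) * z)‖ * ‖Ps k c z‖)
        ≤ (CZ * (1 + |s.im|) ^ B * (1 + ‖z‖) ^ B) * (Real.exp (|D| * x₁) *
          (Real.exp (k * c) * (3 / min 1 c) ^ k * ((1 + ‖z‖) ^ k)⁻¹)) := by gcongr
      _ = (CZ * (1 + |s.im|) ^ B * (Real.exp (|D| * x₁) * (Real.exp (k * c) * (3 / min 1 c) ^ k))) *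
          ((1 + ‖z‖) ^ B * ((1 + ‖z‖) ^ k)⁻¹) := by ring
      _ ≤ (CZ * (1 + |s.im|) ^ B * (Real.exp (|D| * x₁) * (Real.exp (k * c) * (3 / min 1 c) ^ k))) *
          1 := by
          apply mul_le_mul_of_nonneg_left b4
          positivity
      _ = _ := by ring

end S4

/-- first half: shift to the far left and truncate the dual Dirichlet series -/
theorem afe_left (K : ℝ) : ∃ x₁ : ℝ, 1 ≤ x₁ ∧ ∃ k₀ : ℕ, ∀ k : ℕ, k₀ ≤ k → ∃ T₀ : ℝ, ∀ T : ℝ,
    T₀ ≤ T → ∀ s : ℂ, 1 / 4 ≤ s.re → s.re ≤ 1 / 2 → T / 8 ≤ s.im → s.im ≤ 8 * T →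
    ‖riemannZeta s - cs k (1 / 32 * Real.log T / k) (1 / 2 * Real.log T) s +
      (1 / (2 * Real.pi)) * ∫ y : ℝ,
      XX (1 - s - (((-x₁ : ℝ) : ℂ) + (y : ℂ) * I)) *
      cs k (1 / 32 * Real.log T / k) (17 / 32 * Real.log T) (1 - s - (((-x₁ : ℝ) : ℂ) + (y : ℂ) * I)) *
      ker k (1 / 32 * Real.log T / k) (1 / 2 * Real.log T) (-x₁) y‖ ≤ T ^ (-K) := by
  have hK0 : 0 ≤ |K| := abs_nonneg K
  obtain ⟨x₁, hx₁def⟩ : ∃ x₁ : ℝ, x₁ = 32 * (|K| + 3) := ⟨_, rfl⟩
  have hx₁ : 1 ≤ x₁ := by rw [hx₁def]; nlinarith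
  obtain ⟨k₁, hid⟩ := S4.left_identity x₁ hx₁
  obtain ⟨CX, hCX, hX⟩ := Pool.Agent.H448R2.GC.XX_upper (3 / 4 + x₁)
  refine ⟨x₁, hx₁, k₁ + ⌈x₁⌉₊ + 4, fun k hk => ?_⟩
  obtain ⟨Cz, hCz⟩ : ∃ Cz : ℝ, Cz = ∑' m : ℕ, (m : ℝ) ^ (-(3 / 2) : ℝ) := ⟨_, rfl⟩
  have hCz0 : 0 ≤ Cz := by
    rw [hCz]
    exact tsum_nonneg (fun m => by positivity)
  refine ⟨max (Real.exp (32 * k)) (max (CX * 9 ^ (x₁ + 1) * 3 ^ k * Cz + 24 ^ k) 8),
    fun T hT s hs1 hs2 hs3 hs4 => ?_⟩
  have hT1 : Real.exp (32 * k) ≤ T := (le_max_left _ _).trans hT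
  have hT2 : CX * 9 ^ (x₁ + 1) * 3 ^ k * Cz + 24 ^ k ≤ T :=
    ((le_max_left _ _).trans (le_max_right _ _)).trans hT
  have hT3 : 8 ≤ T := ((le_max_right _ _).trans (le_max_right _ _)).trans hT
  have hT0 : 0 < T := by linarith
  have hkx : x₁ + 1 + 2 ≤ k := by
    have h1 := Nat.le_ceil x₁
    have h2 : ((⌈x₁⌉₊ + 4 : ℕ) : ℝ) ≤ k := by exact_mod_cast (by omega)
    push_cast at h2
    linarith
  have hkpos : (0 : ℝ) < k := by linarith
  obtain ⟨L, hL⟩ : ∃ L : ℝ, L = Real.log T := ⟨_, rfl⟩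
  have hLk : 32 * (k : ℝ) ≤ L := by
    rw [hL, Real.le_log_iff_exp_le hT0]
    exact hT1
  rw [← hL]
  obtain ⟨c, hcdef⟩ : ∃ c : ℝ, c = 1 / 32 * L / k := ⟨_, rfl⟩
  have hc1 : 1 ≤ c := by
    rw [hcdef, le_div_iff₀ hkpos]
    linarith
  have hc : 0 < c := by linarith
  have hkc : k * c = L / 32 := by
    rw [hcdef]
    field_simp
  rw [← hcdef]
  have hexpL : Real.exp L = T := by rw [hL, Real.exp_log hT0]
  obtain ⟨D, hD⟩ : ∃ D : ℝ, D = 1 / 2 * L := ⟨_, rfl⟩
  obtain ⟨D', hD'⟩ : ∃ D' : ℝ, D' = 17 / 32 * L := ⟨_, rfl⟩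
  rw [← hD, ← hD']
  have hid' := hid k (by omega) c D hc s hs1 hs2
  -- the point u
  obtain ⟨u, hu⟩ : ∃ u : ℝ → ℂ, u = fun y : ℝ => 1 - s - (((-x₁ : ℝ) : ℂ) + (y : ℂ) * I) := ⟨_, rfl⟩
  have huy : ∀ y : ℝ, 1 - s - (((-x₁ : ℝ) : ℂ) + (y : ℂ) * I) = u y := by
    intro y
    rw [hu]
  have hure : ∀ y : ℝ, (u y).re = 1 - s.re + x₁ := by
    intro y
    rw [hu]
    simp
  have huim : ∀ y : ℝ, (u y).im = -(s.im + y) := by
    intro y
    rw [hu]
    simp
    ring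
  have hucont : Continuous u := by
    rw [hu]
    fun_prop
  have hu32 : ∀ y : ℝ, 3 / 2 ≤ (u y).re := by
    intro y
    rw [hure]
    linarith
  have hune : ∀ y : ℝ, u y ≠ 1 := by
    intro y h
    have := hu32 y
    rw [h] at this
    norm_num at this
  have hzeta : ∀ y : ℝ, riemannZeta (s + (((-x₁ : ℝ) : ℂ) + (y : ℂ) * I)) =
      XX (u y) * riemannZeta (u y) := by
    intro y
    rw [← Pool.Agent.H448R2.GC.zeta_fe (u y) (by linarith [hu32 y]) (hune y)]
    congr 1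
    rw [← huy]
    ring
  have hcontX : Continuous (fun y : ℝ => XX (u y)) := by
    rw [continuous_iff_continuousAt]
    intro y
    exact ContinuousAt.comp (g := XX) (S4.XX_diff (u y) (by linarith [hu32 y])).continuousAt
      hucont.continuousAt
  have hcontZ : Continuous (fun y : ℝ => riemannZeta (u y)) := by
    rw [continuous_iff_continuousAt]
    intro y
    exact ContinuousAt.comp (g := riemannZeta) (differentiableAt_riemannZeta (hune y)).continuousAt
      hucont.continuousAt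
  have hcontC : Continuous (fun y : ℝ => cs k c D' (u y)) :=
    (S4.cs_diff k c D').continuous.comp hucont
  have hcontK : Continuous (ker k c D (-x₁)) := Pool.Agent.H448R2.GC.ker_cont k c D (-x₁) (by linarith)
  -- the basic bound
  obtain ⟨M, hM⟩ : ∃ M : ℝ, M = CX * (9 * T) ^ (1 / 2 - s.re + x₁) * (Real.exp (-(D * x₁)) * 3 ^ k) :=
    ⟨_, rfl⟩
  have hM0 : 0 ≤ M := by rw [hM]; positivity
  have hbase : ∀ y : ℝ, ‖XX (u y)‖ * ‖ker k c D (-x₁) y‖ ≤ M * (1 + y ^ 2)⁻¹ := by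
    intro y
    have b1 : ‖XX (u y)‖ ≤ CX * (9 * T) ^ (1 / 2 - s.re + x₁) * (1 + |y|) ^ (x₁ + 1) := by
      refine (hX _ (by linarith [hu32 y]) (by rw [hure]; linarith)).trans ?_
      rw [hure, huim, abs_neg]
      have e0 : 1 - s.re + x₁ - 1 / 2 = 1 / 2 - s.re + x₁ := by ring
      rw [e0]
      have e1 : 1 + |s.im + y| ≤ (9 * T) * (1 + |y|) := by
        refine (S4.one_add_abs_le _ _).trans ?_
        apply mul_le_mul_of_nonneg_right _ (by positivity)
        rw [abs_of_nonneg (by linarith)]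
        linarith
      have e2 : (1 + |s.im + y|) ^ (1 / 2 - s.re + x₁) ≤
          ((9 * T) * (1 + |y|)) ^ (1 / 2 - s.re + x₁) :=
        Real.rpow_le_rpow (by positivity) e1 (by linarith)
      rw [Real.mul_rpow (by positivity) (by positivity)] at e2
      have e3 : (1 + |y|) ^ (1 / 2 - s.re + x₁) ≤ (1 + |y|) ^ (x₁ + 1) :=
        Real.rpow_le_rpow_of_exponent_le (by linarith [abs_nonneg y]) (by linarith)
      calc CX * (1 + |s.im + y|) ^ (1 / 2 - s.re + x₁)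
          ≤ CX * ((9 * T) ^ (1 / 2 - s.re + x₁) * (1 + |y|) ^ (x₁ + 1)) := by
            apply mul_le_mul_of_nonneg_left _ hCX.le
            exact e2.trans (mul_le_mul_of_nonneg_left e3 (by positivity))
        _ = _ := by ring
    have b2 : ‖ker k c D (-x₁) y‖ ≤ Real.exp (-(D * x₁)) * 3 ^ k * ((1 + |y|) ^ k)⁻¹ := by
      refine (Pool.Agent.H448R2.GC.ker_bound k c D (-x₁) y hc).trans ?_
      rw [max_eq_right (by linarith), mul_zero, add_zero]
      have h1 : x₁ ≤ ‖(((-x₁ : ℝ) : ℂ)) + (y : ℂ) * I‖ := by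
        have := Complex.abs_re_le_norm ((((-x₁ : ℝ) : ℂ)) + (y : ℂ) * I)
        simp at this
        rw [abs_of_nonneg (by linarith)] at this
        simpa using this
      have h2 : |y| ≤ ‖(((-x₁ : ℝ) : ℂ)) + (y : ℂ) * I‖ := by
        have := Complex.abs_im_le_norm ((((-x₁ : ℝ) : ℂ)) + (y : ℂ) * I)
        simpa using this
      have h3 : (3 / (1 + c * ‖(((-x₁ : ℝ) : ℂ)) + (y : ℂ) * I‖)) ^ k ≤ 3 ^ k * ((1 + |y|) ^ k)⁻¹ := by
        rw [← inv_pow, ← mul_pow, ← div_eq_mul_inv]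
        apply pow_le_pow_left₀ (by positivity)
        apply div_le_div_of_nonneg_left (by norm_num) (by positivity)
        have : |y| ≤ c * ‖(((-x₁ : ℝ) : ℂ)) + (y : ℂ) * I‖ := by nlinarith [abs_nonneg y]
        linarith
      calc Real.exp (D * -x₁) * (3 / (1 + c * ‖(((-x₁ : ℝ) : ℂ)) + (y : ℂ) * I‖)) ^ k /
            ‖(((-x₁ : ℝ) : ℂ)) + (y : ℂ) * I‖
          ≤ Real.exp (D * -x₁) * (3 / (1 + c * ‖(((-x₁ : ℝ) : ℂ)) + (y : ℂ) * I‖)) ^ k / 1 := by
            apply div_le_div_of_nonneg_left (by positivity) one_pos (by linarith)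
        _ ≤ Real.exp (D * -x₁) * (3 ^ k * ((1 + |y|) ^ k)⁻¹) := by
            rw [div_one]
            exact mul_le_mul_of_nonneg_left h3 (Real.exp_pos _).le
        _ = _ := by
            rw [mul_neg]
            ring
    have b3 := S4.decay k (x₁ + 1) |y| (abs_nonneg y) hkx
    rw [sq_abs] at b3
    calc ‖XX (u y)‖ * ‖ker k c D (-x₁) y‖
        ≤ (CX * (9 * T) ^ (1 / 2 - s.re + x₁) * (1 + |y|) ^ (x₁ + 1)) *
          (Real.exp (-(D * x₁)) * 3 ^ k * ((1 + |y|) ^ k)⁻¹) := by gcongr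
      _ = M * ((1 + |y|) ^ (x₁ + 1) * ((1 + |y|) ^ k)⁻¹) := by
          rw [hM]
          ring
      _ ≤ _ := mul_le_mul_of_nonneg_left b3 hM0
  have hint : ∀ W : ℝ, Integrable (fun y : ℝ => M * W * (1 + y ^ 2)⁻¹) := by
    intro W
    exact integrable_inv_one_add_sq.const_mul _
  have hbd : ∀ (w : ℂ) (W y : ℝ), ‖w‖ ≤ W → ‖XX (u y) * w * ker k c D (-x₁) y‖ ≤
      M * W * (1 + y ^ 2)⁻¹ := by
    intro w W y hw
    rw [norm_mul, norm_mul]
    have h0 : 0 ≤ W := (norm_nonneg w).trans hw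
    calc ‖XX (u y)‖ * ‖w‖ * ‖ker k c D (-x₁) y‖ = (‖XX (u y)‖ * ‖ker k c D (-x₁) y‖) * ‖w‖ := by ring
      _ ≤ (M * (1 + y ^ 2)⁻¹) * W := by
          apply mul_le_mul (hbase y) hw (norm_nonneg w) (by positivity)
      _ = _ := by ring
  -- error term
  have hE : ∀ y : ℝ, ‖riemannZeta (u y) - cs k c D' (u y)‖ ≤
      Real.exp (-(D' * (1 - s.re + x₁ - 3 / 2))) * Cz := by
    intro y
    have := S4.zeta_cs k c D' hc (u y) (hu32 y)
    rw [hure, ← hCz] at this
    exact this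
  have hgint : Integrable (fun y : ℝ => XX (u y) * cs k c D' (u y) * ker k c D (-x₁) y) := by
    refine (hint (⌊Real.exp (D' + k * c)⌋₊ : ℝ)).mono' ?_ ?_
    · exact ((hcontX.mul hcontC).mul hcontK).aestronglyMeasurable
    · exact ae_of_all _ fun y => hbd _ _ y (S4.cs_bound k c D' hc _ (by linarith [hu32 y]))
  have hhint : Integrable (fun y : ℝ => XX (u y) * (riemannZeta (u y) - cs k c D' (u y)) *
      ker k c D (-x₁) y) := by
    refine (hint (Real.exp (-(D' * (1 - s.re + x₁ - 3 / 2))) * Cz)).mono' ?_ ?_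
    · exact ((hcontX.mul (hcontZ.sub hcontC)).mul hcontK).aestronglyMeasurable
    · exact ae_of_all _ fun y => hbd _ _ y (hE y)
  have hsplit : (∫ y : ℝ, riemannZeta (s + (((-x₁ : ℝ) : ℂ) + (y : ℂ) * I)) * ker k c D (-x₁) y) =
      (∫ y : ℝ, XX (u y) * cs k c D' (u y) * ker k c D (-x₁) y) +
      ∫ y : ℝ, XX (u y) * (riemannZeta (u y) - cs k c D' (u y)) * ker k c D (-x₁) y := by
    rw [← integral_add hgint hhint]
    congr 1
    ext y
    rw [hzeta]
    ring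
  have hnorm : ‖∫ y : ℝ, XX (u y) * (riemannZeta (u y) - cs k c D' (u y)) * ker k c D (-x₁) y‖ ≤
      M * (Real.exp (-(D' * (1 - s.re + x₁ - 3 / 2))) * Cz) * Real.pi := by
    refine (norm_integral_le_of_norm_le (hint _) (ae_of_all _ fun y => hbd _ _ y (hE y))).trans ?_
    rw [integral_const_mul, integral_univ_inv_one_add_sq]
  -- the residue
  have hR : ‖cexp ((D : ℂ) * (1 - s)) * Ps k c (1 - s) / (1 - s)‖ ≤ 24 ^ k * T ^ (-|K| - 2) := by
    have h1 : T / 8 ≤ ‖1 - s‖ := by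
      have := Complex.abs_im_le_norm (1 - s)
      simp at this
      rw [abs_of_nonneg (by linarith)] at this
      linarith
    have h2 : ‖cexp ((D : ℂ) * (1 - s))‖ ≤ Real.exp (L / 2) := by
      rw [Complex.norm_exp]
      apply Real.exp_le_exp.2
      simp
      rw [hD]
      nlinarith
    have h3 : ‖Ps k c (1 - s)‖ ≤ Real.exp (L / 2) * (24 ^ k * (T ^ k)⁻¹) := by
      refine (Pool.Agent.H448R2.GC.Ps_bound k c hc (1 - s)).trans ?_
      apply mul_le_mul _ _ (by positivity) (Real.exp_pos _).le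
      · apply Real.exp_le_exp.2
        rw [hkc]
        have h4 : max (1 - s).re 0 ≤ 1 := by
          apply max_le _ zero_le_one
          simp
          linarith
        have h5 : 0 ≤ max (1 - s).re 0 := le_max_right _ _
        nlinarith
      · rw [← inv_pow, ← mul_pow]
        apply pow_le_pow_left₀ (by positivity)
        rw [← div_eq_mul_inv, div_le_div_iff₀ (by positivity) hT0]
        nlinarith [norm_nonneg (1 - s)]
    have h4 : Real.exp (L / 2) * Real.exp (L / 2) = T := by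
      rw [← Real.exp_add, ← hexpL]
      congr 1
      ring
    rw [norm_div, norm_mul]
    calc ‖cexp ((D : ℂ) * (1 - s))‖ * ‖Ps k c (1 - s)‖ / ‖1 - s‖
        ≤ Real.exp (L / 2) * (Real.exp (L / 2) * (24 ^ k * (T ^ k)⁻¹)) / 1 := by
          apply div_le_div₀ (by positivity) _ one_pos (by linarith)
          exact mul_le_mul h2 h3 (norm_nonneg _) (Real.exp_pos _).le
      _ = 24 ^ k * (T * (T ^ k)⁻¹) := by
          rw [div_one, ← mul_assoc, h4]
          ring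
      _ ≤ 24 ^ k * T ^ (-|K| - 2) := by
          apply mul_le_mul_of_nonneg_left _ (by positivity)
          have : T * (T ^ k)⁻¹ = T ^ (1 - (k : ℝ)) := by
            rw [Real.rpow_sub hT0, Real.rpow_one, Real.rpow_natCast, div_eq_mul_inv]
          rw [this]
          apply Real.rpow_le_rpow_of_exponent_le (by linarith)
          nlinarith
  -- the size of M
  have hMsize : M * (Real.exp (-(D' * (1 - s.re + x₁ - 3 / 2))) * Cz) ≤
      CX * 9 ^ (x₁ + 1) * 3 ^ k * Cz * T ^ (-|K| - 2) := by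
    have h1 : (9 * T) ^ (1 / 2 - s.re + x₁) ≤ 9 ^ (x₁ + 1) * T ^ (1 / 2 - s.re + x₁) := by
      rw [Real.mul_rpow (by norm_num) hT0.le]
      apply mul_le_mul_of_nonneg_right _ (by positivity)
      exact Real.rpow_le_rpow_of_exponent_le (by norm_num) (by linarith)
    have h2 : T ^ (1 / 2 - s.re + x₁) * Real.exp (-(D * x₁)) *
        Real.exp (-(D' * (1 - s.re + x₁ - 3 / 2))) ≤ T ^ (-|K| - 2) := by
      rw [Real.rpow_def_of_pos hT0, Real.rpow_def_of_pos hT0, ← Real.exp_add, ← Real.exp_add, ← hL,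
        hD, hD']
      apply Real.exp_le_exp.2
      have hL0 : 0 ≤ L := by linarith
      have h3 : (1 / 2 - s.re + x₁) - 1 / 2 * x₁ - 17 / 32 * (1 - s.re + x₁ - 3 / 2) ≤ -|K| - 2 := by
        rw [hx₁def]
        linarith
      have h4 := mul_le_mul_of_nonneg_left h3 hL0
      calc L * (1 / 2 - s.re + x₁) + -(1 / 2 * L * x₁) + -(17 / 32 * L * (1 - s.re + x₁ - 3 / 2))
          = L * ((1 / 2 - s.re + x₁) - 1 / 2 * x₁ - 17 / 32 * (1 - s.re + x₁ - 3 / 2)) := by ring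
        _ ≤ _ := h4
    rw [hM]
    calc CX * (9 * T) ^ (1 / 2 - s.re + x₁) * (Real.exp (-(D * x₁)) * 3 ^ k) *
          (Real.exp (-(D' * (1 - s.re + x₁ - 3 / 2))) * Cz)
        ≤ CX * (9 ^ (x₁ + 1) * T ^ (1 / 2 - s.re + x₁)) * (Real.exp (-(D * x₁)) * 3 ^ k) *
          (Real.exp (-(D' * (1 - s.re + x₁ - 3 / 2))) * Cz) := by gcongr
      _ = CX * 9 ^ (x₁ + 1) * 3 ^ k * Cz * (T ^ (1 / 2 - s.re + x₁) * Real.exp (-(D * x₁)) *
          Real.exp (-(D' * (1 - s.re + x₁ - 3 / 2)))) := by ring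
      _ ≤ _ := mul_le_mul_of_nonneg_left h2 (by positivity)
  -- conclusion
  have hfin : riemannZeta s - cs k c D s + (1 / (2 * Real.pi)) * ∫ y : ℝ,
      XX (u y) * cs k c D' (u y) * ker k c D (-x₁) y =
      -(cexp ((D : ℂ) * (1 - s)) * Ps k c (1 - s) / (1 - s)) - (1 / (2 * Real.pi)) *
      ∫ y : ℝ, XX (u y) * (riemannZeta (u y) - cs k c D' (u y)) * ker k c D (-x₁) y := by
    rw [← hid', hsplit]
    ring
  have hgoal : (∫ y : ℝ, XX (1 - s - (((-x₁ : ℝ) : ℂ) + (y : ℂ) * I)) *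
      cs k c D' (1 - s - (((-x₁ : ℝ) : ℂ) + (y : ℂ) * I)) * ker k c D (-x₁) y) =
      ∫ y : ℝ, XX (u y) * cs k c D' (u y) * ker k c D (-x₁) y := by
    rw [hu]
  rw [hgoal, hfin]
  refine (norm_sub_le _ _).trans ?_
  rw [norm_neg, norm_mul]
  have hpi : ‖(1 / (2 * (Real.pi : ℂ)))‖ = 1 / (2 * Real.pi) := by
    rw [norm_div, norm_mul, Complex.norm_real, Real.norm_eq_abs, abs_of_pos Real.pi_pos]
    norm_num
  rw [hpi]
  have hpos : 0 ≤ M * (Real.exp (-(D' * (1 - s.re + x₁ - 3 / 2))) * Cz) := by positivity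
  have h9 : 1 / (2 * Real.pi) * ‖∫ y : ℝ, XX (u y) * (riemannZeta (u y) - cs k c D' (u y)) *
      ker k c D (-x₁) y‖ ≤ M * (Real.exp (-(D' * (1 - s.re + x₁ - 3 / 2))) * Cz) := by
    calc 1 / (2 * Real.pi) * ‖∫ y : ℝ, XX (u y) * (riemannZeta (u y) - cs k c D' (u y)) *
          ker k c D (-x₁) y‖
        ≤ 1 / (2 * Real.pi) * (M * (Real.exp (-(D' * (1 - s.re + x₁ - 3 / 2))) * Cz) * Real.pi) := by
          apply mul_le_mul_of_nonneg_left hnorm (by positivity)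
      _ = (M * (Real.exp (-(D' * (1 - s.re + x₁ - 3 / 2))) * Cz)) / 2 := by
          field_simp
      _ ≤ _ := by linarith
  calc ‖cexp ((D : ℂ) * (1 - s)) * Ps k c (1 - s) / (1 - s)‖ + 1 / (2 * Real.pi) *
        ‖∫ y : ℝ, XX (u y) * (riemannZeta (u y) - cs k c D' (u y)) * ker k c D (-x₁) y‖
      ≤ 24 ^ k * T ^ (-|K| - 2) + CX * 9 ^ (x₁ + 1) * 3 ^ k * Cz * T ^ (-|K| - 2) :=
        add_le_add hR (h9.trans hMsize)
    _ = (CX * 9 ^ (x₁ + 1) * 3 ^ k * Cz + 24 ^ k) * T ^ (-|K| - 2) := by ring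
    _ ≤ T * T ^ (-|K| - 2) := mul_le_mul_of_nonneg_right hT2 (by positivity)
    _ = T ^ (-|K| - 1) := by
        rw [← Real.rpow_one_add' hT0.le (by linarith)]
        congr 1
        ring
    _ ≤ T ^ (-K) := by
        apply Real.rpow_le_rpow_of_exponent_le (by linarith)
        linarith [le_abs_self K]

/-- second half: shift the finite sum back (no poles) -/
theorem afe_back (x₁ : ℝ) (hx₁ : 1 ≤ x₁) : ∃ k₀ : ℕ, ∀ k : ℕ, k₀ ≤ k → ∀ (c D D' : ℝ), 0 < c → ∀ s : ℂ,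
    1 / 4 ≤ s.re → s.re ≤ 1 / 2 → ∀ x : ℝ, 0 < x → x ≤ 1 / 8 →
    ∫ y : ℝ,
      XX (1 - s - (((-x₁ : ℝ) : ℂ) + (y : ℂ) * I)) *
      cs k c D' (1 - s - (((-x₁ : ℝ) : ℂ) + (y : ℂ) * I)) * ker k c D (-x₁) y =
    ∫ y : ℝ,
      XX (1 - s - (((-x : ℝ) : ℂ) + (y : ℂ) * I)) *
      cs k c D' (1 - s - (((-x : ℝ) : ℂ) + (y : ℂ) * I)) * ker k c D (-x) y := by
  obtain ⟨C, hC, hX⟩ := Pool.Agent.H448R2.GC.XX_upper (3 / 4 + x₁)
  refine ⟨⌈x₁⌉₊ + 4, ?_⟩
  intro k hk c D D' hc s hs1 hs2 x hx0 hx8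
  have hkx : x₁ + 1 + 2 ≤ k := by
    have h1 := Nat.le_ceil x₁
    have h2 : ((⌈x₁⌉₊ + 4 : ℕ) : ℝ) ≤ k := by exact_mod_cast hk
    push_cast at h2
    linarith
  set F : ℂ → ℂ := fun z => XX (1 - s - z) * cs k c D' (1 - s - z) *
    (cexp ((D : ℂ) * z) * Ps k c z / z) with hF
  have hm : 0 < min 1 c := lt_min one_pos hc
  have key := Pool.Agent.H448R2.GC.shift0 F (-x₁) (-x)
    ((C * (1 + |s.im|) ^ (x₁ + 1)) * (⌊Real.exp (D' + k * c)⌋₊ : ℝ) *
      (Real.exp (|D| * x₁) * (3 / min 1 c) ^ k / x)) (by linarith) ?_ ?_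
  · exact key.symm
  · intro z hz1 hz2
    have hz0 : z ≠ 0 := by
      intro h
      rw [h] at hz2
      simp at hz2
      linarith
    have hre : 0 < (1 - s - z).re := by
      simp
      linarith
    have h1 : DifferentiableAt ℂ (fun z : ℂ => 1 - s - z) z := by fun_prop
    have h2 : DifferentiableAt ℂ (fun z : ℂ => XX (1 - s - z)) z :=
      DifferentiableAt.comp (g := XX) z (S4.XX_diff _ hre) h1
    have h3 : DifferentiableAt ℂ (fun z : ℂ => cs k c D' (1 - s - z)) z :=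
      DifferentiableAt.comp (g := cs k c D') z (S4.cs_diff k c D' _) h1
    have h4 : DifferentiableAt ℂ (Ps k c) z := Pool.Agent.H448R2.GC.Ps_entire k c z
    have h5 : DifferentiableAt ℂ (fun z : ℂ => cexp ((D : ℂ) * z)) z := by fun_prop
    exact (h2.mul h3).mul ((h5.mul h4).div differentiableAt_id hz0)
  · intro z hz1 hz2
    have hz0 : x ≤ ‖z‖ := by
      have := Complex.abs_re_le_norm z
      rw [abs_of_neg (by linarith)] at this
      linarith
    have hre1 : 1 / 2 ≤ (1 - s - z).re := by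
      simp
      linarith
    have hre2 : (1 - s - z).re ≤ 3 / 4 + x₁ := by
      simp
      linarith
    have b1 : ‖XX (1 - s - z)‖ ≤ C * (1 + |s.im|) ^ (x₁ + 1) * (1 + ‖z‖) ^ (x₁ + 1) := by
      refine (hX _ hre1 hre2).trans ?_
      have e1 : 1 + |(1 - s - z).im| ≤ (1 + |s.im|) * (1 + ‖z‖) := by
        have h1 : (1 - s - z).im = -(s.im + z.im) := by simp; ring
        rw [h1, abs_neg]
        refine (S4.one_add_abs_le _ _).trans ?_
        apply mul_le_mul_of_nonneg_left _ (by positivity)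
        linarith [Complex.abs_im_le_norm z]
      have e2 : (1 + |(1 - s - z).im|) ^ ((1 - s - z).re - 1 / 2) ≤
          (1 + |(1 - s - z).im|) ^ (x₁ + 1) := by
        apply Real.rpow_le_rpow_of_exponent_le
        · linarith [abs_nonneg (1 - s - z).im]
        · linarith
      have e3 : (1 + |(1 - s - z).im|) ^ (x₁ + 1) ≤ ((1 + |s.im|) * (1 + ‖z‖)) ^ (x₁ + 1) :=
        Real.rpow_le_rpow (by positivity) e1 (by linarith)
      rw [Real.mul_rpow (by positivity) (by positivity)] at e3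
      calc C * (1 + |(1 - s - z).im|) ^ ((1 - s - z).re - 1 / 2)
          ≤ C * ((1 + |s.im|) ^ (x₁ + 1) * (1 + ‖z‖) ^ (x₁ + 1)) :=
            mul_le_mul_of_nonneg_left (e2.trans e3) hC.le
        _ = _ := by ring
    have b2 : ‖cs k c D' (1 - s - z)‖ ≤ (⌊Real.exp (D' + k * c)⌋₊ : ℝ) :=
      S4.cs_bound k c D' hc _ (by linarith)
    have b3 : ‖cexp ((D : ℂ) * z) * Ps k c z / z‖ ≤
        Real.exp (|D| * x₁) * (3 / min 1 c) ^ k / x * ((1 + ‖z‖) ^ k)⁻¹ := by
      rw [norm_div, norm_mul, Complex.norm_exp]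
      have e1 : ((D : ℂ) * z).re ≤ |D| * x₁ := by
        simp
        calc D * z.re ≤ |D * z.re| := le_abs_self _
          _ = |D| * |z.re| := abs_mul _ _
          _ ≤ |D| * x₁ := by
              apply mul_le_mul_of_nonneg_left _ (abs_nonneg D)
              rw [abs_le]
              constructor <;> linarith
      have e2 := Pool.Agent.H448R2.GC.Ps_bound k c hc z
      rw [max_eq_right (by linarith), mul_zero, Real.exp_zero, one_mul] at e2
      have e3 := S4.ratio k c hc ‖z‖ (norm_nonneg z)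
      calc Real.exp ((D : ℂ) * z).re * ‖Ps k c z‖ / ‖z‖
          ≤ Real.exp (|D| * x₁) * ((3 / min 1 c) ^ k * ((1 + ‖z‖) ^ k)⁻¹) / x := by
            apply div_le_div₀ (by positivity) _ hx0 hz0
            exact mul_le_mul (Real.exp_le_exp.2 e1) (e2.trans e3) (norm_nonneg _)
              (Real.exp_pos _).le
        _ = _ := by ring
    have b4 := S4.decay k (x₁ + 1) ‖z‖ (norm_nonneg z) hkx
    rw [hF]
    simp only
    rw [norm_mul, norm_mul, div_eq_mul_inv]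
    calc ‖XX (1 - s - z)‖ * ‖cs k c D' (1 - s - z)‖ * ‖cexp ((D : ℂ) * z) * Ps k c z / z‖
        ≤ (C * (1 + |s.im|) ^ (x₁ + 1) * (1 + ‖z‖) ^ (x₁ + 1)) *
            (⌊Real.exp (D' + k * c)⌋₊ : ℝ) *
            (Real.exp (|D| * x₁) * (3 / min 1 c) ^ k / x * ((1 + ‖z‖) ^ k)⁻¹) := by
          gcongr
      _ = (C * (1 + |s.im|) ^ (x₁ + 1)) * (⌊Real.exp (D' + k * c)⌋₊ : ℝ) *
          (Real.exp (|D| * x₁) * (3 / min 1 c) ^ k / x) *
            ((1 + ‖z‖) ^ (x₁ + 1) * ((1 + ‖z‖) ^ k)⁻¹) := by ring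
      _ ≤ _ := by
          apply mul_le_mul_of_nonneg_left b4
          positivity

theorem afe (K : ℝ) : ∃ k₀ : ℕ, ∀ k : ℕ, k₀ ≤ k → ∃ T₀ : ℝ, ∀ T : ℝ,
    T₀ ≤ T → ∀ s : ℂ, 1 / 4 ≤ s.re → s.re ≤ 1 / 2 → T / 8 ≤ s.im → s.im ≤ 8 * T →
    ∀ x : ℝ, 0 < x → x ≤ 1 / 8 →
    ‖riemannZeta s - cs k (1 / 32 * Real.log T / k) (1 / 2 * Real.log T) s +
      (1 / (2 * Real.pi)) * ∫ y : ℝ,
      XX (1 - s - (((-x : ℝ) : ℂ) + (y : ℂ) * I)) *
      cs k (1 / 32 * Real.log T / k) (17 / 32 * Real.log T) (1 - s - (((-x : ℝ) : ℂ) + (y : ℂ) * I)) *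
      ker k (1 / 32 * Real.log T / k) (1 / 2 * Real.log T) (-x) y‖ ≤ T ^ (-K) := by
  obtain ⟨x₁, hx₁, k₀, h1⟩ := afe_left K
  obtain ⟨k₁, h2⟩ := afe_back x₁ hx₁
  refine ⟨k₀ + k₁ + 1, fun k hk => ?_⟩
  obtain ⟨T₀, h3⟩ := h1 k (by omega)
  refine ⟨max T₀ 2, fun T hT s hs1 hs2 hs3 hs4 x hx0 hx8 => ?_⟩
  have hT2 : 2 ≤ T := (le_max_right _ _).trans hT
  have hc : 0 < 1 / 32 * Real.log T / k := by
    have : 0 < Real.log T := Real.log_pos (by linarith)
    have hk' : (0 : ℝ) < k := by exact_mod_cast (by omega : 0 < k)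
    positivity
  rw [← h2 k (by omega) _ _ _ hc s hs1 hs2 x hx0 hx8]
  exact h3 T ((le_max_left _ _).trans hT) s hs1 hs2 hs3 hs4

end Pool.Agent.H448R2.GC
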