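import Pool.Agent.H448R2.GC.Defs
import Pool.Agent.H448R2.GC.K2
import Pool.Agent.H448R2.GC.M0
import Pool.Agent.H448R2.GC.MV
import Pool.Agent.H448R2.GC.S4
import Pool.Agent.H448R2.GC.X1
import Pool.Agent.H448R2.GC.X2

/-! TEAM GC, task M1: mollified second moment of zeta. -/

open Complex MeasureTheory Filter Topology

namespace Pool.Agent.H448R2.GC

namespace M1

/-- the weight on the dual side -/
noncomputable def gg (L : ℝ) (k : ℕ) (y : ℝ) : ℝ := L / (1 + L * |y|) ^ k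

theorem gg_nonneg (L : ℝ) (k : ℕ) (y : ℝ) (hL : 1 ≤ L) : 0 ≤ gg L k y := by
  unfold gg
  have : 0 ≤ L * |y| := by positivity
  positivity

theorem gg_cont (L : ℝ) (k : ℕ) (hL : 1 ≤ L) : Continuous (gg L k) := by
  unfold gg
  refine Continuous.div continuous_const (by fun_prop) ?_
  intro y
  have : 0 ≤ L * |y| := by positivity
  positivity

theorem gg_int (L : ℝ) (k : ℕ) (hL : 1 ≤ L) (hk : 2 ≤ k) : Integrable (gg L k) :=
  Pool.Agent.H448R2.GC.scale_integrable L k hL hk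

theorem cs_conj (k : ℕ) (c D : ℝ) (s : ℂ) :
    cs k c D ((starRingEnd ℂ) s) = (starRingEnd ℂ) (cs k c D s) := by
  unfold cs
  rw [map_sum]
  refine Finset.sum_congr rfl ?_
  intro m hm
  rw [map_mul, Complex.conj_ofReal]
  congr 1
  have h := Complex.cpow_conj (m : ℂ) (-s) (by rw [Complex.natCast_arg]; exact Real.pi_pos.ne)
  rw [Complex.conj_natCast] at h
  rw [← map_neg, h]

/-- a bound of the smoothed sums in `Re s ≥ 0` -/
theorem cs_bdd (k : ℕ) (c D : ℝ) : ∃ B : ℝ, 0 ≤ B ∧ ∀ s : ℂ, 0 ≤ s.re → ‖cs k c D s‖ ≤ B := by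
  refine ⟨∑ m ∈ Finset.Icc 1 ⌊Real.exp (D + k * c)⌋₊, |cu k c (Real.log m - D)|,
    Finset.sum_nonneg fun _ _ => abs_nonneg _, ?_⟩
  intro s hs
  unfold cs
  refine (norm_sum_le _ _).trans (Finset.sum_le_sum ?_)
  intro m hm
  have hm1 : 1 ≤ m := (Finset.mem_Icc.mp hm).1
  have hm0 : 0 < m := hm1
  rw [norm_mul, Complex.norm_real, Real.norm_eq_abs]
  have h1 : ‖(m : ℂ) ^ (-s)‖ ≤ 1 := by
    rw [Complex.norm_natCast_cpow_of_pos hm0]
    have hm1' : (1 : ℝ) ≤ m := by exact_mod_cast hm1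
    refine Real.rpow_le_one_of_one_le_of_nonpos hm1' ?_
    simpa using hs
  calc |cu k c (Real.log m - D)| * ‖(m : ℂ) ^ (-s)‖ ≤ |cu k c (Real.log m - D)| * 1 :=
        mul_le_mul_of_nonneg_left h1 (abs_nonneg _)
    _ = _ := mul_one _

theorem cs_cont (k : ℕ) (c D : ℝ) : Continuous (fun s : ℂ => cs k c D s) := by
  unfold cs
  refine continuous_finsetSum _ ?_
  intro m hm
  have hm1 : 1 ≤ m := (Finset.mem_Icc.mp hm).1
  refine continuous_const.mul ?_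
  refine Continuous.const_cpow (by fun_prop) (Or.inl ?_)
  exact_mod_cast (by omega : m ≠ 0)

theorem MM_cont (S : Finset ℕ) (hS : ∀ n ∈ S, n ≠ 0) : Continuous (fun s : ℂ => MM S s) := by
  unfold MM
  refine continuous_finsetSum _ ?_
  intro m hm
  refine continuous_const.mul ?_
  refine Continuous.const_cpow (by fun_prop) (Or.inl ?_)
  exact_mod_cast hS m hm

theorem MM_bound (S : Finset ℕ) (hS : ∀ n ∈ S, n ≠ 0) (Y : ℝ) (hY : 0 ≤ Y)
    (hle : ∀ n ∈ S, (n : ℝ) ≤ Y) (s : ℂ) (hs : 0 ≤ s.re) : ‖MM S s‖ ≤ Y := by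
  unfold MM
  have hcard : (S.card : ℝ) ≤ Y := by
    have hsub : S ⊆ Finset.Icc 1 ⌊Y⌋₊ := by
      intro n hn
      rw [Finset.mem_Icc]
      exact ⟨Nat.one_le_iff_ne_zero.mpr (hS n hn), Nat.le_floor (hle n hn)⟩
    have h := Finset.card_le_card hsub
    rw [Nat.card_Icc, Nat.add_sub_cancel] at h
    calc (S.card : ℝ) ≤ (⌊Y⌋₊ : ℝ) := by exact_mod_cast h
      _ ≤ Y := Nat.floor_le hY
  refine le_trans ?_ hcard
  calc ‖∑ n ∈ S, (((ArithmeticFunction.moebius n : ℤ) : ℂ)) * (n : ℂ) ^ (-s)‖ ≤ ∑ n ∈ S, (1 : ℝ) := by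
        refine (norm_sum_le _ _).trans (Finset.sum_le_sum ?_)
        intro n hn
        have hn0 : 0 < n := Nat.pos_of_ne_zero (hS n hn)
        rw [norm_mul, Complex.norm_natCast_cpow_of_pos hn0]
        have hn1' : (1 : ℝ) ≤ n := by exact_mod_cast hn0
        have h1 : (n : ℝ) ^ (-s).re ≤ 1 :=
          Real.rpow_le_one_of_one_le_of_nonpos hn1' (by simpa using hs)
        have h2 : ‖(((ArithmeticFunction.moebius n : ℤ) : ℂ))‖ ≤ 1 := by
          rw [Complex.norm_intCast]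
          exact_mod_cast ArithmeticFunction.abs_moebius_le_one
        calc _ ≤ (1 : ℝ) * 1 := mul_le_mul h2 h1 (by positivity) zero_le_one
          _ = 1 := one_mul 1
    _ = (S.card : ℝ) := by simp

/-- Cauchy-Schwarz with a weight of mass at most two -/
theorem cs_ineq (g a : ℝ → ℝ) (hg : ∀ y, 0 ≤ g y) (hgi : Integrable g) (hg2 : ∫ y, g y ≤ 2)
    (h1 : Integrable (fun y => a y * g y)) (h2 : Integrable (fun y => a y ^ 2 * g y)) :
    (∫ y, a y * g y) ^ 2 ≤ 2 * ∫ y, a y ^ 2 * g y := by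
  set I := ∫ y, a y * g y with hI
  have h0 : 0 ≤ ∫ y, (a y - I / 2) ^ 2 * g y := integral_nonneg fun y => mul_nonneg (sq_nonneg _) (hg y)
  have he : ∫ y, (a y - I / 2) ^ 2 * g y =
      (∫ y, a y ^ 2 * g y) - I * (∫ y, a y * g y) + (I ^ 2 / 4) * ∫ y, g y := by
    have e1 : ∫ y, ((fun y => a y ^ 2 * g y) y - (fun y => I * (a y * g y)) y) =
        (∫ y, a y ^ 2 * g y) - ∫ y, I * (a y * g y) := integral_sub h2 (h1.const_mul I)
    have e2 : ∫ y, ((fun y => a y ^ 2 * g y - I * (a y * g y)) y + (fun y => I ^ 2 / 4 * g y) y) =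
        (∫ y, (a y ^ 2 * g y - I * (a y * g y))) + ∫ y, I ^ 2 / 4 * g y :=
      integral_add (h2.sub (h1.const_mul I)) (hgi.const_mul _)
    rw [← integral_const_mul, ← integral_const_mul]
    simp only at e1 e2
    rw [← e1, ← e2]
    refine integral_congr_ae (Eventually.of_forall fun y => ?_)
    simp only
    ring
  rw [he, ← hI] at h0
  nlinarith [sq_nonneg I]

/-- pointwise bound from the approximate functional equation -/
theorem zeta_pt (A : ℝ) (hA : 1 ≤ A) : ∃ k₀ : ℕ, ∀ k : ℕ, k₀ ≤ k → ∃ C T₀ : ℝ, 0 < C ∧ ∀ T : ℝ, T₀ ≤ T →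
    ∀ v : ℝ, T / 8 ≤ v → v ≤ 8 * T →
    ‖riemannZeta (((sm A T + 1 / Real.log T : ℝ) : ℂ) + (v : ℂ) * I)‖ ^ 2 ≤
      3 * ‖cs k (1 / 32 * Real.log T / k) (1 / 2 * Real.log T)
        (((sm A T + 1 / Real.log T : ℝ) : ℂ) + (v : ℂ) * I)‖ ^ 2 +
      C * (∫ y : ℝ, ‖cs k (1 / 32 * Real.log T / k) (17 / 32 * Real.log T)
        (((1 / 2 + A / Real.log T : ℝ) : ℂ) + ((v + y : ℝ) : ℂ) * I)‖ ^ 2 * gg (Real.log T) k y) +
      3 * (T ^ (-1 : ℝ)) ^ 2 := by
  obtain ⟨k₀, hk₀⟩ := Pool.Agent.H448R2.GC.afe 1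
  refine ⟨max k₀ 2, fun k hk => ?_⟩
  have hk1 : k₀ ≤ k := le_trans (le_max_left _ _) hk
  have hk2 : 2 ≤ k := le_trans (le_max_right _ _) hk
  obtain ⟨T₁, hT₁⟩ := hk₀ k hk1
  obtain ⟨Ck, hCk, hker⟩ := Pool.Agent.H448R2.GC.ker_scale (1 / 32) 1 k (by norm_num) one_pos (by omega)
  obtain ⟨CX, hCX, hXX⟩ := Pool.Agent.H448R2.GC.XX_upper (3 / 2)
  set C₃ : ℝ := CX * (9 * Real.exp A) * Ck with hC₃
  have hC₃pos : 0 < C₃ := by positivity
  refine ⟨3 * (C₃ ^ 2 * 2), max (max T₁ (Real.exp (4 * A + 8))) 1, by positivity, ?_⟩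
  intro T hT v hv1 hv2
  have hTT : T₁ ≤ T := le_trans (le_trans (le_max_left _ _) (le_max_left _ _)) hT
  have hTe : Real.exp (4 * A + 8) ≤ T := le_trans (le_trans (le_max_right _ _) (le_max_left _ _)) hT
  have hT1 : 1 ≤ T := le_trans (le_max_right _ _) hT
  have hT0 : 0 < T := by linarith
  set L := Real.log T with hL
  have hLge : 4 * A + 8 ≤ L := by rw [hL, Real.le_log_iff_exp_le hT0]; exact hTe
  have hL1 : 1 ≤ L := by linarith
  have hL0 : 0 < L := by linarith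
  have hAL : A / L ≤ 1 / 4 := by rw [div_le_div_iff₀ hL0 (by norm_num)]; linarith
  have hAL0 : 0 ≤ A / L := by positivity
  have h1L : 1 / L ≤ 1 / 8 := by rw [div_le_div_iff₀ hL0 (by norm_num)]; linarith
  have h1L0 : 0 < 1 / L := by positivity
  have h1AL : 1 / L ≤ A / L := div_le_div_of_nonneg_right hA hL0.le
  set s : ℂ := ((sm A T + 1 / L : ℝ) : ℂ) + (v : ℂ) * I with hs
  have hsre : s.re = 1 / 2 - A / L + 1 / L := by simp [hs, sm, ← hL]
  have hsim : s.im = v := by simp [hs]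
  have hafe := hT₁ T hTT s (by rw [hsre]; linarith) (by rw [hsre]; linarith) (by rw [hsim]; exact hv1)
    (by rw [hsim]; exact hv2) (1 / L) h1L0 h1L
  rw [← hL] at hafe
  set c : ℝ := 1 / 32 * L / k with hc
  set J : ℂ := ∫ y : ℝ, XX (1 - s - (((-(1 / L) : ℝ) : ℂ) + (y : ℂ) * I)) *
      cs k c (17 / 32 * L) (1 - s - (((-(1 / L) : ℝ) : ℂ) + (y : ℂ) * I)) *
      ker k c (1 / 2 * L) (-(1 / L)) y with hJ
  set N : ℝ → ℝ := fun y => ‖cs k c (17 / 32 * L) (((1 / 2 + A / L : ℝ) : ℂ) + ((v + y : ℝ) : ℂ) * I)‖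
    with hN
  have hu : ∀ y : ℝ, 1 - s - (((-(1 / L) : ℝ) : ℂ) + (y : ℂ) * I) =
      (starRingEnd ℂ) (((1 / 2 + A / L : ℝ) : ℂ) + ((v + y : ℝ) : ℂ) * I) := by
    intro y
    rw [hs]
    apply Complex.ext
    · simp [sm, ← hL]; ring
    · simp; ring
  have hN0 : ∀ y, 0 ≤ N y := fun y => norm_nonneg _
  obtain ⟨B, hB0, hB⟩ := cs_bdd k c (17 / 32 * L)
  have hNB : ∀ y, N y ≤ B := by
    intro y
    refine hB _ ?_
    have : (((1 / 2 + A / L : ℝ) : ℂ) + ((v + y : ℝ) : ℂ) * I).re = 1 / 2 + A / L := by simp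
    rw [this]; positivity
  have hNc : Continuous N := by
    rw [hN]
    exact (((cs_cont k c (17 / 32 * L)).comp (by fun_prop :
      Continuous (fun y : ℝ => (((1 / 2 + A / L : ℝ) : ℂ) + ((v + y : ℝ) : ℂ) * I))))).norm
  have hgi := gg_int L k hL1 hk2
  have hg0 : ∀ y, 0 ≤ gg L k y := fun y => gg_nonneg L k y hL1
  have hi1 : Integrable (fun y => N y * gg L k y) := by
    refine hgi.bdd_mul hNc.aestronglyMeasurable (c := B) (Eventually.of_forall fun y => ?_)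
    rw [Real.norm_eq_abs, abs_of_nonneg (hN0 y)]; exact hNB y
  have hi2 : Integrable (fun y => N y ^ 2 * gg L k y) := by
    refine hgi.bdd_mul (hNc.pow 2).aestronglyMeasurable (c := B ^ 2) (Eventually.of_forall fun y => ?_)
    rw [Real.norm_eq_abs, abs_of_nonneg (by positivity)]
    exact pow_le_pow_left₀ (hN0 y) (hNB y) 2
  -- size of the kernel
  have hpt : ∀ y : ℝ, ‖XX (1 - s - (((-(1 / L) : ℝ) : ℂ) + (y : ℂ) * I)) *
      cs k c (17 / 32 * L) (1 - s - (((-(1 / L) : ℝ) : ℂ) + (y : ℂ) * I)) *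
      ker k c (1 / 2 * L) (-(1 / L)) y‖ ≤ C₃ * (N y * gg L k y) := by
    intro y
    rw [hu y, norm_mul, norm_mul, cs_conj, Complex.norm_conj]
    have hre : ((starRingEnd ℂ) (((1 / 2 + A / L : ℝ) : ℂ) + ((v + y : ℝ) : ℂ) * I)).re = 1 / 2 + A / L := by
      simp
    have him : ((starRingEnd ℂ) (((1 / 2 + A / L : ℝ) : ℂ) + ((v + y : ℝ) : ℂ) * I)).im = -(v + y) := by
      simp
    have hX := hXX ((starRingEnd ℂ) (((1 / 2 + A / L : ℝ) : ℂ) + ((v + y : ℝ) : ℂ) * I))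
      (by rw [hre]; linarith) (by rw [hre]; linarith)
    rw [hre, him, abs_neg] at hX
    have hexp : (1 / 2 + A / L - 1 / 2 : ℝ) = A / L := by ring
    rw [hexp] at hX
    have hLy : 0 ≤ L * |y| := by positivity
    have h1 : (1 + |v + y|) ^ (A / L) ≤ 9 * Real.exp A * (1 + L * |y|) := by
      have hv0 : 0 ≤ v := le_trans (by positivity) hv1
      have ha : 1 + |v + y| ≤ (9 * T) * (1 + L * |y|) := by
        have h3 : |v + y| ≤ v + |y| := by
          refine (abs_add_le _ _).trans ?_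
          rw [abs_of_nonneg hv0]
        have h4 : |y| ≤ L * |y| := le_mul_of_one_le_left (abs_nonneg y) hL1
        have h5 : 1 + (v + |y|) ≤ 9 * T + L * |y| := by linarith
        have h6 : L * |y| ≤ 9 * T * (L * |y|) := le_mul_of_one_le_left hLy (by linarith)
        calc 1 + |v + y| ≤ 1 + (v + |y|) := by linarith
          _ ≤ 9 * T + L * |y| := h5
          _ ≤ 9 * T + 9 * T * (L * |y|) := by linarith
          _ = _ := by ring
      calc (1 + |v + y|) ^ (A / L) ≤ ((9 * T) * (1 + L * |y|)) ^ (A / L) :=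
            Real.rpow_le_rpow (by positivity) ha hAL0
        _ = (9 * T) ^ (A / L) * (1 + L * |y|) ^ (A / L) := Real.mul_rpow (by positivity) (by positivity)
        _ ≤ (9 * Real.exp A) * (1 + L * |y|) := by
            refine mul_le_mul ?_ ?_ (by positivity) (by positivity)
            · rw [Real.mul_rpow (by norm_num) hT0.le]
              refine mul_le_mul ?_ ?_ (by positivity) (by norm_num)
              · calc (9 : ℝ) ^ (A / L) ≤ (9 : ℝ) ^ (1 : ℝ) :=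
                      Real.rpow_le_rpow_of_exponent_le (by norm_num) (by linarith)
                  _ = 9 := Real.rpow_one 9
              · rw [Real.rpow_def_of_pos hT0, ← hL]
                have : L * (A / L) = A := by field_simp
                rw [this]
            · calc (1 + L * |y|) ^ (A / L) ≤ (1 + L * |y|) ^ (1 : ℝ) :=
                    Real.rpow_le_rpow_of_exponent_le (by linarith) (by linarith)
                _ = _ := Real.rpow_one _
    have hk3 := hker L (1 / 2 * L) (-(1 / L)) y hL1 (by rw [abs_of_pos (by positivity)]; linarith)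
      (by rw [abs_neg, abs_of_pos h1L0]) (by rw [abs_neg, abs_of_pos h1L0])
    calc ‖XX ((starRingEnd ℂ) (((1 / 2 + A / L : ℝ) : ℂ) + ((v + y : ℝ) : ℂ) * I))‖ * N y *
          ‖ker k c (1 / 2 * L) (-(1 / L)) y‖
        ≤ (CX * (9 * Real.exp A * (1 + L * |y|))) * N y * (Ck * (L / (1 + L * |y|) ^ (k + 1))) := by
          refine mul_le_mul ?_ hk3 (norm_nonneg _) ?_
          · refine mul_le_mul_of_nonneg_right ?_ (hN0 y)
            exact hX.trans (mul_le_mul_of_nonneg_left h1 hCX.le)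
          · have := hN0 y; positivity
      _ = C₃ * (N y * gg L k y) := by
          rw [hC₃]; unfold gg
          have hne : (1 + L * |y|) ≠ 0 := by positivity
          field_simp
          ring
  have hJb : ‖J‖ ≤ C₃ * ∫ y, N y * gg L k y := by
    rw [hJ, ← integral_const_mul]
    exact norm_integral_le_of_norm_le (hi1.const_mul C₃) (Eventually.of_forall hpt)
  have hI0 : 0 ≤ ∫ y, N y * gg L k y := integral_nonneg fun y => mul_nonneg (hN0 y) (hg0 y)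
  have hcsq := cs_ineq (gg L k) N hg0 hgi (Pool.Agent.H448R2.GC.scale_integral L k hL1 hk2) hi1 hi2
  have hT1' : 0 ≤ T ^ (-1 : ℝ) := by positivity
  have hz : ‖riemannZeta s‖ ≤ ‖cs k c (1 / 2 * L) s‖ + C₃ * (∫ y, N y * gg L k y) + T ^ (-1 : ℝ) := by
    have hpi : ‖(1 / (2 * Real.pi) : ℂ)‖ ≤ 1 := by
      have e : (1 / (2 * Real.pi) : ℂ) = ((1 / (2 * Real.pi) : ℝ) : ℂ) := by push_cast; ring
      rw [e, Complex.norm_real, Real.norm_eq_abs, abs_of_pos (by positivity)]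
      rw [div_le_one (by positivity)]
      linarith [Real.pi_gt_three]
    have hsplit : riemannZeta s = (riemannZeta s - cs k c (1 / 2 * L) s + (1 / (2 * Real.pi)) * J) +
        cs k c (1 / 2 * L) s - (1 / (2 * Real.pi)) * J := by ring
    have h3 : ‖(1 / (2 * Real.pi) : ℂ) * J‖ ≤ ‖J‖ := by
      rw [norm_mul]
      exact mul_le_of_le_one_left (norm_nonneg _) hpi
    calc ‖riemannZeta s‖ = ‖(riemannZeta s - cs k c (1 / 2 * L) s + (1 / (2 * Real.pi)) * J) +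
        cs k c (1 / 2 * L) s - (1 / (2 * Real.pi)) * J‖ := congrArg norm hsplit
      _ ≤ ‖riemannZeta s - cs k c (1 / 2 * L) s + (1 / (2 * Real.pi)) * J‖ +
          ‖cs k c (1 / 2 * L) s‖ + ‖(1 / (2 * Real.pi) : ℂ) * J‖ :=
          (norm_sub_le _ _).trans (add_le_add_left (norm_add_le _ _) _)
      _ ≤ _ := by linarith
  have hsum : ∀ a b d : ℝ, (a + b + d) ^ 2 ≤ 3 * a ^ 2 + 3 * b ^ 2 + 3 * d ^ 2 := by
    intro a b d
    nlinarith [sq_nonneg (a - b), sq_nonneg (a - d), sq_nonneg (b - d)]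
  calc ‖riemannZeta s‖ ^ 2 ≤
        (‖cs k c (1 / 2 * L) s‖ + C₃ * (∫ y, N y * gg L k y) + T ^ (-1 : ℝ)) ^ 2 :=
        pow_le_pow_left₀ (norm_nonneg _) hz 2
    _ ≤ 3 * ‖cs k c (1 / 2 * L) s‖ ^ 2 + 3 * (C₃ * ∫ y, N y * gg L k y) ^ 2 + 3 * (T ^ (-1 : ℝ)) ^ 2 :=
        hsum _ _ _
    _ ≤ _ := by
        have h4 : 3 * (C₃ * ∫ y, N y * gg L k y) ^ 2 ≤ 3 * (C₃ ^ 2 * 2) * ∫ y, N y ^ 2 * gg L k y := by
          rw [mul_pow]
          have := mul_le_mul_of_nonneg_left hcsq (by positivity : (0 : ℝ) ≤ 3 * C₃ ^ 2)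
          nlinarith
        linarith

theorem Good_ne {T ν A' C : ℝ} {K₀ : ℕ} {S : Finset ℕ} (h : Good T ν A' C K₀ S) : ∀ n ∈ S, n ≠ 0 :=
  fun n hn => (h.sqf n hn).ne_zero

/-- the dual term, integrated -/
theorem dual_int (g M Φ : ℝ → ℝ) (Q : ℝ → ℝ → ℝ) (BM BQ : ℝ)
    (hg0 : ∀ y, 0 ≤ g y) (hgi : Integrable g) (hgc : Continuous g)
    (hΦ0 : ∀ t, 0 ≤ Φ t) (hΦi : Integrable Φ) (hΦc : Continuous Φ)
    (hM0 : ∀ t, 0 ≤ M t) (hMB : ∀ t, M t ≤ BM) (hMc : Continuous M)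
    (hQ0 : ∀ t y, 0 ≤ Q t y) (hQB : ∀ t y, Q t y ≤ BQ) (hQc : Continuous (Function.uncurry Q)) :
    Integrable (fun t => Φ t * ((∫ y, Q t y * g y) * M t)) ∧
    ∫ t, Φ t * ((∫ y, Q t y * g y) * M t) = ∫ y, g y * ∫ t, Φ t * (Q t y * M t) := by
  have hBQ : 0 ≤ BQ := le_trans (hQ0 0 0) (hQB 0 0)
  have hBM : 0 ≤ BM := le_trans (hM0 0) (hMB 0)
  have hF : Integrable (Function.uncurry fun t y : ℝ => (Q t y * M t) * (Φ t * g y))
      (volume.prod volume) := by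
    have h0 : Integrable (fun p : ℝ × ℝ => Φ p.1 * g p.2) (volume.prod volume) := hΦi.mul_prod hgi
    have hc1 : Continuous (fun p : ℝ × ℝ => Q p.1 p.2 * M p.1) := by
      have : Continuous (fun p : ℝ × ℝ => Q p.1 p.2) := hQc
      exact this.mul (hMc.comp continuous_fst)
    refine h0.bdd_mul hc1.aestronglyMeasurable (c := BQ * BM) (Eventually.of_forall fun p => ?_)
    rw [Real.norm_eq_abs, abs_of_nonneg (mul_nonneg (hQ0 _ _) (hM0 _))]
    exact mul_le_mul (hQB _ _) (hMB _) (hM0 _) hBQ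
  have e1 : ∀ t, ∫ y, (Q t y * M t) * (Φ t * g y) = Φ t * ((∫ y, Q t y * g y) * M t) := by
    intro t
    have : (fun y => (Q t y * M t) * (Φ t * g y)) = fun y => (Φ t * M t) * (Q t y * g y) := by
      funext y; ring
    rw [this, integral_const_mul]
    ring
  have e2 : ∀ y, ∫ t, (Q t y * M t) * (Φ t * g y) = g y * ∫ t, Φ t * (Q t y * M t) := by
    intro y
    rw [← integral_const_mul]
    refine integral_congr_ae (Eventually.of_forall fun t => ?_)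
    simp only
    ring
  constructor
  · have h := hF.integral_prod_left
    refine h.congr (Eventually.of_forall fun t => ?_)
    simp only [Function.uncurry]
    exact e1 t
  · have h := integral_integral_swap hF
    calc ∫ t, Φ t * ((∫ y, Q t y * g y) * M t) = ∫ t, ∫ y, (Q t y * M t) * (Φ t * g y) := by
          refine integral_congr_ae (Eventually.of_forall fun t => ?_)
          simp only
          exact (e1 t).symm
      _ = ∫ y, ∫ t, (Q t y * M t) * (Φ t * g y) := h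
      _ = _ := by
          refine integral_congr_ae (Eventually.of_forall fun y => ?_)
          simp only
          exact e2 y

end M1

open M1 in
theorem mom (A C₁ : ℝ) (K₀ : ℕ) (hA : 1 ≤ A) (hC₁ : 0 < C₁) : ∃ C T₀ : ℝ, 0 < C ∧ ∀ T : ℝ, T₀ ≤ T →
    ∀ S : Finset ℕ, Good T (1 / 16) (2 * A + 3) C₁ K₀ S → ∀ τ : ℝ, T ≤ τ → τ ≤ 2 * T → ∀ y : ℝ,
    |y| ≤ Real.sqrt T →
    ∫ t : ℝ, gw τ (T ^ (15 / 16 : ℝ)) t *
      (‖riemannZeta (((sm A T + 1 / Real.log T : ℝ) : ℂ) + ((t + y : ℝ) : ℂ) * I)‖ ^ 2 *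
        ‖MM S ((sm A T : ℂ) + (t : ℂ) * I)‖ ^ 4) ≤
      C * Real.log T * (1 + Real.log T * |y|) ^ K₀ := by
  obtain ⟨k₁, hk₁⟩ := zeta_pt A hA
  obtain ⟨k₂, hk₂⟩ := Pool.Agent.H448R2.GC.mom_poly A C₁ K₀ (by linarith) hC₁
  obtain ⟨k, hkk1, hkk2, hkk3⟩ : ∃ k : ℕ, k₁ ≤ k ∧ k₂ ≤ k ∧ K₀ + 2 ≤ k :=
    ⟨max (max k₁ k₂) (K₀ + 2), le_trans (le_max_left _ _) (le_max_left _ _),
      le_trans (le_max_right _ _) (le_max_left _ _), le_max_right _ _⟩
  obtain ⟨C₃, T₁, hC₃, hT₁⟩ := hk₁ k hkk1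
  obtain ⟨C₄, T₂, hC₄, hT₂⟩ := hk₂ k hkk2
  obtain ⟨C₅, hC₅, hgr⟩ := Pool.Agent.H448R2.GC.zeta_growth_mid
  obtain ⟨T₃, hT₃⟩ := Pool.Agent.H448R2.GC.gw_tail 2 2
  refine ⟨3 * C₄ + C₃ * (C₄ * 2) + 3 + C₅ ^ 2 * 4, max (max T₁ T₂) (max T₃ (max (Real.exp (4 * A + 8)) 16)),
    by positivity, ?_⟩
  intro T hT S hS τ hτ1 hτ2 y hy
  have hTT1 : T₁ ≤ T := le_trans (le_trans (le_max_left _ _) (le_max_left _ _)) hT
  have hTT2 : T₂ ≤ T := le_trans (le_trans (le_max_right _ _) (le_max_left _ _)) hT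
  have hTT3 : T₃ ≤ T := le_trans (le_trans (le_max_left _ _) (le_max_right _ _)) hT
  have hTe : Real.exp (4 * A + 8) ≤ T :=
    le_trans (le_trans (le_trans (le_max_left _ _) (le_max_right _ _)) (le_max_right _ _)) hT
  have hT16 : (16 : ℝ) ≤ T :=
    le_trans (le_trans (le_trans (le_max_right _ _) (le_max_right _ _)) (le_max_right _ _)) hT
  have hT1 : 1 ≤ T := by linarith
  have hT0 : 0 < T := by linarith
  have hpt := hT₁ T hTT1
  have hmp := hT₂ T hTT2 S hS τ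
  obtain ⟨htI, htail⟩ := hT₃ T hTT3 τ hτ1 hτ2
  set L := Real.log T with hL
  have hLge : 4 * A + 8 ≤ L := by rw [hL, Real.le_log_iff_exp_le hT0]; exact hTe
  have hL1 : 1 ≤ L := by linarith
  have hL0 : 0 < L := by linarith
  have hAL : A / L ≤ 1 / 4 := by rw [div_le_div_iff₀ hL0 (by norm_num)]; linarith
  have hAL0 : 0 ≤ A / L := by positivity
  have h1L : 1 / L ≤ 1 / 8 := by rw [div_le_div_iff₀ hL0 (by norm_num)]; linarith
  have h1L0 : 0 < 1 / L := by positivity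
  have h1AL : 1 / L ≤ A / L := div_le_div_of_nonneg_right hA hL0.le
  have hΔ : 0 < T ^ (15 / 16 : ℝ) := by positivity
  set Φ : ℝ → ℝ := gw τ (T ^ (15 / 16 : ℝ)) with hΦ
  have hΦ0 : ∀ t, 0 ≤ Φ t := fun t => Pool.Agent.H448R2.GC.gw_nonneg τ _ t hΔ
  have hΦi : Integrable Φ := Pool.Agent.H448R2.GC.gw_integrable τ _ hΔ
  have hΦ1 : ∫ t, Φ t = 1 := Pool.Agent.H448R2.GC.gw_integral τ _ hΔ
  have hΦc : Continuous Φ := by rw [hΦ]; unfold gw; fun_prop
  set M : ℝ → ℝ := fun t => ‖MM S ((sm A T : ℂ) + (t : ℂ) * I)‖ ^ 4 with hM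
  have hM0 : ∀ t, 0 ≤ M t := fun t => by rw [hM]; positivity
  have hSne := Good_ne hS
  have hsm : sm A T = 1 / 2 - A / L := by rw [sm, ← hL]
  have hMB : ∀ t, M t ≤ T ^ (1 / 4 : ℝ) := by
    intro t
    have h1 := MM_bound S hSne (T ^ (1 / 16 : ℝ)) (by positivity) (fun n hn => hS.le n hn)
      ((sm A T : ℂ) + (t : ℂ) * I) (by
        have : ((sm A T : ℂ) + (t : ℂ) * I).re = sm A T := by simp
        rw [this, hsm]; linarith)
    have h2 := pow_le_pow_left₀ (norm_nonneg _) h1 4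
    calc M t = ‖MM S ((sm A T : ℂ) + (t : ℂ) * I)‖ ^ 4 := rfl
      _ ≤ (T ^ (1 / 16 : ℝ)) ^ 4 := h2
      _ = T ^ (1 / 4 : ℝ) := by
          rw [← Real.rpow_natCast, ← Real.rpow_mul hT0.le]; norm_num
  have hMc : Continuous M := by
    rw [hM]
    exact ((MM_cont S hSne).comp (by fun_prop : Continuous fun t : ℝ => (sm A T : ℂ) + (t : ℂ) * I)).norm.pow 4
  set c : ℝ := 1 / 32 * L / k with hc
  set Q₁ : ℝ → ℝ := fun t =>
    ‖cs k c (1 / 2 * L) (((sm A T + 1 / L : ℝ) : ℂ) + ((t + y : ℝ) : ℂ) * I)‖ ^ 2 with hQ₁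
  set Q : ℝ → ℝ → ℝ := fun t y' =>
    ‖cs k c (17 / 32 * L) (((1 / 2 + A / L : ℝ) : ℂ) + ((t + (y + y') : ℝ) : ℂ) * I)‖ ^ 2 with hQ
  obtain ⟨B₁, hB₁0, hB₁⟩ := cs_bdd k c (1 / 2 * L)
  obtain ⟨B, hB0, hB⟩ := cs_bdd k c (17 / 32 * L)
  have hQ₁0 : ∀ t, 0 ≤ Q₁ t := fun t => by rw [hQ₁]; positivity
  have hQ0 : ∀ t y', 0 ≤ Q t y' := fun t y' => by rw [hQ]; positivity
  have hQ₁B : ∀ t, Q₁ t ≤ B₁ ^ 2 := by
    intro t
    refine pow_le_pow_left₀ (norm_nonneg _) (hB₁ _ ?_) 2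
    have : (((sm A T + 1 / L : ℝ) : ℂ) + ((t + y : ℝ) : ℂ) * I).re = sm A T + 1 / L := by simp
    rw [this, hsm]; linarith
  have hQB : ∀ t y', Q t y' ≤ B ^ 2 := by
    intro t y'
    refine pow_le_pow_left₀ (norm_nonneg _) (hB _ ?_) 2
    have : (((1 / 2 + A / L : ℝ) : ℂ) + ((t + (y + y') : ℝ) : ℂ) * I).re = 1 / 2 + A / L := by simp
    rw [this]; positivity
  have hQ₁c : Continuous Q₁ := by
    rw [hQ₁]
    exact ((cs_cont k c (1 / 2 * L)).comp (by fun_prop :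
      Continuous fun t : ℝ => (((sm A T + 1 / L : ℝ) : ℂ) + ((t + y : ℝ) : ℂ) * I))).norm.pow 2
  have hQc : Continuous (Function.uncurry Q) := by
    rw [hQ]
    exact ((cs_cont k c (17 / 32 * L)).comp (by fun_prop :
      Continuous fun p : ℝ × ℝ => (((1 / 2 + A / L : ℝ) : ℂ) + ((p.1 + (y + p.2) : ℝ) : ℂ) * I))).norm.pow 2
  have hk2 : 2 ≤ k := by omega
  obtain ⟨hdI, hdE⟩ := dual_int (gg L k) M Φ Q (T ^ (1 / 4 : ℝ)) (B ^ 2)
    (fun y => gg_nonneg L k y hL1) (gg_int L k hL1 hk2) (gg_cont L k hL1) hΦ0 hΦi hΦc hM0 hMB hMc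
    hQ0 hQB hQc
  set E : Set ℝ := {t : ℝ | T / 4 ≤ |t - τ|} with hE
  have hEm : MeasurableSet E := by
    rw [hE]; exact measurableSet_le measurable_const (by fun_prop)
  set X : ℝ := C₅ ^ 2 * (1 + |y|) ^ 2 * T ^ (1 / 4 : ℝ) with hX
  have hX0 : 0 ≤ X := by positivity
  -- pointwise bound
  have hmain : ∀ t : ℝ, Φ t * (‖riemannZeta (((sm A T + 1 / L : ℝ) : ℂ) + ((t + y : ℝ) : ℂ) * I)‖ ^ 2 * M t) ≤
      3 * (Φ t * (Q₁ t * M t)) + C₃ * (Φ t * ((∫ y', Q t y' * gg L k y') * M t)) +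
      3 * (T ^ (-1 : ℝ)) ^ 2 * T ^ (1 / 4 : ℝ) * Φ t +
      X * E.indicator (fun t => Φ t * (1 + |t|) ^ 2) t := by
    intro t
    have hI0 : 0 ≤ ∫ y', Q t y' * gg L k y' :=
      integral_nonneg fun y' => mul_nonneg (hQ0 _ _) (gg_nonneg L k y' hL1)
    by_cases ht : t ∈ E
    · have h1 : ‖riemannZeta (((sm A T + 1 / L : ℝ) : ℂ) + ((t + y : ℝ) : ℂ) * I)‖ ≤
          C₅ * (1 + |t + y|) := by
        have hre : (((sm A T + 1 / L : ℝ) : ℂ) + ((t + y : ℝ) : ℂ) * I).re = sm A T + 1 / L := by simp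
        have him : (((sm A T + 1 / L : ℝ) : ℂ) + ((t + y : ℝ) : ℂ) * I).im = t + y := by simp
        have := hgr (((sm A T + 1 / L : ℝ) : ℂ) + ((t + y : ℝ) : ℂ) * I)
          (by rw [hre, hsm]; linarith) (by rw [hre, hsm]; linarith)
        rwa [him] at this
      have h2 : 1 + |t + y| ≤ (1 + |y|) * (1 + |t|) := by
        have := abs_add_le t y
        nlinarith [mul_nonneg (abs_nonneg t) (abs_nonneg y)]
      have h3 : ‖riemannZeta (((sm A T + 1 / L : ℝ) : ℂ) + ((t + y : ℝ) : ℂ) * I)‖ ^ 2 ≤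
          (C₅ * ((1 + |y|) * (1 + |t|))) ^ 2 :=
        pow_le_pow_left₀ (norm_nonneg _) (h1.trans (mul_le_mul_of_nonneg_left h2 hC₅.le)) 2
      have h4 : Φ t * (‖riemannZeta (((sm A T + 1 / L : ℝ) : ℂ) + ((t + y : ℝ) : ℂ) * I)‖ ^ 2 * M t) ≤
          X * E.indicator (fun t => Φ t * (1 + |t|) ^ 2) t := by
        rw [Set.indicator_of_mem ht]
        calc Φ t * (‖riemannZeta (((sm A T + 1 / L : ℝ) : ℂ) + ((t + y : ℝ) : ℂ) * I)‖ ^ 2 * M t)
            ≤ Φ t * ((C₅ * ((1 + |y|) * (1 + |t|))) ^ 2 * T ^ (1 / 4 : ℝ)) :=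
              mul_le_mul_of_nonneg_left (mul_le_mul h3 (hMB t) (hM0 t) (by positivity)) (hΦ0 t)
          _ = _ := by rw [hX]; ring
      have h5 := hΦ0 t
      have h6 := hM0 t
      have h7 := hQ₁0 t
      have h8 : 0 ≤ 3 * (Φ t * (Q₁ t * M t)) := by positivity
      have h9 : 0 ≤ C₃ * (Φ t * ((∫ y', Q t y' * gg L k y') * M t)) := by positivity
      have h10 : 0 ≤ 3 * (T ^ (-1 : ℝ)) ^ 2 * T ^ (1 / 4 : ℝ) * Φ t := by positivity
      linarith
    · rw [Set.indicator_of_notMem ht, mul_zero, add_zero]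
      have ht' : |t - τ| < T / 4 := by
        rw [hE, Set.mem_setOf_eq, not_le] at ht; exact ht
      have hsq : Real.sqrt T ≤ T / 4 := by
        rw [Real.sqrt_le_left (by positivity)]
        nlinarith
      have habs := abs_lt.mp ht'
      have hy' := abs_le.mp (hy.trans hsq)
      have h1 := hpt (t + y) (by linarith [habs.1, hy'.1]) (by linarith [habs.2, hy'.2])
      have hQeq : ∀ y', ‖cs k c (17 / 32 * L) (((1 / 2 + A / L : ℝ) : ℂ) + ((t + y + y' : ℝ) : ℂ) * I)‖ ^ 2 =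
          Q t y' := by
        intro y'
        simp only [hQ, add_assoc]
      simp only [hQeq] at h1
      have h2 := mul_le_mul_of_nonneg_left (mul_le_mul_of_nonneg_right h1 (hM0 t)) (hΦ0 t)
      refine h2.trans ?_
      have h3 : Φ t * (3 * (T ^ (-1 : ℝ)) ^ 2 * M t) ≤ 3 * (T ^ (-1 : ℝ)) ^ 2 * T ^ (1 / 4 : ℝ) * Φ t := by
        have := mul_le_mul_of_nonneg_left (hMB t) (by positivity : (0 : ℝ) ≤ 3 * (T ^ (-1 : ℝ)) ^ 2)
        calc Φ t * (3 * (T ^ (-1 : ℝ)) ^ 2 * M t) ≤ Φ t * (3 * (T ^ (-1 : ℝ)) ^ 2 * T ^ (1 / 4 : ℝ)) :=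
              mul_le_mul_of_nonneg_left this (hΦ0 t)
          _ = _ := by ring
      calc _ = 3 * (Φ t * (Q₁ t * M t)) + C₃ * (Φ t * ((∫ y', Q t y' * gg L k y') * M t)) +
            Φ t * (3 * (T ^ (-1 : ℝ)) ^ 2 * M t) := by rw [hQ₁]; ring
        _ ≤ _ := by linarith
  -- integrability of the four terms
  have i1 : Integrable (fun t => Φ t * (Q₁ t * M t)) := by
    have : (fun t => Φ t * (Q₁ t * M t)) = fun t => (Q₁ t * M t) * Φ t := by funext t; ring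
    rw [this]
    refine hΦi.bdd_mul (hQ₁c.mul hMc).aestronglyMeasurable (c := B₁ ^ 2 * T ^ (1 / 4 : ℝ))
      (Eventually.of_forall fun t => ?_)
    rw [Real.norm_eq_abs, abs_of_nonneg (mul_nonneg (hQ₁0 t) (hM0 t))]
    exact mul_le_mul (hQ₁B t) (hMB t) (hM0 t) (by positivity)
  have i4 : Integrable (E.indicator (fun t => Φ t * (1 + |t|) ^ 2)) := htI.indicator hEm
  have hbound := integral_mono_of_nonneg (f := fun t => Φ t *
      (‖riemannZeta (((sm A T + 1 / L : ℝ) : ℂ) + ((t + y : ℝ) : ℂ) * I)‖ ^ 2 * M t))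
    (g := fun t => 3 * (Φ t * (Q₁ t * M t)) + C₃ * (Φ t * ((∫ y', Q t y' * gg L k y') * M t)) +
      3 * (T ^ (-1 : ℝ)) ^ 2 * T ^ (1 / 4 : ℝ) * Φ t +
      X * E.indicator (fun t => Φ t * (1 + |t|) ^ 2) t) (μ := volume)
    (Eventually.of_forall fun t => mul_nonneg (hΦ0 t) (mul_nonneg (by positivity) (hM0 t)))
    ((((i1.const_mul 3).add (hdI.const_mul C₃)).add (hΦi.const_mul _)).add (i4.const_mul X))
    (Eventually.of_forall hmain)
  have hsumI : ∫ t, (3 * (Φ t * (Q₁ t * M t)) + C₃ * (Φ t * ((∫ y', Q t y' * gg L k y') * M t)) +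
      3 * (T ^ (-1 : ℝ)) ^ 2 * T ^ (1 / 4 : ℝ) * Φ t +
      X * E.indicator (fun t => Φ t * (1 + |t|) ^ 2) t) =
      3 * (∫ t, Φ t * (Q₁ t * M t)) + C₃ * (∫ t, Φ t * ((∫ y', Q t y' * gg L k y') * M t)) +
      3 * (T ^ (-1 : ℝ)) ^ 2 * T ^ (1 / 4 : ℝ) + X * ∫ t in E, Φ t * (1 + |t|) ^ 2 := by
    have e1 := integral_add (μ := volume) (((i1.const_mul 3).add (hdI.const_mul C₃)).add
      (hΦi.const_mul (3 * (T ^ (-1 : ℝ)) ^ 2 * T ^ (1 / 4 : ℝ)))) (i4.const_mul X)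
    have e2 := integral_add (μ := volume) ((i1.const_mul 3).add (hdI.const_mul C₃))
      (hΦi.const_mul (3 * (T ^ (-1 : ℝ)) ^ 2 * T ^ (1 / 4 : ℝ)))
    have e3 := integral_add (μ := volume) (i1.const_mul 3) (hdI.const_mul C₃)
    simp only [Pi.add_apply] at e1 e2 e3
    rw [e1, e2, e3, integral_const_mul, integral_const_mul, integral_const_mul, integral_const_mul, hΦ1,
      mul_one, integral_indicator hEm]
  rw [hsumI] at hbound
  set R : ℝ := 1 + L * |y| with hR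
  have hR1 : 1 ≤ R := by rw [hR]; have : 0 ≤ L * |y| := by positivity
                         linarith
  have hRK : 1 ≤ R ^ K₀ := one_le_pow₀ hR1
  -- first term
  have b1 : ∫ t, Φ t * (Q₁ t * M t) ≤ C₄ * L * R ^ K₀ := by
    have := hmp y ((1 - A) / L) (1 / 2 * L) (by
      rw [abs_div, abs_of_pos hL0]
      refine div_le_div_of_nonneg_right ?_ hL0.le
      rw [abs_le]; constructor <;> linarith) (by positivity) (by nlinarith)
    refine le_trans (le_of_eq ?_) this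
    refine integral_congr_ae (Eventually.of_forall fun t => ?_)
    simp only [hQ₁, hM]
    have e : (sm A T + 1 / L : ℝ) = 1 / 2 + (1 - A) / L := by rw [hsm]; field_simp; ring
    rw [e]
  -- dual term
  have b2 : ∫ t, Φ t * ((∫ y', Q t y' * gg L k y') * M t) ≤ C₄ * 2 * L * R ^ K₀ := by
    rw [hdE]
    have h1 : ∀ y', gg L k y' * ∫ t, Φ t * (Q t y' * M t) ≤ C₄ * L * R ^ K₀ * gg L (k - K₀) y' := by
      intro y'
      have h2 := hmp (y + y') (A / L) (17 / 32 * L) (by rw [abs_of_nonneg hAL0]) (by positivity) le_rfl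
      have h3 : ∫ t, Φ t * (Q t y' * M t) ≤ C₄ * L * (1 + L * |y + y'|) ^ K₀ := h2
      have h4 : (1 + L * |y + y'|) ^ K₀ ≤ R ^ K₀ * (1 + L * |y'|) ^ K₀ := by
        rw [← mul_pow]
        refine pow_le_pow_left₀ (by positivity) ?_ K₀
        have := abs_add_le y y'
        have h5 := mul_le_mul_of_nonneg_left this hL0.le
        have h6 : 0 ≤ (L * |y|) * (L * |y'|) := by positivity
        rw [hR]; nlinarith
      have hp : 0 < 1 + L * |y'| := by positivity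
      calc gg L k y' * ∫ t, Φ t * (Q t y' * M t)
          ≤ gg L k y' * (C₄ * L * (R ^ K₀ * (1 + L * |y'|) ^ K₀)) := by
            refine mul_le_mul_of_nonneg_left (h3.trans ?_) (gg_nonneg L k y' hL1)
            exact mul_le_mul_of_nonneg_left h4 (by positivity)
        _ = C₄ * L * R ^ K₀ * gg L (k - K₀) y' := by
            unfold gg
            have hkk : k = (k - K₀) + K₀ := by omega
            have : (1 + L * |y'|) ^ k = (1 + L * |y'|) ^ (k - K₀) * (1 + L * |y'|) ^ K₀ := by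
              rw [← pow_add, ← hkk]
            rw [this]
            field_simp
    have h0 : 0 ≤ᵐ[volume] fun y' => gg L k y' * ∫ t, Φ t * (Q t y' * M t) :=
      Eventually.of_forall fun y' => mul_nonneg (gg_nonneg L k y' hL1)
        (integral_nonneg fun t => mul_nonneg (hΦ0 t) (mul_nonneg (hQ0 _ _) (hM0 _)))
    have hi := (gg_int L (k - K₀) hL1 (by omega)).const_mul (C₄ * L * R ^ K₀)
    refine (integral_mono_of_nonneg h0 hi (Eventually.of_forall h1)).trans ?_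
    rw [integral_const_mul]
    have := Pool.Agent.H448R2.GC.scale_integral L (k - K₀) hL1 (by omega)
    have h7 : ∫ y', gg L (k - K₀) y' ≤ 2 := this
    calc C₄ * L * R ^ K₀ * ∫ y', gg L (k - K₀) y' ≤ C₄ * L * R ^ K₀ * 2 :=
          mul_le_mul_of_nonneg_left h7 (by positivity)
      _ = _ := by ring
  -- third term
  have b3 : 3 * (T ^ (-1 : ℝ)) ^ 2 * T ^ (1 / 4 : ℝ) ≤ 3 * L * R ^ K₀ := by
    have h1 : (T ^ (-1 : ℝ)) ^ 2 * T ^ (1 / 4 : ℝ) ≤ 1 := by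
      rw [← Real.rpow_natCast (T ^ (-1 : ℝ)) 2, ← Real.rpow_mul hT0.le, ← Real.rpow_add hT0]
      refine Real.rpow_le_one_of_one_le_of_nonpos hT1 ?_
      norm_num
    have h2 : 1 ≤ L * R ^ K₀ := by nlinarith
    calc 3 * (T ^ (-1 : ℝ)) ^ 2 * T ^ (1 / 4 : ℝ) = 3 * ((T ^ (-1 : ℝ)) ^ 2 * T ^ (1 / 4 : ℝ)) := by ring
      _ ≤ 3 * 1 := by linarith
      _ ≤ 3 * (L * R ^ K₀) := by linarith
      _ = _ := by ring
  -- fourth term
  have b4 : X * ∫ t in E, Φ t * (1 + |t|) ^ 2 ≤ C₅ ^ 2 * 4 * L * R ^ K₀ := by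
    have h1 : X * ∫ t in E, Φ t * (1 + |t|) ^ 2 ≤ X * T ^ (-2 : ℝ) :=
      mul_le_mul_of_nonneg_left htail hX0
    have h2 : (1 + |y|) ^ 2 ≤ 4 * T := by
      have hs1 : 1 ≤ Real.sqrt T := by rw [Real.one_le_sqrt]; exact hT1
      have : 1 + |y| ≤ 2 * Real.sqrt T := by linarith
      calc (1 + |y|) ^ 2 ≤ (2 * Real.sqrt T) ^ 2 := pow_le_pow_left₀ (by positivity) this 2
        _ = 4 * T := by rw [mul_pow, Real.sq_sqrt hT0.le]; norm_num
    have h3 : T * T ^ (1 / 4 : ℝ) * T ^ (-2 : ℝ) ≤ 1 := by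
      nth_rewrite 1 [← Real.rpow_one T]
      rw [← Real.rpow_add hT0, ← Real.rpow_add hT0]
      refine Real.rpow_le_one_of_one_le_of_nonpos hT1 ?_
      norm_num
    have h4 : X * T ^ (-2 : ℝ) ≤ C₅ ^ 2 * 4 := by
      calc X * T ^ (-2 : ℝ) ≤ C₅ ^ 2 * (4 * T) * T ^ (1 / 4 : ℝ) * T ^ (-2 : ℝ) := by
            rw [hX]
            refine mul_le_mul_of_nonneg_right ?_ (by positivity)
            refine mul_le_mul_of_nonneg_right ?_ (by positivity)
            exact mul_le_mul_of_nonneg_left h2 (by positivity)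
        _ = C₅ ^ 2 * 4 * (T * T ^ (1 / 4 : ℝ) * T ^ (-2 : ℝ)) := by ring
        _ ≤ C₅ ^ 2 * 4 * 1 := mul_le_mul_of_nonneg_left h3 (by positivity)
        _ = _ := by ring
    have h5 : 1 ≤ L * R ^ K₀ := by nlinarith
    calc X * ∫ t in E, Φ t * (1 + |t|) ^ 2 ≤ C₅ ^ 2 * 4 := h1.trans h4
      _ ≤ C₅ ^ 2 * 4 * (L * R ^ K₀) := le_mul_of_one_le_right (by positivity) h5
      _ = _ := by ring
  calc _ ≤ _ := hbound
    _ ≤ 3 * (C₄ * L * R ^ K₀) + C₃ * (C₄ * 2 * L * R ^ K₀) + 3 * L * R ^ K₀ + C₅ ^ 2 * 4 * L * R ^ K₀ := by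
        have h1 := mul_le_mul_of_nonneg_left b1 (by norm_num : (0 : ℝ) ≤ 3)
        have h2 := mul_le_mul_of_nonneg_left b2 hC₃.le
        linarith
    _ = _ := by ring

end Pool.Agent.H448R2.GC
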