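import Pool.Agent.H448R2.GC.Defs
import Pool.Agent.Helper76.HPlanch

open Complex MeasureTheory Filter Topology
open scoped FourierTransform

namespace Pool.Agent.H448R2.GC

namespace PL

/-- one block -/
noncomputable def gb (σ l r : ℝ) : ℝ → ℂ :=
  Set.indicator (Set.Ico (r - l) r) (fun u : ℝ => ((Real.exp (-(σ * u)) : ℝ) : ℂ))

lemma gb_bound (σ l r : ℝ) (u : ℝ) : ‖gb σ l r u‖ ≤ Real.exp (|σ| * (|r| + |l|)) := by
  unfold gb
  by_cases h : u ∈ Set.Ico (r - l) r
  · rw [Set.indicator_of_mem h, Complex.norm_real, Real.norm_eq_abs, abs_of_pos (Real.exp_pos _)]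
    apply Real.exp_le_exp.2
    have h1 : |u| ≤ |r| + |l| := by
      rw [abs_le]
      constructor
      · have := h.1
        have h2 := neg_abs_le r
        have h3 := le_abs_self l
        linarith
      · have := h.2
        have h2 := le_abs_self r
        have h3 := abs_nonneg l
        linarith
    calc -(σ * u) ≤ |-(σ * u)| := le_abs_self _
      _ = |σ| * |u| := by rw [abs_neg, abs_mul]
      _ ≤ _ := mul_le_mul_of_nonneg_left h1 (abs_nonneg _)
  · rw [Set.indicator_of_notMem h, norm_zero]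
    positivity

lemma gb_meas (σ l r : ℝ) : Measurable (gb σ l r) := by
  unfold gb
  apply Measurable.indicator _ measurableSet_Ico
  fun_prop

lemma gb_memLp (σ l r : ℝ) (p : ENNReal) : MemLp (gb σ l r) p volume := by
  unfold gb
  rw [memLp_indicator_iff_restrict measurableSet_Ico]
  have : IsFiniteMeasure (volume.restrict (Set.Ico (r - l) r)) := ⟨by simp⟩
  apply MemLp.of_bound (C := Real.exp (|σ| * (|r| + |l|)))
  · apply Measurable.aestronglyMeasurable
    fun_prop
  · rw [ae_restrict_iff' measurableSet_Ico]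
    refine Eventually.of_forall fun u hu => ?_
    have := gb_bound σ l r u
    unfold gb at this
    rwa [Set.indicator_of_mem hu] at this

lemma gb_integrable (σ l r : ℝ) : Integrable (gb σ l r) :=
  memLp_one_iff_integrable.1 (gb_memLp σ l r 1)

/-- the kernel -/
noncomputable def KK (l : ℝ) (s : ℂ) : ℂ := ∫ v in (0 : ℝ)..l, cexp (s * v)

lemma gb_fourier (σ l r ξ : ℝ) (hl : 0 ≤ l) :
    𝓕 (gb σ l r) ξ = cexp (-(((σ : ℂ) + ((2 * Real.pi * ξ : ℝ) : ℂ) * I) * r)) *
      KK l ((σ : ℂ) + ((2 * Real.pi * ξ : ℝ) : ℂ) * I) := by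
  rw [Real.fourier_eq']
  set s : ℂ := (σ : ℂ) + ((2 * Real.pi * ξ : ℝ) : ℂ) * I with hs
  have e1 : (∫ v : ℝ, cexp (((-2 * Real.pi * inner ℝ v ξ : ℝ) : ℂ) * I) • gb σ l r v) =
      ∫ v : ℝ, Set.indicator (Set.Ico (r - l) r) (fun v : ℝ => cexp (-(s * v))) v := by
    apply integral_congr_ae
    refine Eventually.of_forall fun v => ?_
    simp only
    unfold gb
    by_cases h : v ∈ Set.Ico (r - l) r
    · rw [Set.indicator_of_mem h, Set.indicator_of_mem h, smul_eq_mul, Complex.ofReal_exp,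
        ← Complex.exp_add]
      congr 1
      rw [hs]
      simp only [RCLike.inner_apply, conj_trivial]
      push_cast
      ring
    · rw [Set.indicator_of_notMem h, Set.indicator_of_notMem h, smul_zero]
  rw [e1, integral_indicator measurableSet_Ico]
  rw [integral_Ico_eq_integral_Ioc, ← intervalIntegral.integral_of_le (by linarith)]
  unfold KK
  have e2 : ∫ v in (0 : ℝ)..l, cexp (s * v) = ∫ v in (r - l)..r, cexp (s * ((r - v : ℝ) : ℂ)) := by
    rw [intervalIntegral.integral_comp_sub_left (fun x : ℝ => cexp (s * (x : ℂ)))]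
    simp
  rw [e2, ← intervalIntegral.integral_const_mul]
  apply intervalIntegral.integral_congr
  intro v _
  simp only
  rw [← Complex.exp_add]
  congr 1
  push_cast
  ring

lemma KK_lower (l σ t T : ℝ) (hT : 1 ≤ T) (hl : l = 1 / (8 * T)) (hσ : 0 < σ) (ht : |t| ≤ 5 * T) :
    l / 2 ≤ ‖KK l ((σ : ℂ) + (t : ℂ) * I)‖ := by
  have hl0 : 0 < l := by rw [hl]; positivity
  have h1 : (KK l ((σ : ℂ) + (t : ℂ) * I)).re ≤ ‖KK l ((σ : ℂ) + (t : ℂ) * I)‖ := Complex.re_le_norm _
  refine le_trans ?_ h1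
  unfold KK
  have hint : IntervalIntegrable (fun v : ℝ => cexp (((σ : ℂ) + (t : ℂ) * I) * v)) volume 0 l := by
    apply Continuous.intervalIntegrable
    fun_prop
  have e1 : (∫ v in (0 : ℝ)..l, cexp (((σ : ℂ) + (t : ℂ) * I) * v)).re =
      ∫ v in (0 : ℝ)..l, (cexp (((σ : ℂ) + (t : ℂ) * I) * v)).re := by
    rw [intervalIntegral.integral_of_le hl0.le, intervalIntegral.integral_of_le hl0.le]
    exact (integral_re hint.1).symm
  rw [e1]
  have h2 : ∫ v in (0 : ℝ)..l, (1 / 2 : ℝ) ≤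
      ∫ v in (0 : ℝ)..l, (cexp (((σ : ℂ) + (t : ℂ) * I) * v)).re := by
    apply intervalIntegral.integral_mono_on hl0.le
    · exact intervalIntegrable_const
    · apply Continuous.intervalIntegrable
      fun_prop
    · intro v hv
      rw [Complex.exp_re]
      have e3 : (((σ : ℂ) + (t : ℂ) * I) * v).re = σ * v := by simp
      have e4 : (((σ : ℂ) + (t : ℂ) * I) * v).im = t * v := by simp
      rw [e3, e4]
      have h3 : 1 ≤ Real.exp (σ * v) := Real.one_le_exp (mul_nonneg hσ.le hv.1)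
      have h5 : |t * v| ≤ 5 / 8 := by
        rw [abs_mul, abs_of_nonneg hv.1]
        calc |t| * v ≤ (5 * T) * l := mul_le_mul ht hv.2 hv.1 (by positivity)
          _ = 5 / 8 := by rw [hl]; field_simp
      have h4 : 1 / 2 ≤ Real.cos (t * v) := by
        have := Real.one_sub_sq_div_two_le_cos (x := t * v)
        have h6 : (t * v) ^ 2 ≤ (5 / 8) ^ 2 := by
          rw [← sq_abs (t * v)]
          exact pow_le_pow_left₀ (abs_nonneg _) h5 2
        nlinarith
      nlinarith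
  refine le_trans (le_of_eq ?_) h2
  rw [intervalIntegral.integral_const]
  simp
  ring

/-- the function whose Fourier transform is computed -/
noncomputable def hf (N : ℕ) (a : ℕ → ℝ) (σ l : ℝ) : ℝ → ℂ :=
  fun u => ∑ n ∈ Finset.Icc 1 N, (a n : ℂ) * gb σ l (Real.log n) u

lemma hf_memLp (N : ℕ) (a : ℕ → ℝ) (σ l : ℝ) (p : ENNReal) : MemLp (hf N a σ l) p volume := by
  unfold hf
  apply memLp_finsetSum
  intro n _
  exact (gb_memLp σ l (Real.log n) p).const_mul _

lemma hf_integrable (N : ℕ) (a : ℕ → ℝ) (σ l : ℝ) : Integrable (hf N a σ l) :=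
  memLp_one_iff_integrable.1 (hf_memLp N a σ l 1)

lemma hf_fourier (N : ℕ) (a : ℕ → ℝ) (σ l ξ : ℝ) (hl : 0 ≤ l) :
    𝓕 (hf N a σ l) ξ =
      (∑ n ∈ Finset.Icc 1 N, (a n : ℂ) * (n : ℂ) ^ (-((σ : ℂ) + ((2 * Real.pi * ξ : ℝ) : ℂ) * I))) *
        KK l ((σ : ℂ) + ((2 * Real.pi * ξ : ℝ) : ℂ) * I) := by
  rw [Real.fourier_eq', Finset.sum_mul]
  have e1 : ∀ v : ℝ, cexp (((-2 * Real.pi * inner ℝ v ξ : ℝ) : ℂ) * I) • hf N a σ l v =
      ∑ n ∈ Finset.Icc 1 N, (a n : ℂ) *
        (cexp (((-2 * Real.pi * inner ℝ v ξ : ℝ) : ℂ) * I) • gb σ l (Real.log n) v) := by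
    intro v
    unfold hf
    rw [Finset.smul_sum]
    apply Finset.sum_congr rfl
    intro n _
    simp only [smul_eq_mul]
    ring
  simp_rw [e1]
  rw [integral_finsetSum]
  · apply Finset.sum_congr rfl
    intro n hn
    rw [integral_const_mul, ← Real.fourier_eq', gb_fourier σ l (Real.log n) ξ hl, ← mul_assoc]
    congr 1
    congr 1
    have hn0 : (n : ℂ) ≠ 0 := by
      have : 1 ≤ n := (Finset.mem_Icc.1 hn).1
      exact_mod_cast (by omega : n ≠ 0)
    rw [Complex.cpow_def_of_ne_zero hn0, ← Complex.natCast_log]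
    congr 1
    ring
  · intro n _
    apply Integrable.const_mul
    have h2 := gb_integrable σ l (Real.log n)
    have h3 := (Real.fourierIntegral_convergent_iff (V := ℝ) (f := gb σ l (Real.log n)) ξ).2 h2
    refine h3.congr (Eventually.of_forall fun v => ?_)
    simp only [Circle.smul_def, Real.fourierChar_apply, smul_eq_mul]
    congr 2
    push_cast
    ring

lemma planch_h (h : ℝ → ℂ) (h1 : Integrable h) (h2 : MemLp h 2) :
    Integrable (fun ξ => ‖𝓕 h ξ‖ ^ 2) ∧ ∫ ξ, ‖𝓕 h ξ‖ ^ 2 = ∫ t, ‖h t‖ ^ 2 := by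
  have hc : Continuous (𝓕 h) := VectorFourier.fourierIntegral_continuous Real.continuous_fourierChar
      (innerSL ℝ).continuous₂ h1
  have hm : AEStronglyMeasurable (fun ξ => ‖𝓕 h ξ‖ ^ 2) volume := by
    apply Continuous.aestronglyMeasurable
    fun_prop
  have hi : Integrable (fun t => ‖h t‖ ^ 2) := (memLp_two_iff_integrable_sq_norm h1.1).1 h2
  have hP := Pool.Agent.Helper76.NormalHP.plancherel_lintegral h h1 h2
  have e1 : ∀ z : ℂ, ‖z‖ₑ ^ 2 = ENNReal.ofReal (‖z‖ ^ 2) := by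
    intro z
    rw [ENNReal.ofReal_pow (norm_nonneg _), ofReal_norm]
  simp_rw [e1] at hP
  have hfin : ∫⁻ t, ENNReal.ofReal (‖h t‖ ^ 2) < ⊤ := by
    have := hi.2
    rw [hasFiniteIntegral_iff_ofReal (Eventually.of_forall fun t => by positivity)] at this
    exact this
  constructor
  · refine ⟨hm, ?_⟩
    rw [hasFiniteIntegral_iff_ofReal (Eventually.of_forall fun t => by positivity), hP]
    exact hfin
  · rw [integral_eq_lintegral_of_nonneg_ae (Eventually.of_forall fun t => by positivity) hm,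
      integral_eq_lintegral_of_nonneg_ae (Eventually.of_forall fun t => by positivity) hi.1, hP]

lemma hf_norm (N : ℕ) (a : ℕ → ℝ) (σ l u : ℝ) :
    ‖hf N a σ l u‖ ^ 2 =
      (∑ n ∈ (Finset.Icc 1 N).filter (fun n : ℕ => Real.exp u < n ∧ (n : ℝ) ≤ Real.exp u * Real.exp l),
        a n) ^ 2 * Real.exp (-(2 * σ * u)) := by
  have e1 : hf N a σ l u = (((∑ n ∈ (Finset.Icc 1 N).filter
      (fun n : ℕ => Real.exp u < n ∧ (n : ℝ) ≤ Real.exp u * Real.exp l), a n) *
        Real.exp (-(σ * u)) : ℝ) : ℂ) := by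
    unfold hf
    rw [Finset.sum_filter]
    push_cast
    rw [Finset.sum_mul]
    apply Finset.sum_congr rfl
    intro n hn
    have hn1 : 1 ≤ n := (Finset.mem_Icc.1 hn).1
    have hn0 : (0 : ℝ) < n := by exact_mod_cast hn1
    unfold gb
    have hiff : u ∈ Set.Ico (Real.log n - l) (Real.log n) ↔
        (Real.exp u < n ∧ (n : ℝ) ≤ Real.exp u * Real.exp l) := by
      rw [Set.mem_Ico, ← Real.exp_add, ← Real.lt_log_iff_exp_lt hn0, ← Real.log_le_iff_le_exp hn0]
      constructor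
      · rintro ⟨h1, h2⟩
        exact ⟨h2, by linarith⟩
      · rintro ⟨h1, h2⟩
        exact ⟨by linarith, h1⟩
    by_cases h : u ∈ Set.Ico (Real.log n - l) (Real.log n)
    · rw [Set.indicator_of_mem h, if_pos (hiff.1 h)]
      push_cast
      rfl
    · rw [Set.indicator_of_notMem h, if_neg (fun h' => h (hiff.2 h'))]
      simp
  rw [e1, Complex.norm_real, Real.norm_eq_abs, sq_abs, mul_pow]
  congr 1
  rw [← Real.exp_nat_mul]
  congr 1
  push_cast
  ring

lemma integral_exp_subst (g : ℝ → ℝ) :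
    ∫ x in Set.Ioi (0 : ℝ), g x = ∫ u : ℝ, Real.exp u * g (Real.exp u) := by
  have h := integral_image_eq_integral_abs_deriv_smul (s := Set.univ) (f := Real.exp)
    (f' := Real.exp) MeasurableSet.univ
    (fun x _ => (Real.hasDerivAt_exp x).hasDerivWithinAt) Real.exp_injective.injOn g
  rw [Set.image_univ, Real.range_exp] at h
  rw [h, Measure.restrict_univ]
  apply integral_congr_ae
  refine Eventually.of_forall fun u => ?_
  simp only [abs_of_pos (Real.exp_pos u), smul_eq_mul]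

end PL

theorem planch : ∃ C : ℝ, 0 < C ∧ ∀ (N : ℕ) (a : ℕ → ℝ) (σ T : ℝ), 0 < σ → σ ≤ 1 → 1 ≤ T →
    ∫ t in (-(5 * T))..(5 * T), ‖∑ n ∈ Finset.Icc 1 N, (a n : ℂ) * (n : ℂ) ^ (-((σ : ℂ) + (t : ℂ) * I))‖ ^ 2 ≤
    C * T ^ 2 * ∫ x in Set.Ioi (0 : ℝ),
      (∑ n ∈ (Finset.Icc 1 N).filter (fun n : ℕ => x < n ∧ (n : ℝ) ≤ x * Real.exp (1 / (8 * T))), a n) ^ 2 *
        x ^ (-(2 * σ) - 1) := by
  refine ⟨512 * Real.pi, by positivity, ?_⟩
  intro N a σ T hσ hσ1 hT
  set l : ℝ := 1 / (8 * T) with hl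
  have hl0 : 0 < l := by rw [hl]; positivity
  have hR : ∫ x in Set.Ioi (0 : ℝ),
      (∑ n ∈ (Finset.Icc 1 N).filter (fun n : ℕ => x < n ∧ (n : ℝ) ≤ x * Real.exp l), a n) ^ 2 *
        x ^ (-(2 * σ) - 1) = ∫ u, ‖PL.hf N a σ l u‖ ^ 2 := by
    rw [PL.integral_exp_subst]
    apply integral_congr_ae
    refine Eventually.of_forall fun u => ?_
    simp only
    rw [PL.hf_norm, ← Real.exp_mul, mul_left_comm]
    congr 1
    rw [← Real.exp_add]
    congr 1
    ring
  rw [hR]
  obtain ⟨hPi, hPe⟩ := PL.planch_h (PL.hf N a σ l) (PL.hf_integrable N a σ l) (PL.hf_memLp N a σ l 2)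
  rw [← hPe]
  set G : ℝ → ℝ := fun t => ‖∑ n ∈ Finset.Icc 1 N, (a n : ℂ) * (n : ℂ) ^ (-((σ : ℂ) + (t : ℂ) * I))‖ ^ 2
    with hG
  have hpi := Real.pi_pos
  have e1 : ∫ t in (-(5 * T))..(5 * T), G t =
      (2 * Real.pi) * ∫ ξ in (-(5 * T) / (2 * Real.pi))..((5 * T) / (2 * Real.pi)), G (2 * Real.pi * ξ) := by
    have := intervalIntegral.smul_integral_comp_mul_left (a := -(5 * T) / (2 * Real.pi))
      (b := (5 * T) / (2 * Real.pi)) G (2 * Real.pi)
    rw [smul_eq_mul] at this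
    rw [this]
    congr 1 <;> field_simp
  rw [e1]
  have hab : -(5 * T) / (2 * Real.pi) ≤ (5 * T) / (2 * Real.pi) := by
    rw [div_le_div_iff_of_pos_right (by positivity)]
    linarith
  have key : ∫ ξ in (-(5 * T) / (2 * Real.pi))..((5 * T) / (2 * Real.pi)), G (2 * Real.pi * ξ) ≤
      256 * T ^ 2 * ∫ ξ, ‖𝓕 (PL.hf N a σ l) ξ‖ ^ 2 := by
    rw [intervalIntegral.integral_of_le hab, ← integral_const_mul]
    refine le_trans (setIntegral_mono_on (g := fun ξ => 256 * T ^ 2 * ‖𝓕 (PL.hf N a σ l) ξ‖ ^ 2) ?_ ?_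
      measurableSet_Ioc ?_) ?_
    · rw [← intervalIntegrable_iff_integrableOn_Ioc_of_le hab]
      apply Continuous.intervalIntegrable
      rw [hG]
      have hc : Continuous (fun t : ℝ => ∑ n ∈ Finset.Icc 1 N, (a n : ℂ) * (n : ℂ) ^ (-((σ : ℂ) + (t : ℂ) * I))) := by
        apply continuous_finsetSum
        intro n hn
        have hn0 : (n : ℂ) ≠ 0 := by
          have : 1 ≤ n := (Finset.mem_Icc.1 hn).1
          exact_mod_cast (by omega : n ≠ 0)
        apply Continuous.mul continuous_const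
        apply Continuous.const_cpow (by fun_prop) (Or.inl hn0)
      exact ((hc.comp (continuous_const.mul continuous_id)).norm.pow 2)
    · exact (hPi.const_mul _).integrableOn
    · intro ξ hξ
      simp only [hG]
      rw [PL.hf_fourier N a σ l ξ hl0.le, norm_mul, mul_pow]
      have ht : |2 * Real.pi * ξ| ≤ 5 * T := by
        rw [abs_le]
        have h1 := hξ.1.le
        have h2 := hξ.2
        rw [div_le_iff₀ (by positivity)] at h1
        rw [le_div_iff₀ (by positivity)] at h2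
        constructor <;> linarith
      have hK := PL.KK_lower l σ (2 * Real.pi * ξ) T hT hl hσ ht
      have hK2 : (l / 2) ^ 2 ≤ ‖PL.KK l ((σ : ℂ) + ((2 * Real.pi * ξ : ℝ) : ℂ) * I)‖ ^ 2 :=
        pow_le_pow_left₀ (by positivity) hK 2
      have h3 : 1 ≤ 256 * T ^ 2 * ‖PL.KK l ((σ : ℂ) + ((2 * Real.pi * ξ : ℝ) : ℂ) * I)‖ ^ 2 := by
        calc (1 : ℝ) = 256 * T ^ 2 * (l / 2) ^ 2 := by rw [hl]; field_simp; norm_num
          _ ≤ _ := mul_le_mul_of_nonneg_left hK2 (by positivity)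
      have h4 := mul_le_mul_of_nonneg_left h3 (sq_nonneg ‖∑ n ∈ Finset.Icc 1 N, (a n : ℂ) *
        (n : ℂ) ^ (-((σ : ℂ) + ((2 * Real.pi * ξ : ℝ) : ℂ) * I))‖)
      rw [mul_one] at h4
      refine le_trans h4 (le_of_eq ?_)
      ring
    · apply setIntegral_le_integral (hPi.const_mul _)
      exact Eventually.of_forall fun ξ => by simp only [Pi.zero_apply]; positivity
  calc (2 * Real.pi) * ∫ ξ in (-(5 * T) / (2 * Real.pi))..((5 * T) / (2 * Real.pi)), G (2 * Real.pi * ξ)
      ≤ (2 * Real.pi) * (256 * T ^ 2 * ∫ ξ, ‖𝓕 (PL.hf N a σ l) ξ‖ ^ 2) :=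
        mul_le_mul_of_nonneg_left key (by positivity)
    _ = _ := by ring

end Pool.Agent.H448R2.GC
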