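import Pool.Agent.H448R2.GC.Defs

/-! Task SV: from fixed to proportional windows -/

open Complex MeasureTheory Filter Topology

namespace Pool.Agent.H448R2.GC

namespace SV

open Set

theorem meas_Mer : Measurable Mer := by
  have : Mer = (fun m : ℕ => ∑ n ∈ Finset.Icc 1 m, ((ArithmeticFunction.moebius n : ℤ) : ℝ)) ∘
      (fun x : ℝ => ⌊x⌋₊) := rfl
  rw [this]
  exact (measurable_of_countable _).comp Nat.measurable_floor

theorem abs_Mer_le (x : ℝ) : |Mer x| ≤ |x| := by
  unfold Mer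
  have h1 : |∑ n ∈ Finset.Icc 1 ⌊x⌋₊, ((ArithmeticFunction.moebius n : ℤ) : ℝ)| ≤ ⌊x⌋₊ := by
    refine (Finset.abs_sum_le_sum_abs _ _).trans ?_
    calc ∑ n ∈ Finset.Icc 1 ⌊x⌋₊, |((ArithmeticFunction.moebius n : ℤ) : ℝ)|
        ≤ ∑ _n ∈ Finset.Icc 1 ⌊x⌋₊, (1 : ℝ) := by
          apply Finset.sum_le_sum
          intro n _
          exact_mod_cast ArithmeticFunction.abs_moebius_le_one
      _ = ⌊x⌋₊ := by simp
  refine h1.trans ?_
  rcases le_or_gt 0 x with hx | hx
  · rw [abs_of_nonneg hx]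
    exact Nat.floor_le hx
  · rw [Nat.floor_of_nonpos hx.le]
    simp

/-- `MH` as a difference of values of `Mer`. -/
theorem MH_eq {x H : ℝ} (hH : 0 < H) (hb : ∀ n : ℕ, x + H / 2 ≠ n) :
    MH x H = Mer (x + H / 2) - Mer (x - H / 2) := by
  have hfl : ⌊x - H / 2⌋₊ ≤ ⌊x + H / 2⌋₊ := Nat.floor_le_floor (by linarith)
  have e1 : Mer (x + H / 2) - Mer (x - H / 2) =
      ∑ n ∈ Finset.Ioc ⌊x - H / 2⌋₊ ⌊x + H / 2⌋₊, ((ArithmeticFunction.moebius n : ℤ) : ℝ) := by
    unfold Mer
    have h1 : Finset.Icc 1 ⌊x + H / 2⌋₊ =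
        Finset.Icc 1 ⌊x - H / 2⌋₊ ∪ Finset.Ioc ⌊x - H / 2⌋₊ ⌊x + H / 2⌋₊ := by
      ext n
      simp only [Finset.mem_union, Finset.mem_Icc, Finset.mem_Ioc]
      omega
    rw [h1, Finset.sum_union]
    · ring
    · rw [Finset.disjoint_left]
      intro n hn hn'
      rw [Finset.mem_Icc] at hn
      rw [Finset.mem_Ioc] at hn'
      omega
  rw [e1]
  unfold MH
  symm
  apply Finset.sum_subset_zero_on_sdiff
  · intro n hn
    rw [Finset.mem_Ioc] at hn
    have hn0 : n ≠ 0 := by omega
    have h1 : x - H / 2 < n := (Nat.floor_lt' hn0).1 hn.1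
    have h2 : (n : ℝ) ≤ x + H / 2 := (Nat.le_floor_iff' hn0).1 hn.2
    have h3 : (n : ℝ) < x + H / 2 := lt_of_le_of_ne h2 (fun h => hb n h.symm)
    rw [Finset.mem_filter, Finset.mem_range]
    refine ⟨?_, ?_⟩
    · have h4 : (n : ℝ) ≤ ⌈x + H⌉₊ := by
        have := Nat.le_ceil (x + H)
        linarith
      have : n ≤ ⌈x + H⌉₊ := by exact_mod_cast h4
      omega
    · rw [abs_lt]
      constructor <;> linarith
  · intro n hn
    rw [Finset.mem_sdiff, Finset.mem_filter, Finset.mem_Ioc] at hn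
    obtain ⟨⟨_, h1⟩, h2⟩ := hn
    by_cases hn0 : n = 0
    · subst hn0
      simp
    · exfalso
      apply h2
      rw [abs_lt] at h1
      exact ⟨(Nat.floor_lt' hn0).2 (by linarith), (Nat.le_floor_iff' hn0).2 (by linarith)⟩
  · intro n _
    rfl

theorem ae_ne (H : ℝ) : ∀ᵐ x : ℝ, ∀ n : ℕ, x + H / 2 ≠ n := by
  have h : (Set.range (fun n : ℕ => (n : ℝ) - H / 2)).Countable := Set.countable_range _
  filter_upwards [h.ae_notMem volume] with x hx n hn
  apply hx
  exact ⟨n, by simp only; linarith⟩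

theorem ae_MH {H : ℝ} (hH : 0 < H) :
    ∀ᵐ x : ℝ, MH x H = Mer (x + H / 2) - Mer (x - H / 2) := by
  filter_upwards [ae_ne H] with x hx
  exact MH_eq hH hx

theorem integrable_MH {H a b : ℝ} (hH : 0 < H) :
    IntegrableOn (fun x => MH x H ^ 2) (Ioc a b) := by
  have h1 : IntegrableOn (fun x => (Mer (x + H / 2) - Mer (x - H / 2)) ^ 2) (Ioc a b) := by
    have hm : Measurable fun x => (Mer (x + H / 2) - Mer (x - H / 2)) ^ 2 := by
      apply Measurable.pow_const
      exact (meas_Mer.comp (measurable_id.add_const _)).sub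
        (meas_Mer.comp (measurable_id.sub_const _))
    refine Integrable.of_bound (C := (2 * (|a| + |b| + H)) ^ 2) hm.aestronglyMeasurable ?_
    refine (ae_restrict_iff' measurableSet_Ioc).2 (Eventually.of_forall fun x hx => ?_)
    rw [norm_pow, Real.norm_eq_abs]
    apply pow_le_pow_left₀ (abs_nonneg _)
    have hx' : |x| ≤ |a| + |b| := by
      rw [abs_le]
      constructor
      · have := neg_abs_le a
        have := abs_nonneg b
        linarith [hx.1]
      · have := le_abs_self b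
        have := abs_nonneg a
        linarith [hx.2]
    have h2 := abs_Mer_le (x + H / 2)
    have h3 := abs_Mer_le (x - H / 2)
    have h4 : |x + H / 2| ≤ |x| + H / 2 := by
      refine (abs_add_le _ _).trans ?_
      rw [abs_of_pos (by linarith : 0 < H / 2)]
    have h5 : |x - H / 2| ≤ |x| + H / 2 := by
      refine (abs_sub _ _).trans ?_
      rw [abs_of_pos (by linarith : 0 < H / 2)]
    have h6 : |Mer (x + H / 2) - Mer (x - H / 2)| ≤ |Mer (x + H / 2)| + |Mer (x - H / 2)| :=
      abs_sub _ _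
    linarith
  refine h1.congr ?_
  filter_upwards [ae_restrict_of_ae (ae_MH hH)] with x hx
  rw [hx]

/-- The variance hypothesis in terms of lower integrals. -/
theorem lint_MH {X H δ : ℝ} (hX : 0 < X) (hH : 0 < H) (h : VV X H ≤ δ * H) :
    ∫⁻ x in Ioc X (2 * X), ENNReal.ofReal (MH x H ^ 2) ≤ ENNReal.ofReal (X * (δ * H)) := by
  rw [← ofReal_integral_eq_lintegral_ofReal (integrable_MH hH)
    (Eventually.of_forall fun x => sq_nonneg _)]
  apply ENNReal.ofReal_le_ofReal
  unfold VV at h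
  rw [intervalIntegral.integral_of_le (by linarith)] at h
  rw [one_div, inv_mul_le_iff₀ hX] at h
  exact h

/-- Differences at fixed distance. -/
theorem lint_diff {X h δ : ℝ} (hX : 0 < X) (hh : 0 < h) (hhX : h ≤ 4 * X)
    (h1 : VV X h ≤ δ * h) (h2 : VV (2 * X) h ≤ δ * h) (hδ : 0 ≤ δ) :
    ∫⁻ y in Ioc X (2 * X), ENNReal.ofReal ((Mer (y + h) - Mer y) ^ 2) ≤
      ENNReal.ofReal (3 * (δ * h * X)) := by
  have e1 : ∫⁻ y in Ioc X (2 * X), ENNReal.ofReal ((Mer (y + h) - Mer y) ^ 2) =
      ∫⁻ x in Ioc (X + h / 2) (2 * X + h / 2),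
        ENNReal.ofReal ((Mer (x + h / 2) - Mer (x - h / 2)) ^ 2) := by
    have hmp : MeasurePreserving (fun y : ℝ => y + h / 2) volume volume :=
      measurePreserving_add_right volume (h / 2)
    have hemb : MeasurableEmbedding (fun y : ℝ => y + h / 2) :=
      (MeasurableEquiv.addRight (h / 2)).measurableEmbedding
    have := hmp.setLIntegral_comp_preimage_emb hemb
      (fun x => ENNReal.ofReal ((Mer (x + h / 2) - Mer (x - h / 2)) ^ 2))
      (Ioc (X + h / 2) (2 * X + h / 2))
    rw [← this]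
    have hpre : (fun y : ℝ => y + h / 2) ⁻¹' Ioc (X + h / 2) (2 * X + h / 2) =
        Ioc X (2 * X) := by
      ext y
      simp
    rw [hpre]
    apply lintegral_congr
    intro y
    congr 4 <;> ring_nf
  rw [e1]
  calc ∫⁻ x in Ioc (X + h / 2) (2 * X + h / 2),
        ENNReal.ofReal ((Mer (x + h / 2) - Mer (x - h / 2)) ^ 2)
      = ∫⁻ x in Ioc (X + h / 2) (2 * X + h / 2), ENNReal.ofReal (MH x h ^ 2) := by
        apply lintegral_congr_ae
        filter_upwards [ae_restrict_of_ae (ae_MH hh)] with x hx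
        rw [hx]
    _ ≤ ∫⁻ x in Ioc X (2 * X) ∪ Ioc (2 * X) (2 * (2 * X)), ENNReal.ofReal (MH x h ^ 2) := by
        apply lintegral_mono_set
        rw [Ioc_union_Ioc_eq_Ioc (by linarith) (by linarith)]
        apply Ioc_subset_Ioc <;> linarith
    _ ≤ (∫⁻ x in Ioc X (2 * X), ENNReal.ofReal (MH x h ^ 2)) +
        ∫⁻ x in Ioc (2 * X) (2 * (2 * X)), ENNReal.ofReal (MH x h ^ 2) :=
        lintegral_union_le _ _ _
    _ ≤ ENNReal.ofReal (X * (δ * h)) + ENNReal.ofReal ((2 * X) * (δ * h)) :=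
        add_le_add (lint_MH hX hh h1) (lint_MH (by linarith) hh h2)
    _ = ENNReal.ofReal (3 * (δ * h * X)) := by
        rw [← ENNReal.ofReal_add (by positivity) (by positivity)]
        congr 1
        ring

/-- Scaling. -/
theorem lint_scale {F : ℝ → ENNReal} {X u : ℝ} (hX : 0 < X) (hu : 1 ≤ u) (hu2 : u ≤ 2) :
    ∫⁻ x in Ioc X (2 * X), F (u * x) ≤ ∫⁻ y in Ioc X (4 * X), F y := by
  have hu0 : 0 < u := by linarith
  have hemb : MeasurableEmbedding (fun x : ℝ => u * x) :=
    (Homeomorph.mulLeft₀ u hu0.ne').measurableEmbedding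
  have hmap : Measure.map (fun x : ℝ => u * x) volume = ENNReal.ofReal |u⁻¹| • volume :=
    Real.map_volume_mul_left hu0.ne'
  have e1 : ∫⁻ x in Ioc X (2 * X), F (u * x) =
      ∫⁻ y in Ioc (u * X) (u * (2 * X)), F y ∂(Measure.map (fun x : ℝ => u * x) volume) := by
    rw [hemb.restrict_map, hemb.lintegral_map]
    congr 2
    ext x
    simp only [mem_preimage, mem_Ioc]
    constructor
    · rintro ⟨a, b⟩
      exact ⟨by nlinarith, by nlinarith⟩
    · rintro ⟨a, b⟩
      exact ⟨lt_of_mul_lt_mul_left a hu0.le, le_of_mul_le_mul_left b hu0⟩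
  rw [e1, hmap, Measure.restrict_smul, lintegral_smul_measure]
  rw [smul_eq_mul]
  calc ENNReal.ofReal |u⁻¹| * ∫⁻ y in Ioc (u * X) (u * (2 * X)), F y
      ≤ 1 * ∫⁻ y in Ioc (u * X) (u * (2 * X)), F y := by
        refine mul_le_mul' ?_ le_rfl
        rw [ENNReal.ofReal_le_one, abs_of_pos (by positivity)]
        exact inv_le_one_of_one_le₀ hu
    _ ≤ ∫⁻ y in Ioc X (4 * X), F y := by
        rw [one_mul]
        apply lintegral_mono_set
        apply Ioc_subset_Ioc
        · nlinarith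
        · nlinarith

/-- The range `X < y ≤ 4 X`. -/
theorem lint_diff4 {T X δ : ℝ} (hT : 1 ≤ T) (hX : 16 * T ≤ X) (hδ : 0 ≤ δ)
    (hV : ∀ X' H : ℝ, X / 2 ≤ X' → X' ≤ 8 * X → X' / (16 * T) ≤ H → H ≤ 4 * X' / T →
      VV X' H ≤ δ * H) {h : ℝ} (h1 : X / (2 * T) ≤ h) (h2 : h ≤ 2 * X / T) :
    ∫⁻ y in Ioc X (4 * X), ENNReal.ofReal ((Mer (y + h) - Mer y) ^ 2) ≤
      ENNReal.ofReal (18 * (δ * X ^ 2 / T)) := by
  have hT0 : 0 < T := by linarith
  have hX0 : 0 < X := by linarith
  have hh : 0 < h := lt_of_lt_of_le (by positivity) h1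
  have h1' : X ≤ h * (2 * T) := (div_le_iff₀ (by positivity)).1 h1
  have h2' : h * T ≤ 2 * X := (le_div_iff₀ hT0).1 h2
  have hhX : h ≤ 2 * X := by nlinarith
  have key : ∀ X' : ℝ, X / 2 ≤ X' → X' ≤ 8 * X → X' ≤ h * (16 * T) → h * T ≤ 4 * X' →
      VV X' h ≤ δ * h := by
    intro X' a b c d
    exact hV X' h a b ((div_le_iff₀ (by positivity)).2 c) ((le_div_iff₀ hT0).2 d)
  have a1 := lint_diff hX0 hh (by linarith)
    (key X (by linarith) (by linarith) (by nlinarith) (by linarith))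
    (key (2 * X) (by linarith) (by linarith) (by nlinarith) (by linarith)) hδ
  have a2 := lint_diff (X := 2 * X) (by linarith) hh (by linarith)
    (key (2 * X) (by linarith) (by linarith) (by nlinarith) (by linarith))
    (key (2 * (2 * X)) (by linarith) (by linarith) (by nlinarith) (by linarith)) hδ
  have hu : Ioc X (4 * X) = Ioc X (2 * X) ∪ Ioc (2 * X) (2 * (2 * X)) := by
    rw [Ioc_union_Ioc_eq_Ioc (by linarith) (by linarith)]
    congr 1
    ring
  rw [hu]
  refine (lintegral_union_le _ _ _).trans ?_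
  refine (add_le_add a1 a2).trans ?_
  rw [← ENNReal.ofReal_add (by positivity) (by positivity)]
  apply ENNReal.ofReal_le_ofReal
  have e : 3 * (δ * h * X) + 3 * (δ * h * (2 * X)) = 9 * (δ * X) * h := by ring
  rw [e]
  have e2 : 18 * (δ * X ^ 2 / T) = 9 * (δ * X) * (2 * X / T) := by ring
  rw [e2]
  exact mul_le_mul_of_nonneg_left h2 (by positivity)

/-- The integrand, `p = (h, x)`. -/
noncomputable def ff (c d : ℝ) (p : ℝ × ℝ) : ENNReal :=
  ENNReal.ofReal ((Mer (c * p.2 + p.1) - Mer (d * p.2)) ^ 2)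

theorem meas_ff (c d : ℝ) : Measurable (ff c d) := by
  apply ENNReal.measurable_ofReal.comp
  apply Measurable.pow_const
  exact (meas_Mer.comp ((measurable_snd.const_mul c).add measurable_fst)).sub
    (meas_Mer.comp (measurable_snd.const_mul d))

theorem meas_ff_right (c d h : ℝ) : Measurable fun x => ff c d (h, x) := by
  apply ENNReal.measurable_ofReal.comp
  apply Measurable.pow_const
  exact (meas_Mer.comp ((measurable_id.const_mul c).add_const h)).sub
    (meas_Mer.comp (measurable_id.const_mul d))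

theorem exp_bound {T : ℝ} (hT : 1 ≤ T) : Real.exp (1 / (8 * T)) ≤ 1 + 9 / (64 * T) := by
  have hT0 : 0 < T := by linarith
  have h1 : 1 / (8 * T) ≤ 1 / 8 := by
    apply div_le_div_of_nonneg_left one_pos.le (by norm_num) (by linarith)
  have h0 : 0 ≤ 1 / (8 * T) := by positivity
  have h2 := Real.abs_exp_sub_one_sub_id_le (x := 1 / (8 * T)) (by
    rw [abs_of_nonneg h0]; linarith)
  have h3 := (abs_le.1 h2).2
  have h4 : (1 / (8 * T)) ^ 2 ≤ 1 / 8 * (1 / (8 * T)) := by nlinarith
  have h5 : 9 / (64 * T) = 9 / 8 * (1 / (8 * T)) := by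
    field_simp
    norm_num
  rw [h5]
  linarith

end SV

open SV Set in
theorem sv : ∃ C : ℝ, 0 < C ∧ ∀ (T X δ : ℝ), 1 ≤ T → 16 * T ≤ X → 0 ≤ δ →
    (∀ X' H : ℝ, X / 2 ≤ X' → X' ≤ 8 * X → X' / (16 * T) ≤ H → H ≤ 4 * X' / T → VV X' H ≤ δ * H) →
    ∀ u v : ℝ, 1 ≤ u → u ≤ v → v ≤ Real.exp (1 / (8 * T)) →
    ∫ x in X..2 * X, (Mer (v * x) - Mer (u * x)) ^ 2 ≤ C * δ * X ^ 2 / T := by
  refine ⟨90, by norm_num, ?_⟩
  intro T X δ hT hX hδ hV u v hu huv hv
  have hT0 : 0 < T := by linarith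
  have hX0 : 0 < X := by linarith
  have hv' := hv.trans (exp_bound hT)
  have hv1 : 1 ≤ v := hu.trans huv
  have h9 : 9 / (64 * T) ≤ 9 / 64 := by
    apply div_le_div_of_nonneg_left (by norm_num) (by norm_num) (by linarith)
  have hv2 : v ≤ 2 := by linarith
  have hu2 : u ≤ 2 := huv.trans hv2
  -- the shift
  have hs : ∀ x ∈ Ioc X (2 * X), 0 ≤ (v - u) * x ∧ (v - u) * x ≤ X / (2 * T) := by
    intro x hx
    have hx0 : 0 < x := hX0.trans hx.1
    refine ⟨mul_nonneg (by linarith) hx0.le, ?_⟩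
    calc (v - u) * x ≤ (9 / (64 * T)) * (2 * X) := by
          apply mul_le_mul (by linarith) hx.2 hx0.le (by positivity)
      _ = (9 / 16) * (X / (2 * T)) := by field_simp; norm_num
      _ ≤ X / (2 * T) := by
          have : 0 < X / (2 * T) := by positivity
          linarith
  set A : ENNReal := ∫⁻ x in Ioc X (2 * X), ENNReal.ofReal ((Mer (v * x) - Mer (u * x)) ^ 2)
    with hA
  set Ih : Set ℝ := Ioc (X / T) (2 * X / T) with hIh
  set Jh : Set ℝ := Ioc (X / (2 * T)) (2 * X / T) with hJh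
  set B : ENNReal := ENNReal.ofReal (18 * (δ * X ^ 2 / T)) with hB
  have volI : volume Ih = ENNReal.ofReal (X / T) := by
    rw [hIh, Real.volume_Ioc]
    congr 1
    ring
  have volJ : volume Jh = ENNReal.ofReal (3 / 2 * (X / T)) := by
    rw [hJh, Real.volume_Ioc]
    congr 1
    field_simp
    ring
  have hIJ : Ih ⊆ Jh := by
    apply Ioc_subset_Ioc _ le_rfl
    apply div_le_div_of_nonneg_left hX0.le hT0 (by linarith)
  -- first part
  have p1 : ∫⁻ h in Ih, ∫⁻ x in Ioc X (2 * X), ff u u (h, x) ≤ volume Ih * B := by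
    calc ∫⁻ h in Ih, ∫⁻ x in Ioc X (2 * X), ff u u (h, x)
        ≤ ∫⁻ _h in Ih, B := by
          apply setLIntegral_mono measurable_const
          intro h hh
          have h3 := lint_scale (F := fun y => ENNReal.ofReal ((Mer (y + h) - Mer y) ^ 2))
            hX0 hu hu2
          exact h3.trans (lint_diff4 hT hX hδ hV (hIJ hh).1.le hh.2)
      _ = volume Ih * B := by
          rw [setLIntegral_const, mul_comm]
  -- second part
  have p2 : ∫⁻ h in Ih, ∫⁻ x in Ioc X (2 * X), ff u v (h, x) ≤ volume Jh * B := by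
    have sw1 : ∫⁻ h in Ih, ∫⁻ x in Ioc X (2 * X), ff u v (h, x) =
        ∫⁻ x in Ioc X (2 * X), ∫⁻ h in Ih, ff u v (h, x) :=
      lintegral_lintegral_swap (f := fun h x => ff u v (h, x)) (meas_ff u v).aemeasurable
    have sw2 : ∫⁻ h in Jh, ∫⁻ x in Ioc X (2 * X), ff v v (h, x) =
        ∫⁻ x in Ioc X (2 * X), ∫⁻ h in Jh, ff v v (h, x) :=
      lintegral_lintegral_swap (f := fun h x => ff v v (h, x)) (meas_ff v v).aemeasurable
    calc ∫⁻ h in Ih, ∫⁻ x in Ioc X (2 * X), ff u v (h, x)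
        = ∫⁻ x in Ioc X (2 * X), ∫⁻ h in Ih, ff u v (h, x) := sw1
      _ ≤ ∫⁻ x in Ioc X (2 * X), ∫⁻ h in Jh, ff v v (h, x) := by
          apply setLIntegral_mono' measurableSet_Ioc
          intro x hx
          obtain ⟨hs0, hs1⟩ := hs x hx
          have hmp : MeasurePreserving (fun h : ℝ => h + (v - u) * x) volume volume :=
            measurePreserving_add_right volume _
          have hemb : MeasurableEmbedding (fun h : ℝ => h + (v - u) * x) :=
            (MeasurableEquiv.addRight ((v - u) * x)).measurableEmbedding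
          have h4 := hmp.setLIntegral_comp_preimage_emb hemb (fun h => ff u v (h, x)) Ih
          rw [← h4]
          have h5 : ∀ h : ℝ, ff u v (h + (v - u) * x, x) = ff v v (h, x) := by
            intro h
            unfold ff
            simp only
            congr 4
            ring
          simp_rw [h5]
          apply lintegral_mono_set
          intro h hh
          simp only [hIh, mem_preimage, mem_Ioc] at hh
          rw [hJh, mem_Ioc]
          constructor
          · have : X / T = X / (2 * T) + X / (2 * T) := by ring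
            linarith [hh.1]
          · linarith [hh.2]
      _ = ∫⁻ h in Jh, ∫⁻ x in Ioc X (2 * X), ff v v (h, x) := sw2.symm
      _ ≤ ∫⁻ _h in Jh, B := by
          apply setLIntegral_mono measurable_const
          intro h hh
          have h3 := lint_scale (F := fun y => ENNReal.ofReal ((Mer (y + h) - Mer y) ^ 2))
            hX0 hv1 hv2
          exact h3.trans (lint_diff4 hT hX hδ hV hh.1.le hh.2)
      _ = volume Jh * B := by
          rw [setLIntegral_const, mul_comm]
  -- averaging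
  have q1 : Measurable fun h : ℝ => ∫⁻ x in Ioc X (2 * X), ff u u (h, x) :=
    Measurable.lintegral_prod_right' (f := ff u u) (meas_ff u u)
  have q2 : Measurable fun h : ℝ => ∫⁻ x in Ioc X (2 * X), ff u v (h, x) :=
    Measurable.lintegral_prod_right' (f := ff u v) (meas_ff u v)
  have pt : ∀ h : ℝ, A ≤ 2 * (∫⁻ x in Ioc X (2 * X), ff u u (h, x)) +
      2 * ∫⁻ x in Ioc X (2 * X), ff u v (h, x) := by
    intro h
    rw [← lintegral_const_mul _ (meas_ff_right u u h), ← lintegral_const_mul _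
      (meas_ff_right u v h), ← lintegral_add_left ((meas_ff_right u u h).const_mul 2), hA]
    apply lintegral_mono
    intro x
    have e2 : (2 : ENNReal) = ENNReal.ofReal 2 := by simp
    unfold ff
    simp only
    rw [e2, ← ENNReal.ofReal_mul (by norm_num), ← ENNReal.ofReal_mul (by norm_num),
      ← ENNReal.ofReal_add (by positivity) (by positivity)]
    apply ENNReal.ofReal_le_ofReal
    nlinarith [sq_nonneg ((Mer (u * x + h) - Mer (u * x)) + (Mer (u * x + h) - Mer (v * x)))]
  have p3 : volume Ih * A ≤ 2 * (volume Ih * B) + 2 * (volume Jh * B) := by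
    calc volume Ih * A = ∫⁻ _h in Ih, A := by rw [setLIntegral_const, mul_comm]
      _ ≤ ∫⁻ h in Ih, (2 * (∫⁻ x in Ioc X (2 * X), ff u u (h, x)) +
          2 * ∫⁻ x in Ioc X (2 * X), ff u v (h, x)) := lintegral_mono pt
      _ = 2 * (∫⁻ h in Ih, ∫⁻ x in Ioc X (2 * X), ff u u (h, x)) +
          2 * ∫⁻ h in Ih, ∫⁻ x in Ioc X (2 * X), ff u v (h, x) := by
          rw [lintegral_add_left (q1.const_mul 2), lintegral_const_mul _ q1,
            lintegral_const_mul _ q2]
      _ ≤ _ := add_le_add (mul_le_mul' le_rfl p1) (mul_le_mul' le_rfl p2)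
  have p4 : volume Ih * A ≤ volume Ih * ENNReal.ofReal (90 * (δ * X ^ 2 / T)) := by
    refine p3.trans (le_of_eq ?_)
    rw [volI, volJ, hB]
    have e2 : (2 : ENNReal) = ENNReal.ofReal 2 := by simp
    have hXT : 0 ≤ X / T := by positivity
    have hq : 0 ≤ δ * X ^ 2 / T := by positivity
    have k1 : ENNReal.ofReal (X / T) * ENNReal.ofReal (18 * (δ * X ^ 2 / T)) =
        ENNReal.ofReal (X / T * (18 * (δ * X ^ 2 / T))) := (ENNReal.ofReal_mul hXT).symm
    have k2 : ENNReal.ofReal (3 / 2 * (X / T)) * ENNReal.ofReal (18 * (δ * X ^ 2 / T)) =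
        ENNReal.ofReal (3 / 2 * (X / T) * (18 * (δ * X ^ 2 / T))) :=
      (ENNReal.ofReal_mul (by positivity)).symm
    have k3 : ENNReal.ofReal 2 * ENNReal.ofReal (X / T * (18 * (δ * X ^ 2 / T))) =
        ENNReal.ofReal (2 * (X / T * (18 * (δ * X ^ 2 / T)))) :=
      (ENNReal.ofReal_mul (by norm_num)).symm
    have k4 : ENNReal.ofReal 2 * ENNReal.ofReal (3 / 2 * (X / T) * (18 * (δ * X ^ 2 / T))) =
        ENNReal.ofReal (2 * (3 / 2 * (X / T) * (18 * (δ * X ^ 2 / T)))) :=
      (ENNReal.ofReal_mul (by norm_num)).symm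
    rw [e2, k1, k2, k3, k4, ← ENNReal.ofReal_add (by positivity) (by positivity),
      ← ENNReal.ofReal_mul hXT]
    congr 1
    ring
  have p5 : A ≤ ENNReal.ofReal (90 * (δ * X ^ 2 / T)) := by
    have hne : volume Ih ≠ 0 := by
      rw [volI]
      have : 0 < X / T := by positivity
      exact (ENNReal.ofReal_pos.2 this).ne'
    have hnt : volume Ih ≠ ⊤ := by rw [volI]; exact ENNReal.ofReal_ne_top
    exact (ENNReal.mul_le_mul_iff_right hne hnt).1 p4
  rw [intervalIntegral.integral_of_le (by linarith)]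
  rw [integral_eq_lintegral_of_nonneg_ae (Eventually.of_forall fun x => sq_nonneg _)]
  · have e3 : 90 * δ * X ^ 2 / T = 90 * (δ * X ^ 2 / T) := by ring
    rw [e3]
    exact ENNReal.toReal_le_of_le_ofReal (by positivity) p5
  · apply Measurable.aestronglyMeasurable
    apply Measurable.pow_const
    exact (meas_Mer.comp (measurable_id.const_mul v)).sub (meas_Mer.comp (measurable_id.const_mul u))

end Pool.Agent.H448R2.GC
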