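import Pool.Agent.H448R2.GC.Defs
import Pool.Agent.H448R2.GC.F1b
import Pool.Agent.H448R2.GC.K1
import Pool.Agent.H448R2.GC.K2
import Pool.Agent.H448R2.GC.M1
import Pool.Agent.H448R2.GC.MV
import Pool.Agent.H448R2.GC.VA
import Pool.Agent.H448R2.GC.X2

/-! TEAM GC: the error term is small in the mollified mean. -/

open Complex MeasureTheory Filter Topology

namespace Pool.Agent.H448R2.GC

namespace F1

/-- eventual inequalities -/
theorem ev_small (C : ℝ) : ∃ T₀ : ℝ, ∀ T : ℝ, T₀ ≤ T →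
    C * Real.log T / Real.sqrt T + 1 / (2 * Real.sqrt T) + 2 / T * (T ^ (1 / 16 : ℝ)) ^ 2 ≤ 3 / 4 := by
  have h1 : Tendsto (fun T : ℝ => Real.log T / T ^ (1 / 2 : ℝ)) atTop (𝓝 0) := by
    have := isLittleO_log_rpow_atTop (r := 1 / 2) (by norm_num)
    exact this.tendsto_div_nhds_zero
  have h2 : Tendsto (fun T : ℝ => T ^ (-(1 / 2 : ℝ))) atTop (𝓝 0) := tendsto_rpow_neg_atTop (by norm_num)
  have h3 : Tendsto (fun T : ℝ => T ^ (-(7 / 8 : ℝ))) atTop (𝓝 0) := tendsto_rpow_neg_atTop (by norm_num)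
  have h4 : Tendsto (fun T : ℝ => C * (Real.log T / T ^ (1 / 2 : ℝ)) + 1 / 2 * T ^ (-(1 / 2 : ℝ)) +
      2 * T ^ (-(7 / 8 : ℝ))) atTop (𝓝 (C * 0 + 1 / 2 * 0 + 2 * 0)) :=
    ((h1.const_mul C).add (h2.const_mul _)).add (h3.const_mul _)
  have h5 : C * 0 + 1 / 2 * 0 + 2 * 0 < (3 / 4 : ℝ) := by norm_num
  obtain ⟨T₀, hT₀⟩ := eventually_atTop.1 ((h4.eventually_lt_const h5).and (eventually_gt_atTop (0 : ℝ)))
  refine ⟨T₀, fun T hT => ?_⟩
  obtain ⟨h6, h7⟩ := hT₀ T hT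
  refine le_trans (le_of_eq ?_) h6.le
  have e1 : Real.sqrt T = T ^ (1 / 2 : ℝ) := Real.sqrt_eq_rpow T
  have e2 : T ^ (-(1 / 2 : ℝ)) = 1 / T ^ (1 / 2 : ℝ) := by
    rw [Real.rpow_neg h7.le]
    exact (one_div _).symm
  have e3 : 2 / T * (T ^ (1 / 16 : ℝ)) ^ 2 = 2 * T ^ (-(7 / 8 : ℝ)) := by
    have e4 : (T ^ (1 / 16 : ℝ)) ^ 2 = T ^ (1 / 8 : ℝ) := by
      rw [← Real.rpow_natCast, ← Real.rpow_mul h7.le]; norm_num
    have e5 : 1 / T = T ^ (-1 : ℝ) := by rw [Real.rpow_neg_one, one_div]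
    rw [e4, div_eq_mul_one_div, e5, mul_assoc, ← Real.rpow_add h7]
    norm_num
  rw [e1, e3, e2]
  have : T ^ (1 / 2 : ℝ) ≠ 0 := (Real.rpow_pos_of_pos h7 _).ne'
  field_simp

end F1

open F1

set_option maxHeartbeats 1000000 in
theorem err_small (A a b C₁ : ℝ) (K₀ : ℕ) (hA : 1 ≤ A) (ha : 1 < a) (hab : a + 1 < b) (hC₁ : 0 < C₁) :
    ∃ (η : ℝ) (k₁ : ℕ), 0 < η ∧ ∀ k : ℕ, k₁ ≤ k → ∃ C T₀ : ℝ, 0 < C ∧ ∀ T : ℝ, T₀ ≤ T →
    ∀ S : Finset ℕ, Good T (1 / 16) (2 * A + 3) C₁ K₀ S → ∀ δ : ℝ, 0 ≤ δ → δ ≤ 1 →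
    (∀ X H : ℝ, T ^ a / 4 ≤ X → X ≤ T ^ b → X / (16 * T) ≤ H → H ≤ 4 * X / T → VV X H ≤ δ * H) →
    ∃ τ : ℝ, T ≤ τ ∧ τ ≤ 2 * T ∧
    ∫ t : ℝ, gw τ (T ^ (15 / 16 : ℝ)) t *
      (‖1 - riemannZeta ((sm A T : ℂ) + (t : ℂ) * I) *
        fs k (η * Real.log T / k) (a * Real.log T) ((sm A T : ℂ) + (t : ℂ) * I)‖ *
        ‖MM S ((sm A T : ℂ) + (t : ℂ) * I)‖ ^ 2) ≤
      C * Real.sqrt δ * Real.log T + 1 := by
  set η : ℝ := (b - a - 1) / 8 with hη
  have hη0 : 0 < η := by rw [hη]; linarith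
  obtain ⟨k₀, hpw⟩ := pw A a η hA ha hη0
  refine ⟨η, max k₀ (max 2 (K₀ + 1)), hη0, fun k hk => ?_⟩
  simp only [max_le_iff] at hk
  obtain ⟨hk0, hk2, hkK⟩ := hk
  have hk1 : 1 ≤ k := by omega
  have hkr : (0 : ℝ) < k := by exact_mod_cast hk1
  obtain ⟨T₁, hpw⟩ := hpw k hk0
  obtain ⟨Ck, hCk, hker⟩ := ker_bd a η k ha hη0 hk1
  obtain ⟨Cm, T₂, hCm, hmom⟩ := Pool.Agent.H448R2.GC.mom A C₁ K₀ hA hC₁
  obtain ⟨Ca, T₃, hCa, hAb⟩ := Pool.Agent.H448R2.GC.Ab_bound a (a + 1 + 4 * η) A η ha (by linarith) (by linarith) hη0 k hk2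
  obtain ⟨Cz, hCz, hz⟩ := Pool.Agent.H448R2.GC.zeta_growth_mid
  obtain ⟨T₄, htl⟩ := Pool.Agent.H448R2.GC.gw_tail 1 (a + 3 * η + 2)
  obtain ⟨T₅, hlog⟩ := ev_log (8 * A + 8)
  obtain ⟨T₆, hsmall⟩ := ev_small (Ck * (Cm + Ca))
  obtain ⟨T₇, h16⟩ : ∃ T₇ : ℝ, ∀ T : ℝ, T₇ ≤ T → 16 * T ^ (a + 1 + 5 * η) ≤ T ^ b ∧
      4 * (1 + Cz) * T ^ (a + η + 1 / 8 : ℝ) ≤ T ^ (a + 3 * η + 2) := by
    have hb : b = a + 1 + 5 * η + 3 * η := by rw [hη]; ring
    have t1 := (tendsto_rpow_atTop (show 0 < 3 * η by positivity)).eventually_ge_atTop 16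
    have t2 := (tendsto_rpow_atTop (show (0 : ℝ) < 2 * η + 15 / 8 by positivity)).eventually_ge_atTop
      (4 * (1 + Cz))
    obtain ⟨T₇, hT₇⟩ := eventually_atTop.1 ((t1.and t2).and (eventually_gt_atTop (0 : ℝ)))
    refine ⟨T₇, fun T hT => ?_⟩
    obtain ⟨⟨h1, h2⟩, h3⟩ := hT₇ T hT
    constructor
    · rw [hb, Real.rpow_add h3 _ (3 * η), mul_comm]
      exact mul_le_mul_of_nonneg_left h1 (by positivity)
    · have e1 : a + 3 * η + 2 = (a + η + 1 / 8) + (2 * η + 15 / 8) := by ring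
      have e2 : T ^ (a + 3 * η + 2) = T ^ (a + η + 1 / 8) * T ^ (2 * η + 15 / 8) := by
        rw [← Real.rpow_add h3, ← e1]
      rw [e2, mul_comm]
      exact mul_le_mul_of_nonneg_left h2 (by positivity)
  refine ⟨Ck * (Cm + Ca), max T₁ (max T₂ (max T₃ (max T₄ (max T₅ (max T₆ (max T₇ 1)))))), by positivity,
    fun T hT S hGood δ hδ0 hδ1 hV => ?_⟩
  simp only [max_le_iff] at hT
  obtain ⟨hT1, hT2, hT3, hT4, hT5, hT6, hT7, hT8⟩ := hT
  have hT0 : 0 < T := by linarith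
  have hL := hlog T hT5
  have hL1 : 1 ≤ Real.log T := by linarith
  have hL0 : 0 < Real.log T := by linarith
  set L := Real.log T with hLdef
  obtain ⟨s1, s2, s3, s4⟩ := sm_bounds A T hA hL
  have hS1 : ∀ n ∈ S, 1 ≤ n := fun n hn => Nat.one_le_iff_ne_zero.2 (hGood.sqf n hn).ne_zero
  set Δ : ℝ := T ^ (15 / 16 : ℝ) with hΔdef
  have hΔ : 0 < Δ := Real.rpow_pos_of_pos hT0 _
  have hsT : Real.sqrt T ≤ T := by
    rw [Real.sqrt_le_left hT0.le]
    nlinarith
  have hsT0 : 0 < Real.sqrt T := Real.sqrt_pos.2 hT0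
  set Y : Set ℝ := Set.Icc (-Real.sqrt T) (Real.sqrt T) with hY
  have hYabs : ∀ y ∈ Y, |y| ≤ Real.sqrt T := fun y hy => abs_le.2 (Set.mem_Icc.1 hy)
  -- continuity
  have hZc : Continuous (Zf A T) := (F0.zeta_cont (sm A T + 1 / L) (by linarith)).norm
  have hBc : Continuous (Bf A T a η k) :=
    ((F0.fs_cont k _ _ (sm A T + 1 / L)).sub (F0.fs_cont k _ _ (sm A T + 1 / L))).norm
  have hWc : Continuous (Wf T a η k) :=
    (Pool.Agent.H448R2.GC.ker_cont k (η * Real.log T / k) ((a + 1 + 3 * η) * Real.log T) (1 / Real.log T)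
      (by positivity)).norm
  set Mf : ℝ → ℝ := fun t => ‖MM S ((sm A T : ℂ) + (t : ℂ) * I)‖ with hMf
  have hMc : Continuous Mf := (F0.MM_cont S hS1 (sm A T)).norm
  have hMle : ∀ t, Mf t ≤ T ^ (1 / 16 : ℝ) := fun t =>
    F0.MM_norm_le S _ hS1 hGood.le (by positivity) _ (by simp; linarith)
  have hM0 : ∀ t, 0 ≤ Mf t := fun t => norm_nonneg _
  have hZ0 : ∀ t, 0 ≤ Zf A T t := fun t => norm_nonneg _
  have hB0 : ∀ t, 0 ≤ Bf A T a η k t := fun t => norm_nonneg _
  have hW0 : ∀ t, 0 ≤ Wf T a η k t := fun t => norm_nonneg _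
  have hE0 : ∀ t, 0 ≤ Ef A T a η k t := fun t => norm_nonneg _
  have hEc : Continuous (Ef A T a η k) := by
    unfold Ef
    exact (continuous_const.sub ((F0.zeta_cont (sm A T) (by linarith)).mul
      (F0.fs_cont k _ _ (sm A T)))).norm
  -- the integral of the weight
  have hWint : ∫⁻ y in Y, ENNReal.ofReal (Wf T a η k y) ≤ ENNReal.ofReal (2 * Ck) := by
    calc ∫⁻ y in Y, ENNReal.ofReal (Wf T a η k y)
        ≤ ∫⁻ y, ENNReal.ofReal (Wf T a η k y) := setLIntegral_le_lintegral _ _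
      _ ≤ ∫⁻ y, ENNReal.ofReal (Ck * (L / (1 + L * |y|) ^ (k + 1))) :=
          lintegral_mono fun y => ENNReal.ofReal_le_ofReal (hker T hL1 y)
      _ = ENNReal.ofReal (∫ y : ℝ, Ck * (L / (1 + L * |y|) ^ (k + 1))) := by
          rw [ofReal_integral_eq_lintegral_ofReal]
          · exact (Pool.Agent.H448R2.GC.scale_integrable _ _ hL1 (by omega)).const_mul _
          · exact Eventually.of_forall fun y => by positivity
      _ ≤ ENNReal.ofReal (2 * Ck) := by
          apply ENNReal.ofReal_le_ofReal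
          rw [integral_const_mul]
          have := Pool.Agent.H448R2.GC.scale_integral L (k + 1) hL1 (by omega)
          nlinarith
  -- mean square of the tail polynomial
  have hR : ∫ t in (-(5 * T))..(5 * T), Bf A T a η k t ^ 2 ≤ Ca * δ * T * L := by
    refine hAb T δ hT3 hδ0 (fun X H x1 x2 x3 x4 => hV X H x1 ?_ x3 x4) (sm A T + 1 / L)
      (by have : 0 < 1 / L := by positivity
          linarith) (by linarith)
    have e1 : a + 1 + 4 * η + η = a + 1 + 5 * η := by ring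
    rw [e1] at x2
    exact x2.trans (h16 T hT7).1
  obtain ⟨τ, hτ1, hτ2, hG⟩ := choose_tau Pool.Agent.H448R2.GC.gw_integral Pool.Agent.H448R2.GC.gw_integrable T Δ hT8 hΔ
    (Wf T a η k) (Bf A T a η k) hWc hBc Y (fun y hy => (hYabs y hy).trans hsT) measurableSet_Icc
    (2 * Ck) (Ca * δ * T * L) (1 / T) (by positivity) (by positivity) hWint hR
  refine ⟨τ, hτ1, hτ2, ?_⟩
  set E : Set ℝ := Set.Icc (τ - T / 4) (τ + T / 4) with hE
  have hEm : MeasurableSet E := measurableSet_Icc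
  -- the full integrand
  have hgE : ∀ t, |Ef A T a η k t * Mf t ^ 2| ≤
      ((1 + Cz) * T ^ (a + η + 1 / 8 : ℝ)) * (1 + |t|) ^ 1 := by
    intro t
    rw [abs_of_nonneg (mul_nonneg (hE0 t) (by positivity)), pow_one]
    have hkc : (k : ℝ) * (η * Real.log T / k) = η * Real.log T := by field_simp
    have f1 : ‖fs k (η * Real.log T / k) (a * Real.log T) ((sm A T : ℂ) + (t : ℂ) * I)‖ ≤ T ^ (a + η) := by
      have := F0.fs_norm_le Pool.Agent.H448R2.GC.cu_nonneg Pool.Agent.H448R2.GC.cu_le_one k (η * Real.log T / k) (a * Real.log T)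
        (by positivity) ((sm A T : ℂ) + (t : ℂ) * I) (by simp; linarith)
      rw [hkc, ← add_mul] at this
      rwa [Real.rpow_def_of_pos hT0, mul_comm (Real.log T)]
    have f2 : ‖riemannZeta ((sm A T : ℂ) + (t : ℂ) * I)‖ ≤ Cz * (1 + |t|) := by
      have := hz ((sm A T : ℂ) + (t : ℂ) * I) (by simp; linarith) (by simp; linarith)
      simpa using this
    have f3 : Ef A T a η k t ≤ (1 + Cz) * T ^ (a + η) * (1 + |t|) := by
      unfold Ef
      have g1 : (1 : ℝ) ≤ T ^ (a + η) := Real.one_le_rpow hT8 (by linarith)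
      have g2 : 1 ≤ T ^ (a + η) * (1 + |t|) := by
        have := abs_nonneg t
        nlinarith
      calc _ ≤ ‖(1 : ℂ)‖ + ‖riemannZeta ((sm A T : ℂ) + (t : ℂ) * I) *
            fs k (η * Real.log T / k) (a * Real.log T) ((sm A T : ℂ) + (t : ℂ) * I)‖ := norm_sub_le _ _
        _ ≤ 1 + (Cz * (1 + |t|)) * T ^ (a + η) := by
            rw [norm_one, norm_mul]
            have := mul_le_mul f2 f1 (norm_nonneg _) (by positivity)
            linarith
        _ ≤ (1 + Cz) * T ^ (a + η) * (1 + |t|) := by nlinarith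
    have f4 : Mf t ^ 2 ≤ T ^ (1 / 8 : ℝ) := by
      calc Mf t ^ 2 ≤ (T ^ (1 / 16 : ℝ)) ^ 2 := pow_le_pow_left₀ (hM0 t) (hMle t) 2
        _ = T ^ (1 / 8 : ℝ) := by
            rw [← Real.rpow_natCast, ← Real.rpow_mul hT0.le]; norm_num
    calc _ ≤ ((1 + Cz) * T ^ (a + η) * (1 + |t|)) * T ^ (1 / 8 : ℝ) :=
          mul_le_mul f3 f4 (by positivity) (by positivity)
      _ = (1 + Cz) * (T ^ (a + η) * T ^ (1 / 8 : ℝ)) * (1 + |t|) := by ring
      _ = _ := by rw [← Real.rpow_add hT0]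
  have hgc : Continuous (fun t => Ef A T a η k t * Mf t ^ 2) := hEc.mul (hMc.pow 2)
  have hInt : Integrable (fun t => gw τ Δ t * (Ef A T a η k t * Mf t ^ 2)) :=
    F0.gw_mul_integrable τ Δ hΔ _ hgc _ 1 hgE
  -- the tail in t
  have htailt : ∫ t in Eᶜ, gw τ Δ t * (Ef A T a η k t * Mf t ^ 2) ≤ 1 / 4 := by
    have hsub : Eᶜ ⊆ {t : ℝ | T / 4 ≤ |t - τ|} := by
      intro t ht
      rw [Set.mem_ofPred_eq]
      by_contra hcon
      push Not at hcon
      apply ht
      have := abs_lt.1 hcon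
      rw [hE, Set.mem_Icc]
      constructor <;> linarith [this.1, this.2]
    have hset : MeasurableSet {t : ℝ | T / 4 ≤ |t - τ|} :=
      measurableSet_le measurable_const (by fun_prop)
    obtain ⟨i1, i2⟩ := htl T hT4 τ hτ1 hτ2
    calc ∫ t in Eᶜ, gw τ Δ t * (Ef A T a η k t * Mf t ^ 2)
        ≤ ∫ t in {t : ℝ | T / 4 ≤ |t - τ|}, gw τ Δ t * (Ef A T a η k t * Mf t ^ 2) := by
          apply setIntegral_mono_set hInt.integrableOn
          · exact Eventually.of_forall fun t => mul_nonneg (F0.gw_pos _ _ _ hΔ)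
              (mul_nonneg (hE0 t) (by positivity))
          · exact hsub.eventuallyLE
      _ ≤ ((1 + Cz) * T ^ (a + η + 1 / 8 : ℝ)) *
          ∫ t in {t : ℝ | T / 4 ≤ |t - τ|}, gw τ Δ t * (1 + |t|) ^ 1 :=
          F0.gw_mul_tail τ Δ hΔ _ hgc _ 1 hgE _ hset
      _ ≤ ((1 + Cz) * T ^ (a + η + 1 / 8 : ℝ)) * T ^ (-(a + 3 * η + 2)) :=
          mul_le_mul_of_nonneg_left i2 (by positivity)
      _ ≤ 1 / 4 := by
          have h1 := (h16 T hT7).2
          rw [Real.rpow_neg hT0.le, ← div_eq_mul_inv, div_le_iff₀ (by positivity)]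
          linarith
  -- the main part
  set r : ℝ := Real.sqrt (δ + 1 / T) with hr
  have hr2 : r ^ 2 = δ + 1 / T := Real.sq_sqrt (by positivity)
  have hr0 : 0 < r := Real.sqrt_pos.2 (by positivity)
  have hrle : r ≤ Real.sqrt δ + 1 / Real.sqrt T := by
    have h2 : 0 ≤ Real.sqrt δ := Real.sqrt_nonneg _
    have h3 : Real.sqrt δ ^ 2 = δ := Real.sq_sqrt hδ0
    have h4 : (1 / Real.sqrt T) ^ 2 = 1 / T := by rw [div_pow, one_pow, Real.sq_sqrt hT0.le]
    have h5 : 0 < 1 / Real.sqrt T := by positivity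
    rw [hr]
    apply Real.sqrt_le_iff.2
    refine ⟨by positivity, ?_⟩
    rw [add_sq, h3, h4]
    have := mul_nonneg h2 h5.le
    linarith
  have hrT : 1 / Real.sqrt T ≤ r := by
    rw [hr]
    apply Real.le_sqrt_of_sq_le
    rw [div_pow, Real.sq_sqrt hT0.le, one_pow]
    linarith
  have hcore := core (gw τ Δ) Mf (Wf T a η k) (Zf A T) (Bf A T a η k) (F0.gw_cont τ Δ) hMc hWc hZc hBc
    (fun t => F0.gw_pos _ _ _ hΔ) hW0 E Y r hr0
  have hterm1 : ∫⁻ y in Y, ENNReal.ofReal (Wf T a η k y) *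
      ∫⁻ t in E, ENNReal.ofReal (gw τ Δ t * (Zf A T (t + y) ^ 2 * Mf t ^ 4)) ≤
      ENNReal.ofReal (2 * Ck * Cm * L) := by
    have hb : ∀ y ∈ Y, ENNReal.ofReal (Wf T a η k y) *
        ∫⁻ t in E, ENNReal.ofReal (gw τ Δ t * (Zf A T (t + y) ^ 2 * Mf t ^ 4)) ≤
        ENNReal.ofReal (Ck * Cm * L * (L / (1 + L * |y|) ^ 2)) := by
      intro y hy
      have hi : Integrable (fun t => gw τ Δ t * (Zf A T (t + y) ^ 2 * Mf t ^ 4)) := by
        refine F0.gw_mul_integrable τ Δ hΔ _ (by fun_prop)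
          (Cz ^ 2 * (1 + |y|) ^ 2 * (T ^ (1 / 16 : ℝ)) ^ 4) 2 fun t => ?_
        rw [abs_of_nonneg (by positivity)]
        have g1 := Zf_le Cz hCz hz A T hA hL (t + y)
        have g2 : Zf A T (t + y) ≤ Cz * ((1 + |y|) * (1 + |t|)) := by
          refine g1.trans (mul_le_mul_of_nonneg_left ?_ hCz.le)
          have := abs_add_le t y
          nlinarith [abs_nonneg t, abs_nonneg y, mul_nonneg (abs_nonneg t) (abs_nonneg y)]
        calc Zf A T (t + y) ^ 2 * Mf t ^ 4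
            ≤ (Cz * ((1 + |y|) * (1 + |t|))) ^ 2 * (T ^ (1 / 16 : ℝ)) ^ 4 :=
              mul_le_mul (pow_le_pow_left₀ (hZ0 _) g2 2) (pow_le_pow_left₀ (hM0 t) (hMle t) 4)
                (by positivity) (by positivity)
          _ = _ := by ring
      have hm := hmom T hT2 S hGood τ hτ1 hτ2 y (hYabs y hy)
      calc _ ≤ ENNReal.ofReal (Wf T a η k y) *
            ENNReal.ofReal (Cm * L * (1 + L * |y|) ^ K₀) := by
            refine mul_le_mul_right ?_ _
            calc _ ≤ ∫⁻ t, ENNReal.ofReal (gw τ Δ t * (Zf A T (t + y) ^ 2 * Mf t ^ 4)) :=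
                  setLIntegral_le_lintegral _ _
              _ = ENNReal.ofReal (∫ t, gw τ Δ t * (Zf A T (t + y) ^ 2 * Mf t ^ 4)) := by
                  rw [ofReal_integral_eq_lintegral_ofReal hi]
                  exact Eventually.of_forall fun t => mul_nonneg (F0.gw_pos _ _ _ hΔ) (by positivity)
              _ ≤ _ := ENNReal.ofReal_le_ofReal hm
        _ = ENNReal.ofReal (Wf T a η k y * (Cm * L * (1 + L * |y|) ^ K₀)) :=
            (ENNReal.ofReal_mul (hW0 y)).symm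
        _ ≤ _ := by
            apply ENNReal.ofReal_le_ofReal
            have hu : 1 ≤ 1 + L * |y| := by
              have : 0 ≤ L * |y| := by positivity
              linarith
            have h1 : (1 + L * |y|) ^ K₀ * (1 + L * |y|) ^ 2 ≤ (1 + L * |y|) ^ (k + 1) := by
              rw [← pow_add]
              exact pow_le_pow_right₀ hu (by omega)
            have hu0 : 0 < 1 + L * |y| := by linarith
            have h2 : L / (1 + L * |y|) ^ (k + 1) * (1 + L * |y|) ^ K₀ ≤ L / (1 + L * |y|) ^ 2 := by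
              rw [div_mul_eq_mul_div, div_le_div_iff₀ (by positivity) (by positivity)]
              calc L * (1 + L * |y|) ^ K₀ * (1 + L * |y|) ^ 2
                  = L * ((1 + L * |y|) ^ K₀ * (1 + L * |y|) ^ 2) := by ring
                _ ≤ L * (1 + L * |y|) ^ (k + 1) := mul_le_mul_of_nonneg_left h1 hL0.le
            calc Wf T a η k y * (Cm * L * (1 + L * |y|) ^ K₀)
                ≤ (Ck * (L / (1 + L * |y|) ^ (k + 1))) * (Cm * L * (1 + L * |y|) ^ K₀) :=
                  mul_le_mul_of_nonneg_right (hker T hL1 y) (by positivity)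
              _ = Ck * Cm * L * (L / (1 + L * |y|) ^ (k + 1) * (1 + L * |y|) ^ K₀) := by ring
              _ ≤ Ck * Cm * L * (L / (1 + L * |y|) ^ 2) := mul_le_mul_of_nonneg_left h2 (by positivity)
    calc _ ≤ ∫⁻ y in Y, ENNReal.ofReal (Ck * Cm * L * (L / (1 + L * |y|) ^ 2)) :=
          setLIntegral_mono' measurableSet_Icc hb
      _ ≤ ∫⁻ y, ENNReal.ofReal (Ck * Cm * L * (L / (1 + L * |y|) ^ 2)) := setLIntegral_le_lintegral _ _
      _ = ENNReal.ofReal (∫ y : ℝ, Ck * Cm * L * (L / (1 + L * |y|) ^ 2)) := by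
          rw [ofReal_integral_eq_lintegral_ofReal]
          · exact (Pool.Agent.H448R2.GC.scale_integrable _ _ hL1 le_rfl).const_mul _
          · exact Eventually.of_forall fun y => by positivity
      _ ≤ _ := by
          apply ENNReal.ofReal_le_ofReal
          rw [integral_const_mul]
          have := Pool.Agent.H448R2.GC.scale_integral L 2 hL1 le_rfl
          calc _ ≤ Ck * Cm * L * 2 := mul_le_mul_of_nonneg_left this (by positivity)
            _ = _ := by ring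
  have hmainE : ∫⁻ t in E, ENNReal.ofReal (gw τ Δ t * (Ef A T a η k t * Mf t ^ 2)) ≤
      ENNReal.ofReal (r / 2 * (2 * Ck * Cm * L) + 1 / (2 * r) * (2 * Ck * (Ca * δ * T * L) / T + 1 / T) +
        2 / T * (T ^ (1 / 16 : ℝ)) ^ 2) := by
    have hstep : ∀ t ∈ E, ENNReal.ofReal (gw τ Δ t * (Ef A T a η k t * Mf t ^ 2)) ≤
        ENNReal.ofReal (gw τ Δ t * Mf t ^ 2) *
          (∫⁻ y in Y, ENNReal.ofReal (Zf A T (t + y) * Bf A T a η k (t + y) * Wf T a η k y)) +
        ENNReal.ofReal (2 / T * (T ^ (1 / 16 : ℝ)) ^ 2) * ENNReal.ofReal (gw τ Δ t) := by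
      intro t ht
      rw [hE, Set.mem_Icc] at ht
      have hp := hpw T hT1 t (by linarith [ht.1]) (by linarith [ht.2])
      have hgM : 0 ≤ gw τ Δ t * Mf t ^ 2 := mul_nonneg (F0.gw_pos _ _ _ hΔ) (by positivity)
      calc ENNReal.ofReal (gw τ Δ t * (Ef A T a η k t * Mf t ^ 2))
          = ENNReal.ofReal (gw τ Δ t * Mf t ^ 2) * ENNReal.ofReal (Ef A T a η k t) := by
            rw [← ENNReal.ofReal_mul hgM]
            congr 1; ring
        _ ≤ ENNReal.ofReal (gw τ Δ t * Mf t ^ 2) *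
          ((∫⁻ y in Y, ENNReal.ofReal (Zf A T (t + y) * Bf A T a η k (t + y) * Wf T a η k y)) +
            ENNReal.ofReal (2 / T)) := mul_le_mul_right hp _
        _ = ENNReal.ofReal (gw τ Δ t * Mf t ^ 2) *
          (∫⁻ y in Y, ENNReal.ofReal (Zf A T (t + y) * Bf A T a η k (t + y) * Wf T a η k y)) +
            ENNReal.ofReal (gw τ Δ t * Mf t ^ 2 * (2 / T)) := by
            rw [mul_add, ← ENNReal.ofReal_mul hgM]
        _ ≤ _ := by
            refine add_le_add_right ?_ _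
            rw [← ENNReal.ofReal_mul (by positivity)]
            apply ENNReal.ofReal_le_ofReal
            have h1 : Mf t ^ 2 ≤ (T ^ (1 / 16 : ℝ)) ^ 2 := pow_le_pow_left₀ (hM0 t) (hMle t) 2
            have h2 := F0.gw_pos τ Δ t hΔ
            calc gw τ Δ t * Mf t ^ 2 * (2 / T) = (2 / T * gw τ Δ t) * Mf t ^ 2 := by ring
              _ ≤ (2 / T * gw τ Δ t) * (T ^ (1 / 16 : ℝ)) ^ 2 :=
                mul_le_mul_of_nonneg_left h1 (by positivity)
              _ = _ := by ring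
    have hmeas : Measurable (fun t : ℝ => ENNReal.ofReal (gw τ Δ t * Mf t ^ 2) *
        (∫⁻ y in Y, ENNReal.ofReal (Zf A T (t + y) * Bf A T a η k (t + y) * Wf T a η k y))) := by
      refine Measurable.fun_mul ?_ ?_
      · exact ((F0.gw_cont τ Δ).mul (hMc.pow 2)).measurable.ennreal_ofReal
      · apply Measurable.lintegral_prod_right' (ν := volume.restrict Y)
          (f := fun p : ℝ × ℝ => ENNReal.ofReal (Zf A T (p.1 + p.2) * Bf A T a η k (p.1 + p.2) *
            Wf T a η k p.2))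
        apply Measurable.ennreal_ofReal
        apply Continuous.measurable
        fun_prop
    calc _ ≤ ∫⁻ t in E, (ENNReal.ofReal (gw τ Δ t * Mf t ^ 2) *
          (∫⁻ y in Y, ENNReal.ofReal (Zf A T (t + y) * Bf A T a η k (t + y) * Wf T a η k y)) +
        ENNReal.ofReal (2 / T * (T ^ (1 / 16 : ℝ)) ^ 2) * ENNReal.ofReal (gw τ Δ t)) :=
          setLIntegral_mono' hEm hstep
      _ = (∫⁻ t in E, ENNReal.ofReal (gw τ Δ t * Mf t ^ 2) *
          (∫⁻ y in Y, ENNReal.ofReal (Zf A T (t + y) * Bf A T a η k (t + y) * Wf T a η k y))) +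
        ENNReal.ofReal (2 / T * (T ^ (1 / 16 : ℝ)) ^ 2) * ∫⁻ t in E, ENNReal.ofReal (gw τ Δ t) := by
          rw [lintegral_add_left hmeas, lintegral_const_mul _ (F0.gw_cont τ Δ).measurable.ennreal_ofReal]
      _ ≤ (ENNReal.ofReal (r / 2) * ENNReal.ofReal (2 * Ck * Cm * L) +
          ENNReal.ofReal (1 / (2 * r)) * (ENNReal.ofReal (2 * Ck * (Ca * δ * T * L) / T) +
            ENNReal.ofReal (1 / T))) +
        ENNReal.ofReal (2 / T * (T ^ (1 / 16 : ℝ)) ^ 2) * 1 := by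
          refine add_le_add ?_ ?_
          · refine hcore.trans (add_le_add ?_ ?_)
            · exact mul_le_mul_right hterm1 _
            · exact mul_le_mul_right hG _
          · refine mul_le_mul_right ?_ _
            calc ∫⁻ t in E, ENNReal.ofReal (gw τ Δ t) ≤ ∫⁻ t, ENNReal.ofReal (gw τ Δ t) :=
                  setLIntegral_le_lintegral _ _
              _ = ENNReal.ofReal (∫ t, gw τ Δ t) :=
                  (ofReal_integral_eq_lintegral_ofReal (Pool.Agent.H448R2.GC.gw_integrable τ Δ hΔ)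
                    (Eventually.of_forall fun t => F0.gw_pos _ _ _ hΔ)).symm
              _ = 1 := by rw [Pool.Agent.H448R2.GC.gw_integral τ Δ hΔ, ENNReal.ofReal_one]
      _ = _ := by
          rw [mul_one, ← ENNReal.ofReal_add (by positivity) (by positivity),
            ← ENNReal.ofReal_mul (by positivity), ← ENNReal.ofReal_mul (by positivity),
            ← ENNReal.ofReal_add (by positivity) (by positivity),
            ← ENNReal.ofReal_add (by positivity) (by positivity)]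
  have hmainR : ∫ t in E, gw τ Δ t * (Ef A T a η k t * Mf t ^ 2) ≤
      r / 2 * (2 * Ck * Cm * L) + 1 / (2 * r) * (2 * Ck * (Ca * δ * T * L) / T + 1 / T) +
        2 / T * (T ^ (1 / 16 : ℝ)) ^ 2 := by
    rw [← ofReal_integral_eq_lintegral_ofReal hInt.integrableOn
      (Eventually.of_forall fun t => mul_nonneg (F0.gw_pos _ _ _ hΔ)
        (mul_nonneg (hE0 t) (by positivity)))] at hmainE
    rwa [ENNReal.ofReal_le_ofReal_iff (by positivity)] at hmainE
  have hsplit : ∫ t, gw τ Δ t * (Ef A T a η k t * Mf t ^ 2) =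
      (∫ t in E, gw τ Δ t * (Ef A T a η k t * Mf t ^ 2)) +
      ∫ t in Eᶜ, gw τ Δ t * (Ef A T a η k t * Mf t ^ 2) := (integral_add_compl hEm hInt).symm
  have hfin : ∫ t, gw τ Δ t * (Ef A T a η k t * Mf t ^ 2) ≤
      Ck * (Cm + Ca) * Real.sqrt δ * L + 1 := by
    rw [hsplit]
    have e1 : 1 / (2 * r) * (2 * Ck * (Ca * δ * T * L) / T + 1 / T) =
        Ck * Ca * L * (δ / r) + 1 / T / (2 * r) := by
      field_simp
    have e2 : δ / r ≤ r := by
      rw [div_le_iff₀ hr0, ← sq, hr2]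
      have : 0 < 1 / T := by positivity
      linarith
    have e3 : 1 / T / (2 * r) ≤ 1 / (2 * Real.sqrt T) := by
      have h1 : 1 / (2 * r) ≤ Real.sqrt T / 2 := by
        rw [div_le_div_iff₀ (by positivity) (by norm_num)]
        have h2 : 1 ≤ r * Real.sqrt T := by
          rw [div_le_iff₀ hsT0] at hrT
          exact hrT
        nlinarith
      calc 1 / T / (2 * r) = 1 / T * (1 / (2 * r)) := by ring
        _ ≤ 1 / T * (Real.sqrt T / 2) := mul_le_mul_of_nonneg_left h1 (by positivity)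
        _ = 1 / (2 * Real.sqrt T) := by
            have h3 : Real.sqrt T * Real.sqrt T = T := Real.mul_self_sqrt hT0.le
            field_simp
            nlinarith
    have e4 : Ck * Ca * L * (δ / r) ≤ Ck * Ca * L * r := mul_le_mul_of_nonneg_left e2 (by positivity)
    have e5 : r / 2 * (2 * Ck * Cm * L) = Ck * Cm * L * r := by ring
    have e6 : Ck * (Cm + Ca) * L * r ≤ Ck * (Cm + Ca) * L * (Real.sqrt δ + 1 / Real.sqrt T) :=
      mul_le_mul_of_nonneg_left hrle (by positivity)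
    have e7 := hsmall T hT6
    have e8 : Ck * (Cm + Ca) * L * (1 / Real.sqrt T) = Ck * (Cm + Ca) * Real.log T / Real.sqrt T := by
      rw [← hLdef]; ring
    rw [e1] at hmainR
    nlinarith
  exact hfin

end Pool.Agent.H448R2.GC
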