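import Pool.Agent.H448R2.GC.Defs
import Pool.Agent.H448R2.GC.MV

/-! TEAM GC, task L1: the mean square of the mollifier, and the diagonal coefficients. -/

open Complex MeasureTheory Filter Topology

namespace Pool.Agent.H448R2.GC

namespace TaskL1

/-- `n ↦ n^(-2κ)` as an arithmetic function -/
noncomputable def FF (κ : ℝ) : ArithmeticFunction ℝ :=
  ⟨fun n => if n = 0 then 0 else (n : ℝ) ^ (-(2 * κ)), by simp⟩

theorem FF_apply (κ : ℝ) (n : ℕ) (hn : n ≠ 0) : FF κ n = (n : ℝ) ^ (-(2 * κ)) := by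
  show (if n = 0 then (0 : ℝ) else (n : ℝ) ^ (-(2 * κ))) = _
  rw [if_neg hn]

theorem FF_mult (κ : ℝ) : (FF κ).IsMultiplicative := by
  constructor
  · rw [FF_apply κ 1 one_ne_zero]; simp
  · intro m n h
    by_cases hm : m = 0
    · subst hm; simp
    by_cases hn : n = 0
    · subst hn; simp
    rw [FF_apply κ _ (Nat.mul_ne_zero hm hn), FF_apply κ _ hm, FF_apply κ _ hn, Nat.cast_mul,
      Real.mul_rpow (Nat.cast_nonneg _) (Nat.cast_nonneg _)]

/-- the Moebius function with real values -/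
noncomputable def mR : ArithmeticFunction ℝ := ((ArithmeticFunction.moebius : ArithmeticFunction ℤ) : ArithmeticFunction ℝ)

theorem mR_apply (n : ℕ) : mR n = ((ArithmeticFunction.moebius n : ℤ) : ℝ) := by
  unfold mR; rw [ArithmeticFunction.intCoe_apply]

theorem mR_mult : mR.IsMultiplicative :=
  ArithmeticFunction.IsMultiplicative.intCast ArithmeticFunction.isMultiplicative_moebius

noncomputable def GG (κ : ℝ) : ArithmeticFunction ℝ :=
  ArithmeticFunction.pmul mR (FF κ * (mR * mR))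

theorem GG_mult (κ : ℝ) : (GG κ).IsMultiplicative :=
  mR_mult.pmul ((FF_mult κ).mul (mR_mult.mul mR_mult))

theorem GG_apply (κ : ℝ) (l : ℕ) : GG κ l = ((ArithmeticFunction.moebius l : ℤ) : ℝ) * ∑ p ∈ l.divisorsAntidiagonal,
      (p.1 : ℝ) ^ (-(2 * κ)) * ∑ q ∈ p.2.divisorsAntidiagonal,
        ((ArithmeticFunction.moebius q.1 : ℤ) : ℝ) * ((ArithmeticFunction.moebius q.2 : ℤ) : ℝ) := by
  unfold GG
  rw [ArithmeticFunction.pmul_apply, mR_apply, ArithmeticFunction.mul_apply]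
  congr 1
  refine Finset.sum_congr rfl ?_
  intro p hp
  have hp1 : p.1 ≠ 0 := by
    intro h
    rw [Nat.mem_divisorsAntidiagonal] at hp
    exact hp.2 (by rw [← hp.1, h, zero_mul])
  rw [FF_apply κ _ hp1, ArithmeticFunction.mul_apply]
  simp only [mR_apply]

theorem da_prime (p : ℕ) (hp : p.Prime) : p.divisorsAntidiagonal = {((1 : ℕ), p), (p, (1 : ℕ))} := by
  ext q
  rw [Nat.mem_divisorsAntidiagonal, Finset.mem_insert, Finset.mem_singleton]
  constructor
  · rintro ⟨h1, _⟩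
    have h2 : q.1 ∣ p := ⟨q.2, h1.symm⟩
    rcases (Nat.dvd_prime hp).1 h2 with h | h
    · left
      rw [h, one_mul] at h1
      exact Prod.ext h h1
    · right
      rw [h] at h1
      have h3 : q.2 = 1 := Nat.eq_of_mul_eq_mul_left hp.pos (by rw [h1, mul_one])
      exact Prod.ext h h3
  · rintro (h | h)
    · rw [h]; exact ⟨one_mul p, hp.ne_zero⟩
    · rw [h]; exact ⟨mul_one p, hp.ne_zero⟩

theorem GG_prime (κ : ℝ) (p : ℕ) (hp : p.Prime) : GG κ p = 2 - (p : ℝ) ^ (-(2 * κ)) := by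
  rw [GG_apply, da_prime p hp,
    ArithmeticFunction.moebius_apply_prime hp]
  have h1p : (1 : ℕ) ≠ p := hp.one_lt.ne
  rw [Finset.sum_pair (by intro h; exact h1p (by simpa using congrArg Prod.fst h))]
  simp only [da_prime p hp, Nat.divisorsAntidiagonal_one]
  rw [Finset.sum_pair (by intro h; exact h1p (by simpa using congrArg Prod.fst h)),
    Finset.sum_singleton]
  simp only [ArithmeticFunction.moebius_apply_prime hp, ArithmeticFunction.moebius_apply_one]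
  simp
  ring

end TaskL1

/-- the diagonal coefficients -/
theorem diag (κ : ℝ) (hκ : 0 ≤ κ) (l : ℕ) (hsq : Squarefree l) :
    1 ≤ ((ArithmeticFunction.moebius l : ℤ) : ℝ) * ∑ p ∈ l.divisorsAntidiagonal,
      (p.1 : ℝ) ^ (-(2 * κ)) * ∑ q ∈ p.2.divisorsAntidiagonal,
        ((ArithmeticFunction.moebius q.1 : ℤ) : ℝ) * ((ArithmeticFunction.moebius q.2 : ℤ) : ℝ) := by
  rw [← TaskL1.GG_apply]
  have h1 := (TaskL1.GG_mult κ).map_prod_of_subset_primeFactors l l.primeFactors (le_refl _)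
  rw [Nat.prod_primeFactors_of_squarefree hsq] at h1
  rw [h1]
  have h2 : ∏ a ∈ l.primeFactors, (1 : ℝ) ≤ ∏ a ∈ l.primeFactors, TaskL1.GG κ a := by
    refine Finset.prod_le_prod (fun _ _ => zero_le_one) ?_
    intro p hp
    have hpp := Nat.prime_of_mem_primeFactors hp
    rw [TaskL1.GG_prime κ p hpp]
    have h3 : (p : ℝ) ^ (-(2 * κ)) ≤ 1 := by
      apply Real.rpow_le_one_of_one_le_of_nonpos
      · exact_mod_cast hpp.one_lt.le
      · linarith
    linarith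
  rwa [Finset.prod_const_one] at h2

theorem MM_sq (A : ℝ) (hA : 0 ≤ A) : ∃ T₀ : ℝ, ∀ T : ℝ, T₀ ≤ T → ∀ S : Finset ℕ,
    (∀ n ∈ S, Squarefree n) → (∀ n ∈ S, (n : ℝ) ≤ T ^ (1 / 16 : ℝ)) → ∀ τ : ℝ,
    ∫ t : ℝ, gw τ (T ^ (15 / 16 : ℝ)) t * ‖MM S ((sm A T : ℂ) + (t : ℂ) * I)‖ ^ 2 ≤
      (∑ n ∈ S, (n : ℝ) ^ (-(2 * sm A T))) + 1 := by
  refine ⟨max 512 (Real.exp (2 * A)), ?_⟩
  intro T hT S hsq hS τ
  have hT512 : 512 ≤ T := le_trans (le_max_left _ _) hT
  have hTA : Real.exp (2 * A) ≤ T := le_trans (le_max_right _ _) hT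
  have hT0 : 0 < T := by linarith
  have hlog : 2 * A ≤ Real.log T := (Real.le_log_iff_exp_le hT0).2 hTA
  have hlogpos : 0 < Real.log T := Real.log_pos (by linarith)
  have hsm0 : 0 ≤ sm A T := by
    unfold sm
    have : A / Real.log T ≤ 1 / 2 := by
      rw [div_le_iff₀ hlogpos]; linarith
    linarith
  set σ := sm A T with hσ
  set N : ℝ := T ^ (1 / 16 : ℝ) with hN
  set Δ : ℝ := T ^ (15 / 16 : ℝ) with hΔ
  have hΔ0 : 0 < Δ := Real.rpow_pos_of_pos hT0 _
  have hN0 : 0 < N := Real.rpow_pos_of_pos hT0 _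
  have hS1 : ∀ n ∈ S, 1 ≤ n := fun n hn => Nat.one_le_iff_ne_zero.mpr (hsq n hn).ne_zero
  set a : ℕ → ℂ := fun n => (((ArithmeticFunction.moebius n : ℤ) : ℂ)) * ((n : ℂ) ^ (-(σ : ℂ))) with ha
  have key := Pool.Agent.H448R2.GC.mv S S N hS1 (fun n hn => ⟨hS1 n hn, hS n hn⟩) a a τ Δ hΔ0
  rw [Finset.inter_self] at key
  have hMM : ∀ t : ℝ, MM S ((σ : ℂ) + (t : ℂ) * I) = ∑ n ∈ S, a n * (n : ℂ) ^ (-((t : ℂ) * I)) := by
    intro t
    unfold MM
    refine Finset.sum_congr rfl ?_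
    intro n hn
    have hn0 : (n : ℂ) ≠ 0 := by
      have := hS1 n hn
      exact_mod_cast (by omega : n ≠ 0)
    rw [ha]
    simp only
    rw [neg_add, Complex.cpow_add _ _ hn0]
    ring
  have hint : (∫ t : ℝ, (gw τ Δ t : ℂ) * ((∑ n ∈ S, a n * (n : ℂ) ^ (-((t : ℂ) * I))) *
      (starRingEnd ℂ) (∑ n ∈ S, a n * (n : ℂ) ^ (-((t : ℂ) * I))))) =
      ((∫ t : ℝ, gw τ Δ t * ‖MM S ((σ : ℂ) + (t : ℂ) * I)‖ ^ 2 : ℝ) : ℂ) := by
    refine Eq.trans ?_ (integral_ofReal (f := fun t : ℝ => gw τ Δ t * ‖MM S ((σ : ℂ) + (t : ℂ) * I)‖ ^ 2))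
    congr 1
    ext t
    rw [← hMM t, Complex.mul_conj, Complex.normSq_eq_norm_sq]
    push_cast
    rfl
  have hdiag : ∑ n ∈ S, a n * (starRingEnd ℂ) (a n) = ((∑ n ∈ S, (n : ℝ) ^ (-(2 * σ)) : ℝ) : ℂ) := by
    rw [Complex.ofReal_sum]
    refine Finset.sum_congr rfl ?_
    intro n hn
    have hn0 : (0 : ℝ) < n := by exact_mod_cast hS1 n hn
    rw [Complex.mul_conj, Complex.normSq_eq_norm_sq]
    congr 1
    rw [ha]
    simp only
    rw [norm_mul, Complex.norm_natCast_cpow_of_pos (hS1 n hn), Complex.neg_re, Complex.ofReal_re,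
      mul_pow]
    have h1 : ‖(((ArithmeticFunction.moebius n : ℤ) : ℂ))‖ ^ 2 = 1 := by
      rw [Complex.norm_intCast]
      have h2 : |ArithmeticFunction.moebius n| = 1 := ArithmeticFunction.abs_moebius_eq_one_of_squarefree (hsq n hn)
      rw [← Int.cast_abs, h2]; simp
    rw [h1, one_mul, ← Real.rpow_natCast, ← Real.rpow_mul hn0.le]
    congr 1
    push_cast
    ring
  have hnorm : ∑ n ∈ S, ‖a n‖ ≤ N := by
    have h1 : ∑ n ∈ S, ‖a n‖ ≤ ∑ n ∈ S, (1 : ℝ) := by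
      refine Finset.sum_le_sum ?_
      intro n hn
      rw [ha]
      simp only
      rw [norm_mul, Complex.norm_natCast_cpow_of_pos (hS1 n hn), Complex.neg_re, Complex.ofReal_re]
      have h2 : ‖(((ArithmeticFunction.moebius n : ℤ) : ℂ))‖ ≤ 1 := by
        rw [Complex.norm_intCast, ← Int.cast_abs]
        exact_mod_cast ArithmeticFunction.abs_moebius_le_one
      have h3 : (n : ℝ) ^ (-σ) ≤ 1 := by
        apply Real.rpow_le_one_of_one_le_of_nonpos
        · exact_mod_cast hS1 n hn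
        · linarith
      have h4 : 0 ≤ (n : ℝ) ^ (-σ) := Real.rpow_nonneg (Nat.cast_nonneg _) _
      calc ‖(((ArithmeticFunction.moebius n : ℤ) : ℂ))‖ * (n : ℝ) ^ (-σ) ≤ 1 * 1 :=
            mul_le_mul h2 h3 h4 (by norm_num)
        _ = 1 := by norm_num
    refine h1.trans ?_
    rw [Finset.sum_const, nsmul_eq_mul, mul_one]
    have h5 : S ⊆ Finset.Icc 1 ⌊N⌋₊ := by
      intro n hn
      rw [Finset.mem_Icc]
      exact ⟨hS1 n hn, Nat.le_floor (hS n hn)⟩
    have h6 := Finset.card_le_card h5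
    rw [Nat.card_Icc] at h6
    have h7 : (S.card : ℝ) ≤ ⌊N⌋₊ := by exact_mod_cast (by omega : S.card ≤ ⌊N⌋₊)
    exact h7.trans (Nat.floor_le hN0.le)
  have hexp : N * N * Real.exp (-(Δ / N) ^ 2 / 16) ≤ 1 := by
    have h1 : N * N ≤ T := by
      rw [hN, ← Real.rpow_add hT0]
      calc T ^ ((1 / 16 : ℝ) + 1 / 16) ≤ T ^ (1 : ℝ) :=
            Real.rpow_le_rpow_of_exponent_le (by linarith) (by norm_num)
        _ = T := Real.rpow_one T
    have h2 : T ≤ (Δ / N) ^ 2 := by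
      rw [hΔ, hN, ← Real.rpow_sub hT0, ← Real.rpow_natCast, ← Real.rpow_mul hT0.le]
      calc T = T ^ (1 : ℝ) := (Real.rpow_one T).symm
        _ ≤ T ^ (((15 / 16 : ℝ) - 1 / 16) * ((2 : ℕ) : ℝ)) :=
            Real.rpow_le_rpow_of_exponent_le (by linarith) (by norm_num)
    have h3 : Real.exp (-(Δ / N) ^ 2 / 16) ≤ Real.exp (-(T / 16)) := by
      apply Real.exp_le_exp.2
      linarith
    have h4 : T ≤ Real.exp (T / 16) := by
      have := Real.quadratic_le_exp_of_nonneg (x := T / 16) (by positivity)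
      nlinarith
    calc N * N * Real.exp (-(Δ / N) ^ 2 / 16) ≤ T * Real.exp (-(T / 16)) :=
          mul_le_mul h1 h3 (Real.exp_pos _).le hT0.le
      _ ≤ Real.exp (T / 16) * Real.exp (-(T / 16)) :=
          mul_le_mul_of_nonneg_right h4 (Real.exp_pos _).le
      _ = 1 := by rw [← Real.exp_add]; simp
  rw [hint, hdiag, ← Complex.ofReal_sub, Complex.norm_real] at key
  have h8 : (∑ n ∈ S, ‖a n‖) * (∑ n ∈ S, ‖a n‖) * Real.exp (-(Δ / N) ^ 2 / 16) ≤ 1 := by
    refine le_trans ?_ hexp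
    apply mul_le_mul_of_nonneg_right _ (Real.exp_pos _).le
    have h9 : 0 ≤ ∑ n ∈ S, ‖a n‖ := Finset.sum_nonneg (fun _ _ => norm_nonneg _)
    exact mul_le_mul hnorm hnorm h9 hN0.le
  have h10 := (le_abs_self _).trans (key.trans h8)
  linarith

end Pool.Agent.H448R2.GC
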