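import Pool.Agent.H448R2.GC.Defs
import Pool.Agent.H448R2.GC.K1
import Pool.Agent.H448R2.GC.L1
import Pool.Agent.H448R2.GC.MV
import Pool.Agent.H448R2.GC.S2
import Pool.Agent.H448R2.GC.X1
import Pool.Agent.H448R2.GC.X2

/-! TEAM GC, task L2: lower bound by the functional equation and the diagonal. -/

open Complex MeasureTheory Filter Topology

namespace Pool.Agent.H448R2.GC

namespace L2

theorem norm_ncpow_le (n : ℕ) (hn : 1 ≤ n) (s : ℂ) (hs : 0 ≤ s.re) : ‖(n : ℂ) ^ (-s)‖ ≤ 1 := by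
  rw [Complex.norm_natCast_cpow_of_pos hn]
  have h1 : (1:ℝ) ≤ n := by exact_mod_cast hn
  exact Real.rpow_le_one_of_one_le_of_nonpos h1 (by simpa using hs : (-s).re ≤ 0)

theorem dsum_norm_le (F : Finset ℕ) (hF : ∀ n ∈ F, 1 ≤ n) (a : ℕ → ℂ) (ha : ∀ n ∈ F, ‖a n‖ ≤ 1)
    (s : ℂ) (hs : 0 ≤ s.re) : ‖∑ n ∈ F, a n * (n : ℂ) ^ (-s)‖ ≤ F.card := by
  calc ‖∑ n ∈ F, a n * (n : ℂ) ^ (-s)‖ ≤ ∑ n ∈ F, ‖a n * (n : ℂ) ^ (-s)‖ := norm_sum_le _ _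
    _ ≤ ∑ n ∈ F, (1 : ℝ) := by
        refine Finset.sum_le_sum fun n hn => ?_
        rw [norm_mul]
        exact mul_le_one₀ (ha n hn) (norm_nonneg _) (norm_ncpow_le n (hF n hn) s hs)
    _ = F.card := by simp

theorem dsum_cont (F : Finset ℕ) (hF : ∀ n ∈ F, 1 ≤ n) (a : ℕ → ℂ) (σ : ℂ) :
    Continuous (fun t : ℝ => ∑ n ∈ F, a n * (n : ℂ) ^ (-(σ + (t : ℂ) * I))) := by
  refine continuous_finsetSum _ fun n hn => ?_
  refine continuous_const.mul ?_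
  have hn0 : (n : ℂ) ≠ 0 := by
    have := hF n hn
    exact_mod_cast (by omega : n ≠ 0)
  refine Continuous.const_cpow (by fun_prop) (Or.inl hn0)

/-- product of three Dirichlet polynomials -/
theorem prod3 (F1 F2 F3 : Finset ℕ) (u v w : ℕ → ℂ) (z : ℂ) :
    (∑ m ∈ F1, u m * (m : ℂ) ^ z) * (∑ n ∈ F2, v n * (n : ℂ) ^ z) *
      (∑ r ∈ F3, w r * (r : ℂ) ^ z) =
    ∑ l ∈ (F1 ×ˢ F2 ×ˢ F3).image (fun x => x.1 * x.2.1 * x.2.2),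
      (∑ x ∈ (F1 ×ˢ F2 ×ˢ F3).filter (fun x => x.1 * x.2.1 * x.2.2 = l),
        u x.1 * v x.2.1 * w x.2.2) * (l : ℂ) ^ z := by
  have h : ∀ l ∈ (F1 ×ˢ F2 ×ˢ F3).image (fun x => x.1 * x.2.1 * x.2.2),
      (∑ x ∈ (F1 ×ˢ F2 ×ˢ F3).filter (fun x => x.1 * x.2.1 * x.2.2 = l),
        u x.1 * v x.2.1 * w x.2.2) * (l : ℂ) ^ z =
      ∑ x ∈ (F1 ×ˢ F2 ×ˢ F3).filter (fun x => x.1 * x.2.1 * x.2.2 = l),
        u x.1 * v x.2.1 * w x.2.2 * ((x.1 * x.2.1 * x.2.2 : ℕ) : ℂ) ^ z := by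
    intro l _
    rw [Finset.sum_mul]
    refine Finset.sum_congr rfl fun x hx => ?_
    rw [(Finset.mem_filter.1 hx).2]
  rw [Finset.sum_congr rfl h, Finset.sum_fiberwise_of_maps_to
    (fun x hx => Finset.mem_image_of_mem _ hx), Finset.sum_mul_sum, Finset.sum_product]
  rw [Finset.sum_mul]
  refine Finset.sum_congr rfl fun m _ => ?_
  rw [Finset.sum_product, Finset.sum_mul]
  refine Finset.sum_congr rfl fun n _ => ?_
  rw [Finset.mul_sum]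
  refine Finset.sum_congr rfl fun r _ => ?_
  simp only [Nat.cast_mul]
  rw [mul_assoc (m : ℂ), ← Nat.cast_mul n r, Complex.natCast_mul_natCast_cpow, Nat.cast_mul,
    Complex.natCast_mul_natCast_cpow]
  ring

theorem coef_sum (F1 F2 F3 : Finset ℕ) (u v w : ℕ → ℂ) :
    ∑ l ∈ (F1 ×ˢ F2 ×ˢ F3).image (fun x => x.1 * x.2.1 * x.2.2),
      ‖∑ x ∈ (F1 ×ˢ F2 ×ˢ F3).filter (fun x => x.1 * x.2.1 * x.2.2 = l),
        u x.1 * v x.2.1 * w x.2.2‖ ≤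
    (∑ m ∈ F1, ‖u m‖) * (∑ n ∈ F2, ‖v n‖) * (∑ r ∈ F3, ‖w r‖) := by
  calc _ ≤ ∑ l ∈ (F1 ×ˢ F2 ×ˢ F3).image (fun x => x.1 * x.2.1 * x.2.2),
      ∑ x ∈ (F1 ×ˢ F2 ×ˢ F3).filter (fun x => x.1 * x.2.1 * x.2.2 = l),
        ‖u x.1‖ * ‖v x.2.1‖ * ‖w x.2.2‖ := by
        refine Finset.sum_le_sum fun l _ => ?_
        refine (norm_sum_le _ _).trans (le_of_eq ?_)
        refine Finset.sum_congr rfl fun x _ => ?_
        rw [norm_mul, norm_mul]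
    _ = ∑ x ∈ F1 ×ˢ F2 ×ˢ F3, ‖u x.1‖ * ‖v x.2.1‖ * ‖w x.2.2‖ :=
        Finset.sum_fiberwise_of_maps_to (fun x hx => Finset.mem_image_of_mem _ hx) _
    _ = _ := by
        rw [Finset.sum_product, Finset.sum_mul_sum, Finset.sum_mul]
        refine Finset.sum_congr rfl fun m _ => ?_
        rw [Finset.sum_product, Finset.sum_mul]
        refine Finset.sum_congr rfl fun n _ => ?_
        rw [Finset.mul_sum]

theorem diag_coef (F1 F2 S : Finset ℕ) (l : ℕ) (hl0 : l ≠ 0) (hS : ∀ d, d ∣ l → d ∈ S)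
    (h1 : ∀ d, d ∣ l → d ∈ F1) (h2 : ∀ d, d ∣ l → d ∈ F2) (g : ℕ → ℕ → ℕ → ℝ) :
    ∑ x ∈ (F1 ×ˢ F2 ×ˢ S).filter (fun x => x.1 * x.2.1 * x.2.2 = l), g x.1 x.2.1 x.2.2 =
    ∑ p ∈ l.divisorsAntidiagonal, ∑ q ∈ p.2.divisorsAntidiagonal, g p.1 q.1 q.2 := by
  rw [Finset.sum_sigma']
  refine Finset.sum_bij' (fun x _ => (⟨(x.1, x.2.1 * x.2.2), (x.2.1, x.2.2)⟩ : (_ : ℕ × ℕ) × (ℕ × ℕ)))
    (fun y _ => (y.1.1, y.2.1, y.2.2)) ?_ ?_ ?_ ?_ ?_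
  · intro x hx
    simp only [Finset.mem_filter, Finset.mem_product] at hx
    obtain ⟨_, hx⟩ := hx
    simp only [Finset.mem_sigma, Nat.mem_divisorsAntidiagonal]
    refine ⟨⟨by rw [← hx]; ring, hl0⟩, trivial, ?_⟩
    intro h0
    apply hl0
    rw [← hx, mul_assoc, h0, mul_zero]
  · rintro ⟨⟨p1, p2⟩, ⟨q1, q2⟩⟩ hy
    simp only [Finset.mem_sigma, Nat.mem_divisorsAntidiagonal] at hy
    obtain ⟨⟨hp, _⟩, hq, _⟩ := hy
    subst hq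
    simp only [Finset.mem_filter, Finset.mem_product]
    refine ⟨⟨h1 _ ⟨q1 * q2, hp.symm⟩, h2 _ ⟨p1 * q2, by rw [← hp]; ring⟩,
      hS _ ⟨p1 * q1, by rw [← hp]; ring⟩⟩, by rw [← hp]; ring⟩
  · rintro ⟨x1, x2, x3⟩ _; rfl
  · rintro ⟨⟨p1, p2⟩, ⟨q1, q2⟩⟩ hy
    simp only [Finset.mem_sigma, Nat.mem_divisorsAntidiagonal] at hy
    obtain ⟨_, hq, _⟩ := hy
    subst hq
    rfl
  · rintro ⟨x1, x2, x3⟩ _; rfl

theorem bdd_int (w : ℝ → ℝ) (hwi : Integrable w) (X : ℝ → ℝ) (hX : Continuous X) (N : ℝ)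
    (hN : ∀ t, |X t| ≤ N) : Integrable (fun t => w t * X t) := by
  refine (hwi.norm.mul_const N).mono' (hwi.aestronglyMeasurable.mul hX.aestronglyMeasurable) ?_
  refine Eventually.of_forall fun t => ?_
  rw [norm_mul]
  exact mul_le_mul_of_nonneg_left (hN t) (norm_nonneg _)

theorem bdd_intC (w : ℝ → ℝ) (hwi : Integrable w) (X : ℝ → ℂ) (hX : Continuous X) (N : ℝ)
    (hN : ∀ t, ‖X t‖ ≤ N) : Integrable (fun t => (w t : ℂ) * X t) := by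
  refine (hwi.norm.mul_const N).mono' (hwi.ofReal.aestronglyMeasurable.mul hX.aestronglyMeasurable) ?_
  refine Eventually.of_forall fun t => ?_
  rw [norm_mul, Complex.norm_real]
  exact mul_le_mul_of_nonneg_left (hN t) (norm_nonneg _)

theorem core (w : ℝ → ℝ) (hw0 : ∀ t, 0 ≤ w t) (hwi : Integrable w) (hw1 : ∫ t, w t ≤ 1)
    (Z : ℝ → ℝ) (hZ : ∀ t, 0 ≤ Z t)
    (X1 X2 X3 : ℝ → ℂ) (h1 : Continuous X1) (h2 : Continuous X2) (h3 : Continuous X3)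
    (N1 N2 N3 : ℝ) (b1 : ∀ t, ‖X1 t‖ ≤ N1) (b2 : ∀ t, ‖X2 t‖ ≤ N2) (b3 : ∀ t, ‖X3 t‖ ≤ N3)
    (E : Set ℝ) (hE : MeasurableSet E) (c ε : ℝ) (hc : 0 ≤ c) (hε : 0 ≤ ε)
    (hZE : ∀ t ∈ E, c * (‖X1 t‖ - ε) ≤ Z t)
    (hI : Integrable (fun t => w t * (Z t * ‖X2 t‖ * ‖X3 t‖ ^ 2))) (θ : ℝ)
    (hθ : ∫ t in Eᶜ, w t ≤ θ) :
    c * (‖∫ t, (w t : ℂ) * ((X1 t * X2 t * X3 t) * (starRingEnd ℂ) (X3 t))‖ -
      N1 * N2 * N3 ^ 2 * θ - ε * (N2 * N3 ^ 2)) ≤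
    ∫ t, w t * (Z t * ‖X2 t‖ * ‖X3 t‖ ^ 2) := by
  have hN1 : 0 ≤ N1 := (norm_nonneg _).trans (b1 0)
  have hN2 : 0 ≤ N2 := (norm_nonneg _).trans (b2 0)
  have hN3 : 0 ≤ N3 := (norm_nonneg _).trans (b3 0)
  -- norms
  have hn : ∀ t, ‖(X1 t * X2 t * X3 t) * (starRingEnd ℂ) (X3 t)‖ = ‖X1 t‖ * ‖X2 t‖ * ‖X3 t‖ ^ 2 := by
    intro t
    rw [norm_mul, norm_mul, norm_mul, RCLike.norm_conj]; ring
  have hb23 : ∀ t, ‖X2 t‖ * ‖X3 t‖ ^ 2 ≤ N2 * N3 ^ 2 := fun t =>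
    mul_le_mul (b2 t) (pow_le_pow_left₀ (norm_nonneg _) (b3 t) 2) (by positivity) hN2
  have hb123 : ∀ t, ‖X1 t‖ * ‖X2 t‖ * ‖X3 t‖ ^ 2 ≤ N1 * N2 * N3 ^ 2 := fun t =>
    mul_le_mul (mul_le_mul (b1 t) (b2 t) (norm_nonneg _) hN1)
      (pow_le_pow_left₀ (norm_nonneg _) (b3 t) 2) (by positivity) (by positivity)
  -- integrability
  have i123 : Integrable (fun t => w t * (‖X1 t‖ * ‖X2 t‖ * ‖X3 t‖ ^ 2)) := by
    refine bdd_int w hwi _ (by fun_prop) (N1 * N2 * N3 ^ 2) fun t => ?_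
    rw [abs_of_nonneg (by positivity)]; exact hb123 t
  have i23 : Integrable (fun t => w t * (‖X2 t‖ * ‖X3 t‖ ^ 2)) := by
    refine bdd_int w hwi _ (by fun_prop) (N2 * N3 ^ 2) fun t => ?_
    rw [abs_of_nonneg (by positivity)]; exact hb23 t
  -- lower bound
  have s1 : ∫ t in E, w t * (Z t * ‖X2 t‖ * ‖X3 t‖ ^ 2) ≤
      ∫ t, w t * (Z t * ‖X2 t‖ * ‖X3 t‖ ^ 2) :=
    setIntegral_le_integral hI (Eventually.of_forall fun t =>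
      mul_nonneg (hw0 t) (mul_nonneg (mul_nonneg (hZ t) (norm_nonneg _)) (by positivity)))
  have s2 : ∫ t in E, (c * (w t * (‖X1 t‖ * ‖X2 t‖ * ‖X3 t‖ ^ 2)) -
      c * ε * (w t * (‖X2 t‖ * ‖X3 t‖ ^ 2))) ≤
      ∫ t in E, w t * (Z t * ‖X2 t‖ * ‖X3 t‖ ^ 2) := by
    refine setIntegral_mono_on ((i123.const_mul c).sub (i23.const_mul (c * ε))).integrableOn
      hI.integrableOn hE fun t ht => ?_
    have h := mul_le_mul_of_nonneg_left (hZE t ht)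
      (mul_nonneg (hw0 t) (mul_nonneg (norm_nonneg (X2 t)) (pow_nonneg (norm_nonneg (X3 t)) 2)))
    nlinarith [h]
  have s3 : ∫ t in E, (c * (w t * (‖X1 t‖ * ‖X2 t‖ * ‖X3 t‖ ^ 2)) -
      c * ε * (w t * (‖X2 t‖ * ‖X3 t‖ ^ 2))) =
      c * (∫ t in E, w t * (‖X1 t‖ * ‖X2 t‖ * ‖X3 t‖ ^ 2)) -
      c * ε * ∫ t in E, w t * (‖X2 t‖ * ‖X3 t‖ ^ 2) := by
    rw [integral_sub (i123.const_mul c).integrableOn (i23.const_mul (c * ε)).integrableOn,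
      integral_const_mul, integral_const_mul]
  have s4 : ∫ t in E, w t * (‖X2 t‖ * ‖X3 t‖ ^ 2) ≤ N2 * N3 ^ 2 := by
    calc ∫ t in E, w t * (‖X2 t‖ * ‖X3 t‖ ^ 2) ≤ ∫ t, w t * (‖X2 t‖ * ‖X3 t‖ ^ 2) :=
          setIntegral_le_integral i23 (Eventually.of_forall fun t =>
            mul_nonneg (hw0 t) (by positivity))
      _ ≤ ∫ t, w t * (N2 * N3 ^ 2) :=
          integral_mono i23 (hwi.mul_const _) fun t => mul_le_mul_of_nonneg_left (hb23 t) (hw0 t)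
      _ = (∫ t, w t) * (N2 * N3 ^ 2) := integral_mul_const _ _
      _ ≤ 1 * (N2 * N3 ^ 2) := mul_le_mul_of_nonneg_right hw1 (by positivity)
      _ = _ := one_mul _
  have s5 : ‖∫ t, (w t : ℂ) * ((X1 t * X2 t * X3 t) * (starRingEnd ℂ) (X3 t))‖ ≤
      ∫ t, w t * (‖X1 t‖ * ‖X2 t‖ * ‖X3 t‖ ^ 2) := by
    refine (norm_integral_le_integral_norm _).trans (le_of_eq ?_)
    refine integral_congr_ae (Eventually.of_forall fun t => ?_)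
    show ‖(w t : ℂ) * ((X1 t * X2 t * X3 t) * (starRingEnd ℂ) (X3 t))‖ = _
    rw [norm_mul, hn t, Complex.norm_real, Real.norm_of_nonneg (hw0 t)]
  have s6 : ∫ t, w t * (‖X1 t‖ * ‖X2 t‖ * ‖X3 t‖ ^ 2) =
      (∫ t in E, w t * (‖X1 t‖ * ‖X2 t‖ * ‖X3 t‖ ^ 2)) +
      ∫ t in Eᶜ, w t * (‖X1 t‖ * ‖X2 t‖ * ‖X3 t‖ ^ 2) :=
    (integral_add_compl hE i123).symm
  have s7 : ∫ t in Eᶜ, w t * (‖X1 t‖ * ‖X2 t‖ * ‖X3 t‖ ^ 2) ≤ N1 * N2 * N3 ^ 2 * θ := by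
    calc ∫ t in Eᶜ, w t * (‖X1 t‖ * ‖X2 t‖ * ‖X3 t‖ ^ 2)
        ≤ ∫ t in Eᶜ, w t * (N1 * N2 * N3 ^ 2) :=
          setIntegral_mono_on i123.integrableOn (hwi.mul_const _).integrableOn hE.compl
            fun t _ => mul_le_mul_of_nonneg_left (hb123 t) (hw0 t)
      _ = (∫ t in Eᶜ, w t) * (N1 * N2 * N3 ^ 2) := integral_mul_const _ _
      _ ≤ θ * (N1 * N2 * N3 ^ 2) := mul_le_mul_of_nonneg_right hθ (by positivity)
      _ = _ := mul_comm _ _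
  have h8 : c * ε * ∫ t in E, w t * (‖X2 t‖ * ‖X3 t‖ ^ 2) ≤ c * ε * (N2 * N3 ^ 2) :=
    mul_le_mul_of_nonneg_left s4 (mul_nonneg hc hε)
  have h9 : c * (‖∫ t, (w t : ℂ) * ((X1 t * X2 t * X3 t) * (starRingEnd ℂ) (X3 t))‖ -
      N1 * N2 * N3 ^ 2 * θ) ≤ c * ∫ t in E, w t * (‖X1 t‖ * ‖X2 t‖ * ‖X3 t‖ ^ 2) :=
    mul_le_mul_of_nonneg_left (by linarith) hc
  nlinarith [h8, h9, s1, s2, s3]

theorem split (n : ℕ) (hn : 1 ≤ n) (σ : ℝ) (z : ℂ) :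
    (n : ℂ) ^ (-((σ : ℂ) + z)) = (((n : ℝ) ^ (-σ) : ℝ) : ℂ) * (n : ℂ) ^ (-z) := by
  have hn0 : (n : ℂ) ≠ 0 := by exact_mod_cast (by omega : n ≠ 0)
  rw [neg_add, Complex.cpow_add _ _ hn0, Complex.ofReal_cpow (Nat.cast_nonneg n)]
  push_cast
  rfl

theorem moeb_norm (n : ℕ) : ‖(((ArithmeticFunction.moebius n : ℤ) : ℂ))‖ ≤ 1 := by
  rw [Complex.norm_intCast]
  exact_mod_cast ArithmeticFunction.abs_moebius_le_one

theorem moeb_abs (n : ℕ) : |(((ArithmeticFunction.moebius n : ℤ) : ℝ))| ≤ 1 := by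
  exact_mod_cast ArithmeticFunction.abs_moebius_le_one

theorem cu_norm (k : ℕ) (c r : ℝ) (hc : 0 < c) : ‖((cu k c r : ℝ) : ℂ)‖ ≤ 1 := by
  rw [Complex.norm_real, Real.norm_of_nonneg (Pool.Agent.H448R2.GC.cu_nonneg k c r hc)]
  exact Pool.Agent.H448R2.GC.cu_le_one k c r hc

theorem card_le (x : ℝ) (_ : 0 ≤ x) : ((Finset.Icc 1 ⌊x⌋₊).card : ℝ) ≤ x := by
  rw [Nat.card_Icc]
  simpa using Nat.floor_le ‹0 ≤ x›

/-- the diagonal term -/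
theorem diag_term (κ σ : ℝ) (hκ : 0 ≤ κ) (l : ℕ) (hsq : Squarefree l)
    (F1 F2 S : Finset ℕ) (hS : ∀ d, d ∣ l → d ∈ S)
    (h1 : ∀ d, d ∣ l → d ∈ F1) (h2 : ∀ d, d ∣ l → d ∈ F2) (u v : ℕ → ℝ)
    (hu : ∀ d, d ∣ l → u d = (d : ℝ) ^ (-(σ + 2 * κ)))
    (hv : ∀ d, d ∣ l → v d = ((ArithmeticFunction.moebius d : ℤ) : ℝ) * (d : ℝ) ^ (-σ)) :
    (l : ℝ) ^ (-(2 * σ)) ≤
    (∑ x ∈ (F1 ×ˢ F2 ×ˢ S).filter (fun x => x.1 * x.2.1 * x.2.2 = l),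
      u x.1 * v x.2.1 * (((ArithmeticFunction.moebius x.2.2 : ℤ) : ℝ) * (x.2.2 : ℝ) ^ (-σ))) *
      (((ArithmeticFunction.moebius l : ℤ) : ℝ) * (l : ℝ) ^ (-σ)) := by
  have hl0 : l ≠ 0 := hsq.ne_zero
  have hlpos : (0 : ℝ) < l := by exact_mod_cast Nat.pos_of_ne_zero hl0
  rw [diag_coef F1 F2 S l hl0 hS h1 h2 (fun m n r => u m * v n *
    (((ArithmeticFunction.moebius r : ℤ) : ℝ) * (r : ℝ) ^ (-σ)))]
  have hs : ∀ p ∈ l.divisorsAntidiagonal, ∑ q ∈ p.2.divisorsAntidiagonal, u p.1 * v q.1 *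
      (((ArithmeticFunction.moebius q.2 : ℤ) : ℝ) * (q.2 : ℝ) ^ (-σ)) =
      (l : ℝ) ^ (-σ) * ((p.1 : ℝ) ^ (-(2 * κ)) * ∑ q ∈ p.2.divisorsAntidiagonal,
        ((ArithmeticFunction.moebius q.1 : ℤ) : ℝ) * ((ArithmeticFunction.moebius q.2 : ℤ) : ℝ)) := by
    intro p hp
    rw [Nat.mem_divisorsAntidiagonal] at hp
    rw [Finset.mul_sum, Finset.mul_sum]
    refine Finset.sum_congr rfl fun q hq => ?_
    rw [Nat.mem_divisorsAntidiagonal] at hq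
    have hp0 : p.1 ≠ 0 := by
      intro h; rw [h, zero_mul] at hp; exact hl0 hp.1.symm
    have hppos : (0 : ℝ) < p.1 := by exact_mod_cast Nat.pos_of_ne_zero hp0
    have e1 : u p.1 = (p.1 : ℝ) ^ (-(σ + 2 * κ)) := hu _ ⟨p.2, hp.1.symm⟩
    have e2 : v q.1 = ((ArithmeticFunction.moebius q.1 : ℤ) : ℝ) * (q.1 : ℝ) ^ (-σ) :=
      hv _ ⟨q.2 * p.1, by rw [← hp.1, ← hq.1]; ring⟩
    have e3 : (l : ℝ) ^ (-σ) = (p.1 : ℝ) ^ (-σ) * (q.1 : ℝ) ^ (-σ) * (q.2 : ℝ) ^ (-σ) := by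
      rw [← hp.1, ← hq.1]
      push_cast
      rw [Real.mul_rpow (by positivity) (by positivity), Real.mul_rpow (by positivity) (by positivity)]
      ring
    rw [e1, e2, e3, neg_add, Real.rpow_add hppos]
    ring
  rw [Finset.sum_congr rfl hs, ← Finset.mul_sum]
  have hd := Pool.Agent.H448R2.GC.diag κ hκ l hsq
  have e4 : (l : ℝ) ^ (-(2 * σ)) = (l : ℝ) ^ (-σ) * (l : ℝ) ^ (-σ) := by
    rw [← Real.rpow_add hlpos]; ring_nf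
  rw [e4]
  have hpos : 0 ≤ (l : ℝ) ^ (-σ) * (l : ℝ) ^ (-σ) := by positivity
  nlinarith [mul_le_mul_of_nonneg_left hd hpos]

/-- mean value of the product -/
theorem mean (κ σ : ℝ) (hκ : 0 ≤ κ) (hσ : 0 ≤ σ) (k : ℕ) (c D D' N : ℝ) (hc : 0 < c)
    (F1 F2 S : Finset ℕ) (hF1 : ∀ n ∈ F1, 1 ≤ n) (hF2 : ∀ n ∈ F2, 1 ≤ n)
    (hsq : ∀ n ∈ S, Squarefree n) (hN : ∀ n ∈ S, (n : ℝ) ≤ N) (hN1 : 1 ≤ N)
    (hdvd : ∀ n ∈ S, ∀ d : ℕ, d ∣ n → d ∈ S)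
    (h1 : ∀ n : ℕ, 1 ≤ n → (n : ℝ) ≤ N → n ∈ F1 ∧ Real.log n ≤ D')
    (h2 : ∀ n : ℕ, 1 ≤ n → (n : ℝ) ≤ N → n ∈ F2 ∧ Real.log n ≤ D) (τ Δ : ℝ) (hΔ : 0 < Δ) :
    (∑ n ∈ S, (n : ℝ) ^ (-(2 * σ))) -
      (F1.card : ℝ) * F2.card * S.card * S.card * Real.exp (-(Δ / N) ^ 2 / 16) ≤
    ‖∫ t : ℝ, (gw τ Δ t : ℂ) * (
      ((∑ m ∈ F1, (cu k c (Real.log m - D') : ℂ) *
          (m : ℂ) ^ (-(((σ + 2 * κ : ℝ) : ℂ) + (t : ℂ) * I))) *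
       (∑ n ∈ F2, (((ArithmeticFunction.moebius n : ℤ) : ℂ)) * (cu k c (Real.log n - D) : ℂ) *
          (n : ℂ) ^ (-((σ : ℂ) + (t : ℂ) * I))) * MM S ((σ : ℂ) + (t : ℂ) * I)) *
      (starRingEnd ℂ) (MM S ((σ : ℂ) + (t : ℂ) * I)))‖ := by
  have hS1 : ∀ n ∈ S, 1 ≤ n := fun n hn => Nat.pos_of_ne_zero (hsq n hn).ne_zero
  set u : ℕ → ℝ := fun m => cu k c (Real.log m - D') * (m : ℝ) ^ (-(σ + 2 * κ)) with hu
  set v : ℕ → ℝ := fun n => ((ArithmeticFunction.moebius n : ℤ) : ℝ) * cu k c (Real.log n - D) *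
    (n : ℝ) ^ (-σ) with hv
  set w : ℕ → ℝ := fun n => ((ArithmeticFunction.moebius n : ℤ) : ℝ) * (n : ℝ) ^ (-σ) with hw
  set S1 : Finset ℕ := (F1 ×ˢ F2 ×ˢ S).image (fun x => x.1 * x.2.1 * x.2.2) with hS1def
  set a : ℕ → ℂ := fun l => ∑ x ∈ (F1 ×ˢ F2 ×ˢ S).filter (fun x => x.1 * x.2.1 * x.2.2 = l),
        ((u x.1 : ℝ) : ℂ) * ((v x.2.1 : ℝ) : ℂ) * ((w x.2.2 : ℝ) : ℂ) with ha
  have r1 : ∀ (F : Finset ℕ) (hF : ∀ n ∈ F, 1 ≤ n) (t : ℝ),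
      (∑ m ∈ F, (cu k c (Real.log m - D') : ℂ) *
          (m : ℂ) ^ (-(((σ + 2 * κ : ℝ) : ℂ) + (t : ℂ) * I))) =
      ∑ m ∈ F, ((u m : ℝ) : ℂ) * (m : ℂ) ^ (-((t : ℂ) * I)) := by
    intro F hF t
    refine Finset.sum_congr rfl fun m hm => ?_
    rw [split m (hF m hm), hu]
    push_cast
    ring
  have r2 : ∀ (F : Finset ℕ) (hF : ∀ n ∈ F, 1 ≤ n) (t : ℝ),
      (∑ n ∈ F, (((ArithmeticFunction.moebius n : ℤ) : ℂ)) * (cu k c (Real.log n - D) : ℂ) *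
          (n : ℂ) ^ (-((σ : ℂ) + (t : ℂ) * I))) =
      ∑ m ∈ F, ((v m : ℝ) : ℂ) * (m : ℂ) ^ (-((t : ℂ) * I)) := by
    intro F hF t
    refine Finset.sum_congr rfl fun m hm => ?_
    rw [split m (hF m hm), hv]
    push_cast
    ring
  have r3 : ∀ (t : ℝ), MM S ((σ : ℂ) + (t : ℂ) * I) =
      ∑ m ∈ S, ((w m : ℝ) : ℂ) * (m : ℂ) ^ (-((t : ℂ) * I)) := by
    intro t
    refine Finset.sum_congr rfl fun m hm => ?_
    rw [split m (hS1 m hm), hw]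
    push_cast
    ring
  have hint : (∫ t : ℝ, (gw τ Δ t : ℂ) * (
      ((∑ m ∈ F1, (cu k c (Real.log m - D') : ℂ) *
          (m : ℂ) ^ (-(((σ + 2 * κ : ℝ) : ℂ) + (t : ℂ) * I))) *
       (∑ n ∈ F2, (((ArithmeticFunction.moebius n : ℤ) : ℂ)) * (cu k c (Real.log n - D) : ℂ) *
          (n : ℂ) ^ (-((σ : ℂ) + (t : ℂ) * I))) * MM S ((σ : ℂ) + (t : ℂ) * I)) *
      (starRingEnd ℂ) (MM S ((σ : ℂ) + (t : ℂ) * I)))) =
      ∫ t : ℝ, (gw τ Δ t : ℂ) * ((∑ n ∈ S1, a n * (n : ℂ) ^ (-((t : ℂ) * I))) *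
      (starRingEnd ℂ) (∑ n ∈ S, ((w n : ℝ) : ℂ) * (n : ℂ) ^ (-((t : ℂ) * I)))) := by
    congr 1
    funext t
    rw [r1 F1 hF1, r2 F2 hF2, r3, prod3]
  rw [hint]
  have hmv := Pool.Agent.H448R2.GC.mv S1 S N (by
      intro n hn
      rw [hS1def, Finset.mem_image] at hn
      obtain ⟨x, hx, rfl⟩ := hn
      simp only [Finset.mem_product] at hx
      exact Nat.mul_pos (Nat.mul_pos (hF1 _ hx.1) (hF2 _ hx.2.1)) (hS1 _ hx.2.2))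
    (fun n hn => ⟨hS1 n hn, hN n hn⟩) a (fun n => ((w n : ℝ) : ℂ)) τ Δ hΔ
  -- the diagonal
  have hmem : ∀ l ∈ S, l ∈ S1 := by
    intro l hl
    rw [hS1def, Finset.mem_image]
    have h11 : (1 : ℕ) ∈ F1 := (h1 1 le_rfl (by simpa using hN1)).1
    have h21 : (1 : ℕ) ∈ F2 := (h2 1 le_rfl (by simpa using hN1)).1
    exact ⟨(1, 1, l), by simp [h11, h21, hl], by simp⟩
  have hinter : S1 ∩ S = S := Finset.inter_eq_right.2 hmem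
  rw [hinter] at hmv
  have hcast : ∑ n ∈ S, a n * (starRingEnd ℂ) (((w n : ℝ) : ℂ)) =
      ((∑ n ∈ S, (∑ x ∈ (F1 ×ˢ F2 ×ˢ S).filter (fun x => x.1 * x.2.1 * x.2.2 = n),
        u x.1 * v x.2.1 * w x.2.2) * w n : ℝ) : ℂ) := by
    rw [Complex.ofReal_sum]
    refine Finset.sum_congr rfl fun n _ => ?_
    rw [Complex.conj_ofReal, ha]
    push_cast
    rfl
  have hdiag : ∑ n ∈ S, (n : ℝ) ^ (-(2 * σ)) ≤
      ∑ n ∈ S, (∑ x ∈ (F1 ×ˢ F2 ×ˢ S).filter (fun x => x.1 * x.2.1 * x.2.2 = n),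
        u x.1 * v x.2.1 * w x.2.2) * w n := by
    refine Finset.sum_le_sum fun l hl => ?_
    have hl1 := hS1 l hl
    have hd1 : ∀ d, d ∣ l → 1 ≤ d ∧ (d : ℝ) ≤ N := by
      intro d hd
      refine ⟨Nat.pos_of_dvd_of_pos hd hl1, le_trans ?_ (hN l hl)⟩
      exact_mod_cast Nat.le_of_dvd hl1 hd
    refine diag_term κ σ hκ l (hsq l hl) F1 F2 S (hdvd l hl)
      (fun d hd => (h1 d (hd1 d hd).1 (hd1 d hd).2).1)
      (fun d hd => (h2 d (hd1 d hd).1 (hd1 d hd).2).1) u v ?_ ?_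
    · intro d hd
      rw [hu]
      simp only
      rw [Pool.Agent.H448R2.GC.cu_one k c _ hc (by linarith [(h1 d (hd1 d hd).1 (hd1 d hd).2).2]), one_mul]
    · intro d hd
      rw [hv]
      simp only
      rw [Pool.Agent.H448R2.GC.cu_one k c _ hc (by linarith [(h2 d (hd1 d hd).1 (hd1 d hd).2).2]), mul_one]
  -- sizes
  have hu1 : ∀ m ∈ F1, ‖((u m : ℝ) : ℂ)‖ ≤ 1 := by
    intro m hm
    rw [hu]
    simp only
    rw [Complex.ofReal_mul, norm_mul]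
    refine mul_le_one₀ (cu_norm k c _ hc) (norm_nonneg _) ?_
    rw [Complex.norm_real, Real.norm_of_nonneg (by positivity)]
    exact Real.rpow_le_one_of_one_le_of_nonpos (by exact_mod_cast hF1 m hm) (by linarith)
  have hv1 : ∀ m ∈ F2, ‖((v m : ℝ) : ℂ)‖ ≤ 1 := by
    intro m hm
    rw [hv]
    simp only
    rw [Complex.ofReal_mul, Complex.ofReal_mul, norm_mul, norm_mul]
    refine mul_le_one₀ (mul_le_one₀ ?_ (norm_nonneg _) (cu_norm k c _ hc)) (norm_nonneg _) ?_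
    · rw [Complex.norm_real]; exact moeb_abs m
    · rw [Complex.norm_real, Real.norm_of_nonneg (by positivity)]
      exact Real.rpow_le_one_of_one_le_of_nonpos (by exact_mod_cast hF2 m hm) (by linarith)
  have hw1 : ∀ m ∈ S, ‖((w m : ℝ) : ℂ)‖ ≤ 1 := by
    intro m hm
    rw [hw]
    simp only
    rw [Complex.ofReal_mul, norm_mul]
    refine mul_le_one₀ ?_ (norm_nonneg _) ?_
    · rw [Complex.norm_real]; exact moeb_abs m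
    · rw [Complex.norm_real, Real.norm_of_nonneg (by positivity)]
      exact Real.rpow_le_one_of_one_le_of_nonpos (by exact_mod_cast hS1 m hm) (by linarith)
  have hcard : ∀ (F : Finset ℕ) (f : ℕ → ℂ), (∀ m ∈ F, ‖f m‖ ≤ 1) → ∑ m ∈ F, ‖f m‖ ≤ F.card := by
    intro F f hf
    calc ∑ m ∈ F, ‖f m‖ ≤ ∑ m ∈ F, (1 : ℝ) := Finset.sum_le_sum hf
      _ = F.card := by simp
  have hsum : (∑ n ∈ S1, ‖a n‖) * (∑ n ∈ S, ‖((w n : ℝ) : ℂ)‖) ≤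
      (F1.card : ℝ) * F2.card * S.card * S.card := by
    have e := coef_sum F1 F2 S (fun m => ((u m : ℝ) : ℂ)) (fun m => ((v m : ℝ) : ℂ))
      (fun m => ((w m : ℝ) : ℂ))
    have e' : ∑ n ∈ S1, ‖a n‖ ≤ (F1.card : ℝ) * F2.card * S.card := by
      refine e.trans ?_
      have := hcard F1 _ hu1
      have := hcard F2 _ hv1
      have := hcard S _ hw1
      gcongr
    have := hcard S _ hw1
    gcongr
  have hfin := mul_le_mul_of_nonneg_right hsum (Real.exp_pos (-(Δ / N) ^ 2 / 16)).le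
  rw [hcast] at hmv
  have hre : ∀ (x : ℂ) (y e : ℝ), ‖x - (y : ℂ)‖ ≤ e → y - e ≤ ‖x‖ := by
    intro x y e h
    have h1 : y ≤ ‖(y : ℂ)‖ := by rw [Complex.norm_real]; exact le_abs_self y
    have h2 : ‖(y : ℂ)‖ ≤ ‖x‖ + ‖x - y‖ := by
      calc ‖(y : ℂ)‖ = ‖x - (x - y)‖ := by ring_nf
        _ ≤ _ := norm_sub_le _ _
    linarith
  have := hre _ _ _ hmv
  linarith

theorem bd_aux (g z x y u n2 n3 C : ℝ) (hg : 0 ≤ g) (hz : 0 ≤ z) (hx : 0 ≤ x) (hy : 0 ≤ y)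
    (hu : 0 ≤ u) (hC : 0 ≤ C) (h1 : z ≤ C * u) (h2 : x ≤ n2) (h3 : y ≤ n3) :
    ‖g * (z * x * y ^ 2)‖ ≤ g * u ^ 1 * (C * n2 * n3 ^ 2) := by
  rw [Real.norm_of_nonneg (by positivity)]
  have hn2 : 0 ≤ n2 := hx.trans h2
  calc g * (z * x * y ^ 2) ≤ g * ((C * u) * n2 * n3 ^ 2) := by gcongr
    _ = _ := by ring

theorem num_aux (T η a n1 n2 n3 e : ℝ) (_h1 : 0 ≤ n1) (h2 : 0 ≤ n2) (h3 : 0 ≤ n3) (hT : 1 ≤ T)
    (hη : 0 ≤ η) (hn1 : n1 ≤ T ^ (1 + 3 * η)) (hn2 : n2 ≤ T ^ (a + η)) (hn3 : n3 ≤ T ^ (1 / 16 : ℝ))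
    (he0 : 0 ≤ e) (he : e ≤ T ^ (-(a + 4 * η + 9 / 8 + 1))) :
    n1 * n2 * n3 * n3 * e ≤ T⁻¹ ∧ n1 * n2 * n3 ^ 2 * T ^ (-(a + 4 * η + 9 / 8 + 1)) ≤ T⁻¹ ∧
    T ^ (-(a + 4 * η + 9 / 8 + 1)) * (n2 * n3 ^ 2) ≤ T⁻¹ := by
  have hTpos : 0 < T := by linarith
  have hP : n1 * n2 * n3 ^ 2 ≤ T ^ (a + 4 * η + 9 / 8) := by
    calc n1 * n2 * n3 ^ 2
        ≤ T ^ (1 + 3 * η) * T ^ (a + η) * (T ^ (1 / 16 : ℝ)) ^ 2 := by gcongr
      _ = T ^ (a + 4 * η + 9 / 8) := by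
        rw [← Real.rpow_natCast, ← Real.rpow_mul hTpos.le, ← Real.rpow_add hTpos,
          ← Real.rpow_add hTpos]
        congr 1; push_cast; ring
  have hP2 : n2 * n3 ^ 2 ≤ T ^ (a + 4 * η + 9 / 8) := by
    calc n2 * n3 ^ 2
        ≤ T ^ (a + η) * (T ^ (1 / 16 : ℝ)) ^ 2 := by gcongr
      _ = T ^ (a + η + 1 / 8) := by
        rw [← Real.rpow_natCast, ← Real.rpow_mul hTpos.le, ← Real.rpow_add hTpos]
        congr 1; push_cast; ring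
      _ ≤ T ^ (a + 4 * η + 9 / 8) := Real.rpow_le_rpow_of_exponent_le hT (by linarith)
  have hTK : T ^ (a + 4 * η + 9 / 8) * T ^ (-(a + 4 * η + 9 / 8 + 1)) = T⁻¹ := by
    rw [← Real.rpow_add hTpos, ← Real.rpow_neg_one]; congr 1; ring
  have hK0 : 0 ≤ T ^ (-(a + 4 * η + 9 / 8 + 1)) := by positivity
  refine ⟨?_, ?_, ?_⟩
  · calc n1 * n2 * n3 * n3 * e = n1 * n2 * n3 ^ 2 * e := by ring
      _ ≤ T ^ (a + 4 * η + 9 / 8) * T ^ (-(a + 4 * η + 9 / 8 + 1)) :=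
          mul_le_mul hP he he0 (by positivity)
      _ = _ := hTK
  · rw [← hTK]; exact mul_le_mul_of_nonneg_right hP hK0
  · rw [← hTK, mul_comm]; exact mul_le_mul_of_nonneg_right hP2 hK0

end L2

open L2 in
theorem lower : ∃ c₀ : ℝ, 0 < c₀ ∧ ∀ (A a η : ℝ), 0 ≤ A → 1 < a → 0 < η → ∃ k₀ : ℕ, ∀ k : ℕ, k₀ ≤ k →
    ∃ T₀ : ℝ, ∀ T : ℝ, T₀ ≤ T → ∀ S : Finset ℕ, 1 ∈ S → (∀ n ∈ S, Squarefree n) →
    (∀ n ∈ S, (n : ℝ) ≤ T ^ (1 / 16 : ℝ)) → (∀ n ∈ S, ∀ d : ℕ, d ∣ n → d ∈ S) →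
    ∀ τ : ℝ, T ≤ τ → τ ≤ 2 * T →
    c₀ * Real.exp A * (∑ n ∈ S, (n : ℝ) ^ (-(2 * sm A T))) - 1 ≤
    ∫ t : ℝ, gw τ (T ^ (15 / 16 : ℝ)) t *
      (‖riemannZeta ((sm A T : ℂ) + (t : ℂ) * I)‖ *
        ‖fs k (η * Real.log T / k) (a * Real.log T) ((sm A T : ℂ) + (t : ℂ) * I)‖ *
        ‖MM S ((sm A T : ℂ) + (t : ℂ) * I)‖ ^ 2) := by
  obtain ⟨cz, hcz, Hz⟩ := Pool.Agent.H448R2.GC.zeta_refl
  obtain ⟨Cg, hCg, Hg⟩ := Pool.Agent.H448R2.GC.zeta_growth_mid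
  refine ⟨cz * (3 / 4), by positivity, ?_⟩
  intro A a η hA ha hη
  set B : ℝ := a + 4 * η + 9 / 8 with hB
  set K : ℝ := B + 1 with hK
  obtain ⟨k₀, Hk⟩ := Pool.Agent.H448R2.GC.cs_zeta η (1 + 2 * η) K hη (by positivity)
  refine ⟨max k₀ 1, fun k hk => ?_⟩
  have hk0 : k₀ ≤ k := le_trans (le_max_left _ _) hk
  have hk1 : 1 ≤ k := le_trans (le_max_right _ _) hk
  have hkpos : (0 : ℝ) < k := by exact_mod_cast hk1
  obtain ⟨T₁, HT1⟩ := Hk k hk0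
  obtain ⟨T₂, HT2⟩ := Pool.Agent.H448R2.GC.gw_tail 1 0
  obtain ⟨T₃, HT3⟩ := Pool.Agent.H448R2.GC.gw_tail 0 K
  have hev : ∀ᶠ T : ℝ in atTop, 4 ≤ T ∧ 4 * A ≤ Real.log T ∧ 1 ≤ Real.log T ∧
      3 * (cz * (3 / 4) * Real.exp A) ≤ T ∧ Real.exp (-(1 / 16) * T) ≤ T ^ (-K) := by
    have e5 := (isLittleO_exp_neg_mul_rpow_atTop (by norm_num : (0:ℝ) < 1 / 16) (-K)).bound one_pos
    filter_upwards [eventually_ge_atTop (4 : ℝ), Real.tendsto_log_atTop.eventually_ge_atTop (4 * A),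
      Real.tendsto_log_atTop.eventually_ge_atTop 1,
      eventually_ge_atTop (3 * (cz * (3 / 4) * Real.exp A)), e5] with T h1 h2 h3 h4 h5
    refine ⟨h1, h2, h3, h4, ?_⟩
    rw [Real.norm_of_nonneg (Real.exp_pos _).le,
      Real.norm_of_nonneg (Real.rpow_nonneg (by linarith) _), one_mul] at h5
    exact h5
  obtain ⟨T₄, HT4⟩ := eventually_atTop.1 hev
  refine ⟨max (max T₁ T₂) (max T₃ T₄), fun T hT S h1S hsq hSle hdvd τ hτ1 hτ2 => ?_⟩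
  have hT1 : T₁ ≤ T := le_trans (le_trans (le_max_left _ _) (le_max_left _ _)) hT
  have hT2 : T₂ ≤ T := le_trans (le_trans (le_max_right _ _) (le_max_left _ _)) hT
  have hT3 : T₃ ≤ T := le_trans (le_trans (le_max_left _ _) (le_max_right _ _)) hT
  have hT4 : T₄ ≤ T := le_trans (le_trans (le_max_right _ _) (le_max_right _ _)) hT
  obtain ⟨hT4', hLA, hL1, hTc, hTe⟩ := HT4 T hT4
  have hTpos : 0 < T := by linarith
  have hTone : 1 ≤ T := by linarith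
  set L : ℝ := Real.log T with hL
  have hLpos : 0 < L := by linarith
  set κ : ℝ := A / L with hκdef
  have hκ0 : 0 ≤ κ := by positivity
  have hκ1 : κ ≤ 1 / 4 := by
    rw [hκdef, div_le_iff₀ hLpos]; linarith
  set σ : ℝ := sm A T with hσdef
  have hσκ : σ = 1 / 2 - κ := rfl
  have hσ0 : 1 / 4 ≤ σ := by rw [hσκ]; linarith
  set c : ℝ := η * L / k with hcdef
  have hc : 0 < c := by positivity
  have hkc : k * c = η * L := by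
    rw [hcdef]; field_simp
  set Δ : ℝ := T ^ (15 / 16 : ℝ) with hΔdef
  have hΔ : 0 < Δ := by positivity
  have hexpL : ∀ x : ℝ, Real.exp (x * L) = T ^ x := by
    intro x; rw [Real.rpow_def_of_pos hTpos, hL, mul_comm]
  set F1 : Finset ℕ := Finset.Icc 1 ⌊Real.exp ((1 + 2 * η) * L + k * c)⌋₊ with hF1def
  set F2 : Finset ℕ := Finset.Icc 1 ⌊Real.exp (a * L + k * c)⌋₊ with hF2def
  have hF1 : ∀ n ∈ F1, 1 ≤ n := fun n hn => (Finset.mem_Icc.1 hn).1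
  have hF2 : ∀ n ∈ F2, 1 ≤ n := fun n hn => (Finset.mem_Icc.1 hn).1
  have hS1 : ∀ n ∈ S, 1 ≤ n := fun n hn => Nat.pos_of_ne_zero (hsq n hn).ne_zero
  -- sizes
  have hn1 : (F1.card : ℝ) ≤ T ^ (1 + 3 * η) := by
    refine (card_le _ (Real.exp_pos _).le).trans (le_of_eq ?_)
    rw [hkc, ← hexpL]; congr 1; ring
  have hn2 : (F2.card : ℝ) ≤ T ^ (a + η) := by
    refine (card_le _ (Real.exp_pos _).le).trans (le_of_eq ?_)
    rw [hkc, ← hexpL]; congr 1; ring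
  have hn3 : (S.card : ℝ) ≤ T ^ (1 / 16 : ℝ) := by
    have hsub : S ⊆ Finset.Icc 1 ⌊T ^ (1 / 16 : ℝ)⌋₊ := by
      intro n hn
      rw [Finset.mem_Icc]
      exact ⟨hS1 n hn, Nat.le_floor (hSle n hn)⟩
    calc (S.card : ℝ) ≤ ((Finset.Icc 1 ⌊T ^ (1 / 16 : ℝ)⌋₊).card : ℝ) := by
          exact_mod_cast Finset.card_le_card hsub
      _ ≤ _ := card_le _ (by positivity)
  have hN1 : (1 : ℝ) ≤ T ^ (1 / 16 : ℝ) := Real.one_le_rpow hTone (by norm_num)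
  -- mean value
  have hlogle : ∀ n : ℕ, 1 ≤ n → (n : ℝ) ≤ T ^ (1 / 16 : ℝ) → Real.log n ≤ 1 / 16 * L := by
    intro n hn hn'
    have := Real.log_le_log (by exact_mod_cast hn) hn'
    rwa [Real.log_rpow hTpos] at this
  have hmem : ∀ (x : ℝ), 1 ≤ x → ∀ n : ℕ, 1 ≤ n → (n : ℝ) ≤ T ^ (1 / 16 : ℝ) →
      n ∈ Finset.Icc 1 ⌊Real.exp (x * L + k * c)⌋₊ ∧ Real.log n ≤ x * L := by
    intro x hx n hn hn'
    have h1 := hlogle n hn hn'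
    have h2 : Real.log n ≤ x * L := by nlinarith
    refine ⟨Finset.mem_Icc.2 ⟨hn, Nat.le_floor ?_⟩, h2⟩
    rw [← Real.log_le_iff_le_exp (by exact_mod_cast hn)]
    have : 0 ≤ k * c := by positivity
    linarith
  have hmean := mean κ σ hκ0 (by linarith) k c (a * L) ((1 + 2 * η) * L) (T ^ (1 / 16 : ℝ)) hc
    F1 F2 S hF1 hF2 hsq hSle hN1 hdvd (hmem (1 + 2 * η) (by linarith)) (hmem a ha.le) τ Δ hΔ
  -- the three functions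
  set X1 : ℝ → ℂ := fun t => ∑ m ∈ F1, (cu k c (Real.log m - (1 + 2 * η) * L) : ℂ) *
          (m : ℂ) ^ (-(((σ + 2 * κ : ℝ) : ℂ) + (t : ℂ) * I)) with hX1
  set X2 : ℝ → ℂ := fun t => ∑ n ∈ F2, (((ArithmeticFunction.moebius n : ℤ) : ℂ)) *
    (cu k c (Real.log n - a * L) : ℂ) * (n : ℂ) ^ (-((σ : ℂ) + (t : ℂ) * I)) with hX2
  set X3 : ℝ → ℂ := fun t => MM S ((σ : ℂ) + (t : ℂ) * I) with hX3
  have hre : ∀ (x t : ℝ), ((x : ℂ) + (t : ℂ) * I).re = x := by intro x t; simp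
  have him : ∀ (x t : ℝ), ((x : ℂ) + (t : ℂ) * I).im = t := by intro x t; simp
  have c1 : Continuous X1 := dsum_cont F1 hF1 _ _
  have c2 : Continuous X2 := dsum_cont F2 hF2 _ _
  have c3 : Continuous X3 := dsum_cont S hS1 _ _
  have b1 : ∀ t, ‖X1 t‖ ≤ F1.card := fun t =>
    dsum_norm_le F1 hF1 _ (fun n _ => cu_norm k c _ hc) _ (by rw [hre]; linarith)
  have b2 : ∀ t, ‖X2 t‖ ≤ F2.card := fun t =>
    dsum_norm_le F2 hF2 _ (fun n _ => by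
      rw [norm_mul]; exact mul_le_one₀ (moeb_norm n) (norm_nonneg _) (cu_norm k c _ hc)) _
      (by rw [hre]; linarith)
  have b3 : ∀ t, ‖X3 t‖ ≤ S.card := fun t =>
    dsum_norm_le S hS1 _ (fun n _ => moeb_norm n) _ (by rw [hre]; linarith)
  obtain ⟨hi1, _⟩ := HT2 T hT2 τ hτ1 hτ2
  obtain ⟨_, htail⟩ := HT3 T hT3 τ hτ1 hτ2
  set E : Set ℝ := {t : ℝ | |t - τ| < T / 4} with hE
  have hEm : MeasurableSet E := by
    have : Continuous (fun t : ℝ => |t - τ|) := by fun_prop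
    exact (isOpen_lt this continuous_const).measurableSet
  have hEc : Eᶜ = {t : ℝ | T / 4 ≤ |t - τ|} := by
    ext t; simp [hE]
  have hθ : ∫ t in Eᶜ, gw τ Δ t ≤ T ^ (-K) := by
    rw [hEc]
    simpa using htail
  have hZc : Continuous (fun t : ℝ => riemannZeta ((σ : ℂ) + (t : ℂ) * I)) := by
    rw [continuous_iff_continuousAt]
    intro t
    have h1 : DifferentiableAt ℂ riemannZeta ((σ : ℂ) + (t : ℂ) * I) := by
      apply differentiableAt_riemannZeta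
      intro h
      have := congrArg Complex.re h
      rw [hre] at this
      simp at this
      linarith
    exact ContinuousAt.comp (f := fun t : ℝ => ((σ : ℂ) + (t : ℂ) * I)) h1.continuousAt
      (by fun_prop)
  have hI : Integrable (fun t => gw τ Δ t * (‖riemannZeta ((σ : ℂ) + (t : ℂ) * I)‖ * ‖X2 t‖ *
      ‖X3 t‖ ^ 2)) := by
    refine (hi1.mul_const (Cg * F2.card * (S.card : ℝ) ^ 2)).mono' ?_ ?_
    · exact (Pool.Agent.H448R2.GC.gw_integrable τ Δ hΔ).aestronglyMeasurable.mul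
        (((hZc.norm.mul c2.norm).mul (c3.norm.pow 2)).aestronglyMeasurable)
    · refine Eventually.of_forall fun t => ?_
      have hg0 := Pool.Agent.H448R2.GC.gw_nonneg τ Δ t hΔ
      have hz := Hg ((σ : ℂ) + (t : ℂ) * I) (by rw [hre]; linarith) (by rw [hre]; linarith)
      rw [him] at hz
      exact bd_aux _ _ _ _ _ _ _ _ hg0 (norm_nonneg _) (norm_nonneg _) (norm_nonneg _)
        (by linarith [abs_nonneg t]) hCg.le hz (b2 t) (b3 t)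
  -- the functional equation
  have hZE : ∀ t ∈ E, (cz * (3 / 4) * Real.exp A) * (‖X1 t‖ - T ^ (-K)) ≤
      ‖riemannZeta ((σ : ℂ) + (t : ℂ) * I)‖ := by
    intro t ht
    have ht' : |t - τ| < T / 4 := ht
    rw [abs_lt] at ht'
    have ht1 : 3 / 4 * T ≤ t := by linarith
    have ht2 : t ≤ 8 * T := by linarith
    have h1 := Hz κ t hκ0 (by linarith) (by linarith)
    have e1 : (1 / 2 - (κ : ℂ) + (t : ℂ) * I) = (σ : ℂ) + (t : ℂ) * I := by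
      rw [hσκ]; push_cast; ring
    have e2 : (1 / 2 + (κ : ℂ) + (t : ℂ) * I) = ((σ + 2 * κ : ℝ) : ℂ) + (t : ℂ) * I := by
      rw [hσκ]; push_cast; ring
    rw [e1, e2] at h1
    have h2 := HT1 T hT1 ((1 + 2 * η) * L) le_rfl le_rfl (((σ + 2 * κ : ℝ) : ℂ) + (t : ℂ) * I)
      (by rw [hre]; linarith) (by rw [hre, hσκ]; linarith) (by rw [him]; linarith)
      (by rw [him]; linarith)
    have h3 : ‖X1 t‖ - T ^ (-K) ≤ ‖riemannZeta (((σ + 2 * κ : ℝ) : ℂ) + (t : ℂ) * I)‖ := by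
      have h4 : X1 t = cs k (η * Real.log T / k) ((1 + 2 * η) * L)
        (((σ + 2 * κ : ℝ) : ℂ) + (t : ℂ) * I) := rfl
      rw [h4]
      have := norm_sub_norm_le (cs k (η * Real.log T / k) ((1 + 2 * η) * L)
        (((σ + 2 * κ : ℝ) : ℂ) + (t : ℂ) * I)) (riemannZeta (((σ + 2 * κ : ℝ) : ℂ) + (t : ℂ) * I))
      linarith
    have h5 : 3 / 4 * Real.exp A ≤ t ^ κ := by
      calc 3 / 4 * Real.exp A = (3 / 4 : ℝ) ^ (1 : ℝ) * T ^ κ := by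
            rw [Real.rpow_one, ← hexpL, hκdef, div_mul_cancel₀ _ hLpos.ne']
        _ ≤ (3 / 4 : ℝ) ^ κ * T ^ κ := by
            refine mul_le_mul_of_nonneg_right ?_ (by positivity)
            exact Real.rpow_le_rpow_of_exponent_ge (by norm_num) (by norm_num) (by linarith)
        _ = (3 / 4 * T) ^ κ := (Real.mul_rpow (by norm_num) hTpos.le).symm
        _ ≤ t ^ κ := Real.rpow_le_rpow (by positivity) ht1 hκ0
    have hz0 := norm_nonneg (riemannZeta (((σ + 2 * κ : ℝ) : ℂ) + (t : ℂ) * I))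
    calc (cz * (3 / 4) * Real.exp A) * (‖X1 t‖ - T ^ (-K))
        ≤ (cz * (3 / 4) * Real.exp A) * ‖riemannZeta (((σ + 2 * κ : ℝ) : ℂ) + (t : ℂ) * I)‖ :=
          mul_le_mul_of_nonneg_left h3 (by positivity)
      _ = cz * (3 / 4 * Real.exp A) * ‖riemannZeta (((σ + 2 * κ : ℝ) : ℂ) + (t : ℂ) * I)‖ := by ring
      _ ≤ cz * t ^ κ * ‖riemannZeta (((σ + 2 * κ : ℝ) : ℂ) + (t : ℂ) * I)‖ := by gcongr
      _ ≤ _ := h1
  have hcore := core (gw τ Δ) (fun t => Pool.Agent.H448R2.GC.gw_nonneg τ Δ t hΔ) (Pool.Agent.H448R2.GC.gw_integrable τ Δ hΔ)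
    (Pool.Agent.H448R2.GC.gw_integral τ Δ hΔ).le (fun t => ‖riemannZeta ((σ : ℂ) + (t : ℂ) * I)‖)
    (fun t => norm_nonneg _) X1 X2 X3 c1 c2 c3 F1.card F2.card S.card b1 b2 b3 E hEm
    (cz * (3 / 4) * Real.exp A) (T ^ (-K)) (by positivity) (by positivity) hZE hI (T ^ (-K)) hθ
  refine le_trans ?_ hcore
  -- numerics
  have hexp : Real.exp (-(Δ / T ^ (1 / 16 : ℝ)) ^ 2 / 16) ≤ T ^ (-K) := by
    refine le_trans (Real.exp_le_exp.2 ?_) hTe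
    have h1 : Δ / T ^ (1 / 16 : ℝ) = T ^ (7 / 8 : ℝ) := by
      rw [hΔdef, ← Real.rpow_sub hTpos]; norm_num
    have h2 : T ^ (1 / 2 : ℝ) ≤ T ^ (7 / 8 : ℝ) :=
      Real.rpow_le_rpow_of_exponent_le hTone (by norm_num)
    have h3 : (T ^ (1 / 2 : ℝ)) ^ 2 = T := by
      rw [← Real.rpow_natCast, ← Real.rpow_mul hTpos.le]; norm_num
    have h4 : T ≤ (T ^ (7 / 8 : ℝ)) ^ 2 := by
      calc T = (T ^ (1 / 2 : ℝ)) ^ 2 := h3.symm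
        _ ≤ _ := pow_le_pow_left₀ (by positivity) h2 2
    rw [h1]; linarith
  obtain ⟨q1, q2, q3⟩ := num_aux T η a (F1.card : ℝ) (F2.card : ℝ) (S.card : ℝ)
    (Real.exp (-(Δ / T ^ (1 / 16 : ℝ)) ^ 2 / 16)) (Nat.cast_nonneg _) (Nat.cast_nonneg _)
    (Nat.cast_nonneg _) hTone hη.le hn1 hn2 hn3 (Real.exp_pos _).le hexp
  have hc0 : 0 < cz * (3 / 4) * Real.exp A := by positivity
  have q4 : (cz * (3 / 4) * Real.exp A) * (3 * T⁻¹) ≤ 1 := by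
    rw [show (cz * (3 / 4) * Real.exp A) * (3 * T⁻¹) = (3 * (cz * (3 / 4) * Real.exp A)) * T⁻¹ by ring,
      ← div_eq_mul_inv, div_le_one hTpos]
    exact hTc
  have q5 : (∑ n ∈ S, (n : ℝ) ^ (-(2 * σ))) - 3 * T⁻¹ ≤
      ‖∫ t, (gw τ Δ t : ℂ) * ((X1 t * X2 t * X3 t) * (starRingEnd ℂ) (X3 t))‖ -
      (F1.card : ℝ) * F2.card * (S.card : ℝ) ^ 2 * T ^ (-K) -
      T ^ (-K) * ((F2.card : ℝ) * (S.card : ℝ) ^ 2) := by
    have := hmean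
    linarith
  have q6 := mul_le_mul_of_nonneg_left q5 hc0.le
  rw [mul_sub] at q6
  linarith

end Pool.Agent.H448R2.GC
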