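import Pool.Agent.H448R2.GC.Defs
import Pool.Agent.H448R2.GC.F0
import Pool.Agent.H448R2.GC.B7
import Pool.Agent.H448R2.GC.F1
import Pool.Agent.H448R2.GC.K1
import Pool.Agent.H448R2.GC.L1
import Pool.Agent.H448R2.GC.L2
import Pool.Agent.H448R2.GC.X2

/-! TEAM GC: the main theorem. -/

open Complex MeasureTheory Filter Topology

namespace Pool.Agent.H448R2.GC

namespace F2

theorem ev_log (K : ℝ) : ∃ T₀ : ℝ, ∀ T : ℝ, T₀ ≤ T → K ≤ Real.log T := by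
  refine ⟨Real.exp K, fun T hT => ?_⟩
  rw [Real.le_log_iff_exp_le (lt_of_lt_of_le (Real.exp_pos _) hT)]
  exact hT

/-- comparison of the two integrals -/
theorem split_ineq (A T a η : ℝ) (k : ℕ) (S : Finset ℕ) (τ : ℝ) (hT : 1 ≤ T) (hη : 0 < η) (hk : 1 ≤ k)
    (hL : 0 < Real.log T) (hsm0 : 1 / 8 ≤ sm A T) (hsm1 : sm A T ≤ 7 / 8) (hS : ∀ n ∈ S, 1 ≤ n) :
    ∫ t : ℝ, gw τ (T ^ (15 / 16 : ℝ)) t *
      (‖riemannZeta ((sm A T : ℂ) + (t : ℂ) * I)‖ *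
        ‖fs k (η * Real.log T / k) (a * Real.log T) ((sm A T : ℂ) + (t : ℂ) * I)‖ *
        ‖MM S ((sm A T : ℂ) + (t : ℂ) * I)‖ ^ 2) ≤
    (∫ t : ℝ, gw τ (T ^ (15 / 16 : ℝ)) t * ‖MM S ((sm A T : ℂ) + (t : ℂ) * I)‖ ^ 2) +
    ∫ t : ℝ, gw τ (T ^ (15 / 16 : ℝ)) t *
      (‖1 - riemannZeta ((sm A T : ℂ) + (t : ℂ) * I) *
        fs k (η * Real.log T / k) (a * Real.log T) ((sm A T : ℂ) + (t : ℂ) * I)‖ *
        ‖MM S ((sm A T : ℂ) + (t : ℂ) * I)‖ ^ 2) := by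
  obtain ⟨Cz, hCz, hz⟩ := Pool.Agent.H448R2.GC.zeta_growth_mid
  have hΔ : 0 < T ^ (15 / 16 : ℝ) := Real.rpow_pos_of_pos (by linarith) _
  have hk0 : (0 : ℝ) < k := by exact_mod_cast hk
  have hc : 0 < η * Real.log T / k := by positivity
  set c := η * Real.log T / k with hcdef
  set F : ℝ := Real.exp (a * Real.log T + k * c) with hF
  have hF0 : 0 < F := Real.exp_pos _
  -- a bound for the mollifier
  set N : ℝ := ∑ n ∈ S, (n : ℝ) with hN
  have hN0 : 0 ≤ N := Finset.sum_nonneg fun n _ => by positivity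
  have hSN : ∀ n ∈ S, (n : ℝ) ≤ N := fun n hn =>
    Finset.single_le_sum (f := fun n : ℕ => (n : ℝ)) (fun m _ => by positivity) hn
  have hre : ∀ t : ℝ, ((sm A T : ℂ) + (t : ℂ) * I).re = sm A T := fun t => by simp
  have him : ∀ t : ℝ, ((sm A T : ℂ) + (t : ℂ) * I).im = t := fun t => by simp
  have hM : ∀ t : ℝ, ‖MM S ((sm A T : ℂ) + (t : ℂ) * I)‖ ≤ N := fun t =>
    F0.MM_norm_le S N hS hSN hN0 _ (by rw [hre]; linarith)
  have hf : ∀ t : ℝ, ‖fs k c (a * Real.log T) ((sm A T : ℂ) + (t : ℂ) * I)‖ ≤ F := fun t =>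
    F0.fs_norm_le Pool.Agent.H448R2.GC.cu_nonneg Pool.Agent.H448R2.GC.cu_le_one k c _ hc _ (by rw [hre]; linarith)
  have hzt : ∀ t : ℝ, ‖riemannZeta ((sm A T : ℂ) + (t : ℂ) * I)‖ ≤ Cz * (1 + |t|) := fun t => by
    have := hz ((sm A T : ℂ) + (t : ℂ) * I) (by rw [hre]; exact hsm0) (by rw [hre]; exact hsm1)
    rwa [him] at this
  have hMc := F0.MM_cont S hS (sm A T)
  have hfc := F0.fs_cont k c (a * Real.log T) (sm A T)
  have hzc := F0.zeta_cont (sm A T) (by linarith)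
  have i1 : Integrable (fun t : ℝ => gw τ (T ^ (15 / 16 : ℝ)) t *
      ‖MM S ((sm A T : ℂ) + (t : ℂ) * I)‖ ^ 2) := by
    refine F0.gw_mul_integrable τ _ hΔ _ (hMc.norm.pow 2) (N ^ 2) 0 fun t => ?_
    rw [abs_of_nonneg (by positivity), pow_zero, mul_one]
    exact pow_le_pow_left₀ (norm_nonneg _) (hM t) 2
  have hprod : ∀ t : ℝ, ‖riemannZeta ((sm A T : ℂ) + (t : ℂ) * I) *
      fs k c (a * Real.log T) ((sm A T : ℂ) + (t : ℂ) * I)‖ ≤ Cz * F * (1 + |t|) := fun t => by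
    rw [norm_mul]
    calc _ ≤ (Cz * (1 + |t|)) * F := mul_le_mul (hzt t) (hf t) (norm_nonneg _) (by positivity)
      _ = Cz * F * (1 + |t|) := by ring
  have i2 : Integrable (fun t : ℝ => gw τ (T ^ (15 / 16 : ℝ)) t *
      (‖1 - riemannZeta ((sm A T : ℂ) + (t : ℂ) * I) *
        fs k c (a * Real.log T) ((sm A T : ℂ) + (t : ℂ) * I)‖ *
        ‖MM S ((sm A T : ℂ) + (t : ℂ) * I)‖ ^ 2)) := by
    refine F0.gw_mul_integrable τ _ hΔ _
      (((continuous_const.sub (hzc.mul hfc)).norm).mul (hMc.norm.pow 2)) ((1 + Cz * F) * N ^ 2) 1 fun t => ?_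
    rw [abs_of_nonneg (by positivity), pow_one]
    have h1 : ‖1 - riemannZeta ((sm A T : ℂ) + (t : ℂ) * I) *
        fs k c (a * Real.log T) ((sm A T : ℂ) + (t : ℂ) * I)‖ ≤ (1 + Cz * F) * (1 + |t|) := by
      calc _ ≤ ‖(1 : ℂ)‖ + ‖riemannZeta ((sm A T : ℂ) + (t : ℂ) * I) *
            fs k c (a * Real.log T) ((sm A T : ℂ) + (t : ℂ) * I)‖ := norm_sub_le _ _
        _ ≤ 1 + Cz * F * (1 + |t|) := by
            rw [norm_one]; linarith [hprod t]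
        _ ≤ (1 + Cz * F) * (1 + |t|) := by nlinarith [abs_nonneg t]
    calc _ ≤ ((1 + Cz * F) * (1 + |t|)) * N ^ 2 :=
          mul_le_mul h1 (pow_le_pow_left₀ (norm_nonneg _) (hM t) 2) (by positivity) (by positivity)
      _ = (1 + Cz * F) * N ^ 2 * (1 + |t|) := by ring
  rw [← integral_add i1 i2]
  apply integral_mono_of_nonneg
  · exact Eventually.of_forall fun t => mul_nonneg (F0.gw_pos _ _ _ hΔ) (by positivity)
  · exact i1.add i2
  · refine Eventually.of_forall fun t => ?_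
    simp only
    rw [← mul_add]
    apply mul_le_mul_of_nonneg_left _ (F0.gw_pos _ _ _ hΔ)
    have h1 : ‖riemannZeta ((sm A T : ℂ) + (t : ℂ) * I)‖ *
        ‖fs k c (a * Real.log T) ((sm A T : ℂ) + (t : ℂ) * I)‖ ≤
        1 + ‖1 - riemannZeta ((sm A T : ℂ) + (t : ℂ) * I) *
        fs k c (a * Real.log T) ((sm A T : ℂ) + (t : ℂ) * I)‖ := by
      rw [← norm_mul]
      have := norm_sub_norm_le (riemannZeta ((sm A T : ℂ) + (t : ℂ) * I) *
        fs k c (a * Real.log T) ((sm A T : ℂ) + (t : ℂ) * I)) 1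
      rw [norm_one, norm_sub_rev] at this
      linarith
    calc _ ≤ (1 + ‖1 - riemannZeta ((sm A T : ℂ) + (t : ℂ) * I) *
        fs k c (a * Real.log T) ((sm A T : ℂ) + (t : ℂ) * I)‖) *
          ‖MM S ((sm A T : ℂ) + (t : ℂ) * I)‖ ^ 2 := mul_le_mul_of_nonneg_right h1 (by positivity)
      _ = _ := by ring

end F2

theorem main (a b : ℝ) (ha : 1 < a) (hab : a + 1 < b) : ∃ c T₀ : ℝ, 0 < c ∧ 1 ≤ T₀ ∧ ∀ T : ℝ, T₀ ≤ T →
    ∃ X H : ℝ, T ^ a / 4 ≤ X ∧ X ≤ T ^ b ∧ X / (16 * T) ≤ H ∧ H ≤ 4 * X / T ∧ c * H ≤ VV X H := by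
  obtain ⟨c₀, hc₀, hlow⟩ := Pool.Agent.H448R2.GC.lower
  set A : ℝ := max 1 (Real.log (2 / c₀)) with hA
  have hA1 : 1 ≤ A := le_max_left _ _
  have hA0 : 0 ≤ A := by linarith
  have hcA : 2 ≤ c₀ * Real.exp A := by
    have h1 : Real.exp (Real.log (2 / c₀)) ≤ Real.exp A := Real.exp_le_exp.2 (le_max_right _ _)
    rw [Real.exp_log (by positivity)] at h1
    rw [div_le_iff₀ hc₀] at h1
    linarith
  obtain ⟨cb, C₁, T₁, K₀, hcb, hC₁, hblocks⟩ := Pool.Agent.H448R2.GC.blocks (1 / 16) (2 * A + 3) (by norm_num) (by linarith)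
  obtain ⟨η, k₁, hη, herr⟩ := Pool.Agent.H448R2.GC.err_small A a b C₁ K₀ hA1 ha hab hC₁
  obtain ⟨k₂, hlow⟩ := hlow A a η hA0 ha hη
  set k : ℕ := max 1 (max k₁ k₂) with hk
  obtain ⟨C, T₂, hC, herr⟩ := herr k (le_trans (le_max_left _ _) (le_max_right _ _))
  obtain ⟨T₃, hlow⟩ := hlow k (le_trans (le_max_right _ _) (le_max_right _ _))
  obtain ⟨T₄, hMM⟩ := Pool.Agent.H448R2.GC.MM_sq A hA0
  obtain ⟨T₅, hL1⟩ := F2.ev_log (8 / cb)
  obtain ⟨T₆, hL2⟩ := F2.ev_log (8 * A + 1)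
  set c : ℝ := min 1 ((cb / (2 * C)) ^ 2) with hc
  have hc0 : 0 < c := by
    apply lt_min one_pos
    positivity
  refine ⟨c, max 1 (max T₁ (max T₂ (max T₃ (max T₄ (max T₅ T₆))))), hc0, le_max_left _ _, fun T hT => ?_⟩
  have hT1 : 1 ≤ T := (le_max_left _ _).trans hT
  have hT' : max T₁ (max T₂ (max T₃ (max T₄ (max T₅ T₆)))) ≤ T := (le_max_right _ _).trans hT
  simp only [max_le_iff] at hT'
  obtain ⟨h1, h2, h3, h4, h5, h6⟩ := hT'
  have hL1 := hL1 T h5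
  have hL2 := hL2 T h6
  have hL0 : 0 < Real.log T := by linarith
  by_contra hcon
  push Not at hcon
  obtain ⟨S, hGood, hQ⟩ := hblocks T h1
  have hS1 : ∀ n ∈ S, 1 ≤ n := fun n hn => Nat.one_le_iff_ne_zero.2 (hGood.sqf n hn).ne_zero
  obtain ⟨τ, hτ1, hτ2, hE⟩ := herr T h2 S hGood c hc0.le (min_le_left _ _)
    (fun X H x1 x2 x3 x4 => (hcon X H x1 x2 x3 x4).le)
  have hlo := hlow T h3 S hGood.one_mem hGood.sqf hGood.le hGood.dvd τ hτ1 hτ2
  have hmm := hMM T h4 S hGood.sqf hGood.le τ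
  have hsm0 : 1 / 8 ≤ sm A T := by
    unfold sm
    have : A / Real.log T ≤ 1 / 8 := by
      rw [div_le_iff₀ hL0]
      linarith
    linarith
  have hsm1 : sm A T ≤ 1 / 2 := by
    unfold sm
    have : 0 ≤ A / Real.log T := by positivity
    linarith
  have hsp := F2.split_ineq A T a η k S τ hT1 hη (le_max_left _ _) hL0 hsm0 (by linarith) hS1
  set Q : ℝ := ∑ n ∈ S, (n : ℝ) ^ (-(2 * sm A T)) with hQdef
  have hQ0 : 0 ≤ Q := Finset.sum_nonneg fun n _ => by positivity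
  have hQ1 : cb * Real.log T ≤ Q := by
    refine hQ.trans (Finset.sum_le_sum fun n hn => ?_)
    have hn : (1 : ℝ) ≤ n := by exact_mod_cast hS1 n hn
    rw [one_div, ← Real.rpow_neg_one]
    apply Real.rpow_le_rpow_of_exponent_le hn
    linarith
  have hsq : C * Real.sqrt c ≤ cb / 2 := by
    have h7 : Real.sqrt c ≤ cb / (2 * C) := by
      rw [Real.sqrt_le_left (by positivity)]
      exact min_le_right _ _
    calc C * Real.sqrt c ≤ C * (cb / (2 * C)) := mul_le_mul_of_nonneg_left h7 hC.le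
      _ = cb / 2 := by field_simp
  have h8 : 2 * Q ≤ c₀ * Real.exp A * Q := mul_le_mul_of_nonneg_right hcA hQ0
  have h9 : C * Real.sqrt c * Real.log T ≤ cb / 2 * Real.log T := mul_le_mul_of_nonneg_right hsq hL0.le
  have h10 : 2 * Q - 1 ≤ Q + 1 + (cb / 2 * Real.log T + 1) := by linarith
  have h11 : cb * Real.log T ≤ cb / 2 * Real.log T + 3 := by linarith
  have h12 : 8 ≤ cb * Real.log T := by
    rw [div_le_iff₀ hcb] at hL1
    linarith [mul_comm (Real.log T) cb]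
  linarith

theorem theta (θ₁ θ₂ : ℝ) (h1 : 0 ≤ θ₁) (h12 : θ₁ < θ₂) (h2 : θ₂ < 1)
    (h : 1 / (1 - θ₁) + 1 < 1 / (1 - θ₂)) : ∃ c C : ℝ, 0 < c ∧ 1 ≤ C ∧ ∀ X₀ : ℝ, C ≤ X₀ →
    ∃ X H : ℝ, X₀ ≤ X ∧ X ≤ X₀ ^ C ∧ X ^ θ₁ < H ∧ H < X ^ θ₂ ∧ c * H ≤ VV X H := by
  have d1 : 0 < 1 - θ₁ := by linarith
  have d2 : 0 < 1 - θ₂ := by linarith
  set g : ℝ := 1 / (1 - θ₂) - 1 / (1 - θ₁) - 1 with hg
  have hg0 : 0 < g := by linarith
  have hone : 1 ≤ 1 / (1 - θ₁) := by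
    rw [le_div_iff₀ d1]; linarith
  set a : ℝ := 1 / (1 - θ₁) + g / 3 with ha
  set b : ℝ := a + 1 + g / 3 with hb
  have ha1 : 1 < a := by linarith
  have hab : a + 1 < b := by linarith
  obtain ⟨c, T₀, hc, hT₀, hmain⟩ := main a b ha1 hab
  set e₁ : ℝ := g / 3 * (1 - θ₁) with he1
  set e₂ : ℝ := g / 3 * (1 - θ₂) with he2
  have he1p : 0 < e₁ := by positivity
  have he2p : 0 < e₂ := by positivity
  have hae : a * (1 - θ₁) = 1 + e₁ := by
    rw [ha, he1, add_mul, one_div, inv_mul_cancel₀ d1.ne']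
  have hb' : b = 1 / (1 - θ₂) - g / 3 := by
    rw [hb, ha, hg]; ring
  have hbe : b * (1 - θ₂) = 1 - e₂ := by
    rw [hb', he2, sub_mul, one_div, inv_mul_cancel₀ d2.ne']
  -- how large `T` must be
  obtain ⟨T₁, hT₁⟩ : ∃ T₁ : ℝ, ∀ T : ℝ, T₁ ≤ T → 64 < T ^ e₁ ∧ 4 < T ^ e₂ := by
    have t1 := (tendsto_rpow_atTop he1p).eventually_gt_atTop 64
    have t2 := (tendsto_rpow_atTop he2p).eventually_gt_atTop 4
    obtain ⟨T₁, hT₁⟩ := eventually_atTop.1 (t1.and t2)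
    exact ⟨T₁, fun T hT => hT₁ T hT⟩
  set M : ℝ := max T₀ (max T₁ 1) with hM
  have hM1 : 1 ≤ M := (le_max_right _ _).trans (le_max_right _ _)
  set C : ℝ := max (2 * (b / a)) (max (M ^ a) 4) with hC
  have hC4 : 4 ≤ C := (le_max_right _ _).trans (le_max_right _ _)
  refine ⟨c, C, hc, by linarith, fun X₀ hX₀ => ?_⟩
  have hX4 : 4 ≤ X₀ := hC4.trans hX₀
  have hX0 : 0 < X₀ := by linarith
  have ha0 : 0 < a := by linarith
  set T : ℝ := (4 * X₀) ^ (1 / a) with hT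
  have hTpos : 0 < T := Real.rpow_pos_of_pos (by linarith) _
  have hTa : T ^ a = 4 * X₀ := by
    rw [hT, ← Real.rpow_mul (by linarith), one_div_mul_cancel ha0.ne', Real.rpow_one]
  have hMT : M ≤ T := by
    have hh : M ^ a ≤ T ^ a := by
      rw [hTa]
      have : M ^ a ≤ C := (le_max_left _ _).trans (le_max_right _ _)
      linarith
    exact (Real.rpow_le_rpow_iff (by linarith) hTpos.le ha0).1 hh
  have hT1 : 1 ≤ T := hM1.trans hMT
  obtain ⟨hT64, hT4⟩ := hT₁ T (((le_max_left _ _).trans (le_max_right _ _)).trans hMT)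
  obtain ⟨X, H, hXl, hXu, hHl, hHu, hV⟩ := hmain T ((le_max_left _ _).trans hMT)
  have hXX : X₀ ≤ X := by
    rw [hTa] at hXl; linarith
  have hX1 : 1 ≤ X := by linarith
  have hXp : 0 < X := by linarith
  refine ⟨X, H, hXX, ?_, ?_, ?_, hV⟩
  · have e1 : T ^ b = (4 * X₀) ^ (b / a) := by
      rw [hT, ← Real.rpow_mul (by linarith)]
      congr 1
      ring
    have e2 : (4 * X₀) ^ (b / a) ≤ (X₀ ^ (2 : ℝ)) ^ (b / a) := by
      apply Real.rpow_le_rpow (by linarith)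
      · rw [Real.rpow_two]; nlinarith
      · have : 0 < b := by linarith
        positivity
    rw [← Real.rpow_mul hX0.le] at e2
    calc X ≤ T ^ b := hXu
      _ = (4 * X₀) ^ (b / a) := e1
      _ ≤ X₀ ^ (2 * (b / a)) := e2
      _ ≤ X₀ ^ C := Real.rpow_le_rpow_of_exponent_le (by linarith) (le_max_left _ _)
  · -- X ^ θ₁ < H
    have e1 : T ^ (1 + e₁) / 4 ≤ X ^ (1 - θ₁) := by
      have e2 : (T ^ a / 4) ^ (1 - θ₁) ≤ X ^ (1 - θ₁) :=
        Real.rpow_le_rpow (by positivity) hXl d1.le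
      rw [Real.div_rpow (by positivity) (by norm_num), ← Real.rpow_mul hTpos.le, hae] at e2
      have e3 : (4 : ℝ) ^ (1 - θ₁) ≤ 4 := by
        calc (4 : ℝ) ^ (1 - θ₁) ≤ (4 : ℝ) ^ (1 : ℝ) :=
              Real.rpow_le_rpow_of_exponent_le (by norm_num) (by linarith)
          _ = 4 := Real.rpow_one _
      have e4 : T ^ (1 + e₁) / 4 ≤ T ^ (1 + e₁) / (4 : ℝ) ^ (1 - θ₁) :=
        div_le_div_of_nonneg_left (by positivity) (by positivity) e3
      exact e4.trans e2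
    have e5 : 16 * T < X ^ (1 - θ₁) := by
      have : T ^ (1 + e₁) = T * T ^ e₁ := by
        rw [Real.rpow_add hTpos, Real.rpow_one]
      rw [this] at e1
      have e9 : T * 64 < T * T ^ e₁ := mul_lt_mul_of_pos_left hT64 hTpos
      linarith
    have e6 : X ^ θ₁ * X ^ (1 - θ₁) = X := by
      rw [← Real.rpow_add hXp]
      simp
    have e7 : 0 < X ^ θ₁ := Real.rpow_pos_of_pos hXp _
    have e8 : X ^ θ₁ < X / (16 * T) := by
      rw [lt_div_iff₀ (by positivity)]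
      calc X ^ θ₁ * (16 * T) < X ^ θ₁ * X ^ (1 - θ₁) := mul_lt_mul_of_pos_left e5 e7
        _ = X := e6
    exact e8.trans_le hHl
  · have e1 : X ^ (1 - θ₂) ≤ T ^ (1 - e₂) := by
      have e2 : X ^ (1 - θ₂) ≤ (T ^ b) ^ (1 - θ₂) := Real.rpow_le_rpow hXp.le hXu d2.le
      rwa [← Real.rpow_mul hTpos.le, hbe] at e2
    have e3 : T ^ (1 - e₂) * T ^ e₂ = T := by
      rw [← Real.rpow_add hTpos]
      simp
    have e4 : 0 < T ^ (1 - e₂) := Real.rpow_pos_of_pos hTpos _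
    have e5 : 4 * X ^ (1 - θ₂) < T := by
      calc 4 * X ^ (1 - θ₂) ≤ 4 * T ^ (1 - e₂) := by linarith
        _ = T ^ (1 - e₂) * 4 := by ring
        _ < T ^ (1 - e₂) * T ^ e₂ := mul_lt_mul_of_pos_left hT4 e4
        _ = T := e3
    have e6 : X ^ θ₂ * X ^ (1 - θ₂) = X := by
      rw [← Real.rpow_add hXp]
      simp
    have e7 : 0 < X ^ θ₂ := Real.rpow_pos_of_pos hXp _
    refine lt_of_le_of_lt hHu ?_
    rw [div_lt_iff₀ hTpos]
    calc 4 * X = 4 * (X ^ θ₂ * X ^ (1 - θ₂)) := by rw [e6]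
      _ = X ^ θ₂ * (4 * X ^ (1 - θ₂)) := by ring
      _ < X ^ θ₂ * T := mul_lt_mul_of_pos_left e5 e7

end Pool.Agent.H448R2.GC
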