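import Pool.Agent.H448R2.GC.Defs

/-! TEAM GC: all statements (tasks).  Each task: prove the statements of its section in namespace
`Pool.Agent.H448R2.GC` (drop `.Stubs`) in the file named in the task table. -/

open Complex MeasureTheory Filter Topology

namespace Pool.Agent.H448R2.GC.Stubs

/-! ### Task K1 : the cutoffs -/

theorem cu_nonneg (k : ℕ) (c r : ℝ) (hc : 0 < c) : 0 ≤ cu k c r := by sorry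
theorem cu_le_one (k : ℕ) (c r : ℝ) (hc : 0 < c) : cu k c r ≤ 1 := by sorry
theorem cu_one (k : ℕ) (c r : ℝ) (hc : 0 < c) (hr : r ≤ 0) : cu k c r = 1 := by sorry
theorem cu_zero (k : ℕ) (c r : ℝ) (hc : 0 < c) (hr : k * c < r) : cu k c r = 0 := by sorry
theorem cu_anti (k : ℕ) (c : ℝ) (hc : 0 < c) : Antitone (cu k c) := by sorry
theorem cu_cont (k : ℕ) (c : ℝ) (hc : 0 < c) : Continuous (cu (k + 1) c) := by sorry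
/-- derivative of the cutoff -/
theorem cu_deriv (k : ℕ) (c r : ℝ) (hc : 0 < c) :
    HasDerivAt (cu (k + 2) c) ((cu (k + 1) c r - cu (k + 1) c (r - c)) / c) r := by sorry

/-! ### Task K2 : size of `Ps` and of the kernel -/

theorem Ps_bound (k : ℕ) (c : ℝ) (hc : 0 < c) (z : ℂ) :
    ‖Ps k c z‖ ≤ Real.exp (k * c * max z.re 0) * (3 / (1 + c * ‖z‖)) ^ k := by sorry

theorem Ps_entire (k : ℕ) (c : ℝ) : Differentiable ℂ (Ps k c) := by sorry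

theorem Ps_zero (k : ℕ) (c : ℝ) : Ps k c 0 = 1 := by sorry

theorem ker_cont (k : ℕ) (c D x : ℝ) (hx : x ≠ 0) : Continuous (ker k c D x) := by sorry

theorem ker_bound (k : ℕ) (c D x y : ℝ) (hc : 0 < c) :
    ‖ker k c D x y‖ ≤ Real.exp (D * x + k * c * max x 0) *
      (3 / (1 + c * ‖(x : ℂ) + (y : ℂ) * I‖)) ^ k / ‖(x : ℂ) + (y : ℂ) * I‖ := by sorry

theorem ker_integrable (k : ℕ) (hk : 1 ≤ k) (c D x : ℝ) (hc : 0 < c) (hx : x ≠ 0) :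
    Integrable (ker k c D x) := by sorry

/-- kernel bound at the scale `1 / L` -/
theorem ker_scale (η B : ℝ) (k : ℕ) (hη : 0 < η) (hB : 0 < B) (hk : 1 ≤ k) : ∃ C : ℝ, 0 < C ∧
    ∀ L D x y : ℝ, 1 ≤ L → |D| ≤ B * L → 1 / L ≤ |x| → |x| ≤ B / L →
    ‖ker k (η * L / k) D x y‖ ≤ C * (L / (1 + L * |y|) ^ (k + 1)) := by sorry

theorem scale_integrable (L : ℝ) (j : ℕ) (hL : 1 ≤ L) (hj : 2 ≤ j) :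
    Integrable (fun y : ℝ => L / (1 + L * |y|) ^ j) := by sorry

theorem scale_integral (L : ℝ) (j : ℕ) (hL : 1 ≤ L) (hj : 2 ≤ j) :
    ∫ y : ℝ, L / (1 + L * |y|) ^ j ≤ 2 := by sorry

/-! ### Task K3 : Mellin representation of the cutoff -/

theorem cu_mellin (k : ℕ) (hk : 1 ≤ k) (c : ℝ) (hc : 0 < c) (x : ℝ) (hx : 0 < x) (r : ℝ) :
    (cu k c r : ℂ) = (1 / (2 * Real.pi)) * ∫ y : ℝ, ker k c (-r) x y := by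
  sorry

/-! ### Task X1 : functional equation -/

theorem XX_upper (X₁ : ℝ) : ∃ C : ℝ, 0 < C ∧ ∀ w : ℂ, 1 / 2 ≤ w.re → w.re ≤ X₁ →
    ‖XX w‖ ≤ C * (1 + |w.im|) ^ (w.re - 1 / 2) := by sorry

theorem zeta_fe (w : ℂ) (hw : 0 < w.re) (hw1 : w ≠ 1) : riemannZeta (1 - w) = XX w * riemannZeta w := by
  sorry

theorem zeta_refl : ∃ c : ℝ, 0 < c ∧ ∀ κ t : ℝ, 0 ≤ κ → κ ≤ 1 / 2 → 1 ≤ t →
    c * t ^ κ * ‖riemannZeta (1 / 2 + (κ : ℂ) + (t : ℂ) * I)‖ ≤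
      ‖riemannZeta (1 / 2 - (κ : ℂ) + (t : ℂ) * I)‖ := by sorry

theorem zeta_left (X₁ : ℝ) : ∃ C : ℝ, 0 < C ∧ ∀ w : ℂ, -X₁ ≤ w.re → w.re ≤ -(1 / 2) →
    ‖riemannZeta w‖ ≤ C * (1 + |w.im|) ^ (1 / 2 - w.re) := by sorry

/-! ### Task X2 : growth of zeta -/

/-- the entire function `(w - 1) ζ(w)` -/
theorem zeta_one_entire : Differentiable ℂ (Function.update (fun w : ℂ => (w - 1) * riemannZeta w) 1 1) := by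
  sorry

/-- growth of zeta in vertical strips, away from the pole -/
theorem zeta_growth (X₁ : ℝ) : ∃ C B : ℝ, 0 < C ∧ 0 < B ∧ ∀ w : ℂ, -X₁ ≤ w.re → w.re ≤ 3 →
    1 / 16 ≤ ‖w - 1‖ → ‖riemannZeta w‖ ≤ C * (1 + |w.im|) ^ B := by sorry

/-- growth of `(w - 1) ζ(w)` in vertical strips -/
theorem zeta_one_growth (X₁ : ℝ) : ∃ (C : ℝ) (B : ℕ), 0 < C ∧ ∀ w : ℂ, -X₁ ≤ w.re → w.re ≤ 3 →
    ‖Function.update (fun w : ℂ => (w - 1) * riemannZeta w) 1 1 w‖ ≤ C * (1 + |w.im|) ^ B := by sorry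

/-- growth of zeta in the critical strip, linear -/
theorem zeta_growth_mid : ∃ C : ℝ, 0 < C ∧ ∀ w : ℂ, 1 / 8 ≤ w.re → w.re ≤ 7 / 8 →
    ‖riemannZeta w‖ ≤ C * (1 + |w.im|) := by sorry

/-! ### Task S0 : shift lemmas -/

/-- no pole -/
theorem shift0 (F : ℂ → ℂ) (x₀ x₁ C : ℝ) (hx : x₀ ≤ x₁)
    (hF : ∀ z : ℂ, x₀ ≤ z.re → z.re ≤ x₁ → DifferentiableAt ℂ F z)
    (hC : ∀ z : ℂ, x₀ ≤ z.re → z.re ≤ x₁ → ‖F z‖ ≤ C / (1 + ‖z‖ ^ 2)) :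
    ∫ y : ℝ, F ((x₁ : ℂ) + (y : ℂ) * I) = ∫ y : ℝ, F ((x₀ : ℂ) + (y : ℂ) * I) := by sorry

/-- two poles -/
theorem shift2 (G : ℂ → ℂ) (p q : ℂ) (x₀ x₁ C : ℝ) (hG : Differentiable ℂ G) (hpq : p ≠ q)
    (hp0 : x₀ < p.re) (hp1 : p.re < x₁) (hq0 : x₀ < q.re) (hq1 : q.re < x₁)
    (hC : ∀ z : ℂ, x₀ ≤ z.re → z.re ≤ x₁ → ‖G z‖ ≤ C) :
    (∫ y : ℝ, G ((x₁ : ℂ) + (y : ℂ) * I) /
      ((((x₁ : ℂ) + (y : ℂ) * I) - p) * (((x₁ : ℂ) + (y : ℂ) * I) - q))) -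
    (∫ y : ℝ, G ((x₀ : ℂ) + (y : ℂ) * I) /
      ((((x₀ : ℂ) + (y : ℂ) * I) - p) * (((x₀ : ℂ) + (y : ℂ) * I) - q))) =
    2 * Real.pi * (G p / (p - q) + G q / (q - p)) := by sorry

/-- one pole `q` between the lines, the other one `p` to the left -/
theorem shift1 (G : ℂ → ℂ) (p q : ℂ) (x₀ x₁ C : ℝ) (hG : Differentiable ℂ G)
    (hp0 : p.re < x₀) (hq0 : x₀ < q.re) (hq1 : q.re < x₁)
    (hC : ∀ z : ℂ, x₀ ≤ z.re → z.re ≤ x₁ → ‖G z‖ ≤ C) :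
    (∫ y : ℝ, G ((x₁ : ℂ) + (y : ℂ) * I) /
      ((((x₁ : ℂ) + (y : ℂ) * I) - p) * (((x₁ : ℂ) + (y : ℂ) * I) - q))) -
    (∫ y : ℝ, G ((x₀ : ℂ) + (y : ℂ) * I) /
      ((((x₀ : ℂ) + (y : ℂ) * I) - p) * (((x₀ : ℂ) + (y : ℂ) * I) - q))) =
    2 * Real.pi * (G q / (q - p)) := by sorry

/-! ### Task S1 : smoothed partial sums as line integrals, absolutely convergent region -/

theorem cs_line (k : ℕ) (hk : 1 ≤ k) (c D x : ℝ) (hc : 0 < c) (hx : 0 < x) (s : ℂ) (hs : 1 < s.re + x) :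
    cs k c D s = (1 / (2 * Real.pi)) * ∫ y : ℝ,
      riemannZeta (s + ((x : ℂ) + (y : ℂ) * I)) * ker k c D x y := by sorry

/-! ### Task S2 : sums of length `≥ T^(1+2η)` are equal to zeta -/

theorem cs_zeta (η B K : ℝ) (hη : 0 < η) (hB : 0 < B) : ∃ k₀ : ℕ, ∀ k : ℕ, k₀ ≤ k → ∃ T₀ : ℝ, ∀ T : ℝ,
    T₀ ≤ T → ∀ D : ℝ, (1 + 2 * η) * Real.log T ≤ D → D ≤ B * Real.log T → ∀ s : ℂ,
    1 / 4 ≤ s.re → s.re ≤ 3 / 4 → T / 8 ≤ s.im → s.im ≤ 8 * T →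
    ‖cs k (η * Real.log T / k) D s - riemannZeta s‖ ≤ T ^ (-K) := by sorry

/-! ### Task S3 : smoothed sums as an integral of zeta on a vertical line near zero -/

theorem cs_repr (η B K : ℝ) (hη : 0 < η) (hB : 0 < B) : ∃ k₀ : ℕ, ∀ k : ℕ, k₀ ≤ k → ∃ T₀ : ℝ, ∀ T : ℝ,
    T₀ ≤ T → ∀ D : ℝ, -(2 * η * Real.log T) ≤ D → D ≤ B * Real.log T → ∀ s : ℂ,
    1 / 4 ≤ s.re → s.re ≤ 3 / 4 → T / 8 ≤ s.im → s.im ≤ 8 * T → ∀ x : ℝ, 1 / Real.log T ≤ x →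
    x ≤ 1 / 8 →
    ‖cs k (η * Real.log T / k) D s - (1 / (2 * Real.pi)) * ∫ y : ℝ,
      riemannZeta (s + ((x : ℂ) + (y : ℂ) * I)) * ker k (η * Real.log T / k) D x y‖ ≤ T ^ (-K) := by
  sorry

/-! ### Task S4 : smoothed approximate functional equation -/

/-- first half: shift to the far left and truncate the dual Dirichlet series -/
theorem afe_left (K : ℝ) : ∃ x₁ : ℝ, 1 ≤ x₁ ∧ ∃ k₀ : ℕ, ∀ k : ℕ, k₀ ≤ k → ∃ T₀ : ℝ, ∀ T : ℝ,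
    T₀ ≤ T → ∀ s : ℂ, 1 / 4 ≤ s.re → s.re ≤ 1 / 2 → T / 8 ≤ s.im → s.im ≤ 8 * T →
    ‖riemannZeta s - cs k (1 / 32 * Real.log T / k) (1 / 2 * Real.log T) s +
      (1 / (2 * Real.pi)) * ∫ y : ℝ,
      XX (1 - s - (((-x₁ : ℝ) : ℂ) + (y : ℂ) * I)) *
      cs k (1 / 32 * Real.log T / k) (17 / 32 * Real.log T) (1 - s - (((-x₁ : ℝ) : ℂ) + (y : ℂ) * I)) *
      ker k (1 / 32 * Real.log T / k) (1 / 2 * Real.log T) (-x₁) y‖ ≤ T ^ (-K) := by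
  sorry

/-- second half: shift the finite sum back (no poles) -/
theorem afe_back (x₁ : ℝ) (hx₁ : 1 ≤ x₁) : ∃ k₀ : ℕ, ∀ k : ℕ, k₀ ≤ k → ∀ (c D D' : ℝ), 0 < c → ∀ s : ℂ,
    1 / 4 ≤ s.re → s.re ≤ 1 / 2 → ∀ x : ℝ, 0 < x → x ≤ 1 / 8 →
    ∫ y : ℝ,
      XX (1 - s - (((-x₁ : ℝ) : ℂ) + (y : ℂ) * I)) *
      cs k c D' (1 - s - (((-x₁ : ℝ) : ℂ) + (y : ℂ) * I)) * ker k c D (-x₁) y =
    ∫ y : ℝ,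
      XX (1 - s - (((-x : ℝ) : ℂ) + (y : ℂ) * I)) *
      cs k c D' (1 - s - (((-x : ℝ) : ℂ) + (y : ℂ) * I)) * ker k c D (-x) y := by
  sorry

theorem afe (K : ℝ) : ∃ k₀ : ℕ, ∀ k : ℕ, k₀ ≤ k → ∃ T₀ : ℝ, ∀ T : ℝ,
    T₀ ≤ T → ∀ s : ℂ, 1 / 4 ≤ s.re → s.re ≤ 1 / 2 → T / 8 ≤ s.im → s.im ≤ 8 * T →
    ∀ x : ℝ, 0 < x → x ≤ 1 / 8 →
    ‖riemannZeta s - cs k (1 / 32 * Real.log T / k) (1 / 2 * Real.log T) s +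
      (1 / (2 * Real.pi)) * ∫ y : ℝ,
      XX (1 - s - (((-x : ℝ) : ℂ) + (y : ℂ) * I)) *
      cs k (1 / 32 * Real.log T / k) (17 / 32 * Real.log T) (1 - s - (((-x : ℝ) : ℂ) + (y : ℂ) * I)) *
      ker k (1 / 32 * Real.log T / k) (1 / 2 * Real.log T) (-x) y‖ ≤ T ^ (-K) := by
  sorry

/-! ### Task MV : mean values -/

theorem gw_nonneg (τ Δ t : ℝ) (hΔ : 0 < Δ) : 0 ≤ gw τ Δ t := by sorry
theorem gw_integrable (τ Δ : ℝ) (hΔ : 0 < Δ) : Integrable (gw τ Δ) := by sorry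
theorem gw_integral (τ Δ : ℝ) (hΔ : 0 < Δ) : ∫ t, gw τ Δ t = 1 := by sorry

/-- tails -/
theorem gw_tail (j : ℕ) (K : ℝ) : ∃ T₀ : ℝ, ∀ T : ℝ, T₀ ≤ T → ∀ τ : ℝ, T ≤ τ → τ ≤ 2 * T →
    Integrable (fun t : ℝ => gw τ (T ^ (15 / 16 : ℝ)) t * (1 + |t|) ^ j) ∧
    ∫ t in {t : ℝ | T / 4 ≤ |t - τ|}, gw τ (T ^ (15 / 16 : ℝ)) t * (1 + |t|) ^ j ≤ T ^ (-K) := by sorry

theorem mv (S S' : Finset ℕ) (N : ℝ) (hS : ∀ n ∈ S, 1 ≤ n) (hS' : ∀ n ∈ S', 1 ≤ n ∧ (n : ℝ) ≤ N)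
    (a b : ℕ → ℂ) (τ Δ : ℝ) (hΔ : 0 < Δ) :
    ‖(∫ t : ℝ, (gw τ Δ t : ℂ) * ((∑ n ∈ S, a n * (n : ℂ) ^ (-((t : ℂ) * I))) *
      (starRingEnd ℂ) (∑ n ∈ S', b n * (n : ℂ) ^ (-((t : ℂ) * I))))) -
      ∑ n ∈ S ∩ S', a n * (starRingEnd ℂ) (b n)‖ ≤
    (∑ n ∈ S, ‖a n‖) * (∑ n ∈ S', ‖b n‖) * Real.exp (-(Δ / N) ^ 2 / 16) := by sorry

/-! ### Task PL : Plancherel / Gallagher -/

theorem planch : ∃ C : ℝ, 0 < C ∧ ∀ (N : ℕ) (a : ℕ → ℝ) (σ T : ℝ), 0 < σ → σ ≤ 1 → 1 ≤ T →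
    ∫ t in (-(5 * T))..(5 * T), ‖∑ n ∈ Finset.Icc 1 N, (a n : ℂ) * (n : ℂ) ^ (-((σ : ℂ) + (t : ℂ) * I))‖ ^ 2 ≤
    C * T ^ 2 * ∫ x in Set.Ioi (0 : ℝ),
      (∑ n ∈ (Finset.Icc 1 N).filter (fun n : ℕ => x < n ∧ (n : ℝ) ≤ x * Real.exp (1 / (8 * T))), a n) ^ 2 *
        x ^ (-(2 * σ) - 1) := by sorry

/-! ### Task SV : from fixed to proportional windows -/

theorem sv : ∃ C : ℝ, 0 < C ∧ ∀ (T X δ : ℝ), 1 ≤ T → 16 * T ≤ X → 0 ≤ δ →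
    (∀ X' H : ℝ, X / 2 ≤ X' → X' ≤ 8 * X → X' / (16 * T) ≤ H → H ≤ 4 * X' / T → VV X' H ≤ δ * H) →
    ∀ u v : ℝ, 1 ≤ u → u ≤ v → v ≤ Real.exp (1 / (8 * T)) →
    ∫ x in X..2 * X, (Mer (v * x) - Mer (u * x)) ^ 2 ≤ C * δ * X ^ 2 / T := by sorry

/-! ### Task VA : the tail polynomial is small in mean square -/

theorem Ab_bound (a b A η : ℝ) (ha : 1 < a) (hab : a < b) (hA : 0 ≤ A) (hη : 0 < η) (k : ℕ) (hk : 2 ≤ k) :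
    ∃ C T₀ : ℝ, 0 < C ∧ ∀ T δ : ℝ, T₀ ≤ T → 0 ≤ δ →
    (∀ X H : ℝ, T ^ a / 4 ≤ X → X ≤ 16 * T ^ (b + η) → X / (16 * T) ≤ H → H ≤ 4 * X / T →
      VV X H ≤ δ * H) →
    ∀ σ : ℝ, sm A T ≤ σ → σ ≤ 1 →
    ∫ t in (-(5 * T))..(5 * T),
      ‖fs k (η * Real.log T / k) (b * Real.log T) ((σ : ℂ) + (t : ℂ) * I) -
        fs k (η * Real.log T / k) (a * Real.log T) ((σ : ℂ) + (t : ℂ) * I)‖ ^ 2 ≤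
      C * δ * T * Real.log T := by sorry

/-! ### Task P : prime sums -/

theorem prime_window : ∃ C : ℝ, 0 < C ∧ ∀ z : ℝ, 1 ≤ z →
    ∑ p ∈ (Finset.Icc 1 ⌊z ^ 2⌋₊).filter (fun p : ℕ => p.Prime ∧ z < p), (1 / (p : ℝ)) ≤ C := by sorry

theorem prime_log : ∃ C : ℝ, 0 < C ∧ ∀ z : ℝ, 1 ≤ z →
    ∑ p ∈ (Finset.Icc 1 ⌊z⌋₊).filter (fun p : ℕ => p.Prime), (Real.log p / (p : ℝ)) ≤
      C * (1 + Real.log z) := by sorry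

theorem prime_prod : ∃ c : ℝ, 0 < c ∧ ∀ z : ℝ, 1 ≤ z →
    c * (1 + Real.log z) ≤ ∏ p ∈ (Finset.Icc 1 ⌊z⌋₊).filter (fun p : ℕ => p.Prime), (1 + 1 / (p : ℝ)) := by
  sorry

/-! ### Task B1 : splitting off a block -/

theorem norm_split (P : Finset ℕ) (hP : ∀ p ∈ P, p.Prime) (S' S'' : Finset ℕ) (h0 : 0 ∉ S')
    (h' : ∀ n ∈ S', ∀ p ∈ P, ¬ p ∣ n) (h'' : ∀ n ∈ S'', n ∈ Nat.factoredNumbers P) (α : ℂ) (β : ℝ) :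
    NN (mul2 S' S'') α β * NP P {1} α β = NN S' α β * NP P S'' α β := by sorry

/-! ### Task B2 : one block, integers with few prime factors -/

theorem cc_eq_hh (P : Finset ℕ) (hP : ∀ p ∈ P, p.Prime) (l n : ℕ) (hn : n ∈ Nat.factoredNumbers P)
    (h : ArithmeticFunction.cardFactors n ≤ l) (α : ℂ) (β : ℝ) : cc (blk P l) α β n = hh α β n := by sorry

theorem hh_sum (A' B₁ : ℝ) (hA' : 0 ≤ A') (hB₁ : 0 ≤ B₁) : ∃ C : ℝ, 0 < C ∧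
    ∀ (P : Finset ℕ) (z : ℝ) (α : ℂ) (β : ℝ), 1 ≤ z → (∀ p ∈ P, p.Prime ∧ 5 ≤ p ∧ (p : ℝ) ≤ z) →
    ∑ p ∈ P, 1 / (p : ℝ) ≤ B₁ → 0 < α.re → |β| * Real.log z ≤ A' →
    ∑' n : Nat.factoredNumbers P, ENNReal.ofReal (‖hh α β (n : ℕ)‖ ^ 2) ≤
      ENNReal.ofReal (Real.exp (∑ p ∈ P, 1 / (p : ℝ) +
        C * (min 1 ((‖α‖ + |β|) * Real.log z) + ∑ p ∈ P, 1 / (p : ℝ) ^ 2))) := by sorry

/-! ### Task B3 : one block, integers with many prime factors -/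

theorem cc_tail (A' B₁ : ℝ) (hA' : 0 ≤ A') (hB₁ : 0 ≤ B₁) : ∃ C : ℝ, 0 < C ∧
    ∀ (P : Finset ℕ) (z : ℝ) (l : ℕ) (α : ℂ) (β : ℝ), 1 ≤ z →
    (∀ p ∈ P, p.Prime ∧ 5 ≤ p ∧ (p : ℝ) ≤ z) →
    ∑ p ∈ P, 1 / (p : ℝ) ≤ B₁ → 0 < α.re → |β| * Real.log z ≤ A' →
    ∑' n : Nat.factoredNumbers P, (if ArithmeticFunction.cardFactors (n : ℕ) ≤ l then 0 else
      ENNReal.ofReal (‖cc (blk P l) α β (n : ℕ)‖ ^ 2)) ≤ ENNReal.ofReal (C * (1 / 2) ^ l) := by sorry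

/-! ### Task B4 : product of blocks -/

theorem SB_one (P : ℕ → Finset ℕ) (l : ℕ → ℕ) (J : ℕ) : 1 ∈ SB P l J := by sorry

theorem SB_prop (P : ℕ → Finset ℕ) (l : ℕ → ℕ) (J : ℕ) (hP : ∀ j < J, ∀ p ∈ P j, p.Prime)
    (hd : ∀ i < J, ∀ j < J, i ≠ j → Disjoint (P i) (P j)) (n : ℕ) (hn : n ∈ SB P l J) :
    Squarefree n ∧ (∀ p : ℕ, p.Prime → p ∣ n → ∃ j < J, p ∈ P j) ∧ (∀ d : ℕ, d ∣ n → d ∈ SB P l J) := by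
  sorry

theorem SB_size (P : ℕ → Finset ℕ) (l : ℕ → ℕ) (J : ℕ) (w : ℕ → ℝ) (hw : ∀ j, 1 ≤ w j)
    (h : ∀ j < J, ∀ p ∈ P j, (p : ℝ) ≤ w j) (n : ℕ) (hn : n ∈ SB P l J) :
    (n : ℝ) ≤ ∏ j ∈ Finset.range J, w j ^ l j := by sorry

theorem norm_prod (P : ℕ → Finset ℕ) (l : ℕ → ℕ) (J : ℕ) (hP : ∀ j < J, ∀ p ∈ P j, p.Prime)
    (hd : ∀ i < J, ∀ j < J, i ≠ j → Disjoint (P i) (P j)) (α : ℂ) (β : ℝ) :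
    NN (SB P l J) α β * ∏ j ∈ Finset.range J, NP (P j) {1} α β =
      NN {1} α β * ∏ j ∈ Finset.range J, NP (P j) (blk (P j) (l j)) α β := by sorry

/-! ### Task B5 : the free part -/

theorem NN_one (α : ℂ) (β : ℝ) (h : 0 < α.re) : NN {1} α β ≤ ENNReal.ofReal (1 + 1 / (2 * α.re)) := by
  sorry

theorem NP_one (P : Finset ℕ) (hP : ∀ p ∈ P, p.Prime) (α : ℂ) (β : ℝ) (h : 0 < α.re) :
    ENNReal.ofReal (Real.exp (∑ p ∈ P, (p : ℝ) ^ (-1 - 2 * α.re))) ≤ NP P {1} α β := by sorry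

/-! ### Task B6 : harmonic sum over the mollifier set -/

theorem Q_lower (B₁ : ℝ) (hB₁ : 0 ≤ B₁) : ∃ l₀ : ℕ, ∀ (P : ℕ → Finset ℕ) (J : ℕ),
    (∀ j < J, ∀ p ∈ P j, p.Prime) → (∀ i < J, ∀ j < J, i ≠ j → Disjoint (P i) (P j)) →
    (∀ j < J, ∑ p ∈ P j, 1 / (p : ℝ) ≤ B₁) → ∀ l₁ : ℕ, l₀ ≤ l₁ →
    (1 / 2) * ∏ j ∈ Finset.range J, ∏ p ∈ P j, (1 + 1 / (p : ℝ)) ≤
      ∑ n ∈ SB P (fun j => l₁ + j) J, 1 / (n : ℝ) := by sorry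

/-! ### Task B7 : the block mollifier, assembly -/

/-- sum of the block errors -/
theorem sum_min (θ : ℝ) (hθ : 0 ≤ θ) (J : ℕ) :
    ∑ j ∈ Finset.range J, min 1 (θ * (1 / 2) ^ j) ≤ 3 + 2 * Real.log (1 + θ) := by sorry

theorem blocks (ν A' : ℝ) (hν : 0 < ν) (hA' : 0 ≤ A') : ∃ (c C T₀ : ℝ) (K₀ : ℕ), 0 < c ∧ 0 < C ∧
    ∀ T : ℝ, T₀ ≤ T → ∃ S : Finset ℕ, Good T ν A' C K₀ S ∧ c * Real.log T ≤ ∑ n ∈ S, 1 / (n : ℝ) := by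
  sorry

/-! ### Task M0 : mollified second moment of smoothed sums -/

theorem mom_poly (A C₁ : ℝ) (K₀ : ℕ) (hA : 0 ≤ A) (hC₁ : 0 < C₁) : ∃ k₀ : ℕ, ∀ k : ℕ, k₀ ≤ k →
    ∃ C T₀ : ℝ, 0 < C ∧ ∀ T : ℝ, T₀ ≤ T →
    ∀ S : Finset ℕ, Good T (1 / 16) (2 * A + 3) C₁ K₀ S → ∀ τ y ρ D : ℝ,
    |ρ| ≤ A / Real.log T → 0 ≤ D → D ≤ 17 / 32 * Real.log T →
    ∫ t : ℝ, gw τ (T ^ (15 / 16 : ℝ)) t *
      (‖cs k (1 / 32 * Real.log T / k) D (((1 / 2 + ρ : ℝ) : ℂ) + ((t + y : ℝ) : ℂ) * I)‖ ^ 2 *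
        ‖MM S ((sm A T : ℂ) + (t : ℂ) * I)‖ ^ 4) ≤
      C * Real.log T * (1 + Real.log T * |y|) ^ K₀ := by sorry

/-! ### Task M1 : mollified second moment -/

theorem mom (A C₁ : ℝ) (K₀ : ℕ) (hA : 1 ≤ A) (hC₁ : 0 < C₁) : ∃ C T₀ : ℝ, 0 < C ∧ ∀ T : ℝ, T₀ ≤ T →
    ∀ S : Finset ℕ, Good T (1 / 16) (2 * A + 3) C₁ K₀ S → ∀ τ : ℝ, T ≤ τ → τ ≤ 2 * T → ∀ y : ℝ,
    |y| ≤ Real.sqrt T →
    ∫ t : ℝ, gw τ (T ^ (15 / 16 : ℝ)) t *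
      (‖riemannZeta (((sm A T + 1 / Real.log T : ℝ) : ℂ) + ((t + y : ℝ) : ℂ) * I)‖ ^ 2 *
        ‖MM S ((sm A T : ℂ) + (t : ℂ) * I)‖ ^ 4) ≤
      C * Real.log T * (1 + Real.log T * |y|) ^ K₀ := by sorry

/-! ### Task L : lower bound -/

theorem MM_sq (A : ℝ) (hA : 0 ≤ A) : ∃ T₀ : ℝ, ∀ T : ℝ, T₀ ≤ T → ∀ S : Finset ℕ,
    (∀ n ∈ S, Squarefree n) → (∀ n ∈ S, (n : ℝ) ≤ T ^ (1 / 16 : ℝ)) → ∀ τ : ℝ,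
    ∫ t : ℝ, gw τ (T ^ (15 / 16 : ℝ)) t * ‖MM S ((sm A T : ℂ) + (t : ℂ) * I)‖ ^ 2 ≤
      (∑ n ∈ S, (n : ℝ) ^ (-(2 * sm A T))) + 1 := by sorry

/-- the diagonal coefficients -/
theorem diag (κ : ℝ) (hκ : 0 ≤ κ) (l : ℕ) (hsq : Squarefree l) :
    1 ≤ ((ArithmeticFunction.moebius l : ℤ) : ℝ) * ∑ p ∈ l.divisorsAntidiagonal,
      (p.1 : ℝ) ^ (-(2 * κ)) * ∑ q ∈ p.2.divisorsAntidiagonal,
        ((ArithmeticFunction.moebius q.1 : ℤ) : ℝ) * ((ArithmeticFunction.moebius q.2 : ℤ) : ℝ) := by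
  sorry

theorem lower : ∃ c₀ : ℝ, 0 < c₀ ∧ ∀ (A a η : ℝ), 0 ≤ A → 1 < a → 0 < η → ∃ k₀ : ℕ, ∀ k : ℕ, k₀ ≤ k →
    ∃ T₀ : ℝ, ∀ T : ℝ, T₀ ≤ T → ∀ S : Finset ℕ, 1 ∈ S → (∀ n ∈ S, Squarefree n) →
    (∀ n ∈ S, (n : ℝ) ≤ T ^ (1 / 16 : ℝ)) → (∀ n ∈ S, ∀ d : ℕ, d ∣ n → d ∈ S) →
    ∀ τ : ℝ, T ≤ τ → τ ≤ 2 * T →
    c₀ * Real.exp A * (∑ n ∈ S, (n : ℝ) ^ (-(2 * sm A T))) - 1 ≤
    ∫ t : ℝ, gw τ (T ^ (15 / 16 : ℝ)) t *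
      (‖riemannZeta ((sm A T : ℂ) + (t : ℂ) * I)‖ *
        ‖fs k (η * Real.log T / k) (a * Real.log T) ((sm A T : ℂ) + (t : ℂ) * I)‖ *
        ‖MM S ((sm A T : ℂ) + (t : ℂ) * I)‖ ^ 2) := by sorry

/-! ### Task I : the identity -/

theorem mob_identity (k : ℕ) (c D : ℝ) (hc : 0 < c) (hD : 0 ≤ D) (s : ℂ) :
    ∑ d ∈ Finset.Icc 1 ⌊Real.exp (D + k * c)⌋₊,
      (((ArithmeticFunction.moebius d : ℤ) : ℂ)) * (d : ℂ) ^ (-s) * cs k c (D - Real.log d) s = 1 := by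
  sorry

/-! ### Task E : error representation -/

theorem err_repr (a η K : ℝ) (ha : 1 < a) (hη : 0 < η) : ∃ k₀ : ℕ, ∀ k : ℕ, k₀ ≤ k → ∃ T₀ : ℝ, ∀ T : ℝ,
    T₀ ≤ T → ∀ s : ℂ, 1 / 4 ≤ s.re → s.re ≤ 3 / 4 → T / 8 ≤ s.im → s.im ≤ 8 * T → ∀ x : ℝ,
    1 / Real.log T ≤ x → x ≤ 1 / 8 →
    ‖(1 - riemannZeta s * fs k (η * Real.log T / k) (a * Real.log T) s) -
      (1 / (2 * Real.pi)) * ∫ y : ℝ,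
      riemannZeta (s + ((x : ℂ) + (y : ℂ) * I)) *
        (fs k (η * Real.log T / k) ((a + 1 + 4 * η) * Real.log T) (s + ((x : ℂ) + (y : ℂ) * I)) -
         fs k (η * Real.log T / k) (a * Real.log T) (s + ((x : ℂ) + (y : ℂ) * I))) *
        ker k (η * Real.log T / k) ((a + 1 + 3 * η) * Real.log T) x y‖ ≤ T ^ (-K) := by
  sorry

/-! ### Task F : final -/

theorem err_small (A a b C₁ : ℝ) (K₀ : ℕ) (hA : 1 ≤ A) (ha : 1 < a) (hab : a + 1 < b) (hC₁ : 0 < C₁) :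
    ∃ (η : ℝ) (k₁ : ℕ), 0 < η ∧ ∀ k : ℕ, k₁ ≤ k → ∃ C T₀ : ℝ, 0 < C ∧ ∀ T : ℝ, T₀ ≤ T →
    ∀ S : Finset ℕ, Good T (1 / 16) (2 * A + 3) C₁ K₀ S → ∀ δ : ℝ, 0 ≤ δ → δ ≤ 1 →
    (∀ X H : ℝ, T ^ a / 4 ≤ X → X ≤ T ^ b → X / (16 * T) ≤ H → H ≤ 4 * X / T → VV X H ≤ δ * H) →
    ∃ τ : ℝ, T ≤ τ ∧ τ ≤ 2 * T ∧
    ∫ t : ℝ, gw τ (T ^ (15 / 16 : ℝ)) t *
      (‖1 - riemannZeta ((sm A T : ℂ) + (t : ℂ) * I) *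
        fs k (η * Real.log T / k) (a * Real.log T) ((sm A T : ℂ) + (t : ℂ) * I)‖ *
        ‖MM S ((sm A T : ℂ) + (t : ℂ) * I)‖ ^ 2) ≤
      C * Real.sqrt δ * Real.log T + 1 := by sorry

theorem main (a b : ℝ) (ha : 1 < a) (hab : a + 1 < b) : ∃ c T₀ : ℝ, 0 < c ∧ 1 ≤ T₀ ∧ ∀ T : ℝ, T₀ ≤ T →
    ∃ X H : ℝ, T ^ a / 4 ≤ X ∧ X ≤ T ^ b ∧ X / (16 * T) ≤ H ∧ H ≤ 4 * X / T ∧ c * H ≤ VV X H := by
  sorry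

theorem theta (θ₁ θ₂ : ℝ) (h1 : 0 ≤ θ₁) (h12 : θ₁ < θ₂) (h2 : θ₂ < 1)
    (h : 1 / (1 - θ₁) + 1 < 1 / (1 - θ₂)) : ∃ c C : ℝ, 0 < c ∧ 1 ≤ C ∧ ∀ X₀ : ℝ, C ≤ X₀ →
    ∃ X H : ℝ, X₀ ≤ X ∧ X ≤ X₀ ^ C ∧ X ^ θ₁ < H ∧ H < X ^ θ₂ ∧ c * H ≤ VV X H := by sorry

end Pool.Agent.H448R2.GC.Stubs
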